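import Pool.Agent.LibBE99.U3

/-! Row U4 (cites U2, U3, S3): the sum over a class, and independence of the Fermi coordinates.
MEDIUM, 50 min.
Plan. Put `F1 γ x = (KE m1 N f τ γ x).re`, `F2 = ` the imaginary part, `m1 = mm m (s i) p1`. For `γ` conjugate
to `g` (so `γ ≠ 1`: `Axis_ne` for `hc.axis`) they are continuous (`KE_cont`), equivariant (`KE_deck`) and zero where
`ρ < ds m1 x (γ • x)` (`KE_zero`): `unfoldF` applies to both. `ZF_re`: real and imaginary part of `ZF` are the double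
integrals of `F1 g (..) * (..)`, `F2 g (..) * (..)` : the integrand
`(t, y) ↦ KE m1 N f τ g (Fm ..) * (√.. * |det| : ℝ)` is continuous (`Fm_smooth`, `KE_cont`; `√(dt ..) * |det|` is
continuous by `dens_eq` or directly) and vanishes for `|y| > C (1 + ρ)` (`Ax_line`, `Ax_growth`, `KE_zero`), so all
integrals converge (`ContinuousLinearMap.integral_comp_comm`, `intervalIntegral` version
`ContinuousLinearMap.intervalIntegral_comp_comm`; the inner integral is a continuous function of `t`, or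
just interval integrable: bounded and measurable, cf. the proof of `strip_int` in `LibBR73/AN8b.lean`).
`class_ZF`: the finite sum is the finsum of `unfoldF` (`finsum_mem_eq_sum_of_inter_support_eq`-type lemma, terms
outside `T` vanish: if `γ ∉ T` then `KE = 0` on `closure D`), each `IKN D m1 N (osc f τ) γ = ∫ F1 γ √dt` by `KE_re`.
`ZF_swap`: by `unfoldF` for `p0` and for `p1` (the left sides are the same) real and imaginary parts of the two
sides agree (`Complex.ext`). -/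

open MeasureTheory Set Filter Topology
open scoped ContDiff

namespace BE

open BGS BR

variable {Γ : Type} [Group Γ] [MulAction Γ Pl] {D : Set Pl}
variable {ι P : Type} [NormedAddCommGroup P] [NormedSpace ℝ P] [FiniteDimensional ℝ P]
  {m : Pl → Co} {a b : ℝ} {s : ι → P × Pl → ℝ}

theorem U4_clm (L : ℂ →L[ℝ] ℝ) {G : Pl → ℂ} (hG : Continuous G) {R : ℝ}
    (hR : ∀ t y : ℝ, R < |y| → G (t, y) = 0) (l0 : ℝ) :
    L (∫ t in (0 : ℝ)..l0, ∫ y : ℝ, G (t, y)) = ∫ t in (0 : ℝ)..l0, ∫ y : ℝ, L (G (t, y)) := by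
  have h1 : ∀ t : ℝ, Integrable fun y : ℝ => G (t, y) := by
    intro t
    refine Continuous.integrable_of_hasCompactSupport (hG.comp (Continuous.prodMk_right t)) ?_
    refine HasCompactSupport.intro (K := Icc (-R) R) isCompact_Icc fun y hy => hR t y ?_
    by_contra h2
    rw [not_lt, abs_le] at h2
    exact hy h2
  have h2 : Continuous fun t : ℝ => ∫ y : ℝ, G (t, y) := by
    have h3 : (fun t : ℝ => ∫ y : ℝ, G (t, y)) = fun t => ∫ y in Icc (-R) R, G (t, y) := by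
      funext t
      symm
      refine setIntegral_eq_integral_of_forall_compl_eq_zero fun y hy => hR t y ?_
      by_contra h2
      rw [not_lt, abs_le] at h2
      exact hy h2
    rw [h3]
    exact continuous_parametric_integral_of_continuous (f := fun t y : ℝ => G (t, y)) hG
      isCompact_Icc
  rw [← L.intervalIntegral_comp_comm (h2.intervalIntegrable 0 l0)]
  congr 1
  funext t
  rw [L.integral_comp_comm (h1 t)]

/-- The integrand of `ZF`: continuity and compact support in `y`. -/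
theorem ZF_intg (h : CF Γ D m a b s) (i : ι) {p0 p1 : P} (h0 : ‖p0‖ ≤ 1) (h1 : ‖p1‖ ≤ 1) (N : ℕ)
    {g : Γ} {x0 v0 : Pl} {l : ℝ} (hA : Axis (mm m (s i) p0) g x0 v0 l) {f : ℝ → ℂ}
    {ρ M : ℝ} (hρ : 0 ≤ ρ) (hf : Amp f ρ M) (τ : ℝ) :
    (Continuous fun p : Pl => KE (mm m (s i) p1) N f τ g (Fm (mm m (s i) p0) x0 v0 p) *
      ((√(dt (mm m (s i) p1 (Fm (mm m (s i) p0) x0 v0 p))) *
        |(fderiv ℝ (Fm (mm m (s i) p0) x0 v0) p).det| : ℝ) : ℂ)) ∧
    ∃ R : ℝ, ∀ t y : ℝ, R < |y| → KE (mm m (s i) p1) N f τ g (Fm (mm m (s i) p0) x0 v0 (t, y)) = 0 := by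
  have hm0 := hm_mm h i p0
  have hm1 := hm_mm h i p1
  have hg := (Axis_ne h.hX h.hO hm0 hA).1
  have hF := Fm_smooth h.hX hm0 x0 v0
  constructor
  · have h2 : Continuous fun p => |(fderiv ℝ (Fm (mm m (s i) p0) x0 v0) p).det| :=
      (ContinuousLinearMap.continuous_det.comp (hF.continuous_fderiv (by simp))).abs
    exact ((KE_cont h i p1 N hρ hf τ hg).comp hF.continuous).mul
      (Complex.continuous_ofReal.comp (((AN8b_rho_cont hm1).comp hF.continuous).mul h2))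
  · obtain ⟨R, hR⟩ := U3_R h i h0 h1 hA ρ
    exact ⟨R, fun t y hy => KE_zero hρ hf (hR t y hy)⟩

theorem U4_L (h : CF Γ D m a b s) (i : ι) {p0 p1 : P} (h0 : ‖p0‖ ≤ 1) (h1 : ‖p1‖ ≤ 1) (N : ℕ)
    {g g0 : Γ} {x0 v0 : Pl} {l l0 : ℝ} (hc : Cls (mm m (s i) p0) g g0 x0 v0 l l0) {f : ℝ → ℂ}
    {ρ M : ℝ} (hρ : 0 ≤ ρ) (hf : Amp f ρ M) (τ : ℝ) (L : ℂ →L[ℝ] ℝ) :
    ∑ᶠ γ ∈ {γ : Γ | IsConj g γ}, ∫ x in D, L (KE (mm m (s i) p1) N f τ γ x) *
      √(dt (mm m (s i) p1 x)) = L (ZF (mm m (s i) p0) (mm m (s i) p1) N f τ g x0 v0 l0) := by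
  have hg := (Axis_ne h.hX h.hO (hm_mm h i p0) hc.axis).1
  have h2 : ∀ (z : ℂ) (r : ℝ), L (z * (r : ℂ)) = L z * r := by
    intro z r
    rw [mul_comm z, ← Complex.real_smul, map_smul, smul_eq_mul, mul_comm]
  rw [unfoldF h i h0 h1 hc (F := fun γ x => L (KE (mm m (s i) p1) N f τ γ x))
    (fun γ hγ => L.continuous.comp (KE_cont h i p1 N hρ hf τ (fun e => by
      rw [e] at hγ
      exact hg (isConj_one_left.1 hγ))))
    (fun β γ x => by rw [KE_deck h i p1 N f τ β γ x]) (ρ := ρ)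
    (fun x hx => by rw [KE_zero hρ hf hx, map_zero])]
  obtain ⟨h3, R, hR⟩ := ZF_intg h i h0 h1 N hc.axis hρ hf τ
  unfold ZF
  rw [U4_clm L h3 (R := R) (fun t y hy => by rw [hR t y hy, zero_mul])]
  congr 1
  funext t
  congr 1
  funext y
  rw [h2]

open Classical in
theorem class_ZF (h : CF Γ D m a b s) (i : ι) {p0 p1 : P} (h0 : ‖p0‖ ≤ 1) (h1 : ‖p1‖ ≤ 1) (N : ℕ)
    {g g0 : Γ} {x0 v0 : Pl} {l l0 : ℝ} (hc : Cls (mm m (s i) p0) g g0 x0 v0 l l0) {f : ℝ → ℂ}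
    {ρ M : ℝ} (hρ : 0 ≤ ρ) (hf : Amp f ρ M) (τ : ℝ) {T : Finset Γ}
    (hT : ∀ γ : Γ, γ ≠ 1 → (∃ x ∈ closure D, ds (mm m (s i) p1) x (γ • x) ≤ ρ) → γ ∈ T) :
    ∑ γ ∈ T.filter (IsConj g), IKN D (mm m (s i) p1) N (osc f τ) γ =
      (ZF (mm m (s i) p0) (mm m (s i) p1) N f τ g x0 v0 l0).re := by
  have hg := (Axis_ne h.hX h.hO (hm_mm h i p0) hc.axis).1
  have h2 := U4_L h i h0 h1 N hc hρ hf τ Complex.reCLM
  refine Eq.trans ?_ h2
  have h3 : ∀ γ : Γ, IsConj g γ → IKN D (mm m (s i) p1) N (osc f τ) γ =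
      ∫ x in D, Complex.reCLM (KE (mm m (s i) p1) N f τ γ x) * √(dt (mm m (s i) p1 x)) := by
    intro γ hγ
    unfold IKN
    congr 1
    funext x
    rw [KE_re h.hX (hm_mm h i p1) N hρ hf (fun e => hg (isConj_one_left.1 (e ▸ hγ))) x]
    rfl
  symm
  rw [finsum_mem_eq_sum_of_inter_support_eq (t := T.filter (IsConj g))]
  · exact Finset.sum_congr rfl fun γ hγ => (h3 γ (Finset.mem_filter.1 hγ).2).symm
  · ext γ
    simp only [mem_inter_iff, mem_ofPred_eq, Finset.coe_filter, Function.mem_support]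
    constructor
    · rintro ⟨h4, h5⟩
      refine ⟨⟨?_, h4⟩, h5⟩
      by_contra h6
      apply h5
      refine setIntegral_eq_zero_of_forall_eq_zero fun z hz1 => ?_
      rw [KE_zero hρ hf, map_zero, zero_mul]
      by_contra h7
      rw [not_lt] at h7
      exact h6 (hT γ (fun e => hg (isConj_one_left.1 (e ▸ h4))) ⟨z, subset_closure hz1, h7⟩)
    · rintro ⟨⟨-, h4⟩, h5⟩
      exact ⟨h4, h5⟩

theorem ZF_swap (h : CF Γ D m a b s) (i : ι) {p0 p1 : P} (h0 : ‖p0‖ ≤ 1) (h1 : ‖p1‖ ≤ 1) (N : ℕ)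
    {g g0 g1 : Γ} {x0 v0 x1 v1 : Pl} {l l0 l1 l01 : ℝ}
    (hc : Cls (mm m (s i) p0) g g0 x0 v0 l l0) (hc1 : Cls (mm m (s i) p1) g g1 x1 v1 l1 l01)
    {f : ℝ → ℂ} {ρ M : ℝ} (hρ : 0 ≤ ρ) (hf : Amp f ρ M) (τ : ℝ) :
    ZF (mm m (s i) p0) (mm m (s i) p1) N f τ g x0 v0 l0 =
      ZF (mm m (s i) p1) (mm m (s i) p1) N f τ g x1 v1 l01 := by
  have h2 : ∀ L : ℂ →L[ℝ] ℝ, L (ZF (mm m (s i) p0) (mm m (s i) p1) N f τ g x0 v0 l0) =
      L (ZF (mm m (s i) p1) (mm m (s i) p1) N f τ g x1 v1 l01) := fun L =>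
    (U4_L h i h0 h1 N hc hρ hf τ L).symm.trans (U4_L h i h1 h1 N hc1 hρ hf τ L)
  exact Complex.ext (h2 Complex.reCLM) (h2 Complex.imCLM)

end BE
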