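import Pool.Agent.LibBE99.N3
import Pool.Agent.LibBE99.U4

/-! Row N4 (cites N3, S3, U4): localisation (C1). -/

open MeasureTheory Set Filter Topology
open scoped ContDiff

namespace BE

open BGS BR

variable {Γ : Type} [Group Γ] [MulAction Γ Pl] {D : Set Pl}
variable {ι P : Type} [NormedAddCommGroup P] [NormedSpace ℝ P] [FiniteDimensional ℝ P]
  {m : Pl → Co} {a b : ℝ} {s : ι → P × Pl → ℝ}

theorem N4_int {F : ℝ × ℝ → ℂ} (hF : Continuous F) {R : ℝ}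
    (hR : ∀ t y : ℝ, R < |y| → F (t, y) = 0) :
    Continuous (fun t => ∫ y, F (t, y)) ∧ ∀ t, Integrable (fun y => F (t, y)) := by
  set R' : ℝ := |R| + 1 with hR'
  have hR0 : 0 < R' := by positivity
  have hz : ∀ t y : ℝ, R' ≤ |y| → F (t, y) = 0 := by
    intro t y hy
    apply hR
    have := le_abs_self R
    linarith
  have hsupp : ∀ t, Function.support (fun y => F (t, y)) ⊆ Ioc (-R') R' := by
    intro t y hy
    by_contra hn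
    apply hy
    apply hz
    by_contra h2
    push Not at h2
    rw [abs_lt] at h2
    exact hn ⟨h2.1, h2.2.le⟩
  have e1 : (fun t => ∫ y, F (t, y)) = fun t => ∫ y in (-R')..R', F (t, y) := by
    funext t
    exact (intervalIntegral.integral_eq_integral_of_support_subset (hsupp t)).symm
  refine ⟨?_, fun t => ?_⟩
  · rw [e1]
    exact intervalIntegral.continuous_parametric_intervalIntegral_of_continuous'
      (f := fun t y => F (t, y)) hF _ _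
  · have hc : Continuous (fun y => F (t, y)) := hF.comp (by fun_prop)
    apply hc.integrable_of_hasCompactSupport
    apply HasCompactSupport.intro (isCompact_Icc (a := -R') (b := R'))
    intro y hy
    by_contra hn
    exact hy (Ioc_subset_Icc_self (hsupp t hn))

/-- The inner integral. -/
theorem N4_in (h : CF Γ D m a b s) {C0 : ℝ} {N A n C : ℕ}
    (hfar : ∀ (q : Ln ι P Γ) (v : Pl) (l : ℝ), q.Ax m s v l → ∀ (f : ℝ → ℂ) (ρ M τ δ : ℝ), 0 ≤ ρ →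
      BE73.AmpN n f ρ M → 1 ≤ τ → 0 < δ → δ ≤ 1 → C * (1 + ρ) ^ C * ‖q.p1 - q.p0‖ ≤ δ →
      ‖∫ y : ℝ, ((1 - cut (y / δ) : ℝ) : ℂ) * KE (mm m (s q.i) q.p1) N f τ q.g (q.X m s y) *
        ((q.w m s y : ℝ) : ℂ)‖ ≤
        C * ((1 + ρ) / δ) ^ C * Real.exp (C0 * ρ) * M / τ ^ A)
    (i : ι) {p0 p1 : P} (h0 : ‖p0‖ ≤ 1) (h1 : ‖p1‖ ≤ 1) {g : Γ} {x0 v0 : Pl} {l : ℝ}
    (hA : Axis (mm m (s i) p0) g x0 v0 l) {f : ℝ → ℂ} {ρ M τ δ : ℝ} (hρ : 0 ≤ ρ)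
    (hf : BE73.AmpN n f ρ M) (hτ : 1 ≤ τ) (hδ : 0 < δ) (hδ1 : δ ≤ 1)
    (hcond : C * (1 + ρ) ^ C * ‖p1 - p0‖ ≤ δ) (t : ℝ) :
    ‖∫ y : ℝ, ((1 - cut (y / δ) : ℝ) : ℂ) * (KE (mm m (s i) p1) N f τ g
        (Fm (mm m (s i) p0) x0 v0 (t, y)) *
      ((√(dt (mm m (s i) p1 (Fm (mm m (s i) p0) x0 v0 (t, y)))) *
        |(fderiv ℝ (Fm (mm m (s i) p0) x0 v0) (t, y)).det| : ℝ) : ℂ))‖ ≤
        C * ((1 + ρ) / δ) ^ C * Real.exp (C0 * ρ) * M / τ ^ A := by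
  obtain ⟨q, hi, hp0, hp1, hg, hx, hu, hax, hXq⟩ := Ax_line h i h0 h1 hA t
  have e0 := dens_eq h i p0 p1 (x0 := x0) hA.unit t
  have key := hfar q _ l hax f ρ M τ δ hρ hf hτ hδ hδ1 (by rw [hp1, hp0]; exact hcond)
  have e1 : (∫ y : ℝ, ((1 - cut (y / δ) : ℝ) : ℂ) * (KE (mm m (s i) p1) N f τ g
        (Fm (mm m (s i) p0) x0 v0 (t, y)) *
      ((√(dt (mm m (s i) p1 (Fm (mm m (s i) p0) x0 v0 (t, y)))) *
        |(fderiv ℝ (Fm (mm m (s i) p0) x0 v0) (t, y)).det| : ℝ) : ℂ))) =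
      ∫ y : ℝ, ((1 - cut (y / δ) : ℝ) : ℂ) * KE (mm m (s q.i) q.p1) N f τ q.g (q.X m s y) *
        ((q.w m s y : ℝ) : ℂ) := by
    apply integral_congr_ae
    filter_upwards with y
    have e2 : q.w m s y = √(dt (mm m (s i) p1 (Fm (mm m (s i) p0) x0 v0 (t, y)))) *
        |(fderiv ℝ (Fm (mm m (s i) p0) x0 v0) (t, y)).det| := by
      rw [e0 y]
      unfold Ln.w
      rw [hXq y, hi, hp0, hp1, hx, hu]
    rw [e2, hXq y, hi, hp1, hg]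
    ring
  rw [e1]
  exact key

theorem N4_zero (h : CF Γ D m a b s) {Cg : ℝ}
    (hgr : ∀ (q : Ln ι P Γ) (v : Pl) (l : ℝ),
      q.Ax m s v l → 1 ≤ Cg * l ∧ ∀ y : ℝ, |y| ≤ Cg * (1 + q.d m s y) ∧ l ≤ Cg * q.d m s y ∧
      q.d m s y ≤ Cg * (l + |y|)) (hCg : 1 ≤ Cg) (N : ℕ)
    (i : ι) {p0 p1 : P} (h0 : ‖p0‖ ≤ 1) (h1 : ‖p1‖ ≤ 1) {g : Γ} {x0 v0 : Pl} {l : ℝ}
    (hA : Axis (mm m (s i) p0) g x0 v0 l) {f : ℝ → ℂ} {ρ M τ : ℝ} (hρ : 0 ≤ ρ)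
    (hf : Amp f ρ M) (hl : Cg * ρ < l) (t y : ℝ) :
    KE (mm m (s i) p1) N f τ g (Fm (mm m (s i) p0) x0 v0 (t, y)) = 0 := by
  obtain ⟨q, hi, hp0, hp1, hg, hx, hu, hax, hXq⟩ := Ax_line h i h0 h1 hA t
  apply KE_zero hρ hf
  have h2 := ((hgr q _ l hax).2 y).2.1
  have h3 : q.d m s y = ds (mm m (s i) p1) (Fm (mm m (s i) p0) x0 v0 (t, y))
      (g • Fm (mm m (s i) p0) x0 v0 (t, y)) := by
    unfold Ln.d
    rw [hXq y, hi, hp1, hg]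
  rw [← h3]
  by_contra hcon
  push Not at hcon
  nlinarith

theorem loc_ZF (h : CF Γ D m a b s) : ∃ C0 : ℝ, 0 ≤ C0 ∧ ∀ N A : ℕ, ∃ n C : ℕ,
    ∀ (i : ι) (p0 p1 : P), ‖p0‖ ≤ 1 → ‖p1‖ ≤ 1 → ∀ (g g0 : Γ) (x0 v0 : Pl) (l l0 : ℝ),
      Cls (mm m (s i) p0) g g0 x0 v0 l l0 → ∀ (f : ℝ → ℂ) (ρ M τ δ : ℝ), 0 ≤ ρ →
      BE73.AmpN n f ρ M → 1 ≤ τ → 0 < δ → δ ≤ 1 → C * (1 + ρ) ^ C * ‖p1 - p0‖ ≤ δ →
      ‖ZF (mm m (s i) p0) (mm m (s i) p1) N f τ g x0 v0 l0 -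
        ZL (mm m (s i) p0) (mm m (s i) p1) δ N f τ g x0 v0 l0‖ ≤
        C * ((1 + ρ) / δ) ^ C * Real.exp (C0 * ρ) * M / τ ^ A := by
  obtain ⟨C0, hC0, hfar0⟩ := far_line (Γ := Γ) h
  obtain ⟨Cg, hCg, hgr⟩ := Ax_growth (Γ := Γ) h
  refine ⟨C0, hC0, fun N A => ?_⟩
  obtain ⟨n, C, hfar⟩ := hfar0 N A
  obtain ⟨F, hF⟩ := exists_nat_ge (Cg * C + C + 1)
  have hCF : C + 1 ≤ F := by
    have : ((C + 1 : ℕ) : ℝ) ≤ F := by
      push_cast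
      have : 0 ≤ Cg * C := by positivity
      linarith
    exact_mod_cast this
  have hF1 : Cg * C ≤ F := by
    have : (0 : ℝ) ≤ C := Nat.cast_nonneg _
    linarith
  refine ⟨n, F, ?_⟩
  intro i p0 p1 h0 h1 g g0 x0 v0 l l0 hc f ρ M τ δ hρ hf hτ hδ hδ1 hcond
  have hm0 : HM Γ (mm m (s i) p0) := hm_mm h i p0
  have hfA : Amp f ρ M := hf.amp
  have hM : 0 ≤ M := (norm_nonneg _).trans (hfA.bound 0 (by norm_num) 0)
  have hρ1 : 1 ≤ 1 + ρ := by linarith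
  have hτ0 : 0 < τ := by linarith
  obtain ⟨hl0, hl0l⟩ := Cls_len h.hX h.hO hm0 hc
  set X : ℝ := (1 + ρ) / δ with hX
  have hX1 : 1 + ρ ≤ X := by
    rw [hX, le_div_iff₀ hδ]
    nlinarith
  have hX0 : 1 ≤ X := hρ1.trans hX1
  have hRHS : 0 ≤ (F : ℝ) * X ^ F * Real.exp (C0 * ρ) * M / τ ^ A := by positivity
  rcases le_or_gt l (Cg * ρ) with hl | hl
  · obtain ⟨hGc, R, hR⟩ := ZF_intg h i h0 h1 N hc.axis hρ hfA τ
    set K : ℝ × ℝ → ℂ := fun p => KE (mm m (s i) p1) N f τ g (Fm (mm m (s i) p0) x0 v0 p) *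
      ((√(dt (mm m (s i) p1 (Fm (mm m (s i) p0) x0 v0 p))) *
        |(fderiv ℝ (Fm (mm m (s i) p0) x0 v0) p).det| : ℝ) : ℂ) with hK
    have hK0 : ∀ t y : ℝ, R < |y| → K (t, y) = 0 := by
      intro t y hy
      show KE (mm m (s i) p1) N f τ g (Fm (mm m (s i) p0) x0 v0 (t, y)) * _ = 0
      rw [hR t y hy, zero_mul]
    have hcc : Continuous fun p : ℝ × ℝ => ((cut (p.2 / δ) : ℝ) : ℂ) := by
      have : Continuous fun p : ℝ × ℝ => (cut (p.2 / δ) : ℝ) :=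
        cut.continuous.comp (by fun_prop)
      exact Complex.continuous_ofReal.comp this
    obtain ⟨hc1, hi1⟩ := N4_int hGc hK0
    obtain ⟨hc2, hi2⟩ := N4_int (F := fun p => ((cut (p.2 / δ) : ℝ) : ℂ) * K p) (hcc.mul hGc)
      (R := R) (fun t y hy => by
        show ((cut (y / δ) : ℝ) : ℂ) * K (t, y) = 0
        rw [hK0 t y hy, mul_zero])
    have e1 : ZF (mm m (s i) p0) (mm m (s i) p1) N f τ g x0 v0 l0 -
        ZL (mm m (s i) p0) (mm m (s i) p1) δ N f τ g x0 v0 l0 =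
        ∫ t in (0 : ℝ)..l0, ∫ y : ℝ, ((1 - cut (y / δ) : ℝ) : ℂ) * K (t, y) := by
      have eF : ZF (mm m (s i) p0) (mm m (s i) p1) N f τ g x0 v0 l0 =
          ∫ t in (0 : ℝ)..l0, ∫ y : ℝ, K (t, y) := rfl
      have eL : ZL (mm m (s i) p0) (mm m (s i) p1) δ N f τ g x0 v0 l0 =
          ∫ t in (0 : ℝ)..l0, ∫ y : ℝ, ((cut (y / δ) : ℝ) : ℂ) * K (t, y) := by
        unfold ZL
        congr 1
        funext t
        congr 1
        funext y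
        rw [mul_assoc]
      rw [eF, eL, ← intervalIntegral.integral_sub (hc1.intervalIntegrable _ _)
        (hc2.intervalIntegrable _ _)]
      congr 1
      funext t
      rw [← integral_sub (hi1 t) (hi2 t)]
      congr 1
      funext y
      push_cast
      ring
    rw [e1]
    have hb : ∀ t ∈ Set.uIoc (0 : ℝ) l0, ‖∫ y : ℝ, ((1 - cut (y / δ) : ℝ) : ℂ) * K (t, y)‖ ≤
        C * X ^ C * Real.exp (C0 * ρ) * M / τ ^ A := by
      intro t _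
      refine N4_in h hfar i h0 h1 hc.axis hρ hf hτ hδ hδ1 ?_ t
      refine le_trans ?_ hcond
      have e2 : (C : ℝ) ≤ F := by exact_mod_cast (by omega : C ≤ F)
      have e3 : (1 + ρ) ^ C ≤ (1 + ρ) ^ F := pow_le_pow_right₀ hρ1 (by omega)
      gcongr
    refine (intervalIntegral.norm_integral_le_of_norm_le_const hb).trans ?_
    rw [sub_zero, abs_of_pos hl0]
    have e2 : l0 ≤ Cg * X := by
      calc l0 ≤ l := hl0l
        _ ≤ Cg * ρ := hl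
        _ ≤ Cg * X := mul_le_mul_of_nonneg_left (by linarith) (by linarith)
    have e3 : X ^ C * X ≤ X ^ F := by
      rw [← pow_succ]
      exact pow_le_pow_right₀ hX0 hCF
    calc C * X ^ C * Real.exp (C0 * ρ) * M / τ ^ A * l0 ≤
          C * X ^ C * Real.exp (C0 * ρ) * M / τ ^ A * (Cg * X) :=
          mul_le_mul_of_nonneg_left e2 (by positivity)
      _ = (Cg * C) * (X ^ C * X) * (Real.exp (C0 * ρ) * M / τ ^ A) := by ring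
      _ ≤ F * X ^ F * (Real.exp (C0 * ρ) * M / τ ^ A) := by
          apply mul_le_mul_of_nonneg_right _ (by positivity)
          exact mul_le_mul hF1 e3 (by positivity) (Nat.cast_nonneg _)
      _ = F * X ^ F * Real.exp (C0 * ρ) * M / τ ^ A := by ring
  · have hz := N4_zero h hgr hCg N i h0 h1 hc.axis (τ := τ) hρ hfA hl
    have eF : ZF (mm m (s i) p0) (mm m (s i) p1) N f τ g x0 v0 l0 = 0 := by
      unfold ZF
      simp [hz]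
    have eL : ZL (mm m (s i) p0) (mm m (s i) p1) δ N f τ g x0 v0 l0 = 0 := by
      unfold ZL
      simp [hz]
    rw [eF, eL, sub_zero, norm_zero]
    exact hRHS

open Classical in
/-- C1. -/
theorem loc_IKN (h : CF Γ D m a b s) : ∃ C0 : ℝ, 0 ≤ C0 ∧ ∀ N A : ℕ, ∃ n C : ℕ,
    ∀ (i : ι) (p0 p1 : P), ‖p0‖ ≤ 1 → ‖p1‖ ≤ 1 → ∀ (g g0 : Γ) (x0 v0 : Pl) (l l0 : ℝ),
      Cls (mm m (s i) p0) g g0 x0 v0 l l0 → ∀ (f : ℝ → ℂ) (ρ M τ δ : ℝ), 0 ≤ ρ →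
      BE73.AmpN n f ρ M → 1 ≤ τ → 0 < δ → δ ≤ 1 → C * (1 + ρ) ^ C * ‖p1 - p0‖ ≤ δ →
      ∀ T : Finset Γ,
      (∀ γ : Γ, γ ≠ 1 → (∃ x ∈ closure D, ds (mm m (s i) p1) x (γ • x) ≤ ρ) → γ ∈ T) →
      |(∑ γ ∈ T.filter (IsConj g), IKN D (mm m (s i) p1) N (osc f τ) γ) -
        (ZL (mm m (s i) p0) (mm m (s i) p1) δ N f τ g x0 v0 l0).re| ≤
        C * ((1 + ρ) / δ) ^ C * Real.exp (C0 * ρ) * M / τ ^ A := by
  obtain ⟨C0, hC0, hloc⟩ := loc_ZF (Γ := Γ) h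
  refine ⟨C0, hC0, fun N A => ?_⟩
  obtain ⟨n, C, hC⟩ := hloc N A
  refine ⟨n, C, ?_⟩
  intro i p0 p1 h0 h1 g g0 x0 v0 l l0 hc f ρ M τ δ hρ hf hτ hδ hδ1 hcond T hT
  rw [class_ZF h i h0 h1 N hc hρ hf.amp τ hT, ← Complex.sub_re]
  exact (Complex.abs_re_le_norm _).trans
    (hC i p0 p1 h0 h1 g g0 x0 v0 l l0 hc f ρ M τ δ hρ hf hτ hδ hδ1 hcond)

end BE
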