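import Pool.Agent.LibBE99.Q6
import Pool.Agent.LibBE99.N4

/-! Row Q7 (cites N3, N4, Q6, S3, U3, U4): the leading term (C2), and C1 + C2. -/

open MeasureTheory Set Filter Topology
open scoped ContDiff

namespace BE

open BGS BR

variable {Γ : Type} [Group Γ] [MulAction Γ Pl] {D : Set Pl}
variable {ι P : Type} [NormedAddCommGroup P] [NormedSpace ℝ P] [FiniteDimensional ℝ P]
  {m : Pl → Co} {a b : ℝ} {s : ι → P × Pl → ℝ}

theorem Q7_mono {n n' : ℕ} (hn : n ≤ n') {f : ℝ → ℂ} {ρ M : ℝ} (h : BE73.AmpN n' f ρ M) :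
    BE73.AmpN n f ρ M := ⟨h.amp, fun k hk t => h.bound k (hk.trans hn) t⟩

/-- Exponentials are powers of `τ`. -/
theorem Q7_exp {c K ρ τ : ℝ} (hc : 0 ≤ c) (hτ : 1 ≤ τ) (hρ : ρ ≤ K * Real.log τ)
    {B : ℕ} (hB : c * max K 0 ≤ B) : Real.exp (c * ρ) ≤ τ ^ B := by
  have hl : 0 ≤ Real.log τ := Real.log_nonneg hτ
  have h1 : c * ρ ≤ B * Real.log τ := by
    calc c * ρ ≤ c * (K * Real.log τ) := mul_le_mul_of_nonneg_left hρ hc
      _ ≤ c * (max K 0 * Real.log τ) :=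
          mul_le_mul_of_nonneg_left (mul_le_mul_of_nonneg_right (le_max_left _ _) hl) hc
      _ = (c * max K 0) * Real.log τ := by ring
      _ ≤ B * Real.log τ := mul_le_mul_of_nonneg_right hB hl
  calc Real.exp (c * ρ) ≤ Real.exp (B * Real.log τ) := Real.exp_le_exp.2 h1
    _ = τ ^ B := by
        rw [Real.exp_nat_mul, Real.exp_log (by linarith)]

theorem Q7_dens (h : CF Γ D m a b s) (i : ι) (p : P) {x0 v0 : Pl} (hv : eu v0 = 1) (t y : ℝ) :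
    √(dt (mm m (s i) p (Fm (mm m (s i) p) x0 v0 (t, y)))) *
      |(fderiv ℝ (Fm (mm m (s i) p) x0 v0) (t, y)).det| =
    JA (mm m (s i) p) (gfl (mm m (s i) p) t (x0, v0)).1
        (rot (gfl (mm m (s i) p) t (x0, v0)).2) y := by
  rw [dens_eq h i p p hv t y, sub_self, Real.exp_zero, one_mul]

/-- The integral over one perpendicular geodesic of the own axis. -/
theorem Q7_line (h : CF Γ D m a b s) (N : ℕ) (K : ℝ) : ∃ n C : ℕ,
    ∀ (q : AxU Γ ι P m s) (f : ℝ → ℂ) (ρ M τ : ℝ), 0 ≤ ρ →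
      BE73.AmpN n f ρ M → 1 ≤ τ → ρ ≤ K * Real.log τ →
      ‖(∫ y : ℝ, KE (mm m (s q.i) q.p) N f τ q.g (q.X y) * ((q.J y : ℝ) : ℂ)) -
        f q.l * Complex.exp (-(Complex.I * τ * q.l)) /
          ((√(trM (mm m (s q.i) q.p) q.x q.v q.l - 2) : ℝ) : ℂ)‖ ≤
      C * (1 + ρ) ^ C * (M / √τ) / √(trM (mm m (s q.i) q.p) q.x q.v q.l - 2) := by
  obtain ⟨c, n1, hb⟩ := exBQ (Γ := Γ) h
  obtain ⟨C1, hnear⟩ := near_line h hb N
  obtain ⟨C0, hC0, hfar0⟩ := far_line (Γ := Γ) h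
  obtain ⟨C2, hC2, htr⟩ := trM_up (Γ := Γ) h
  obtain ⟨Cg, hCg, hgr⟩ := Fd_growthU (Γ := Γ) h
  obtain ⟨B, hB⟩ := exists_nat_ge (C0 * max K 0)
  obtain ⟨B2, hB2⟩ := exists_nat_ge (C2 * max K 0)
  obtain ⟨n, C, hfar⟩ := hfar0 N (B + B2 + 1)
  have hc0 : 0 < c := hb.c_pos
  set F1 : ℝ := C * (2 ^ n1 / c) ^ C * C2 with hF1
  have hF1p : 0 ≤ F1 := by positivity
  obtain ⟨G, hG⟩ := exists_nat_ge (C1 + F1)
  set E : ℕ := G + C1 + (n1 + 1) * C with hE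
  refine ⟨n, E, ?_⟩
  intro q f ρ M τ hρ hf hτ hK
  have hfA : Amp f ρ M := hf.amp
  have hM : 0 ≤ M := (norm_nonneg _).trans (hfA.bound 0 (by norm_num) 0)
  have hτ0 : 0 < τ := by linarith
  have hsτ : 0 < √τ := Real.sqrt_pos.2 hτ0
  obtain ⟨htr2, hl1, hgq⟩ := hgr q
  have hS : 0 < √(trM (mm m (s q.i) q.p) q.x q.v q.l - 2) := Real.sqrt_pos.2 (by linarith)
  set S : ℝ := √(trM (mm m (s q.i) q.p) q.x q.v q.l - 2) with hSd
  have hR0 : 0 ≤ (E : ℝ) * (1 + ρ) ^ E * (M / √τ) / S := by positivity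
  have hlpos : 0 < q.l := q.ax.pos
  rcases lt_or_ge ρ q.l with hl | hl
  · have e1 : ∀ y : ℝ, KE (mm m (s q.i) q.p) N f τ q.g (q.X y) = 0 := by
      intro y
      apply KE_zero hρ hfA
      have := (hgq y).2.1
      unfold Fd at this
      exact lt_of_lt_of_le hl this
    have e2 : f q.l = 0 := hfA.supp _ (by rw [abs_of_pos hlpos]; exact hl)
    simp only [e1, e2, zero_mul, zero_div, integral_zero, sub_zero, norm_zero]
    exact hR0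
  · -- the scale
    have h2l : 0 < 2 + q.l := by linarith
    have hr0 : 0 < q.r c n1 := by
      unfold AxU.r
      positivity
    have hr1 : q.r c n1 ≤ 1 := by
      unfold AxU.r
      rw [div_le_one (by positivity)]
      calc c ≤ 1 := hb.c_le.trans (by norm_num)
        _ ≤ (2 + q.l) ^ n1 := one_le_pow₀ (by linarith)
    obtain ⟨q', hi, hp0, hp1, hg, hx, hu, hax, hXq⟩ := Ax_line h q.i q.hp q.hp q.ax 0
    have hg0 : gfl (mm m (s q.i) q.p) 0 (q.x, q.v) = (q.x, q.v) :=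
      (gfl_isFlow h.hX (hm_mm h q.i q.p)).zero _
    have hXX : ∀ y, Fm (mm m (s q.i) q.p) q.x q.v (0, y) = q.X y := by
      intro y
      unfold Fm AxU.X
      rw [hg0]
    have hww : ∀ y, q'.w m s y = q.J y := by
      intro y
      unfold Ln.w AxU.J
      rw [hXq y, hi, hp0, hp1, hx, hu, hg0, sub_self, Real.exp_zero, one_mul]
    -- integrability
    obtain ⟨hGc, R, hR⟩ := ZF_intg h q.i q.hp q.hp N q.ax hρ hfA τ
    obtain ⟨_, hint⟩ := N4_int hGc (R := R) (fun t y hy => by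
      show KE (mm m (s q.i) q.p) N f τ q.g (Fm (mm m (s q.i) q.p) q.x q.v (t, y)) * _ = 0
      rw [hR t y hy, zero_mul])
    have hcc : Continuous fun p : ℝ × ℝ => ((cut (p.2 / q.r c n1) : ℝ) : ℂ) := by
      have : Continuous fun p : ℝ × ℝ => (cut (p.2 / q.r c n1) : ℝ) :=
        cut.continuous.comp (by fun_prop)
      exact Complex.continuous_ofReal.comp this
    obtain ⟨_, hint2⟩ := N4_int (hcc.mul hGc) (R := R) (fun t y hy => by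
      show _ * (KE (mm m (s q.i) q.p) N f τ q.g (Fm (mm m (s q.i) q.p) q.x q.v (t, y)) * _) = 0
      rw [hR t y hy, zero_mul, mul_zero])
    have eK : ∀ y : ℝ, KE (mm m (s q.i) q.p) N f τ q.g (Fm (mm m (s q.i) q.p) q.x q.v (0, y)) *
        ((√(dt (mm m (s q.i) q.p (Fm (mm m (s q.i) q.p) q.x q.v (0, y)))) *
          |(fderiv ℝ (Fm (mm m (s q.i) q.p) q.x q.v) (0, y)).det| : ℝ) : ℂ) =
        KE (mm m (s q.i) q.p) N f τ q.g (q.X y) * ((q.J y : ℝ) : ℂ) := by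
      intro y
      rw [Q7_dens h q.i q.p q.ax.unit 0 y, hXX y, hg0]
      rfl
    have i1 : Integrable fun y : ℝ => KE (mm m (s q.i) q.p) N f τ q.g (q.X y) *
        ((q.J y : ℝ) : ℂ) := by
      have := hint 0
      refine this.congr (Filter.Eventually.of_forall fun y => ?_)
      exact eK y
    have i2 : Integrable fun y : ℝ => ((cut (y / q.r c n1) : ℝ) : ℂ) *
        KE (mm m (s q.i) q.p) N f τ q.g (q.X y) * ((q.J y : ℝ) : ℂ) := by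
      have := hint2 0
      refine this.congr (Filter.Eventually.of_forall fun y => ?_)
      show ((cut (y / q.r c n1) : ℝ) : ℂ) * _ = ((cut (y / q.r c n1) : ℝ) : ℂ) *
        KE (mm m (s q.i) q.p) N f τ q.g (q.X y) * ((q.J y : ℝ) : ℂ)
      rw [mul_assoc]
      congr 1
      exact eK y
    have hsplit : (∫ y : ℝ, KE (mm m (s q.i) q.p) N f τ q.g (q.X y) * ((q.J y : ℝ) : ℂ)) -
        (∫ y : ℝ, ((cut (y / q.r c n1) : ℝ) : ℂ) * KE (mm m (s q.i) q.p) N f τ q.g (q.X y) *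
          ((q.J y : ℝ) : ℂ)) =
        ∫ y : ℝ, ((1 - cut (y / q.r c n1) : ℝ) : ℂ) * KE (mm m (s q'.i) q'.p1) N f τ q'.g
          (q'.X m s y) * ((q'.w m s y : ℝ) : ℂ) := by
      rw [← integral_sub i1 i2]
      apply integral_congr_ae
      refine Filter.Eventually.of_forall fun y => ?_
      show KE (mm m (s q.i) q.p) N f τ q.g (q.X y) * ((q.J y : ℝ) : ℂ) -
        ((cut (y / q.r c n1) : ℝ) : ℂ) * KE (mm m (s q.i) q.p) N f τ q.g (q.X y) *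
          ((q.J y : ℝ) : ℂ) = ((1 - cut (y / q.r c n1) : ℝ) : ℂ) *
            KE (mm m (s q'.i) q'.p1) N f τ q'.g (q'.X m s y) * ((q'.w m s y : ℝ) : ℂ)
      rw [hww y, hXq y, hXX y, hi, hp1, hg]
      push_cast
      ring
    have hfb := hfar q' _ _ hax f ρ M τ (q.r c n1) hρ hf hτ hr0 hr1 (by
      rw [hp0, hp1, sub_self, norm_zero, mul_zero]
      exact hr0.le)
    rw [← hsplit] at hfb
    have hnb := hnear q f ρ M τ hρ hfA hτ
    -- the far bound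
    have hρ1 : 1 ≤ 1 + ρ := by linarith
    have b1 : (1 + ρ) / q.r c n1 ≤ 2 ^ n1 / c * (1 + ρ) ^ (n1 + 1) := by
      unfold AxU.r
      rw [div_div_eq_mul_div, pow_succ]
      have : (2 + q.l) ^ n1 ≤ 2 ^ n1 * (1 + ρ) ^ n1 := by
        rw [← mul_pow]
        exact pow_le_pow_left₀ h2l.le (by linarith) _
      calc (1 + ρ) * (2 + q.l) ^ n1 / c ≤ (1 + ρ) * (2 ^ n1 * (1 + ρ) ^ n1) / c := by
            gcongr
        _ = 2 ^ n1 / c * ((1 + ρ) ^ n1 * (1 + ρ)) := by ring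
    have b2 : ((1 + ρ) / q.r c n1) ^ C ≤ (2 ^ n1 / c) ^ C * (1 + ρ) ^ ((n1 + 1) * C) := by
      calc ((1 + ρ) / q.r c n1) ^ C ≤ (2 ^ n1 / c * (1 + ρ) ^ (n1 + 1)) ^ C :=
            pow_le_pow_left₀ (by positivity) b1 _
        _ = (2 ^ n1 / c) ^ C * (1 + ρ) ^ ((n1 + 1) * C) := by rw [mul_pow, ← pow_mul]
    have b3 : Real.exp (C0 * ρ) ≤ τ ^ B := Q7_exp hC0 hτ hK hB
    have b4 : S ≤ C2 * τ ^ B2 := by
      calc S ≤ C2 * Real.exp (C2 * q.l) := htr q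
        _ ≤ C2 * Real.exp (C2 * ρ) := by gcongr
        _ ≤ C2 * τ ^ B2 := mul_le_mul_of_nonneg_left (Q7_exp hC2 hτ hK hB2) hC2
    have b5 : √τ ≤ τ := by
      rw [Real.sqrt_le_left hτ0.le]
      nlinarith
    have b6 : C * ((1 + ρ) / q.r c n1) ^ C * Real.exp (C0 * ρ) * M / τ ^ (B + B2 + 1) ≤
        F1 * (1 + ρ) ^ ((n1 + 1) * C) * (M / √τ) / S := by
      rw [le_div_iff₀ hS]
      calc C * ((1 + ρ) / q.r c n1) ^ C * Real.exp (C0 * ρ) * M / τ ^ (B + B2 + 1) * S ≤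
            C * ((2 ^ n1 / c) ^ C * (1 + ρ) ^ ((n1 + 1) * C)) * τ ^ B * M / τ ^ (B + B2 + 1) *
              (C2 * τ ^ B2) := by
            gcongr
        _ = F1 * (1 + ρ) ^ ((n1 + 1) * C) * (M / τ) := by
            rw [hF1]
            field_simp
            ring
        _ ≤ F1 * (1 + ρ) ^ ((n1 + 1) * C) * (M / √τ) := by
            gcongr
    have hfin : ‖(∫ y : ℝ, KE (mm m (s q.i) q.p) N f τ q.g (q.X y) * ((q.J y : ℝ) : ℂ)) -
        f q.l * Complex.exp (-(Complex.I * τ * q.l)) / ((S : ℝ) : ℂ)‖ ≤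
        F1 * (1 + ρ) ^ ((n1 + 1) * C) * (M / √τ) / S + C1 * (1 + ρ) ^ C1 * (M / √τ) / S := by
      refine le_trans ?_ (add_le_add (hfb.trans b6) hnb)
      refine le_trans (le_of_eq ?_) (norm_add_le _ _)
      congr 1
      ring
    refine hfin.trans ?_
    have p1 : (1 + ρ) ^ ((n1 + 1) * C) ≤ (1 + ρ) ^ E := pow_le_pow_right₀ hρ1 (by omega)
    have p2 : (1 + ρ) ^ C1 ≤ (1 + ρ) ^ E := pow_le_pow_right₀ hρ1 (by omega)
    have p3 : (C1 : ℝ) + F1 ≤ E := hG.trans (by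
      rw [hE]
      push_cast
      have : 0 ≤ ((n1 : ℝ) + 1) * C := by positivity
      have : (0 : ℝ) ≤ C1 := Nat.cast_nonneg _
      linarith)
    calc F1 * (1 + ρ) ^ ((n1 + 1) * C) * (M / √τ) / S + C1 * (1 + ρ) ^ C1 * (M / √τ) / S ≤
          F1 * (1 + ρ) ^ E * (M / √τ) / S + C1 * (1 + ρ) ^ E * (M / √τ) / S := by
          gcongr
      _ = (C1 + F1) * ((1 + ρ) ^ E * (M / √τ) / S) := by ring
      _ ≤ E * ((1 + ρ) ^ E * (M / √τ) / S) := by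
          apply mul_le_mul_of_nonneg_right p3 (by positivity)
      _ = E * (1 + ρ) ^ E * (M / √τ) / S := by ring

/-- C2. -/
theorem lead (h : CF Γ D m a b s) (N : ℕ) (K : ℝ) : ∃ n C : ℕ,
    ∀ (i : ι) (p : P), ‖p‖ ≤ 1 → ∀ (g g0 : Γ) (x0 v0 : Pl) (l l0 : ℝ),
      Cls (mm m (s i) p) g g0 x0 v0 l l0 → ∀ (f : ℝ → ℂ) (ρ M τ : ℝ), 0 ≤ ρ →
      BE73.AmpN n f ρ M → 1 ≤ τ → ρ ≤ K * Real.log τ →
      ‖ZZ (mm m (s i) p) N f τ g x0 v0 l0 - l0 * (f l * Complex.exp (-(Complex.I * τ * l)) /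
        ((√(trM (mm m (s i) p) x0 v0 l - 2) : ℝ) : ℂ))‖ ≤
      C * (1 + ρ) ^ C * (M / √τ) * (l0 / √(trM (mm m (s i) p) x0 v0 l - 2)) := by
  obtain ⟨n, C, hC⟩ := Q7_line (Γ := Γ) h N K
  refine ⟨n, C, ?_⟩
  intro i p hp g g0 x0 v0 l l0 hc f ρ M τ hρ hf hτ hK
  have hm0 : HM Γ (mm m (s i) p) := hm_mm h i p
  have hfA : Amp f ρ M := hf.amp
  obtain ⟨hl0, hl0l⟩ := Cls_len h.hX h.hO hm0 hc
  set main : ℂ := f l * Complex.exp (-(Complex.I * τ * l)) /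
    ((√(trM (mm m (s i) p) x0 v0 l - 2) : ℝ) : ℂ) with hmain
  obtain ⟨hGc, R, hR⟩ := ZF_intg h i hp hp N hc.axis hρ hfA τ
  obtain ⟨hcont, _⟩ := N4_int hGc (R := R) (fun t y hy => by
    show KE (mm m (s i) p) N f τ g (Fm (mm m (s i) p) x0 v0 (t, y)) * _ = 0
    rw [hR t y hy, zero_mul])
  rw [← ZF_own h.hX hm0 N f τ g hc.axis.unit l0]
  have e1 : ZF (mm m (s i) p) (mm m (s i) p) N f τ g x0 v0 l0 - l0 * main =
      ∫ t in (0 : ℝ)..l0, ((∫ y : ℝ, KE (mm m (s i) p) N f τ g (Fm (mm m (s i) p) x0 v0 (t, y)) *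
        ((√(dt (mm m (s i) p (Fm (mm m (s i) p) x0 v0 (t, y)))) *
          |(fderiv ℝ (Fm (mm m (s i) p) x0 v0) (t, y)).det| : ℝ) : ℂ)) - main) := by
    rw [intervalIntegral.integral_sub (hcont.intervalIntegrable _ _)
      (intervalIntegrable_const), intervalIntegral.integral_const, sub_zero]
    rfl
  rw [e1]
  have hb : ∀ t ∈ Set.uIoc (0 : ℝ) l0, ‖(∫ y : ℝ, KE (mm m (s i) p) N f τ g
      (Fm (mm m (s i) p) x0 v0 (t, y)) *
        ((√(dt (mm m (s i) p (Fm (mm m (s i) p) x0 v0 (t, y)))) *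
          |(fderiv ℝ (Fm (mm m (s i) p) x0 v0) (t, y)).det| : ℝ) : ℂ)) - main‖ ≤
      C * (1 + ρ) ^ C * (M / √τ) / √(trM (mm m (s i) p) x0 v0 l - 2) := by
    intro t _
    set q : AxU Γ ι P m s := ⟨i, p, g, (gfl (mm m (s i) p) t (x0, v0)).1,
      (gfl (mm m (s i) p) t (x0, v0)).2, l, hp, Axis_along h.hX h.hO hm0 hc.axis t⟩ with hq
    have key := hC q f ρ M τ hρ hf hτ hK
    have htr : trM (mm m (s q.i) q.p) q.x q.v q.l = trM (mm m (s i) p) x0 v0 l :=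
      trM_along h.hX h.hO hm0 hc.axis t
    rw [htr] at key
    have e2 : (∫ y : ℝ, KE (mm m (s i) p) N f τ g (Fm (mm m (s i) p) x0 v0 (t, y)) *
        ((√(dt (mm m (s i) p (Fm (mm m (s i) p) x0 v0 (t, y)))) *
          |(fderiv ℝ (Fm (mm m (s i) p) x0 v0) (t, y)).det| : ℝ) : ℂ)) =
        ∫ y : ℝ, KE (mm m (s q.i) q.p) N f τ q.g (q.X y) * ((q.J y : ℝ) : ℂ) := by
      apply integral_congr_ae
      refine Filter.Eventually.of_forall fun y => ?_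
      show KE (mm m (s i) p) N f τ g (Fm (mm m (s i) p) x0 v0 (t, y)) * _ = _
      rw [Q7_dens h i p hc.axis.unit t y]
      rfl
    rw [e2]
    exact key
  refine (intervalIntegral.norm_integral_le_of_norm_le_const hb).trans (le_of_eq ?_)
  rw [sub_zero, abs_of_pos hl0]
  ring

/-- C1 and C2. -/
theorem lead_ZL (h : CF Γ D m a b s) : ∃ C0 : ℝ, 0 ≤ C0 ∧ ∀ (N A : ℕ) (K : ℝ), ∃ n C : ℕ,
    ∀ (i : ι) (p0 p1 : P), ‖p0‖ ≤ 1 → ‖p1‖ ≤ 1 → ∀ (g g0 g1 : Γ) (x0 v0 x1 v1 : Pl)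
      (l l0 l1 l01 : ℝ), Cls (mm m (s i) p0) g g0 x0 v0 l l0 →
      Cls (mm m (s i) p1) g g1 x1 v1 l1 l01 → ∀ (f : ℝ → ℂ) (ρ M τ δ : ℝ), 0 ≤ ρ →
      BE73.AmpN n f ρ M → 1 ≤ τ → ρ ≤ K * Real.log τ → 0 < δ → δ ≤ 1 →
      C * (1 + ρ) ^ C * ‖p1 - p0‖ ≤ δ →
      ‖ZL (mm m (s i) p0) (mm m (s i) p1) δ N f τ g x0 v0 l0 -
        l01 * (f l1 * Complex.exp (-(Complex.I * τ * l1)) /
          ((√(trM (mm m (s i) p1) x1 v1 l1 - 2) : ℝ) : ℂ))‖ ≤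
      C * (1 + ρ) ^ C * (M / √τ) * (l01 / √(trM (mm m (s i) p1) x1 v1 l1 - 2)) +
        C * ((1 + ρ) / δ) ^ C * Real.exp (C0 * ρ) * M / τ ^ A := by
  obtain ⟨C0, hC0, hloc0⟩ := loc_ZF (Γ := Γ) h
  refine ⟨C0, hC0, fun N A K => ?_⟩
  obtain ⟨n1, C1, hloc⟩ := hloc0 N A
  obtain ⟨n2, C2, hlead⟩ := lead (Γ := Γ) h N K
  refine ⟨max n1 n2, C1 + C2, ?_⟩
  intro i p0 p1 h0 h1 g g0 g1 x0 v0 x1 v1 l l0 l1 l01 hc hc1 f ρ M τ δ hρ hf hτ hK hδ hδ1 hcond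
  have hm1 : HM Γ (mm m (s i) p1) := hm_mm h i p1
  have hfA : Amp f ρ M := hf.amp
  have hM : 0 ≤ M := (norm_nonneg _).trans (hfA.bound 0 (by norm_num) 0)
  have hτ0 : 0 < τ := by linarith
  have hρ1 : 1 ≤ 1 + ρ := by linarith
  obtain ⟨hl01, _⟩ := Cls_len h.hX h.hO hm1 hc1
  have hX1 : 1 ≤ (1 + ρ) / δ := by
    rw [le_div_iff₀ hδ]
    linarith
  have c1 : (C1 : ℝ) ≤ ((C1 + C2 : ℕ) : ℝ) := by exact_mod_cast Nat.le_add_right _ _
  have c2 : (C2 : ℝ) ≤ ((C1 + C2 : ℕ) : ℝ) := by exact_mod_cast Nat.le_add_left _ _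
  have k1 := hloc i p0 p1 h0 h1 g g0 x0 v0 l l0 hc f ρ M τ δ hρ
    (Q7_mono (le_max_left _ _) hf) hτ hδ hδ1 (by
      refine le_trans ?_ hcond
      have : (1 + ρ) ^ C1 ≤ (1 + ρ) ^ (C1 + C2) := pow_le_pow_right₀ hρ1 (by omega)
      gcongr)
  have k2 := hlead i p1 h1 g g1 x1 v1 l1 l01 hc1 f ρ M τ hρ
    (Q7_mono (le_max_right _ _) hf) hτ hK
  rw [← ZF_own h.hX hm1 N f τ g hc1.axis.unit l01, ← ZF_swap h i h0 h1 N hc hc1 hρ hfA τ] at k2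
  rw [norm_sub_rev] at k1
  have k3 := (norm_add_le _ _).trans (add_le_add k2 k1)
  refine le_trans (le_of_eq ?_) (k3.trans ?_)
  · congr 1
    ring
  · have p1' : (1 + ρ) ^ C2 ≤ (1 + ρ) ^ (C1 + C2) := pow_le_pow_right₀ hρ1 (by omega)
    have p2' : ((1 + ρ) / δ) ^ C1 ≤ ((1 + ρ) / δ) ^ (C1 + C2) := pow_le_pow_right₀ hX1 (by omega)
    gcongr

end BE
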