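import Pool.Agent.LibBE99.W4

/-! Row W5 (cites W3, W4, `LibBR73/AN1`, `AN2`, `AN7`): comparison of the weights (C3). SHORT / MEDIUM, 40 min.
Plan. `len_ratio`: `g` commutes with itself, so `g = g0 ^ k` with `k : ℤ` (`Cls.cent`, `Subgroup.mem_zpowers_iff`). For
the metric `p0`: `g • Fm (t, y) = Fm (t + l, y)` and `g0 ^ k • Fm (t, y) = Fm (t + k l0, y)` (`Fm_shift`, `LibBR73/AN2.lean`, for
`hc.axis` and, by induction, for `hc.axis0`, cf. `AN7_pow`), `Fm` injective (`Fm_bij`): `l = k l0`. The same for `p1`: `l1 = k l01`.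
So `l01 * l = k l0 l01 = l0 * l1`. `wt_close`: `w1 / w0 = (l01 / l0) √(T0 / T1) = (l1 / l) √(T0 / T1)`, `|l1 / l - 1| ≤ C (1 + l)^n ε`
(`axes_close`, `1 ≤ C l` from `Fd_growthU`), `|T1 / T0 - 1| ≤ n (1 + l)^n ε =: e`, and for `e ≤ 1/2`: `|√(T0/T1) - 1| ≤ 2 e`. The product of
two factors within `1 ± e'` is within `1 ± 3 e'` (`e' ≤ 1`); take `n` large (`n (1 + l)^n ε ≤ 1` with a larger `n` makes the
smaller quantities `≤ 1/2`). -/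

open MeasureTheory Set Filter Topology
open scoped ContDiff

namespace BE

open BGS BR

variable {Γ : Type} [Group Γ] [MulAction Γ Pl] {D : Set Pl}
variable {ι P : Type} [NormedAddCommGroup P] [NormedSpace ℝ P] [FiniteDimensional ℝ P]
  {m : Pl → Co} {a b : ℝ} {s : ι → P × Pl → ℝ}

private theorem W5_pow (hX : Surface Γ D) (hO : Ori Γ) {m : Pl → Co} (hm : HM Γ m) {g : Γ}
    {x0 v0 : Pl} {l : ℝ} (hA : Axis m g x0 v0 l) (n : ℕ) (p : Pl) :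
    g ^ n • Fm m x0 v0 p = Fm m x0 v0 (p.1 + n * l, p.2) := by
  induction n with
  | zero =>
    rw [pow_zero, one_smul, Nat.cast_zero, zero_mul, add_zero]
  | succ n ih =>
    rw [pow_succ', mul_smul, ih, Fm_shift hX hO hm hA]
    show Fm m x0 v0 (p.1 + n * l + l, p.2) = Fm m x0 v0 (p.1 + (n + 1 : ℕ) * l, p.2)
    rw [add_assoc]
    congr 3
    push_cast
    ring

private theorem W5_zpow (hX : Surface Γ D) (hO : Ori Γ) {m : Pl → Co} (hm : HM Γ m) {g : Γ}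
    {x0 v0 : Pl} {l : ℝ} (hA : Axis m g x0 v0 l) (k : ℤ) (p : Pl) :
    g ^ k • Fm m x0 v0 p = Fm m x0 v0 (p.1 + k * l, p.2) := by
  obtain ⟨n, rfl | rfl⟩ := k.eq_nat_or_neg
  · rw [zpow_natCast, W5_pow hX hO hm hA]
    push_cast
    rfl
  · rw [zpow_neg, zpow_natCast, inv_smul_eq_iff, W5_pow hX hO hm hA]
    show Fm m x0 v0 p = Fm m x0 v0 (p.1 + ((-(n : ℤ) : ℤ) : ℝ) * l + n * l, p.2)
    have e : p.1 + ((-(n : ℤ) : ℤ) : ℝ) * l + n * l = p.1 := by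
      push_cast
      ring
    rw [e]

private theorem W5_len (hX : Surface Γ D) (hO : Ori Γ) {m : Pl → Co} (hm : HM Γ m) {g g0 : Γ}
    {x0 v0 : Pl} {l l0 : ℝ} (hc : Cls m g g0 x0 v0 l l0) {k : ℤ} (hk : g0 ^ k = g) :
    l = k * l0 := by
  have hinj := (Fm_bij hX hm hc.axis.unit (x0 := x0)).1
  have h1 := Fm_shift hX hO hm hc.axis ((0, 0) : Pl)
  have h2 := W5_zpow hX hO hm hc.axis0 k ((0, 0) : Pl)
  rw [hk, h1] at h2
  have h3 : ((0 : ℝ) + l) = 0 + k * l0 := congrArg Prod.fst (hinj h2)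
  linarith

theorem len_ratio (h : CF Γ D m a b s) (i : ι) (p0 p1 : P) {g g0 : Γ} {x0 v0 x1 v1 : Pl}
    {l l0 l1 l01 : ℝ} (hc : Cls (mm m (s i) p0) g g0 x0 v0 l l0)
    (hc1 : Cls (mm m (s i) p1) g g0 x1 v1 l1 l01) : l01 * l = l0 * l1 := by
  have hg : g ∈ Subgroup.zpowers g0 := (hc.cent g).1 rfl
  obtain ⟨k, hk⟩ := Subgroup.mem_zpowers_iff.1 hg
  rw [W5_len h.hX h.hO (hm_mm h i p0) hc hk, W5_len h.hX h.hO (hm_mm h i p1) hc1 hk]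
  ring

/-- elementary inequality -/
private theorem W5_arith {l l0 l1 l01 T0 T1 C A B : ℝ} (hl : 0 < l) (hl0 : 0 < l0)
    (hT0 : 0 < T0) (hT1 : 0 < T1) (hC : 1 ≤ C * l) (hlen : l01 * l = l0 * l1)
    (h1 : |l1 - l| ≤ A) (h2 : |T1 / T0 - 1| ≤ B) (hB : B ≤ 1 / 2) :
    |l01 / √T1 - l0 / √T0| ≤ (2 * C * A + B) * (l0 / √T0) := by
  have hs0 : 0 < √T0 := Real.sqrt_pos.2 hT0
  have hs1 : 0 < √T1 := Real.sqrt_pos.2 hT1
  set r := T1 / T0 with hr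
  have hr2 : 1 / 2 ≤ r := by
    have := (abs_le.1 h2).1
    linarith
  have hr0 : 0 < r := by linarith
  have hsr : √r = √T1 / √T0 := by rw [hr, Real.sqrt_div hT1.le]
  have hsr0 : 0 < √r := Real.sqrt_pos.2 hr0
  have hsq : √r * √r = r := Real.mul_self_sqrt hr0.le
  have hsr1 : 1 ≤ √r + r := by
    have : (1 : ℝ) / 2 ≤ √r := by
      apply Real.le_sqrt_of_sq_le
      linarith
    linarith
  -- `σ = 1 / √r`
  have hσ : |(√r)⁻¹ - 1| ≤ |r - 1| := by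
    have e1 : (√r)⁻¹ - 1 = (1 - r) / (√r + r) := by
      rw [eq_div_iff (by linarith)]
      have : (√r)⁻¹ * √r = 1 := inv_mul_cancel₀ hsr0.ne'
      have e2 : (√r)⁻¹ * r = √r := by
        calc (√r)⁻¹ * r = (√r)⁻¹ * (√r * √r) := by rw [hsq]
          _ = √r := by rw [← mul_assoc, this, one_mul]
      calc ((√r)⁻¹ - 1) * (√r + r) = (√r)⁻¹ * √r + (√r)⁻¹ * r - √r - r := by ring
        _ = 1 - r := by rw [this, e2]; ring
    rw [e1, abs_div, abs_of_pos (show 0 < √r + r by linarith), abs_sub_comm 1 r]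
    exact div_le_self (abs_nonneg _) hsr1
  have hρ : |l1 / l - 1| ≤ C * A := by
    have e1 : l1 / l - 1 = (l1 - l) / l := by field_simp
    rw [e1, abs_div, abs_of_pos hl, div_le_iff₀ hl]
    have hA : 0 ≤ A := (abs_nonneg _).trans h1
    nlinarith
  have e : l01 / √T1 - l0 / √T0 = (l1 / l * (√r)⁻¹ - 1) * (l0 / √T0) := by
    have e1 : l01 = l0 * l1 / l := by
      rw [eq_div_iff hl.ne']
      exact hlen
    rw [e1, hsr]
    field_simp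
  rw [e, abs_mul, abs_of_pos (show 0 < l0 / √T0 by positivity)]
  refine mul_le_mul_of_nonneg_right ?_ (by positivity)
  have e3 : l1 / l * (√r)⁻¹ - 1 = (l1 / l - 1) * (√r)⁻¹ + ((√r)⁻¹ - 1) := by ring
  rw [e3]
  have hσ2 : |(√r)⁻¹| ≤ 2 := by
    have h5 : (√r)⁻¹ - 1 ≤ 1 / 2 := (le_abs_self _).trans (hσ.trans (h2.trans hB))
    rw [abs_of_pos (inv_pos.2 hsr0)]
    linarith
  calc |(l1 / l - 1) * (√r)⁻¹ + ((√r)⁻¹ - 1)| ≤ |(l1 / l - 1) * (√r)⁻¹| + |(√r)⁻¹ - 1| :=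
        abs_add_le _ _
    _ ≤ C * A * 2 + B := by
        rw [abs_mul]
        have hCA : 0 ≤ C * A := (abs_nonneg _).trans hρ
        exact add_le_add (mul_le_mul hρ hσ2 (abs_nonneg _) hCA) (hσ.trans h2)
    _ = 2 * C * A + B := by ring

/-- C3. -/
theorem wt_close (h : CF Γ D m a b s) : ∃ n : ℕ, ∀ (i : ι) (p0 p1 : P), ‖p0‖ ≤ 1 → ‖p1‖ ≤ 1 →
    ∀ (g g0 : Γ) (x0 v0 x1 v1 : Pl) (l l0 l1 l01 : ℝ), Cls (mm m (s i) p0) g g0 x0 v0 l l0 →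
      Cls (mm m (s i) p1) g g0 x1 v1 l1 l01 → |l1 - l| ≤ n * (1 + l) ^ n * ‖p1 - p0‖ ∧
      (n * (1 + l) ^ n * ‖p1 - p0‖ ≤ 1 →
      |l01 / √(trM (mm m (s i) p1) x1 v1 l1 - 2) - l0 / √(trM (mm m (s i) p0) x0 v0 l - 2)| ≤
        n * (1 + l) ^ n * ‖p1 - p0‖ * (l0 / √(trM (mm m (s i) p0) x0 v0 l - 2))) := by
  obtain ⟨n1, hn1⟩ := axes_close h
  obtain ⟨n2, hn2⟩ := tr_close h
  obtain ⟨C, hC, hgr⟩ := Fd_growthU h
  obtain ⟨n, hn⟩ := exists_nat_ge (2 * C * n1 + 2 * n2 + n1 + n2)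
  have hn1' : n1 ≤ n := by
    have : (n1 : ℝ) ≤ n := by
      have e1 : 0 ≤ 2 * C * n1 := by positivity
      have e2 : (0 : ℝ) ≤ n2 := Nat.cast_nonneg _
      linarith
    exact_mod_cast this
  have hn2' : n2 ≤ n := by
    have : (n2 : ℝ) ≤ n := by
      have e1 : 0 ≤ 2 * C * n1 := by positivity
      have e2 : (0 : ℝ) ≤ n2 := Nat.cast_nonneg _
      have e3 : (0 : ℝ) ≤ n1 := Nat.cast_nonneg _
      linarith
    exact_mod_cast this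
  refine ⟨n, fun i p0 p1 hp0 hp1 g g0 x0 v0 x1 v1 l l0 l1 l01 hc hc1 => ?_⟩
  have hl : 0 < l := hc.axis.pos
  have hl0 : 0 < l0 := hc.axis0.pos
  obtain ⟨hT0, hCl, -⟩ := hgr ⟨i, p0, g, x0, v0, l, hp0, hc.axis⟩
  obtain ⟨hT1, -, -⟩ := hgr ⟨i, p1, g, x1, v1, l1, hp1, hc1.axis⟩
  simp only at hT0 hT1 hCl
  have hlen := len_ratio h i p0 p1 hc hc1
  obtain ⟨h1, -⟩ := hn1 i p0 p1 hp0 hp1 g x0 v0 x1 v1 l l1 hc.axis hc1.axis
  have hε : 0 ≤ ‖p1 - p0‖ := norm_nonneg _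
  have h1l : (1 : ℝ) ≤ 1 + l := by linarith
  have hP1 : (1 + l) ^ n1 ≤ (1 + l) ^ n := pow_le_pow_right₀ h1l hn1'
  have hP2 : (1 + l) ^ n2 ≤ (1 + l) ^ n := pow_le_pow_right₀ h1l hn2'
  have hn1r : (n1 : ℝ) ≤ n := by exact_mod_cast hn1'
  have hE1 : (n1 : ℝ) * (1 + l) ^ n1 * ‖p1 - p0‖ ≤ n1 * ((1 + l) ^ n * ‖p1 - p0‖) := by
    rw [mul_assoc]
    gcongr
  have hE2 : (n2 : ℝ) * (1 + l) ^ n2 * ‖p1 - p0‖ ≤ n2 * ((1 + l) ^ n * ‖p1 - p0‖) := by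
    rw [mul_assoc]
    gcongr
  have hE0 : 0 ≤ (1 + l) ^ n * ‖p1 - p0‖ := by positivity
  refine ⟨h1.trans (hE1.trans ?_), fun hsm => ?_⟩
  · rw [mul_assoc]
    exact mul_le_mul_of_nonneg_right hn1r hE0
  · rw [mul_assoc] at hsm
    have e1 : 0 ≤ 2 * C * n1 := by positivity
    have e2 : (0 : ℝ) ≤ n2 := Nat.cast_nonneg _
    have e3 : (0 : ℝ) ≤ n1 := Nat.cast_nonneg _
    have hn2r : 2 * (n2 : ℝ) ≤ n := by linarith
    have hB : (n2 : ℝ) * (1 + l) ^ n2 * ‖p1 - p0‖ ≤ 1 / 2 := by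
      refine hE2.trans ?_
      have := mul_le_mul_of_nonneg_right hn2r hE0
      linarith
    have h2 := hn2 i p0 p1 hp0 hp1 g x0 v0 x1 v1 l l1 hc.axis hc1.axis (by linarith)
    have h3 := W5_arith hl hl0 (by linarith) (by linarith) hCl hlen h1 h2 hB
    refine h3.trans (mul_le_mul_of_nonneg_right ?_ (by positivity))
    calc 2 * C * ((n1 : ℝ) * (1 + l) ^ n1 * ‖p1 - p0‖) + (n2 : ℝ) * (1 + l) ^ n2 * ‖p1 - p0‖
        ≤ 2 * C * (n1 * ((1 + l) ^ n * ‖p1 - p0‖)) + n2 * ((1 + l) ^ n * ‖p1 - p0‖) := by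
          gcongr
      _ = (2 * C * n1 + n2) * ((1 + l) ^ n * ‖p1 - p0‖) := by ring
      _ ≤ n * ((1 + l) ^ n * ‖p1 - p0‖) := by
          refine mul_le_mul_of_nonneg_right ?_ hE0
          linarith
      _ = n * (1 + l) ^ n * ‖p1 - p0‖ := by ring

end BE
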