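import Pool.Agent.LibBE88.V12
import Pool.Agent.LibBE35.Defs
import Pool.Agent.LibBE73.Defs
import Pool.Agent.LibBR73.AN11

/-! BE35 part C (localisation, leading term, comparison of two metrics): definitions. Everything is for
a family `mm m (s i) p` of helper88 (structure `CF`), `m0 = mm m (s i) p0`, `m1 = mm m (s i) p1`. -/

open MeasureTheory Set Filter Topology
open scoped ContDiff

namespace BE

open BGS BR

/-! ### Families of functions of the parameter and of one point, indexed by the deck transformations -/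

/-- A metric of the family, a deck transformation and a point of `K`. -/
structure Jx (ι P Γ : Type) [NormedAddCommGroup P] [Group Γ] (K : Set Pl) where
  i : ι
  p : P
  g : Γ
  x : Pl
  hp : ‖p‖ ≤ 1
  hg : g ≠ 1
  hx : x ∈ K

variable {Γ : Type} [Group Γ] [MulAction Γ Pl] {D K : Set Pl}
variable {ι P : Type} [NormedAddCommGroup P] [NormedSpace ℝ P] {m : Pl → Co} {s : ι → P × Pl → ℝ}

def Jx.b (q : Jx ι P Γ K) : P × Pl := (q.p, q.x)

/-- The displacement. -/
noncomputable def Jx.d (m : Pl → Co) (s : ι → P × Pl → ℝ) (q : Jx ι P Γ K) : ℝ :=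
  ds (mm m (s q.i) q.p) q.x (q.g • q.x)

/-- Families `G i g (p, x)` of smooth functions whose derivatives at the points of `K` have
polynomial growth in the displacement of `x`. -/
def A1K (Γ : Type) [Group Γ] [MulAction Γ Pl] (K : Set Pl) (m : Pl → Co) (s : ι → P × Pl → ℝ)
    {F : Type} [NormedAddCommGroup F] [NormedSpace ℝ F] (G : ι → Γ → P × Pl → F) : Prop :=
  EB (fun q : Jx ι P Γ K => Real.log (2 + q.d m s)) (fun q => G q.i q.g) Jx.b

/-- Equivariance. -/
def Eqv {F : Type} (G : ι → Γ → P × Pl → F) : Prop :=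
  ∀ (i : ι) (g β : Γ) (p : P) (x : Pl), G i (β * g * β⁻¹) (p, β • x) = G i g (p, x)

/-- Invariance of a function of two points. -/
def Dk (Γ : Type) [Group Γ] [MulAction Γ Pl] {F : Type} (Q : ι → P × Pl × Pl → F) : Prop :=
  ∀ (i : ι) (p : P) (γ : Γ) (x z : Pl), Q i (p, γ • x, γ • z) = Q i (p, x, z)

/-! ### Functions along geodesics -/

/-- The geodesic of the metric with the parameter `p0` through the unit vector `u` at `x`; the
displacement will be measured with the parameter `p1`. -/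
structure Ln (ι P Γ : Type) [NormedAddCommGroup P] [Group Γ] where
  i : ι
  p0 : P
  p1 : P
  g : Γ
  x : Pl
  u : Pl
  h0 : ‖p0‖ ≤ 1
  h1 : ‖p1‖ ≤ 1
  hg : g ≠ 1
  hu : eu u = 1

/-- The point at the time `y`. -/
noncomputable def Ln.X (m : Pl → Co) (s : ι → P × Pl → ℝ) (q : Ln ι P Γ) (y : ℝ) : Pl :=
  (gfl (mm m (s q.i) q.p0) y (q.x, q.u)).1

/-- The displacement of this point. -/
noncomputable def Ln.d (m : Pl → Co) (s : ι → P × Pl → ℝ) (q : Ln ι P Γ) (y : ℝ) : ℝ :=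
  ds (mm m (s q.i) q.p1) (q.X m s y) (q.g • q.X m s y)

/-- Families of functions along the geodesics with polynomial growth of all derivatives in the
displacement. -/
def LP (m : Pl → Co) (s : ι → P × Pl → ℝ) {F : Type} [NormedAddCommGroup F] [NormedSpace ℝ F]
    (f : Ln ι P Γ → ℝ → F) : Prop :=
  EB (fun q : Ln ι P Γ × ℝ => Real.log (2 + q.1.d m s q.2)) (fun q => f q.1) (fun q => q.2)

/-- The derivatives of `G` along the flow of `m0`. -/
noncomputable def Hf (m0 : Pl → Co) {F : Type} [NormedAddCommGroup F] [NormedSpace ℝ F]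
    (G : P × Pl → F) : ℕ → P × (Pl × Pl) → F
  | 0 => fun e => G (e.1, e.2.1)
  | k + 1 => fun e => fderiv ℝ (Hf m0 G k) e (0, gf m0 e.2)

/-- The indices of `Hf`. -/
structure Hx (ι P Γ : Type) [NormedAddCommGroup P] [Group Γ] (D : Set Pl) where
  i : ι
  p0 : P
  p : P
  g : Γ
  x : Pl
  u : Pl
  h0 : ‖p0‖ ≤ 1
  hp : ‖p‖ ≤ 1
  hg : g ≠ 1
  hx : x ∈ closure D
  hu : eu u = 1

def Hx.b (q : Hx ι P Γ D) : P × (Pl × Pl) := (q.p, q.x, q.u)

noncomputable def Hx.d (m : Pl → Co) (s : ι → P × Pl → ℝ) (q : Hx ι P Γ D) : ℝ :=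
  ds (mm m (s q.i) q.p) q.x (q.g • q.x)

/-- The line is perpendicular to the axis of `g` for the metric with the parameter `p0`. -/
def Ln.Ax (m : Pl → Co) (s : ι → P × Pl → ℝ) (q : Ln ι P Γ) (v : Pl) (l : ℝ) : Prop := Axis (mm m (s q.i) q.p0) q.g q.x v l ∧ q.u = rot v

/-! ### The amplitude -/

/-- The imaginary counterpart of `osc`. -/
noncomputable def osc2 (f : ℝ → ℂ) (τ : ℝ) (t : ℝ) : ℝ :=
  (Complex.exp (-(Complex.I * τ * t)) * f t).im

/-- The symbol `al`, cut off near zero: the same for `r0 / 2 ≤ r`. -/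
noncomputable def alc (r0 : ℝ) (j : ℕ) (f : ℝ → ℂ) (τ r : ℝ) : ℂ :=
  ((Real.smoothTransition (4 * r / r0 - 1) : ℝ) : ℂ) * al j f τ r

/-- The integral over the strip of `m0`, for the metric `m1`, without the cut-off. -/
noncomputable def ZF (m0 m1 : Pl → Co) (N : ℕ) (f : ℝ → ℂ) (τ : ℝ) (g : Γ) (x0 v0 : Pl)
    (l0 : ℝ) : ℂ :=
  ∫ t in (0 : ℝ)..l0, ∫ y : ℝ, KE m1 N f τ g (Fm m0 x0 v0 (t, y)) *
    ((√(dt (m1 (Fm m0 x0 v0 (t, y)))) * |(fderiv ℝ (Fm m0 x0 v0) (t, y)).det| : ℝ) : ℂ)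

/-- The area density of the metric `p1` in the Fermi coordinates of the metric `p0`. -/
noncomputable def Ln.w (m : Pl → Co) (s : ι → P × Pl → ℝ) (q : Ln ι P Γ) (y : ℝ) : ℝ :=
  Real.exp (s q.i (q.p1, q.X m s y) - s q.i (q.p0, q.X m s y)) *
    JA (mm m (s q.i) q.p0) q.x q.u y

/-- The amplitude away from the axis. -/
noncomputable def Gt (m : Pl → Co) (s : ι → P × Pl → ℝ) (q : Ln ι P Γ) (N : ℕ) (f : ℝ → ℂ)
    (τ δ y : ℝ) : ℂ :=
  ((1 - cut (y / δ) : ℝ) : ℂ) * KC (mm m (s q.i) q.p1) N f τ (q.X m s y) (q.g • q.X m s y) *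
    ((q.w m s y : ℝ) : ℂ)

/-! ### Polynomial growth on the line -/

/-- Smooth functions on the line with `|D^k f i y| ≤ C (2 + l i + |y|) ^ C`. -/
def LQ {κ : Type} (l : κ → ℝ) (f : κ → ℝ → ℝ) : Prop :=
  EB (fun p : κ × ℝ => Real.log (2 + l p.1 + |p.2|)) (fun p => f p.1) (fun p => p.2)

/-- The properties of the squared displacement that are used. -/
structure DispQ {κ : Type} (l : κ → ℝ) (F : κ → ℝ → ℝ) : Prop where
  pos : ∀ i, 0 < l i
  lb : LQ l F
  zero : ∀ i, F i 0 = l i ^ 2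
  low : ∃ c > 0, ∀ i y, c * y ^ 2 ≤ (1 + |y|) * (y * deriv (F i) y)
  grow : ∃ C : ℝ, ∀ i y, |y| ≤ √(F i y) + C

/-- The axes of the metrics of the family. -/
structure AxU (Γ : Type) [Group Γ] [MulAction Γ Pl] (ι P : Type) [NormedAddCommGroup P]
    (m : Pl → Co) (s : ι → P × Pl → ℝ) where
  i : ι
  p : P
  g : Γ
  x : Pl
  v : Pl
  l : ℝ
  hp : ‖p‖ ≤ 1
  ax : Axis (mm m (s i) p) g x v l

/-- The points of the perpendicular geodesic. -/
noncomputable def AxU.X (q : AxU Γ ι P m s) (y : ℝ) : Pl := Xp (mm m (s q.i) q.p) q.x q.v y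

/-- `log` of the density along the perpendicular geodesic. -/
noncomputable def AxU.f (q : AxU Γ ι P m s) (y : ℝ) : ℝ := ff m (s q.i) (q.p, q.X y, q.g • q.X y)

/-- The Jacobian of the Fermi coordinates. -/
noncomputable def AxU.J (q : AxU Γ ι P m s) (y : ℝ) : ℝ :=
  JA (mm m (s q.i) q.p) q.x (rot q.v) y

/-- The scale of the cut-off. -/
noncomputable def AxU.r (q : AxU Γ ι P m s) (c : ℝ) (n : ℕ) : ℝ := c / (2 + q.l) ^ n

/-- The normalised amplitude near the axis. -/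
noncomputable def bq (c : ℝ) (n : ℕ) (q : AxU Γ ι P m s) (y : ℝ) : ℝ :=
  cut (y / q.r c n) * Real.exp (-(cut (y / (2 * q.r c n)) * (q.f y - q.f 0)) / 2) *
    (cut (y / 2) * q.J y)

/-- Its properties. -/
structure BQ (Γ : Type) [Group Γ] [MulAction Γ Pl] (ι P : Type) [NormedAddCommGroup P]
    (m : Pl → Co) (s : ι → P × Pl → ℝ) (c : ℝ) (n : ℕ) : Prop where
  c_pos : 0 < c
  c_le : c ≤ 1 / 4
  lq : LQ (fun q : AxU Γ ι P m s => q.l) (bq c n)
  one : ∀ q : AxU Γ ι P m s, bq c n q 0 = 1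
  eq : ∀ (q : AxU Γ ι P m s) (y : ℝ),
    cut (y / q.r c n) * (B0 (mm m (s q.i) q.p) (q.X y) (q.g • q.X y) * q.J y) =
      B0 (mm m (s q.i) q.p) q.x (q.g • q.x) * bq c n q y
  zero : ∀ (q : AxU Γ ι P m s) (y : ℝ), 2 * q.r c n < |y| → bq c n q y = 0

/-- The trace of the Hessian of the squared displacement. -/
noncomputable def HG (m0 : Pl → Co) (g : Γ) (x : Pl) : ℝ :=
  fderiv ℝ (fun z => fderiv ℝ (fun w : Pl => ds m0 w (g • w) ^ 2) z (fr1 (m0 x))) x (fr1 (m0 x)) +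
    fderiv ℝ (fun z => fderiv ℝ (fun w : Pl => ds m0 w (g • w) ^ 2) z (fr2 (m0 x))) x (fr2 (m0 x))

end BE
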