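import Pool.Agent.LibBE99.A0

/-! Row A2 (only Mathlib and A0): all derivatives of the symbols, uniformly in the amplitude. The private
lemmas `AA2_*` up to `AA2_it` are those of `Pool/Agent/LibBE73/Y1.lean` (helper52). -/

open MeasureTheory Set Filter Topology
open scoped ContDiff

namespace BE

open BGS BR

private theorem AA2_en (τ u : ℝ) : ‖Complex.exp (-(Complex.I * τ * u))‖ = 1 := by
  have h : -(Complex.I * τ * u) = ((-(τ * u) : ℝ) : ℂ) * Complex.I := by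
    push_cast
    ring
  rw [h, Complex.norm_exp_ofReal_mul_I]

private theorem AA2_ed (τ u : ℝ) : HasDerivAt (fun u : ℝ => Complex.exp (-(Complex.I * τ * u)))
    (-(Complex.I * τ) * Complex.exp (-(Complex.I * τ * u))) u := by
  have h1 : HasDerivAt (fun u : ℝ => -(Complex.I * τ * (u : ℂ))) (-(Complex.I * τ)) u := by
    have h2 : HasDerivAt (fun u : ℝ => (u : ℂ)) 1 u := (hasDerivAt_id u).ofReal_comp
    have h3 := (h2.const_mul (Complex.I * τ)).neg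
    rw [mul_one] at h3
    exact h3
  exact h1.cexp.congr_deriv (mul_comm _ _)

private theorem AA2_ec (τ : ℝ) : Continuous fun u : ℝ => Complex.exp (-(Complex.I * τ * u)) := by
  fun_prop

/-- the kernel -/
private noncomputable def AA2_k (j : ℕ) (τ w : ℝ) : ℂ :=
  Complex.exp (-(Complex.I * τ * w)) * ((w ^ ((j : ℝ) - 1 / 2) : ℝ) : ℂ)

private theorem AA2_kn (j : ℕ) (τ : ℝ) {w : ℝ} (hw : 0 ≤ w) :
    ‖AA2_k j τ w‖ = w ^ ((j : ℝ) - 1 / 2) := by
  rw [AA2_k, norm_mul, AA2_en, one_mul, Complex.norm_real, Real.norm_of_nonneg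
    (Real.rpow_nonneg hw _)]

private theorem AA2_ri (j : ℕ) (a b : ℝ) :
    IntervalIntegrable (fun u : ℝ => u ^ ((j : ℝ) - 1 / 2)) volume a b :=
  intervalIntegral.intervalIntegrable_rpow' (by
    have h : (0 : ℝ) ≤ j := Nat.cast_nonneg j
    linarith)

private theorem AA2_ki (j : ℕ) (τ a b : ℝ) : IntervalIntegrable (AA2_k j τ) volume a b := by
  have h0 := AA2_ri j a b
  have h1 : IntervalIntegrable (fun u : ℝ => ((u ^ ((j : ℝ) - 1 / 2) : ℝ) : ℂ)) volume a b :=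
    ⟨h0.1.ofReal, h0.2.ofReal⟩
  exact h1.continuousOn_mul (AA2_ec τ).continuousOn

/-- differentiation under the integral sign -/
private theorem AA2_diff {k : ℝ → ℂ} {R : ℝ} (hR : 0 ≤ R) (hk : IntervalIntegrable k volume 0 R)
    {G G' : ℝ → ℝ → ℂ}
    (hG : ∀ r, 0 < r → ∀ w ∈ Icc 0 R, HasDerivAt (fun r => G r w) (G' r w) r)
    (hc : ContinuousOn (fun p : ℝ × ℝ => G p.1 p.2) (Ioi 0 ×ˢ Icc 0 R))
    (hc' : ContinuousOn (fun p : ℝ × ℝ => G' p.1 p.2) (Ioi 0 ×ˢ Icc 0 R)) {r : ℝ} (hr : 0 < r) :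
    HasDerivAt (fun r => ∫ w in (0:ℝ)..R, k w * G r w) (∫ w in (0:ℝ)..R, k w * G' r w) r := by
  have hsl : ∀ {H : ℝ → ℝ → ℂ}, ContinuousOn (fun p : ℝ × ℝ => H p.1 p.2) (Ioi 0 ×ˢ Icc 0 R) →
      ∀ x, 0 < x → IntervalIntegrable (fun w => k w * H x w) volume 0 R := by
    intro H hH x hx
    refine hk.mul_continuousOn ?_
    rw [uIcc_of_le hR]
    exact hH.comp (f := fun w : ℝ => (x, w)) (by fun_prop) fun w hw => ⟨hx, hw⟩
  obtain ⟨B, hB⟩ : ∃ B, ∀ p ∈ Icc (r / 2) (2 * r) ×ˢ Icc 0 R, ‖G' p.1 p.2‖ ≤ B := by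
    refine (isCompact_Icc.prod isCompact_Icc).exists_bound_of_continuousOn
      (hc'.mono (Set.prod_mono ?_ le_rfl))
    intro x hx
    exact lt_of_lt_of_le (by positivity) hx.1
  have hs : Ioo (r / 2) (2 * r) ∈ 𝓝 r := Ioo_mem_nhds (by linarith) (by linarith)
  refine (intervalIntegral.hasDerivAt_integral_of_dominated_loc_of_deriv_le
    (F := fun x w => k w * G x w) (F' := fun x w => k w * G' x w)
    (bound := fun w => ‖k w‖ * B) hs ?_ (hsl hc r hr) ?_ ?_ (hk.norm.mul_const B) ?_).2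
  · filter_upwards [lt_mem_nhds hr] with x hx
    exact (intervalIntegrable_iff.1 (hsl hc x hx)).aestronglyMeasurable
  · exact (intervalIntegrable_iff.1 (hsl hc' r hr)).aestronglyMeasurable
  · refine ae_of_all _ fun w hw x hx => ?_
    rw [uIoc_of_le hR] at hw
    rw [norm_mul]
    exact mul_le_mul_of_nonneg_left
      (hB (x, w) ⟨⟨hx.1.le, hx.2.le⟩, ⟨hw.1.le, hw.2⟩⟩) (norm_nonneg _)
  · refine ae_of_all _ fun w hw x hx => ?_
    rw [uIoc_of_le hR] at hw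
    exact (hG x (lt_trans (by positivity) hx.1) w ⟨hw.1.le, hw.2⟩).const_mul (k w)

/-- the other factor of the integrand -/
private noncomputable def AA2_G (f : ℝ → ℂ) (s r w : ℝ) : ℂ :=
  f (r + w) * (((2 * r + w) ^ s : ℝ) : ℂ)

private theorem AA2_Gc {f : ℝ → ℂ} (hf : Continuous f) (s R : ℝ) :
    ContinuousOn (fun p : ℝ × ℝ => AA2_G f s p.1 p.2) (Ioi 0 ×ˢ Icc 0 R) := by
  unfold AA2_G
  refine ContinuousOn.mul (hf.comp (by fun_prop)).continuousOn ?_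
  refine Complex.continuous_ofReal.comp_continuousOn ?_
  refine ContinuousOn.rpow_const (by fun_prop) ?_
  rintro ⟨r, w⟩ ⟨hr, hw⟩
  left
  have h1 : 0 < r := hr
  have h2 : 0 ≤ w := hw.1
  show 2 * r + w ≠ 0
  linarith

private theorem AA2_Gd {f : ℝ → ℂ} (hf : ContDiff ℝ ∞ f) (s : ℝ) {r w : ℝ} (hr : 0 < r)
    (hw : 0 ≤ w) : HasDerivAt (fun r => AA2_G f s r w)
      (AA2_G (deriv f) s r w + 2 * s * AA2_G f (s - 1) r w) r := by
  have h1 : HasDerivAt (fun r => f (r + w)) (deriv f (r + w)) r :=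
    ((hf.differentiable (by simp)) (r + w)).hasDerivAt.comp_add_const r w
  have h2 : HasDerivAt (fun r : ℝ => (2 * r + w) ^ s) (2 * s * (2 * r + w) ^ (s - 1)) r := by
    have h3 : HasDerivAt (fun r : ℝ => 2 * r + w) 2 r := by
      simpa using ((hasDerivAt_id r).const_mul 2).add_const w
    exact h3.rpow_const (Or.inl (by linarith))
  have h4 := h1.mul h2.ofReal_comp
  refine h4.congr_deriv ?_
  unfold AA2_G
  push_cast
  ring

/-- the integral -/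
private noncomputable def AA2_J (j : ℕ) (τ R : ℝ) (f : ℝ → ℂ) (s r : ℝ) : ℂ :=
  ∫ w in (0:ℝ)..R, AA2_k j τ w * AA2_G f s r w

private theorem AA2_Gi (j : ℕ) (τ : ℝ) {R : ℝ} (hR : 0 ≤ R) {f : ℝ → ℂ} (hf : Continuous f)
    (s : ℝ) {r : ℝ} (hr : 0 < r) :
    IntervalIntegrable (fun w => AA2_k j τ w * AA2_G f s r w) volume 0 R := by
  refine (AA2_ki j τ 0 R).mul_continuousOn ?_
  rw [uIcc_of_le hR]
  exact (AA2_Gc hf s R).comp (f := fun w : ℝ => (r, w)) (by fun_prop) fun w hw => ⟨hr, hw⟩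

private theorem AA2_df {f : ℝ → ℂ} (hf : ContDiff ℝ ∞ f) : ContDiff ℝ ∞ (deriv f) :=
  (contDiff_infty_iff_deriv.mp hf).2

private theorem AA2_Jd (j : ℕ) (τ : ℝ) {R : ℝ} (hR : 0 ≤ R) {f : ℝ → ℂ} (hf : ContDiff ℝ ∞ f)
    (s : ℝ) {r : ℝ} (hr : 0 < r) : HasDerivAt (AA2_J j τ R f s)
      (AA2_J j τ R (deriv f) s r + 2 * s * AA2_J j τ R f (s - 1) r) r := by
  have hf' := AA2_df hf
  have h1 := AA2_diff hR (AA2_ki j τ 0 R) (G := AA2_G f s)
    (G' := fun r w => AA2_G (deriv f) s r w + 2 * s * AA2_G f (s - 1) r w)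
    (fun r hr w hw => AA2_Gd hf s hr hw.1) (AA2_Gc hf.continuous s R)
    ((AA2_Gc hf'.continuous s R).add (continuousOn_const.mul (AA2_Gc hf.continuous (s - 1) R))) hr
  refine h1.congr_deriv ?_
  unfold AA2_J
  rw [← intervalIntegral.integral_const_mul, ← intervalIntegral.integral_add
    (AA2_Gi j τ hR hf'.continuous s hr) ((AA2_Gi j τ hR hf.continuous (s - 1) hr).const_mul _)]
  refine intervalIntegral.integral_congr fun w _ => ?_
  show AA2_k j τ w * (AA2_G (deriv f) s r w + 2 * s * AA2_G f (s - 1) r w) =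
    AA2_k j τ w * AA2_G (deriv f) s r w + 2 * s * (AA2_k j τ w * AA2_G f (s - 1) r w)
  ring

private theorem AA2_Js (j : ℕ) (τ : ℝ) {R : ℝ} (hR : 0 ≤ R) (n : ℕ) : ∀ (f : ℝ → ℂ) (s : ℝ),
    ContDiff ℝ ∞ f → ContDiffOn ℝ n (AA2_J j τ R f s) (Ioi 0) := by
  induction n with
  | zero =>
    intro f s hf
    rw [Nat.cast_zero, contDiffOn_zero]
    exact fun r hr => (AA2_Jd j τ hR hf s hr).continuousAt.continuousWithinAt
  | succ n ih =>
    intro f s hf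
    rw [Nat.cast_succ, contDiffOn_succ_iff_deriv_of_isOpen isOpen_Ioi]
    refine ⟨fun r hr => (AA2_Jd j τ hR hf s hr).differentiableAt.differentiableWithinAt,
      fun h => absurd h (by simp), ?_⟩
    have h1 : ContDiffOn ℝ n (fun r => AA2_J j τ R (deriv f) s r +
        2 * s * AA2_J j τ R f (s - 1) r) (Ioi 0) :=
      (ih (deriv f) s (AA2_df hf)).add (contDiffOn_const.mul (ih f (s - 1) hf))
    exact h1.congr fun r hr => (AA2_Jd j τ hR hf s hr).deriv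

private theorem AA2_Jsi (j : ℕ) (τ : ℝ) {R : ℝ} (hR : 0 ≤ R) (f : ℝ → ℂ) (s : ℝ)
    (hf : ContDiff ℝ ∞ f) : ContDiffOn ℝ ∞ (AA2_J j τ R f s) (Ioi 0) :=
  contDiffOn_infty.2 fun n => AA2_Js j τ hR n f s hf

/-- the power of the other factor -/
private theorem AA2_pow {j : ℕ} {ρ r0 s r w : ℝ} (hr0 : 0 < r0) (hρ : 0 ≤ ρ) (hs : s ≤ j)
    (hr : r0 ≤ r) (hw : 0 ≤ w) (hrw : r + w ≤ ρ) :
    (2 * r + w) ^ s ≤ (2 ^ s + (2 * r0) ^ s) * (ρ + 1) ^ j := by
  have hA : 1 ≤ ρ + 1 := by linarith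
  have hA1 : 1 ≤ (ρ + 1) ^ j := one_le_pow₀ hA
  have h0 : 0 ≤ (2 : ℝ) ^ s := Real.rpow_nonneg (by norm_num) s
  have h1 : 0 ≤ (2 * r0) ^ s := Real.rpow_nonneg (by positivity) s
  rcases le_or_gt 0 s with h | h
  · calc (2 * r + w) ^ s ≤ (2 * (ρ + 1)) ^ s :=
        Real.rpow_le_rpow (by linarith) (by linarith) h
      _ = 2 ^ s * (ρ + 1) ^ s := Real.mul_rpow (by norm_num) (by linarith)
      _ ≤ 2 ^ s * (ρ + 1) ^ j := by
        refine mul_le_mul_of_nonneg_left ?_ h0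
        rw [← Real.rpow_natCast]
        exact Real.rpow_le_rpow_of_exponent_le hA hs
      _ ≤ (2 ^ s + (2 * r0) ^ s) * (ρ + 1) ^ j :=
        mul_le_mul_of_nonneg_right (by linarith) (by positivity)
  · calc (2 * r + w) ^ s ≤ (2 * r0) ^ s :=
        Real.rpow_le_rpow_of_nonpos (by positivity) (by linarith) h.le
      _ = (2 * r0) ^ s * 1 := (mul_one _).symm
      _ ≤ (2 ^ s + (2 * r0) ^ s) * (ρ + 1) ^ j :=
        mul_le_mul (by linarith) hA1 zero_le_one (by positivity)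

private theorem AA2_b0 {j : ℕ} {τ ρ N r0 s r : ℝ} {f : ℝ → ℂ} (hr0 : 0 < r0) (hρ : 0 ≤ ρ)
    (hN : ∀ t, ‖f t‖ ≤ N) (hz : ∀ t, ρ < t → f t = 0) (hs : s ≤ j) (hr : r0 ≤ r) :
    ‖AA2_J j τ (ρ + 1) f s r‖ ≤ 2 * (2 ^ s + (2 * r0) ^ s) * N * (ρ + 1) ^ (2 * j + 1) := by
  have hN0 : 0 ≤ N := (norm_nonneg _).trans (hN 0)
  have hA : 1 ≤ ρ + 1 := by linarith
  have hj : (0 : ℝ) ≤ j := Nat.cast_nonneg j
  have h0 : 0 ≤ (2 : ℝ) ^ s := Real.rpow_nonneg (by norm_num) s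
  have h1 : 0 ≤ (2 * r0) ^ s := Real.rpow_nonneg (by positivity) s
  obtain ⟨E, hE⟩ : ∃ E : ℝ, E = N * ((2 ^ s + (2 * r0) ^ s) * (ρ + 1) ^ j) := ⟨_, rfl⟩
  have hE0 : 0 ≤ E := by
    rw [hE]
    positivity
  have hpt : ∀ w : ℝ, w ∈ Ioc 0 (ρ + 1) → ‖AA2_k j τ w * AA2_G f s r w‖ ≤
      w ^ ((j : ℝ) - 1 / 2) * E := by
    intro w hw
    rw [norm_mul, AA2_kn j τ hw.1.le]
    refine mul_le_mul_of_nonneg_left ?_ (Real.rpow_nonneg hw.1.le _)
    unfold AA2_G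
    by_cases hrw : ρ < r + w
    · rw [hz _ hrw, zero_mul, norm_zero]
      exact hE0
    · have h2 := AA2_pow (j := j) hr0 hρ hs hr hw.1.le (not_lt.1 hrw)
      have h3 : 0 ≤ (2 * r + w) ^ s := Real.rpow_nonneg (by linarith [hw.1]) s
      rw [norm_mul, Complex.norm_real, Real.norm_of_nonneg h3, hE]
      exact mul_le_mul (hN _) h2 h3 hN0
  have h2 := intervalIntegral.norm_integral_le_of_norm_le (by linarith : (0 : ℝ) ≤ ρ + 1)
    (ae_of_all _ hpt) ((AA2_ri j 0 (ρ + 1)).mul_const E)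
  refine h2.trans ?_
  rw [intervalIntegral.integral_mul_const, integral_rpow (Or.inl (by linarith)),
    Real.zero_rpow (by linarith), sub_zero]
  have h3 : (ρ + 1) ^ ((j : ℝ) - 1 / 2 + 1) / ((j : ℝ) - 1 / 2 + 1) ≤ 2 * (ρ + 1) ^ (j + 1) := by
    have h4 : (ρ + 1) ^ ((j : ℝ) - 1 / 2 + 1) ≤ (ρ + 1) ^ (j + 1) := by
      rw [← Real.rpow_natCast]
      refine Real.rpow_le_rpow_of_exponent_le hA ?_
      push_cast
      linarith
    have h5 : 0 ≤ (ρ + 1) ^ (j + 1) := by positivity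
    rw [div_le_iff₀ (by linarith)]
    nlinarith [mul_nonneg h5 hj]
  calc (ρ + 1) ^ ((j : ℝ) - 1 / 2 + 1) / ((j : ℝ) - 1 / 2 + 1) * E ≤
        2 * (ρ + 1) ^ (j + 1) * E := mul_le_mul_of_nonneg_right h3 hE0
    _ = 2 * (2 ^ s + (2 * r0) ^ s) * N * (ρ + 1) ^ (2 * j + 1) := by
      rw [hE]
      ring

/-- the constants -/
private noncomputable def AA2_C (r0 : ℝ) : ℕ → ℝ → ℝ
  | 0, s => 2 * (2 ^ s + (2 * r0) ^ s)
  | k + 1, s => AA2_C r0 k s + 2 * |s| * AA2_C r0 k (s - 1)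

private theorem AA2_C0 {r0 : ℝ} (hr0 : 0 < r0) (k : ℕ) : ∀ s, 0 ≤ AA2_C r0 k s := by
  induction k with
  | zero =>
    intro s
    have h0 : 0 ≤ (2 : ℝ) ^ s := Real.rpow_nonneg (by norm_num) s
    have h1 : 0 ≤ (2 * r0) ^ s := Real.rpow_nonneg (by positivity) s
    show 0 ≤ 2 * (2 ^ s + (2 * r0) ^ s)
    positivity
  | succ k ih =>
    intro s
    show 0 ≤ AA2_C r0 k s + 2 * |s| * AA2_C r0 k (s - 1)
    have h1 := ih s
    have h2 := ih (s - 1)
    positivity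

private theorem AA2_it {j : ℕ} {τ ρ N r0 : ℝ} (hr0 : 0 < r0) (hρ : 0 ≤ ρ) (k : ℕ) :
    ∀ (f : ℝ → ℂ) (s : ℝ), ContDiff ℝ ∞ f → (∀ t, ρ < t → f t = 0) →
      (∀ i ≤ k, ∀ t, ‖iteratedDeriv i f t‖ ≤ N) → s ≤ j → ∀ r, r0 ≤ r →
      ‖iteratedDeriv k (AA2_J j τ (ρ + 1) f s) r‖ ≤ AA2_C r0 k s * N * (ρ + 1) ^ (2 * j + 1) := by
  have hR : 0 ≤ ρ + 1 := by linarith
  induction k with
  | zero =>
    intro f s hf hz hN hs r hr
    rw [iteratedDeriv_zero]
    refine AA2_b0 hr0 hρ (fun t => ?_) hz hs hr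
    have h1 := hN 0 le_rfl t
    rwa [iteratedDeriv_zero] at h1
  | succ k ih =>
    intro f s hf hz hN hs r hr
    have hr' : 0 < r := lt_of_lt_of_le hr0 hr
    have hf' := AA2_df hf
    have hz' : ∀ t, ρ < t → deriv f t = 0 := by
      intro t ht
      have he : f =ᶠ[𝓝 t] fun _ => 0 := by
        filter_upwards [lt_mem_nhds ht] with u hu
        exact hz u hu
      rw [he.deriv_eq]
      simp
    have h1 := ih (deriv f) s hf' hz' (fun i hi t => by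
      rw [← iteratedDeriv_succ']
      exact hN (i + 1) (by omega) t) hs r hr
    have h2 := ih f (s - 1) hf hz (fun i hi t => hN i (by omega) t) (by linarith) r hr
    have he : deriv (AA2_J j τ (ρ + 1) f s) =ᶠ[𝓝 r] fun r => AA2_J j τ (ρ + 1) (deriv f) s r +
        2 * s * AA2_J j τ (ρ + 1) f (s - 1) r := by
      filter_upwards [lt_mem_nhds hr'] with u hu
      exact (AA2_Jd j τ hR hf s hu).deriv
    have c1 : ContDiffAt ℝ k (AA2_J j τ (ρ + 1) (deriv f) s) r :=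
      (AA2_Js j τ hR k (deriv f) s hf').contDiffAt (Ioi_mem_nhds hr')
    have c2 : ContDiffAt ℝ k (AA2_J j τ (ρ + 1) f (s - 1)) r :=
      (AA2_Js j τ hR k f (s - 1) hf).contDiffAt (Ioi_mem_nhds hr')
    rw [iteratedDeriv_succ', he.iteratedDeriv_eq,
      iteratedDeriv_fun_add c1 (contDiffAt_const.mul c2), iteratedDeriv_const_mul_field]
    refine (norm_add_le _ _).trans ?_
    rw [norm_mul, norm_mul, Complex.norm_real, Real.norm_eq_abs, Complex.norm_ofNat]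
    calc _ ≤ AA2_C r0 k s * N * (ρ + 1) ^ (2 * j + 1) +
          2 * |s| * (AA2_C r0 k (s - 1) * N * (ρ + 1) ^ (2 * j + 1)) :=
        add_le_add h1 (mul_le_mul_of_nonneg_left h2 (by positivity))
      _ = (AA2_C r0 k s + 2 * |s| * AA2_C r0 k (s - 1)) * N * (ρ + 1) ^ (2 * j + 1) := by ring

/-- the constant of the symbol -/
private noncomputable def AA2_c (j : ℕ) : ℝ := 1 / (√Real.pi * Real.Gamma ((j : ℝ) + 1 / 2))

private theorem AA2_c0 (j : ℕ) : 0 ≤ AA2_c j := by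
  have : 0 < Real.Gamma ((j : ℝ) + 1 / 2) := Real.Gamma_pos_of_pos (by positivity)
  unfold AA2_c
  positivity

/-- the differentiated amplitude -/
private noncomputable def AA2_F (f : ℝ → ℂ) (τ : ℝ) (t : ℝ) : ℂ := deriv f t - Complex.I * τ * f t

private theorem AA2_F0 {f : ℝ → ℂ} {ρ τ : ℝ} (ha0 : ∀ t, ρ < t → f t = 0) {t : ℝ} (ht : ρ < t) :
    AA2_F f τ t = 0 := by
  have he : f =ᶠ[𝓝 t] fun _ => 0 := by
    filter_upwards [lt_mem_nhds ht] with u hu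
    exact ha0 u hu
  unfold AA2_F
  rw [he.deriv_eq, ha0 t ht]
  simp

private theorem AA2_al {f : ℝ → ℂ} {ρ τ : ℝ} (hρ : 0 ≤ ρ) (ha0 : ∀ t, ρ < t → f t = 0)
    (j : ℕ) {r : ℝ} (hr : 0 < r) : al j f τ r =
      ((-AA2_c j : ℝ) : ℂ) * AA2_J j τ (ρ + 1) (AA2_F f τ) ((j : ℝ) - 1 / 2) r := by
  have hR : 0 ≤ ρ + 1 := by linarith
  have e1 : ∫ u in Ioi (0 : ℝ), (-(Complex.I * τ) * f (r + u) + deriv f (r + u)) *
      (((u * (2 * r + u)) ^ ((j : ℝ) - 1 / 2) : ℝ) : ℂ) * Complex.exp (-(Complex.I * τ * u)) =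
      ∫ w in (0:ℝ)..(ρ + 1), AA2_k j τ w * AA2_G (AA2_F f τ) ((j : ℝ) - 1 / 2) r w := by
    rw [intervalIntegral.integral_of_le hR]
    have e2 : ∀ u ∈ Ioi (0 : ℝ), (-(Complex.I * τ) * f (r + u) + deriv f (r + u)) *
      (((u * (2 * r + u)) ^ ((j : ℝ) - 1 / 2) : ℝ) : ℂ) * Complex.exp (-(Complex.I * τ * u)) =
        AA2_k j τ u * AA2_G (AA2_F f τ) ((j : ℝ) - 1 / 2) r u := by
      intro u hu
      have hu' : 0 < u := hu
      rw [Real.mul_rpow hu'.le (by linarith)]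
      unfold AA2_k AA2_G AA2_F
      push_cast
      ring
    rw [setIntegral_congr_fun measurableSet_Ioi e2]
    refine setIntegral_eq_of_subset_of_forall_sdiff_eq_zero measurableSet_Ioi
      (fun w hw => hw.1) ?_
    rintro w ⟨hw1, hw2⟩
    have h1 : 0 < w := hw1
    have h2 : ρ + 1 < w := by
      by_contra h3
      exact hw2 ⟨h1, not_lt.1 h3⟩
    unfold AA2_G
    rw [AA2_F0 ha0 (by linarith)]
    simp
  unfold al AA2_J
  rw [e1, AA2_c]
  push_cast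
  ring

/-- the cut-off -/
private noncomputable def AA2_h (r0 r : ℝ) : ℂ := ((Real.smoothTransition (4 * r / r0 - 1) : ℝ) : ℂ)

private theorem AA2_hs (r0 : ℝ) : ContDiff ℝ ∞ (AA2_h r0) := by
  have h1 : ContDiff ℝ ∞ fun r : ℝ => 4 * r / r0 - 1 := by fun_prop
  exact Complex.ofRealCLM.contDiff.comp (Real.smoothTransition.contDiff.comp h1)

private theorem AA2_h_zero {r0 : ℝ} (hr0 : 0 < r0) {r : ℝ} (hr : r ≤ r0 / 4) : AA2_h r0 r = 0 := by
  unfold AA2_h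
  rw [Real.smoothTransition.zero_of_nonpos, Complex.ofReal_zero]
  rw [sub_nonpos, div_le_one hr0]
  linarith

private theorem AA2_h_one {r0 : ℝ} (hr0 : 0 < r0) {r : ℝ} (hr : r0 / 2 ≤ r) : AA2_h r0 r = 1 := by
  unfold AA2_h
  rw [Real.smoothTransition.one_of_one_le, Complex.ofReal_one]
  rw [le_sub_iff_add_le, le_div_iff₀ hr0]
  linarith

private theorem AA2_hb {r0 : ℝ} (hr0 : 0 < r0) (n : ℕ) : ∃ C : ℝ, 0 ≤ C ∧ ∀ k ≤ n, ∀ r : ℝ,
    ‖iteratedDeriv k (AA2_h r0) r‖ ≤ C := by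
  have h1 : ∀ k : ℕ, ∃ C : ℝ, 0 ≤ C ∧ ∀ r : ℝ, ‖iteratedDeriv k (AA2_h r0) r‖ ≤ C := by
    intro k
    have hc : Continuous (iteratedDeriv k (AA2_h r0)) :=
      (AA2_hs r0).continuous_iteratedDeriv k (by exact_mod_cast le_top)
    obtain ⟨B, hB⟩ := isCompact_Icc.exists_bound_of_continuousOn (s := Icc (r0 / 4) (r0 / 2))
      hc.continuousOn
    refine ⟨max B 1, le_max_of_le_right zero_le_one, fun r => ?_⟩
    by_cases hr : r ∈ Icc (r0 / 4) (r0 / 2)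
    · exact (hB r hr).trans (le_max_left _ _)
    · have h2 : r < r0 / 4 ∨ r0 / 2 < r := by
        by_contra h3
        push Not at h3
        exact hr ⟨h3.1, h3.2⟩
      refine le_trans ?_ (le_max_right B 1)
      rcases h2 with h2 | h2
      · have he : AA2_h r0 =ᶠ[𝓝 r] fun _ => (0 : ℂ) := by
          filter_upwards [gt_mem_nhds h2] with u hu
          exact AA2_h_zero hr0 (le_of_lt hu)
        rw [he.iteratedDeriv_eq, iteratedDeriv_const]
        split_ifs <;> simp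
      · have he : AA2_h r0 =ᶠ[𝓝 r] fun _ => (1 : ℂ) := by
          filter_upwards [lt_mem_nhds h2] with u hu
          exact AA2_h_one hr0 (le_of_lt hu)
        rw [he.iteratedDeriv_eq, iteratedDeriv_const]
        split_ifs <;> simp
  choose C hC hb using h1
  refine ⟨∑ k ∈ Finset.range (n + 1), C k, Finset.sum_nonneg fun k _ => hC k,
    fun k hk r => (hb k r).trans ?_⟩
  exact Finset.single_le_sum (f := C) (fun i _ => hC i) (Finset.mem_range.2 (by omega))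

theorem alc_bound {r0 : ℝ} (hr0 : 0 < r0) (j n : ℕ) : ∃ C : ℕ, ∀ (f : ℝ → ℂ) (ρ M τ : ℝ), 0 ≤ ρ →
    BE73.AmpN (n + 1) f ρ M → 1 ≤ τ → ContDiff ℝ ∞ (alc r0 j f τ) ∧
      ∀ k ≤ n, ∀ r : ℝ, ‖iteratedDeriv k (alc r0 j f τ) r‖ ≤ C * (1 + ρ) ^ C * (M * τ) := by
  obtain ⟨s, hs⟩ : ∃ s : ℝ, s = (j : ℝ) - 1 / 2 := ⟨_, rfl⟩
  have hr1 : 0 < r0 / 4 := by positivity
  have hc0 := AA2_c0 j
  have hS : 0 ≤ ∑ i ∈ Finset.range (n + 1), AA2_C (r0 / 4) i s :=
    Finset.sum_nonneg fun i _ => AA2_C0 hr1 i s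
  set Sg := ∑ i ∈ Finset.range (n + 1), AA2_C (r0 / 4) i s with hSg
  obtain ⟨Ch, hCh, hhb⟩ := AA2_hb hr0 n
  obtain ⟨Cn, hCn⟩ := exists_nat_ge (2 ^ n * Ch * (AA2_c j * Sg * 2))
  refine ⟨max Cn (2 * j + 1), fun a ρ M τ hρ ha hτ => ?_⟩
  have hR : 0 ≤ ρ + 1 := by linarith
  have hM0 : 0 ≤ M := (norm_nonneg _).trans (ha.bound 0 (by omega) 0)
  have ha0 : ∀ t, ρ < t → a t = 0 := fun t ht =>
    ha.amp.supp t (by rwa [abs_of_pos (lt_of_le_of_lt hρ ht)])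
  obtain ⟨f, hf⟩ : ∃ f : ℝ → ℂ, f = AA2_F a τ := ⟨_, rfl⟩
  have hf' : f = fun t => deriv a t - Complex.I * τ * a t := hf
  have hfs : ContDiff ℝ ∞ f := by
    rw [hf']
    exact (AA2_df ha.amp.smooth).sub (contDiff_const.mul ha.amp.smooth)
  have hf0 : ∀ t, ρ < t → f t = 0 := by
    intro t ht
    rw [hf]
    exact AA2_F0 ha0 ht
  have hfb : ∀ i ≤ n, ∀ t, ‖iteratedDeriv i f t‖ ≤ 2 * τ * M := by
    intro i hi t
    have c1 : ContDiffAt ℝ i (deriv a) t :=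
      (AA2_df ha.amp.smooth).contDiffAt.of_le (by exact_mod_cast le_top)
    have c2 : ContDiffAt ℝ i a t := ha.amp.smooth.contDiffAt.of_le (by exact_mod_cast le_top)
    rw [hf', iteratedDeriv_fun_sub c1 (contDiffAt_const.mul c2), iteratedDeriv_const_mul_field,
      ← iteratedDeriv_succ']
    refine (norm_sub_le _ _).trans ?_
    rw [norm_mul, norm_mul, Complex.norm_I, one_mul, Complex.norm_real,
      Real.norm_of_nonneg (by linarith)]
    have h1 := ha.bound (i + 1) (by omega) t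
    have h2 := ha.bound i (by omega) t
    calc _ ≤ M + τ * M := add_le_add h1 (mul_le_mul_of_nonneg_left h2 (by linarith))
      _ ≤ 2 * τ * M := by nlinarith
  set β : ℝ → ℂ := fun r => ((-AA2_c j : ℝ) : ℂ) * AA2_J j τ (ρ + 1) f s r with hβ
  have hβs : ContDiffOn ℝ ∞ β (Ioi 0) := contDiffOn_const.mul (AA2_Jsi j τ hR f s hfs)
  have hβb : ∀ k ≤ n, ∀ r, r0 / 4 ≤ r →
      ‖iteratedDeriv k β r‖ ≤ AA2_c j * (Sg * (2 * τ * M) * (ρ + 1) ^ (2 * j + 1)) := by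
    intro k hk r hr
    have hsj : s ≤ j := by
      rw [hs]
      linarith
    have h1 := AA2_it (j := j) (τ := τ) (N := 2 * τ * M) hr1 hρ k f s hfs hf0
      (fun i hi t => hfb i (hi.trans hk) t) hsj r hr
    rw [hβ, iteratedDeriv_const_mul_field, norm_mul, Complex.norm_real, norm_neg,
      Real.norm_of_nonneg hc0]
    have h2 : AA2_C (r0 / 4) k s ≤ Sg :=
      Finset.single_le_sum (f := fun i => AA2_C (r0 / 4) i s) (fun i _ => AA2_C0 hr1 i s)
        (Finset.mem_range.2 (by omega))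
    have h3 : 0 ≤ 2 * τ * M := by positivity
    refine mul_le_mul_of_nonneg_left (h1.trans ?_) hc0
    exact mul_le_mul_of_nonneg_right (mul_le_mul_of_nonneg_right h2 h3) (by positivity)
  have hal : ∀ r, 0 < r → alc r0 j a τ r = AA2_h r0 r * β r := by
    intro r hr
    unfold alc
    rw [AA2_al hρ ha0 j hr, ← hs, ← hf]
    rfl
  have hz : ∀ r, r ≤ r0 / 4 → alc r0 j a τ r = 0 := by
    intro r hr
    have h1 := AA2_h_zero hr0 hr
    unfold AA2_h at h1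
    unfold alc
    rw [h1, zero_mul]
  have hez : ∀ r, r < r0 / 4 → alc r0 j a τ =ᶠ[𝓝 r] fun _ => (0 : ℂ) := by
    intro r hr
    filter_upwards [gt_mem_nhds hr] with u hu
    exact hz u (le_of_lt hu)
  have hep : ∀ r, 0 < r → alc r0 j a τ =ᶠ[𝓝 r] fun r => AA2_h r0 r * β r := by
    intro r hr
    filter_upwards [lt_mem_nhds hr] with u hu
    exact hal u hu
  refine ⟨?_, ?_⟩
  · rw [contDiff_iff_contDiffAt]
    intro r
    rcases lt_or_ge r (r0 / 4) with hr | hr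
    · exact contDiffAt_const.congr_of_eventuallyEq (hez r hr)
    · have hr' : 0 < r := lt_of_lt_of_le hr1 hr
      exact ((AA2_hs r0).contDiffAt.mul (hβs.contDiffAt (Ioi_mem_nhds hr'))).congr_of_eventuallyEq
        (hep r hr')
  · intro k hk r
    have hX : 0 ≤ AA2_c j * (Sg * (2 * τ * M) * (ρ + 1) ^ (2 * j + 1)) := by positivity
    have hτ0 : 0 ≤ τ := by linarith
    rcases lt_or_ge r (r0 / 4) with hr | hr
    · rw [(hez r hr).iteratedDeriv_eq, iteratedDeriv_const]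
      have : 0 ≤ ((max Cn (2 * j + 1) : ℕ) : ℝ) * (1 + ρ) ^ (max Cn (2 * j + 1)) * (M * τ) := by
        positivity
      split_ifs <;> simpa using this
    · have hr' : 0 < r := lt_of_lt_of_le hr1 hr
      rw [(hep r hr').iteratedDeriv_eq]
      have hmem : r ∈ Ioi (0 : ℝ) := hr'
      have h1 := norm_iteratedFDerivWithin_mul_le (𝕜 := ℝ) (A := ℂ) (N := (∞ : WithTop ℕ∞))
        (AA2_hs r0).contDiffOn hβs isOpen_Ioi.uniqueDiffOn hmem (n := k)
        (by exact_mod_cast le_top)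
      have ew : ∀ (g : ℝ → ℂ) (i : ℕ), ‖iteratedFDerivWithin ℝ i g (Ioi 0) r‖ =
          ‖iteratedDeriv i g r‖ := by
        intro g i
        rw [iteratedFDerivWithin_of_isOpen i isOpen_Ioi hmem,
          norm_iteratedFDeriv_eq_norm_iteratedDeriv]
      rw [ew] at h1
      refine h1.trans ?_
      have h2 : ∀ i ∈ Finset.range (k + 1), (k.choose i : ℝ) *
          ‖iteratedFDerivWithin ℝ i (AA2_h r0) (Ioi 0) r‖ *
          ‖iteratedFDerivWithin ℝ (k - i) β (Ioi 0) r‖ ≤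
          (k.choose i : ℝ) *
            (Ch * (AA2_c j * (Sg * (2 * τ * M) * (ρ + 1) ^ (2 * j + 1)))) := by
        intro i hi
        have hi' : i ≤ k := Nat.lt_succ_iff.1 (Finset.mem_range.1 hi)
        rw [ew, ew, mul_assoc]
        refine mul_le_mul_of_nonneg_left ?_ (Nat.cast_nonneg _)
        exact mul_le_mul (hhb i (hi'.trans hk) r) (hβb (k - i) (by omega) r hr) (norm_nonneg _) hCh
      refine (Finset.sum_le_sum h2).trans ?_
      rw [← Finset.sum_mul]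
      have h3 : ∑ i ∈ Finset.range (k + 1), (k.choose i : ℝ) = 2 ^ k := by
        exact_mod_cast Nat.sum_range_choose k
      rw [h3]
      have h4 : (2 : ℝ) ^ k ≤ 2 ^ n := pow_le_pow_right₀ (by norm_num) hk
      have h5 : (1 + ρ) ^ (2 * j + 1) ≤ (1 + ρ) ^ (max Cn (2 * j + 1)) :=
        pow_le_pow_right₀ (by linarith) (le_max_right _ _)
      have h6 : (Cn : ℝ) ≤ ((max Cn (2 * j + 1) : ℕ) : ℝ) := by exact_mod_cast le_max_left _ _
      calc 2 ^ k * (Ch * (AA2_c j * (Sg * (2 * τ * M) * (ρ + 1) ^ (2 * j + 1))))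
          ≤ 2 ^ n * (Ch * (AA2_c j * (Sg * (2 * τ * M) * (ρ + 1) ^ (2 * j + 1)))) :=
            mul_le_mul_of_nonneg_right h4 (mul_nonneg hCh hX)
        _ = (2 ^ n * Ch * (AA2_c j * Sg * 2)) * (1 + ρ) ^ (2 * j + 1) * (M * τ) := by ring
        _ ≤ (Cn : ℝ) * (1 + ρ) ^ (2 * j + 1) * (M * τ) := by gcongr
        _ ≤ ((max Cn (2 * j + 1) : ℕ) : ℝ) * (1 + ρ) ^ (max Cn (2 * j + 1)) * (M * τ) := by
            gcongr

theorem alc_eq {r0 : ℝ} (hr0 : 0 < r0) (j : ℕ) (f : ℝ → ℂ) (τ : ℝ) {r : ℝ} (hr : r0 / 2 ≤ r) :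
    alc r0 j f τ r = al j f τ r := by
  have h1 := AA2_h_one hr0 hr
  unfold AA2_h at h1
  unfold alc
  rw [h1, one_mul]

end BE
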