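import Pool.Agent.LibBE99.Defs
import Pool.Agent.LibBR70.AB5

/-! Row A0 (cites `LibBR70/AB1`, `AB2`, `AB5`, `AB6`): the symbol `al` is a complex Abel transform.
MEDIUM, 45 min.
Notation: `al j f τ r = -c_j ∫_{u > 0} (-iτ f (r + u) + f' (r + u)) (u (2 r + u))^(j - 1/2) e^(-iτu) du`,
`c_j = 1 / (√π Γ(j + 1/2))`; `osc f τ t`, `osc2 f τ t` are the real and imaginary part of
`q t = e^(-iτt) f t`, `q' t = e^(-iτt) (-iτ f t + f' t)`.
Plan. `osc2_Tl`: the imaginary part of a smooth function is smooth; `f t = 0` for `ρ < t`; the same for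
`osc_Tl'`. `al_eq`: `Ab_eq` (`AB5.lean`): `Ab j q (r ^ 2) = -c_j ∫_{t > √(r ^ 2)} q' t (t ^ 2 - r ^ 2)^(j - 1/2) dt`
for `q = osc f τ` and for `q = osc2 f τ` (`Real.sqrt_sq`, `r > 0`); substitute `t = r + u`
(`integral_Ioi_comp_add`-type lemma, cf. the proofs in `AB5.lean`, `AB6.lean`), `t ^ 2 - r ^ 2 = u (2 r + u)`;
`e^(-iτr)` goes under the integral of `al` (`integral_const_mul`) and gives
`∫ (q' (r + u)) (u (2r + u))^(j - 1/2) du`; split into real and imaginary part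
(`integral_re_add_im`, `reCLM`, `imCLM` and `ContinuousLinearMap.integral_comp_comm`) : integrability from
the bound `‖q' (r + u)‖ (u (2 r + u))^(j - 1/2) ≤ C u^(-1/2)` on `0 < u ≤ ρ`, zero for `u > ρ`
(`AB6_dom`, private in `LibBR70/AB6.lean`, copy it). `al_zero`: `f` and `deriv f` vanish on `(ρ, ∞)`.
`al_smooth`: `al = e^(iτr) (Ab .. + i Ab ..)` on `(0, ∞)` and `Ab_contDiffOn` (`AB2.lean`), composed with
`r ↦ r ^ 2`. -/

open MeasureTheory Set Filter Topology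
open scoped ContDiff

namespace BE

open BGS BR

/-- the derivative of the oscillating function -/
noncomputable def A0_q (f : ℝ → ℂ) (τ t : ℝ) : ℂ :=
  -(Complex.I * τ) * Complex.exp (-(Complex.I * τ * t)) * f t +
    Complex.exp (-(Complex.I * τ * t)) * deriv f t

theorem A0_ed (τ u : ℝ) : HasDerivAt (fun u : ℝ => Complex.exp (-(Complex.I * τ * u)))
    (-(Complex.I * τ) * Complex.exp (-(Complex.I * τ * u))) u := by
  have h1 : HasDerivAt (fun u : ℝ => -(Complex.I * τ * (u : ℂ))) (-(Complex.I * τ)) u := by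
    have h2 : HasDerivAt (fun u : ℝ => (u : ℂ)) 1 u := (hasDerivAt_id u).ofReal_comp
    have h3 := (h2.const_mul (Complex.I * τ)).neg
    rw [mul_one] at h3
    exact h3
  exact h1.cexp.congr_deriv (mul_comm _ _)

theorem A0_ad {f : ℝ → ℂ} {ρ M : ℝ} (hf : Amp f ρ M) (t : ℝ) :
    HasDerivAt f (deriv f t) t :=
  ((hf.smooth.differentiable (by simp)) t).hasDerivAt

theorem A0_qd {f : ℝ → ℂ} {ρ M : ℝ} (hf : Amp f ρ M) (τ t : ℝ) :
    HasDerivAt (fun t : ℝ => Complex.exp (-(Complex.I * τ * t)) * f t) (A0_q f τ t) t :=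
  (A0_ed τ t).mul (A0_ad hf t)

theorem A0_re {f : ℝ → ℂ} {ρ M : ℝ} (hf : Amp f ρ M) (τ t : ℝ) :
    deriv (osc f τ) t = (A0_q f τ t).re :=
  (Complex.reCLM.hasFDerivAt.comp_hasDerivAt t (A0_qd hf τ t)).deriv

theorem A0_im {f : ℝ → ℂ} {ρ M : ℝ} (hf : Amp f ρ M) (τ t : ℝ) :
    deriv (osc2 f τ) t = (A0_q f τ t).im :=
  (Complex.imCLM.hasFDerivAt.comp_hasDerivAt t (A0_qd hf τ t)).deriv

theorem A0_dc {f : ℝ → ℂ} {ρ M : ℝ} (hf : Amp f ρ M) : Continuous (deriv f) :=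
  hf.smooth.continuous_deriv (by simp)

theorem A0_qc {f : ℝ → ℂ} {ρ M : ℝ} (hf : Amp f ρ M) (τ : ℝ) : Continuous (A0_q f τ) := by
  have h1 : Continuous fun u : ℝ => Complex.exp (-(Complex.I * τ * u)) := by fun_prop
  exact ((continuous_const.mul h1).mul hf.smooth.continuous).add (h1.mul (A0_dc hf))

theorem A0_z0 {f : ℝ → ℂ} {ρ M : ℝ} (hf : Amp f ρ M) {t : ℝ} (ht : ρ < t) : f t = 0 :=
  hf.supp t (lt_of_lt_of_le ht (le_abs_self t))

theorem A0_z1 {f : ℝ → ℂ} {ρ M : ℝ} (hf : Amp f ρ M) {t : ℝ} (ht : ρ < t) : deriv f t = 0 := by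
  have he : f =ᶠ[𝓝 t] fun _ => 0 := by
    filter_upwards [lt_mem_nhds ht] with s hs
    exact A0_z0 hf hs
  rw [he.deriv_eq, deriv_const]

theorem A0_qz {f : ℝ → ℂ} {ρ M : ℝ} (hf : Amp f ρ M) (τ : ℝ) {t : ℝ} (ht : ρ < t) :
    A0_q f τ t = 0 := by
  unfold A0_q
  rw [A0_z0 hf ht, A0_z1 hf ht, mul_zero, mul_zero, add_zero]

theorem A0_int {F : ℝ → ℂ} (hF : Continuous F) {R : ℝ} (hR : 0 ≤ R) (h0 : ∀ u, R < u → F u = 0)
    (j : ℕ) {r : ℝ} (hr : 0 < r) :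
    IntegrableOn (fun u : ℝ => F u * (((u * (2 * r + u)) ^ ((j : ℝ) - 1 / 2) : ℝ) : ℂ))
      (Ioi 0) := by
  have hj : (-1 : ℝ) < (j : ℝ) - 1 / 2 := by
    have : (0 : ℝ) ≤ j := Nat.cast_nonneg j
    linarith
  rw [← Ioc_union_Ioi_eq_Ioi hR]
  refine IntegrableOn.union ?_ ?_
  · have h1 : IntervalIntegrable (fun v : ℝ => v ^ ((j : ℝ) - 1 / 2)) volume 0 R :=
      intervalIntegral.intervalIntegrable_rpow' hj
    have h2 : IntervalIntegrable (fun v : ℝ => ((v ^ ((j : ℝ) - 1 / 2) : ℝ) : ℂ)) volume 0 R :=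
      ⟨h1.1.ofReal, h1.2.ofReal⟩
    have h3 : ContinuousOn (fun v : ℝ => F v * (((2 * r + v) ^ ((j : ℝ) - 1 / 2) : ℝ) : ℂ))
        (uIcc 0 R) := by
      rw [uIcc_of_le hR]
      refine hF.continuousOn.mul ?_
      refine Complex.continuous_ofReal.comp_continuousOn ?_
      refine ContinuousOn.rpow_const (by fun_prop) fun v hv => Or.inl ?_
      have := hv.1
      exact (by linarith : 0 < 2 * r + v).ne'
    have h4 := h2.continuousOn_mul h3
    have h5 := (intervalIntegrable_iff_integrableOn_Ioc_of_le hR).1 h4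
    refine h5.congr_fun (fun u hu => ?_) measurableSet_Ioc
    have hu0 : 0 < u := hu.1
    show F u * (((2 * r + u) ^ ((j : ℝ) - 1 / 2) : ℝ) : ℂ) * ((u ^ ((j : ℝ) - 1 / 2) : ℝ) : ℂ) =
      F u * (((u * (2 * r + u)) ^ ((j : ℝ) - 1 / 2) : ℝ) : ℂ)
    rw [Real.mul_rpow hu0.le (by linarith)]
    push_cast
    ring
  · refine IntegrableOn.congr_fun integrableOn_zero ?_ measurableSet_Ioi
    intro u hu
    show (0 : ℂ) = F u * _
    rw [h0 u hu, zero_mul]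

theorem A0_shift (h : ℝ → ℝ) (j : ℕ) {r : ℝ} :
    ∫ t in Ioi r, h t * (t ^ 2 - r ^ 2) ^ ((j : ℝ) - 1 / 2) =
      ∫ u in Ioi (0 : ℝ), h (r + u) * (u * (2 * r + u)) ^ ((j : ℝ) - 1 / 2) := by
  rw [← integral_indicator measurableSet_Ioi, ← integral_indicator measurableSet_Ioi,
    ← integral_add_left_eq_self _ r]
  congr 1
  ext u
  by_cases hu : 0 < u
  · rw [indicator_of_mem (show r + u ∈ Ioi r from by simpa using hu),
      indicator_of_mem (show u ∈ Ioi (0 : ℝ) from hu)]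
    congr 2
    ring
  · rw [indicator_of_notMem (show r + u ∉ Ioi r from by simpa using hu),
      indicator_of_notMem (show u ∉ Ioi (0 : ℝ) from hu)]

theorem A0_Tl {f : ℝ → ℂ} {ρ M : ℝ} (hf : Amp f ρ M) (τ : ℝ) : Tl (osc f τ) ρ := by
  refine ⟨osc_smooth hf τ, fun t ht => ?_⟩
  unfold osc
  rw [A0_z0 hf ht, mul_zero, Complex.zero_re]

theorem osc2_Tl {f : ℝ → ℂ} {ρ M : ℝ} (hf : Amp f ρ M) (τ : ℝ) : Tl (osc2 f τ) ρ := by
  have h1 : ContDiff ℝ ∞ fun t : ℝ => Complex.exp (-(Complex.I * τ * t)) := by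
    have h2 : ContDiff ℝ ∞ fun t : ℝ => (t : ℂ) := Complex.ofRealCLM.contDiff
    exact (contDiff_const.mul h2).neg.cexp
  refine ⟨Complex.imCLM.contDiff.comp (h1.mul hf.smooth), fun t ht => ?_⟩
  unfold osc2
  rw [A0_z0 hf ht, mul_zero, Complex.zero_im]

theorem al_eq {f : ℝ → ℂ} {ρ M : ℝ} (hρ : 0 ≤ ρ) (hf : Amp f ρ M) (j : ℕ) (τ : ℝ) {r : ℝ}
    (hr : 0 < r) : Complex.exp (-(Complex.I * τ * r)) * al j f τ r =
      ((Ab j (osc f τ) (r ^ 2) : ℝ) : ℂ) + Complex.I * ((Ab j (osc2 f τ) (r ^ 2) : ℝ) : ℂ) := by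
  set c : ℝ := 1 / (√Real.pi * Real.Gamma ((j : ℝ) + 1 / 2)) with hc
  set W : ℝ → ℂ := fun u => A0_q f τ (r + u) * (((u * (2 * r + u)) ^ ((j : ℝ) - 1 / 2) : ℝ) : ℂ)
    with hW
  have hWi : IntegrableOn W (Ioi 0) :=
    A0_int (F := fun u => A0_q f τ (r + u)) ((A0_qc hf τ).comp (continuous_const.add continuous_id))
      hρ (fun u hu => A0_qz hf τ (by linarith)) j hr
  have h1 : Ab j (osc f τ) (r ^ 2) = -(c * (∫ u in Ioi (0 : ℝ), W u).re) := by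
    rw [Ab_eq hρ (A0_Tl hf τ) j (sq_nonneg r), Real.sqrt_sq hr.le, A0_shift]
    have h2 : (∫ u in Ioi (0 : ℝ), W u).re = ∫ u in Ioi (0 : ℝ), (W u).re :=
      (integral_re hWi).symm
    rw [h2]
    congr 2
    refine setIntegral_congr_fun measurableSet_Ioi fun u _ => ?_
    show deriv (osc f τ) (r + u) * _ = (W u).re
    rw [A0_re hf, hW]
    exact (Complex.re_mul_ofReal _ _).symm
  have h2 : Ab j (osc2 f τ) (r ^ 2) = -(c * (∫ u in Ioi (0 : ℝ), W u).im) := by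
    rw [Ab_eq hρ (osc2_Tl hf τ) j (sq_nonneg r), Real.sqrt_sq hr.le, A0_shift]
    have h2 : (∫ u in Ioi (0 : ℝ), W u).im = ∫ u in Ioi (0 : ℝ), (W u).im :=
      (integral_im hWi).symm
    rw [h2]
    congr 2
    refine setIntegral_congr_fun measurableSet_Ioi fun u _ => ?_
    show deriv (osc2 f τ) (r + u) * _ = (W u).im
    rw [A0_im hf, hW]
    exact (Complex.im_mul_ofReal _ _).symm
  have h3 : Complex.exp (-(Complex.I * τ * r)) * al j f τ r =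
      -(c : ℂ) * ∫ u in Ioi (0 : ℝ), W u := by
    unfold al
    rw [← hc, mul_left_comm, ← integral_const_mul]
    congr 1
    refine setIntegral_congr_fun measurableSet_Ioi fun u _ => ?_
    have e1 : Complex.exp (-(Complex.I * τ * ((r + u : ℝ) : ℂ))) =
        Complex.exp (-(Complex.I * τ * r)) * Complex.exp (-(Complex.I * τ * u)) := by
      rw [← Complex.exp_add]
      congr 1
      push_cast
      ring
    show Complex.exp (-(Complex.I * τ * r)) * ((-(Complex.I * τ) * f (r + u) + deriv f (r + u)) *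
      (((u * (2 * r + u)) ^ ((j : ℝ) - 1 / 2) : ℝ) : ℂ) * Complex.exp (-(Complex.I * τ * u))) =
      A0_q f τ (r + u) * (((u * (2 * r + u)) ^ ((j : ℝ) - 1 / 2) : ℝ) : ℂ)
    unfold A0_q
    rw [e1]
    ring
  rw [h3, h1, h2]
  conv_lhs => rw [← Complex.re_add_im (∫ u in Ioi (0 : ℝ), W u)]
  push_cast
  ring

theorem al_zero {f : ℝ → ℂ} {ρ M : ℝ} (hρ : 0 ≤ ρ) (hf : Amp f ρ M) (j : ℕ) (τ : ℝ) {r : ℝ}
    (hr : ρ < r) : al j f τ r = 0 := by
  unfold al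
  have h1 : ∫ u in Ioi (0 : ℝ), (-(Complex.I * τ) * f (r + u) + deriv f (r + u)) *
      (((u * (2 * r + u)) ^ ((j : ℝ) - 1 / 2) : ℝ) : ℂ) * Complex.exp (-(Complex.I * τ * u)) =
      ∫ _ in Ioi (0 : ℝ), (0 : ℂ) := by
    refine setIntegral_congr_fun measurableSet_Ioi fun u hu => ?_
    have hu0 : 0 < u := hu
    have h2 : ρ < r + u := by linarith
    show (-(Complex.I * τ) * f (r + u) + deriv f (r + u)) * _ * _ = 0
    rw [A0_z0 hf h2, A0_z1 hf h2]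
    ring
  rw [h1, integral_zero, mul_zero]

theorem al_smooth {f : ℝ → ℂ} {ρ M : ℝ} (hρ : 0 ≤ ρ) (hf : Amp f ρ M) (j : ℕ) (τ : ℝ) :
    ContDiffOn ℝ ∞ (al j f τ) (Ioi 0) := by
  have hsq : ContDiffOn ℝ ∞ (fun r : ℝ => r ^ 2) (Ioi 0) := (contDiff_id.pow 2).contDiffOn
  have hmap : MapsTo (fun r : ℝ => r ^ 2) (Ioi 0) (Ioi 0) := fun r hr => by
    have hr0 : (0 : ℝ) < r := hr
    exact pow_pos hr0 2
  have h1 : ContDiffOn ℝ ∞ (fun r : ℝ => ((Ab j (osc f τ) (r ^ 2) : ℝ) : ℂ)) (Ioi 0) :=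
    Complex.ofRealCLM.contDiff.comp_contDiffOn ((Ab_contDiffOn hρ (A0_Tl hf τ) j).comp hsq hmap)
  have h2 : ContDiffOn ℝ ∞ (fun r : ℝ => ((Ab j (osc2 f τ) (r ^ 2) : ℝ) : ℂ)) (Ioi 0) :=
    Complex.ofRealCLM.contDiff.comp_contDiffOn ((Ab_contDiffOn hρ (osc2_Tl hf τ) j).comp hsq hmap)
  have h3 : ContDiff ℝ ∞ fun t : ℝ => Complex.exp (Complex.I * τ * t) := by
    have h4 : ContDiff ℝ ∞ fun t : ℝ => (t : ℂ) := Complex.ofRealCLM.contDiff
    exact (contDiff_const.mul h4).cexp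
  refine (h3.contDiffOn.mul (h1.add ((contDiffOn_const (c := Complex.I)).mul h2))).congr
    fun r hr => ?_
  have h5 := al_eq hρ hf j τ hr
  show al j f τ r = Complex.exp (Complex.I * τ * r) *
    (((Ab j (osc f τ) (r ^ 2) : ℝ) : ℂ) + Complex.I * ((Ab j (osc2 f τ) (r ^ 2) : ℝ) : ℂ))
  rw [← h5, ← mul_assoc, ← Complex.exp_add, add_neg_cancel, Complex.exp_zero, one_mul]

end BE
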