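import Pool.Agent.LibBE99.A0

/-! Row A1 (copy of `LibBR70/AB6.lean`): the higher symbols are small. -/

open MeasureTheory Set Filter Topology
open scoped ContDiff

namespace BE

open BGS BR

private theorem A1_en (τ u : ℝ) : ‖Complex.exp (-(Complex.I * τ * u))‖ = 1 := by
  have h : -(Complex.I * τ * u) = ((-(τ * u) : ℝ) : ℂ) * Complex.I := by
    push_cast
    ring
  rw [h, Complex.norm_exp_ofReal_mul_I]

private theorem A1_ed (τ u : ℝ) : HasDerivAt (fun u : ℝ => Complex.exp (-(Complex.I * τ * u)))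
    (-(Complex.I * τ) * Complex.exp (-(Complex.I * τ * u))) u := by
  have h1 : HasDerivAt (fun u : ℝ => -(Complex.I * τ * (u : ℂ))) (-(Complex.I * τ)) u := by
    have h2 : HasDerivAt (fun u : ℝ => (u : ℂ)) 1 u := (hasDerivAt_id u).ofReal_comp
    have h3 := (h2.const_mul (Complex.I * τ)).neg
    rw [mul_one] at h3
    exact h3
  exact h1.cexp.congr_deriv (mul_comm _ _)

private theorem A1_ec (τ : ℝ) : Continuous fun u : ℝ => Complex.exp (-(Complex.I * τ * u)) := by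
  fun_prop

/-- the singular oscillating kernel -/
private noncomputable def A1_k (τ u : ℝ) : ℂ :=
  Complex.exp (-(Complex.I * τ * u)) * ((u ^ (-(1 / 2) : ℝ) : ℝ) : ℂ)

private theorem A1_k_norm (τ : ℝ) {u : ℝ} (hu : 0 ≤ u) : ‖A1_k τ u‖ = u ^ (-(1 / 2) : ℝ) := by
  rw [A1_k, norm_mul, A1_en, one_mul, Complex.norm_real, Real.norm_of_nonneg
    (Real.rpow_nonneg hu _)]

private theorem A1_k_int (τ a b : ℝ) : IntervalIntegrable (A1_k τ) volume a b := by
  have h0 : IntervalIntegrable (fun u : ℝ => u ^ (-(1 / 2) : ℝ)) volume a b :=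
    intervalIntegral.intervalIntegrable_rpow' (by norm_num)
  have h1 : IntervalIntegrable (fun u : ℝ => ((u ^ (-(1 / 2) : ℝ) : ℝ) : ℂ)) volume a b :=
    ⟨h0.1.ofReal, h0.2.ofReal⟩
  exact h1.continuousOn_mul (A1_ec τ).continuousOn

/-- its primitive -/
private noncomputable def A1_K (τ x : ℝ) : ℂ := ∫ u in (0 : ℝ)..x, A1_k τ u

private theorem A1_rpow_int {x : ℝ} (hx : 0 ≤ x) :
    ∫ u in (0 : ℝ)..x, u ^ (-(1 / 2) : ℝ) = 2 * √x := by
  rw [integral_rpow (Or.inl (by norm_num)), Real.zero_rpow (by norm_num), Real.sqrt_eq_rpow]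
  norm_num
  ring

private theorem A1_K_le (τ : ℝ) {x : ℝ} (hx : 0 ≤ x) : ‖A1_K τ x‖ ≤ 2 * √x := by
  refine (intervalIntegral.norm_integral_le_integral_norm hx).trans (le_of_eq ?_)
  rw [← A1_rpow_int hx]
  refine intervalIntegral.integral_congr fun u hu => ?_
  rw [uIcc_of_le hx] at hu
  exact A1_k_norm τ hu.1

private theorem A1_K_deriv (τ : ℝ) {x : ℝ} (hx : 0 < x) :
    HasDerivAt (A1_K τ) (A1_k τ x) x := by
  have hm : Measurable (A1_k τ) := by
    unfold A1_k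
    fun_prop
  have hc : ContinuousAt (A1_k τ) x := by
    unfold A1_k
    refine ContinuousAt.mul (A1_ec τ).continuousAt ?_
    exact Complex.continuous_ofReal.continuousAt.comp
      (Real.continuousAt_rpow_const x _ (Or.inl hx.ne'))
  exact intervalIntegral.integral_hasDerivAt_right (A1_k_int τ 0 x)
    (hm.stronglyMeasurable.stronglyMeasurableAtFilter) hc

private theorem A1_tail {τ x : ℝ} (hτ : 0 < τ) (hx : 1 / τ ≤ x) :
    ‖∫ u in (1 / τ)..x, A1_k τ u‖ ≤ 2 / √τ := by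
  have h1τ : 0 < 1 / τ := by positivity
  have hx0 : 0 < x := lt_of_lt_of_le h1τ hx
  have hsub : ∀ u ∈ uIcc (1 / τ) x, 0 < u := fun u hu => by
    rw [uIcc_of_le hx] at hu
    exact lt_of_lt_of_le h1τ hu.1
  have hIτ : (-(Complex.I * τ) : ℂ) ≠ 0 := by
    simp [hτ.ne']
  set w : ℝ → ℂ := fun u => ((u ^ (-(1 / 2) : ℝ) : ℝ) : ℂ) with hw
  set w' : ℝ → ℂ := fun u => ((-(1 / 2) * u ^ (-(3 / 2) : ℝ) : ℝ) : ℂ) with hw'
  set v : ℝ → ℂ := fun u => (-(Complex.I * τ))⁻¹ * Complex.exp (-(Complex.I * τ * u)) with hv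
  have hwd : ∀ u ∈ uIcc (1 / τ) x, HasDerivAt w (w' u) u := by
    intro u hu
    have h := (Real.hasDerivAt_rpow_const (p := (-(1 / 2) : ℝ)) (Or.inl (hsub u hu).ne')).ofReal_comp
    have e : (-(1 / 2) : ℝ) - 1 = -(3 / 2) := by norm_num
    rw [e] at h
    exact h
  have hvd : ∀ u ∈ uIcc (1 / τ) x, HasDerivAt v (Complex.exp (-(Complex.I * τ * u))) u := by
    intro u _
    have h := (A1_ed τ u).const_mul (-(Complex.I * τ : ℂ))⁻¹
    rw [← mul_assoc, inv_mul_cancel₀ hIτ, one_mul] at h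
    exact h
  have hw'c : ContinuousOn w' (uIcc (1 / τ) x) := by
    refine Complex.continuous_ofReal.comp_continuousOn ?_
    refine ContinuousOn.mul continuousOn_const fun u hu => ?_
    exact (Real.continuousAt_rpow_const u _ (Or.inl (hsub u hu).ne')).continuousWithinAt
  have hparts := intervalIntegral.integral_mul_deriv_eq_deriv_mul hwd hvd
    hw'c.intervalIntegrable (A1_ec τ).continuousOn.intervalIntegrable
  have e1 : (∫ u in (1 / τ)..x, A1_k τ u) =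
      ∫ u in (1 / τ)..x, w u * Complex.exp (-(Complex.I * τ * u)) := by
    congr 1
    ext u
    rw [A1_k, mul_comm]
  rw [e1, hparts]
  have hvn : ∀ u, ‖v u‖ = 1 / τ := by
    intro u
    rw [hv]
    simp only [norm_mul, A1_en, mul_one, norm_inv, norm_neg, Complex.norm_I, Complex.norm_real,
      one_mul, Real.norm_of_nonneg hτ.le, one_div]
  have hwn : ∀ u, 0 < u → ‖w u‖ = u ^ (-(1 / 2) : ℝ) := by
    intro u hu
    rw [hw]
    simp only [Complex.norm_real]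
    exact Real.norm_of_nonneg (Real.rpow_nonneg hu.le _)
  have hint : ‖∫ u in (1 / τ)..x, w' u * v u‖ ≤
      (1 / τ) * ((1 / τ) ^ (-(1 / 2) : ℝ) - x ^ (-(1 / 2) : ℝ)) := by
    refine (intervalIntegral.norm_integral_le_integral_norm hx).trans (le_of_eq ?_)
    have e2 : (∫ u in (1 / τ)..x, ‖w' u * v u‖) =
        ∫ u in (1 / τ)..x, (1 / τ) * (1 / 2) * u ^ (-(3 / 2) : ℝ) := by
      refine intervalIntegral.integral_congr fun u hu => ?_
      have hu0 := hsub u hu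
      show ‖w' u * v u‖ = _
      rw [norm_mul, hvn]
      have : ‖w' u‖ = 1 / 2 * u ^ (-(3 / 2) : ℝ) := by
        rw [hw']
        simp only [Complex.norm_real, Real.norm_eq_abs]
        rw [abs_mul, abs_of_nonneg (Real.rpow_nonneg hu0.le _)]
        norm_num
      rw [this]
      ring
    rw [e2, intervalIntegral.integral_const_mul, integral_rpow (Or.inr ⟨by norm_num, by
      intro h0
      exact lt_irrefl _ (hsub 0 h0)⟩)]
    norm_num
    ring
  have h4 : (1 / τ) ^ (-(1 / 2) : ℝ) = √τ := by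
    rw [one_div, Real.inv_rpow hτ.le, Real.rpow_neg hτ.le, inv_inv, Real.sqrt_eq_rpow]
  have hs : 0 < √τ := Real.sqrt_pos.2 hτ
  have h5 : 1 / τ * √τ = 1 / √τ := by
    have : τ = √τ * √τ := (Real.mul_self_sqrt hτ.le).symm
    field_simp
    nlinarith
  have h6 := norm_sub_le (w x * v x - w (1 / τ) * v (1 / τ)) (∫ u in (1 / τ)..x, w' u * v u)
  have h7 := norm_sub_le (w x * v x) (w (1 / τ) * v (1 / τ))
  rw [norm_mul (w x) (v x), norm_mul (w (1 / τ)) (v (1 / τ)), hvn, hvn, hwn x hx0,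
    hwn _ h1τ, h4] at h7
  rw [h4] at hint
  have h8 : (2 : ℝ) / √τ = 2 * (1 / τ * √τ) := by rw [h5]; ring
  rw [h8]
  nlinarith

private theorem A1_K_bound {τ x : ℝ} (hτ : 0 < τ) (hx : 0 ≤ x) : ‖A1_K τ x‖ ≤ 4 / √τ := by
  have hs : 0 < √τ := Real.sqrt_pos.2 hτ
  have h0 : ∀ y, 0 ≤ y → y ≤ 1 / τ → ‖A1_K τ y‖ ≤ 2 / √τ := by
    intro y hy hy1
    refine (A1_K_le τ hy).trans ?_
    have h1 : √y ≤ √(1 / τ) := Real.sqrt_le_sqrt hy1
    rw [Real.sqrt_div zero_le_one, Real.sqrt_one] at h1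
    have h2 : (2 : ℝ) / √τ = 2 * (1 / √τ) := by ring
    rw [h2]
    linarith
  rcases le_total x (1 / τ) with h | h
  · refine (h0 x hx h).trans ?_
    rw [div_le_div_iff_of_pos_right hs]
    norm_num
  · have h1 : A1_K τ x = A1_K τ (1 / τ) + ∫ u in (1 / τ)..x, A1_k τ u :=
      (intervalIntegral.integral_add_adjacent_intervals (A1_k_int τ 0 (1 / τ))
        (A1_k_int τ (1 / τ) x)).symm
    rw [h1]
    have h2 := h0 (1 / τ) (by positivity) le_rfl
    have h3 := A1_tail hτ h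
    have h4 : (4 : ℝ) / √τ = 2 / √τ + 2 / √τ := by ring
    rw [h4]
    exact (norm_add_le _ _).trans (add_le_add h2 h3)

/-- domination -/
private theorem A1_dom {f : ℝ → ℂ} (hf : ContinuousOn f (Ioi 0)) {D R : ℝ} (hD : 0 ≤ D)
    (hR : 0 ≤ R) (h : ∀ u, 0 < u → u ≤ R → ‖f u‖ ≤ D * u ^ (-(1 / 2) : ℝ))
    (h0 : ∀ u, R < u → f u = 0) :
    IntegrableOn f (Ioi 0) ∧ ‖∫ u in Ioi (0 : ℝ), f u‖ ≤ D * (2 * √R) := by
  set g : ℝ → ℝ := (Ioc (0 : ℝ) R).indicator fun u => D * u ^ (-(1 / 2) : ℝ) with hg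
  have hgi : IntegrableOn (fun u : ℝ => D * u ^ (-(1 / 2) : ℝ)) (Ioc 0 R) :=
    ((intervalIntegrable_iff_integrableOn_Ioc_of_le hR).1
      (intervalIntegral.intervalIntegrable_rpow' (by norm_num))).const_mul D
  have hgI : Integrable g := (integrable_indicator_iff measurableSet_Ioc).2 hgi
  have hm : AEStronglyMeasurable f (volume.restrict (Ioi 0)) :=
    hf.aestronglyMeasurable measurableSet_Ioi
  have hb : ∀ᵐ u ∂(volume.restrict (Ioi (0 : ℝ))), ‖f u‖ ≤ g u := by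
    refine (ae_restrict_iff' measurableSet_Ioi).2 (ae_of_all _ fun u hu => ?_)
    by_cases hu1 : u ≤ R
    · rw [hg, indicator_of_mem (show u ∈ Ioc (0 : ℝ) R from ⟨hu, hu1⟩)]
      exact h u hu hu1
    · rw [h0 u (not_le.1 hu1), norm_zero, hg,
        indicator_of_notMem (show u ∉ Ioc (0 : ℝ) R from fun h2 => hu1 h2.2)]
  refine ⟨hgI.integrableOn.mono' hm hb, ?_⟩
  refine (norm_integral_le_of_norm_le hgI.integrableOn hb).trans (le_of_eq ?_)
  rw [hg, setIntegral_indicator measurableSet_Ioc, inter_eq_right.2 Ioc_subset_Ioi_self,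
    ← intervalIntegral.integral_of_le hR, intervalIntegral.integral_const_mul, A1_rpow_int hR]


private noncomputable def A1_B (r : ℝ) (i : ℕ) (u : ℝ) : ℝ :=
  (r + u) * (u * (2 * r + u)) ^ i * (2 * r + u) ^ (-(1 / 2) : ℝ)

private noncomputable def A1_B' (r : ℝ) (i : ℕ) (u : ℝ) : ℝ :=
  ((u * (2 * r + u)) ^ i + (r + u) * (i * (u * (2 * r + u)) ^ (i - 1) * (2 * (r + u)))) *
      (2 * r + u) ^ (-(1 / 2) : ℝ) +
    (r + u) * (u * (2 * r + u)) ^ i * (-(1 / 2) * (2 * r + u) ^ (-(3 / 2) : ℝ))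

private theorem A1_m_deriv (r u : ℝ) :
    HasDerivAt (fun u : ℝ => u * (2 * r + u)) (2 * (r + u)) u := by
  have h2 : HasDerivAt (fun u : ℝ => 2 * r + u) 1 u := (hasDerivAt_id u).const_add (2 * r)
  have h3 : HasDerivAt (fun u : ℝ => u * (2 * r + u)) (1 * (2 * r + u) + u * 1) u :=
    (hasDerivAt_id u).mul h2
  exact h3.congr_deriv (by ring)

private theorem A1_B_deriv {r : ℝ} (hr : 0 ≤ r) (i : ℕ) {u : ℝ} (hu : 0 < u) :
    HasDerivAt (A1_B r i) (A1_B' r i u) u := by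
  have hpos : 0 < 2 * r + u := by linarith
  have h1 : HasDerivAt (fun u : ℝ => r + u) 1 u := (hasDerivAt_id u).const_add r
  have h2 : HasDerivAt (fun u : ℝ => 2 * r + u) 1 u := (hasDerivAt_id u).const_add (2 * r)
  have h4 : HasDerivAt (fun u : ℝ => (u * (2 * r + u)) ^ i)
      (i * (u * (2 * r + u)) ^ (i - 1) * (2 * (r + u))) u := (A1_m_deriv r u).pow i
  have h5 : HasDerivAt (fun u : ℝ => (2 * r + u) ^ (-(1 / 2) : ℝ))
      (-(1 / 2) * (2 * r + u) ^ (-(3 / 2) : ℝ)) u := by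
    have h6 := h2.rpow_const (p := (-(1 / 2) : ℝ)) (Or.inl hpos.ne')
    have e : (-(1 / 2) : ℝ) - 1 = -(3 / 2) := by norm_num
    rw [e, one_mul] at h6
    exact h6
  have h7 : HasDerivAt (fun u : ℝ => (r + u) * (u * (2 * r + u)) ^ i)
      (1 * (u * (2 * r + u)) ^ i +
        (r + u) * (i * (u * (2 * r + u)) ^ (i - 1) * (2 * (r + u)))) u := h1.mul h4
  have h8 : HasDerivAt (A1_B r i) _ u := h7.mul h5
  refine h8.congr_deriv ?_
  rw [A1_B', one_mul]

private theorem A1_half {x : ℝ} (hx : 0 < x) : x ^ (-(1 / 2) : ℝ) = 1 / √x := by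
  rw [Real.rpow_neg hx.le, ← Real.sqrt_eq_rpow, one_div]

private theorem A1_B_nonneg {r : ℝ} (hr : 0 ≤ r) (i : ℕ) {u : ℝ} (hu : 0 < u) :
    0 ≤ A1_B r i u := by
  unfold A1_B
  have h1 : 0 ≤ 2 * r + u := by linarith
  have h2 : 0 ≤ u * (2 * r + u) := mul_nonneg hu.le h1
  exact mul_nonneg (mul_nonneg (by linarith) (pow_nonneg h2 i)) (Real.rpow_nonneg h1 _)

private theorem A1_m_le {r u A : ℝ} (hr : 0 ≤ r) (hu : 0 < u) (hA : r + u ≤ A) (i : ℕ) :
    (u * (2 * r + u)) ^ i ≤ A ^ (2 * i) := by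
  rw [pow_mul]
  apply pow_le_pow_left₀
  · exact mul_nonneg hu.le (by linarith)
  · nlinarith [mul_self_nonneg r]

private theorem A1_B_le {r u A : ℝ} (hr : 0 ≤ r) (hu : 0 < u) (hA : r + u ≤ A) (hA1 : 1 ≤ A)
    (i : ℕ) : A1_B r i u ≤ A ^ (2 * i + 1) := by
  have hpos : 0 < 2 * r + u := by linarith
  have hru : 0 < r + u := by linarith
  have h1 : (r + u) * (2 * r + u) ^ (-(1 / 2) : ℝ) ≤ A := by
    have h2 : (2 * r + u) ^ (-(1 / 2) : ℝ) ≤ (r + u) ^ (-(1 / 2) : ℝ) :=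
      Real.rpow_le_rpow_of_nonpos hru (by linarith) (by norm_num)
    have h3 : (r + u) * (r + u) ^ (-(1 / 2) : ℝ) = √(r + u) := by
      rw [A1_half hru, mul_one_div, Real.div_sqrt]
    have h4 : √(r + u) ≤ A := by
      refine (Real.sqrt_le_sqrt hA).trans ?_
      rw [Real.sqrt_le_left (by linarith)]
      nlinarith
    calc _ ≤ (r + u) * (r + u) ^ (-(1 / 2) : ℝ) := mul_le_mul_of_nonneg_left h2 hru.le
      _ = √(r + u) := h3
      _ ≤ A := h4
  have h5 := A1_m_le hr hu hA i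
  have h6 : 0 ≤ (u * (2 * r + u)) ^ i := pow_nonneg (mul_nonneg hu.le hpos.le) i
  have h7 : 0 ≤ (r + u) * (2 * r + u) ^ (-(1 / 2) : ℝ) :=
    mul_nonneg hru.le (Real.rpow_nonneg hpos.le _)
  calc A1_B r i u = (u * (2 * r + u)) ^ i * ((r + u) * (2 * r + u) ^ (-(1 / 2) : ℝ)) := by
        rw [A1_B]; ring
    _ ≤ A ^ (2 * i) * A := mul_le_mul h5 h1 h7 (by positivity)
    _ = A ^ (2 * i + 1) := (pow_succ _ _).symm

private theorem A1_B_le' {r u A : ℝ} (hr : 0 ≤ r) (hu : 0 < u) (hA : r + u ≤ A)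
    (i : ℕ) : A1_B r i u ≤ A ^ (2 * i + 1) * u ^ (-(1 / 2) : ℝ) := by
  have hpos : 0 < 2 * r + u := by linarith
  have hru : 0 < r + u := by linarith
  have hA0 : 0 < A := by linarith
  have h2 : (2 * r + u) ^ (-(1 / 2) : ℝ) ≤ u ^ (-(1 / 2) : ℝ) :=
    Real.rpow_le_rpow_of_nonpos hu (by linarith) (by norm_num)
  have h5 := A1_m_le hr hu hA i
  have h6 : 0 ≤ (u * (2 * r + u)) ^ i := pow_nonneg (mul_nonneg hu.le hpos.le) i
  calc A1_B r i u ≤ (A * A ^ (2 * i)) * u ^ (-(1 / 2) : ℝ) := by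
        rw [A1_B]
        refine mul_le_mul (mul_le_mul hA h5 h6 hA0.le) h2 (Real.rpow_nonneg hpos.le _)
          (by positivity)
    _ = A ^ (2 * i + 1) * u ^ (-(1 / 2) : ℝ) := by rw [pow_succ]; ring

private theorem A1_B'_le {r u A : ℝ} (hr : 0 ≤ r) (hu : 0 < u) (hA : r + u ≤ A)
    (i : ℕ) : |A1_B' r i u| ≤ A ^ (2 * i) * (2 * i + 2) * u ^ (-(1 / 2) : ℝ) := by
  have hpos : 0 < 2 * r + u := by linarith
  have hru : 0 < r + u := by linarith
  have hA0 : 0 < A := by linarith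
  have h2 : (2 * r + u) ^ (-(1 / 2) : ℝ) ≤ u ^ (-(1 / 2) : ℝ) :=
    Real.rpow_le_rpow_of_nonpos hu (by linarith) (by norm_num)
  have hs0 : 0 ≤ (2 * r + u) ^ (-(1 / 2) : ℝ) := Real.rpow_nonneg hpos.le _
  have hm0 : 0 ≤ u * (2 * r + u) := mul_nonneg hu.le hpos.le
  have h5 := A1_m_le hr hu hA i
  have h6 : 0 ≤ (u * (2 * r + u)) ^ i := pow_nonneg hm0 i
  have h7 : (r + u) * (i * (u * (2 * r + u)) ^ (i - 1) * (2 * (r + u))) ≤
      2 * i * A ^ (2 * i) := by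
    cases i with
    | zero => simp
    | succ k =>
      have h8 := A1_m_le hr hu hA k
      have h9 : (r + u) ^ 2 ≤ A ^ 2 := pow_le_pow_left₀ hru.le hA 2
      have h10 : (u * (2 * r + u)) ^ k * (r + u) ^ 2 ≤ A ^ (2 * k) * A ^ 2 :=
        mul_le_mul h8 h9 (by positivity) (by positivity)
      rw [Nat.add_sub_cancel]
      have e1 : (r + u) * (((k + 1 : ℕ) : ℝ) * (u * (2 * r + u)) ^ k * (2 * (r + u))) =
          2 * ((k + 1 : ℕ) : ℝ) * ((u * (2 * r + u)) ^ k * (r + u) ^ 2) := by ring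
      have e2 : A ^ (2 * (k + 1)) = A ^ (2 * k) * A ^ 2 := by rw [← pow_add]; ring_nf
      rw [e1, e2]
      exact mul_le_mul_of_nonneg_left h10 (by positivity)
  have h7' : 0 ≤ (r + u) * (i * (u * (2 * r + u)) ^ (i - 1) * (2 * (r + u))) := by
    have := pow_nonneg hm0 (i - 1)
    positivity
  have h11 : (r + u) * (2 * r + u) ^ (-(3 / 2) : ℝ) ≤ u ^ (-(1 / 2) : ℝ) := by
    have e3 : (2 * r + u) ^ (-(3 / 2) : ℝ) = (2 * r + u) ^ (-(1 / 2) : ℝ) * (2 * r + u)⁻¹ := by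
      rw [← Real.rpow_neg_one (2 * r + u), ← Real.rpow_add hpos]
      norm_num
    have h12 : (r + u) * (2 * r + u)⁻¹ ≤ 1 := by
      rw [← div_eq_mul_inv, div_le_one hpos]
      linarith
    calc _ = (2 * r + u) ^ (-(1 / 2) : ℝ) * ((r + u) * (2 * r + u)⁻¹) := by rw [e3]; ring
      _ ≤ (2 * r + u) ^ (-(1 / 2) : ℝ) * 1 := mul_le_mul_of_nonneg_left h12 hs0
      _ ≤ u ^ (-(1 / 2) : ℝ) := by rw [mul_one]; exact h2
  have h13 : 0 ≤ (r + u) * (2 * r + u) ^ (-(3 / 2) : ℝ) :=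
    mul_nonneg hru.le (Real.rpow_nonneg hpos.le _)
  have hd0 : 0 ≤ u ^ (-(1 / 2) : ℝ) := Real.rpow_nonneg hu.le _
  have hAp : 0 ≤ A ^ (2 * i) := by positivity
  have t1 : ((u * (2 * r + u)) ^ i + (r + u) * (i * (u * (2 * r + u)) ^ (i - 1) *
      (2 * (r + u)))) * (2 * r + u) ^ (-(1 / 2) : ℝ) ≤
      (A ^ (2 * i) + 2 * i * A ^ (2 * i)) * u ^ (-(1 / 2) : ℝ) :=
    mul_le_mul (add_le_add h5 h7) h2 hs0 (by positivity)
  have t1' : 0 ≤ ((u * (2 * r + u)) ^ i + (r + u) * (i * (u * (2 * r + u)) ^ (i - 1) *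
      (2 * (r + u)))) * (2 * r + u) ^ (-(1 / 2) : ℝ) := mul_nonneg (add_nonneg h6 h7') hs0
  have t2 : (u * (2 * r + u)) ^ i * ((r + u) * (2 * r + u) ^ (-(3 / 2) : ℝ)) ≤
      A ^ (2 * i) * u ^ (-(1 / 2) : ℝ) := mul_le_mul h5 h11 h13 hAp
  have t2' : 0 ≤ (u * (2 * r + u)) ^ i * ((r + u) * (2 * r + u) ^ (-(3 / 2) : ℝ)) :=
    mul_nonneg h6 h13
  have e : A1_B' r i u = ((u * (2 * r + u)) ^ i + (r + u) * (i * (u * (2 * r + u)) ^ (i - 1) *
      (2 * (r + u)))) * (2 * r + u) ^ (-(1 / 2) : ℝ) -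
      1 / 2 * ((u * (2 * r + u)) ^ i * ((r + u) * (2 * r + u) ^ (-(3 / 2) : ℝ))) := by
    rw [A1_B']
    ring
  have hAd : 0 ≤ A ^ (2 * i) * u ^ (-(1 / 2) : ℝ) := mul_nonneg hAp hd0
  have hi0 : (0 : ℝ) ≤ i := Nat.cast_nonneg i
  rw [e, abs_le]
  constructor
  · nlinarith [mul_nonneg hi0 hAd]
  · nlinarith [mul_nonneg hi0 hAd]

private theorem A1_ibp {W W' : ℝ → ℂ} {E R : ℝ} (hd : ∀ u, 0 < u → HasDerivAt W (W' u) u)
    (hW0 : W 0 = 0) (h0 : ∀ u, 0 < u → ‖W u‖ ≤ E * √u)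
    (hR : ∀ u, R < u → W u = 0) (hint : IntegrableOn W' (Ioi 0)) :
    ∫ u in Ioi (0 : ℝ), W' u = 0 := by
  have hc : ContinuousWithinAt W (Ici 0) 0 := by
    rw [← continuousWithinAt_Ioi_iff_Ici, ContinuousWithinAt, hW0]
    have h1 : Tendsto (fun u : ℝ => E * √u) (𝓝[>] 0) (𝓝 0) := by
      have h2 : Continuous (fun u : ℝ => E * √u) := by fun_prop
      have h3 := (h2.tendsto 0).mono_left (nhdsWithin_le_nhds (s := Ioi (0 : ℝ)))
      simpa using h3
    refine squeeze_zero_norm' ?_ h1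
    filter_upwards [self_mem_nhdsWithin] with u hu
    exact h0 u hu
  have ht : Tendsto W atTop (𝓝 0) := by
    refine tendsto_const_nhds.congr' ?_
    filter_upwards [eventually_gt_atTop R] with u hu
    exact (hR u hu).symm
  rw [integral_Ioi_of_hasDerivAt_of_tendsto hc (fun u hu => hd u hu) hint ht, hW0, sub_zero]

private theorem A1_a0 {a : ℝ → ℂ} {ρ M : ℝ} (ha : Amp a ρ M) (t : ℝ) : ‖a t‖ ≤ M := by
  have h := ha.bound 0 (by norm_num) t
  rwa [iteratedDeriv_zero] at h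

private theorem A1_a1 {a : ℝ → ℂ} {ρ M : ℝ} (ha : Amp a ρ M) (t : ℝ) : ‖deriv a t‖ ≤ M := by
  have h := ha.bound 1 (by norm_num) t
  rwa [iteratedDeriv_one] at h

private theorem A1_M {a : ℝ → ℂ} {ρ M : ℝ} (ha : Amp a ρ M) : 0 ≤ M :=
  (norm_nonneg _).trans (A1_a0 ha 0)

private theorem A1_z0 {a : ℝ → ℂ} {ρ M : ℝ} (ha : Amp a ρ M) (hρ : 0 ≤ ρ) {t : ℝ} (ht : ρ < t) :
    a t = 0 := ha.supp t (by rwa [abs_of_nonneg (hρ.trans ht.le)])

private theorem A1_z1 {a : ℝ → ℂ} {ρ M : ℝ} (ha : Amp a ρ M) (hρ : 0 ≤ ρ) {t : ℝ} (ht : ρ < t) :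
    deriv a t = 0 := by
  have h : a =ᶠ[𝓝 t] fun _ => 0 := by
    filter_upwards [Ioi_mem_nhds ht] with s hs
    exact A1_z0 ha hρ hs
  rw [h.deriv_eq, deriv_const]

private theorem A1_ad {a : ℝ → ℂ} {ρ M : ℝ} (ha : Amp a ρ M) (t : ℝ) :
    HasDerivAt a (deriv a t) t :=
  ((ha.smooth.differentiable (by simp)) t).hasDerivAt

private theorem A1_adr {a : ℝ → ℂ} {ρ M : ℝ} (ha : Amp a ρ M) (r u : ℝ) :
    HasDerivAt (fun u => a (r + u)) (deriv a (r + u)) u :=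
  (A1_ad ha (r + u)).comp_const_add r u

private theorem A1_dc {a : ℝ → ℂ} {ρ M : ℝ} (ha : Amp a ρ M) : Continuous (deriv a) :=
  ha.smooth.continuous_deriv (by simp)

private theorem A1_B'_cont {r : ℝ} (hr : 0 ≤ r) (i : ℕ) : ContinuousOn (A1_B' r i) (Ioi 0) := by
  have h : ∀ p : ℝ, ContinuousOn (fun u : ℝ => (2 * r + u) ^ p) (Ioi 0) := by
    intro p
    refine ContinuousOn.rpow_const (by fun_prop) fun u hu => Or.inl ?_
    have : 0 < u := hu
    linarith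
  unfold A1_B'
  refine ContinuousOn.add (ContinuousOn.mul (by fun_prop) (h _)) (ContinuousOn.mul (by fun_prop) ?_)
  exact continuousOn_const.mul (h _)

private theorem A1_k_cont (τ : ℝ) : ContinuousOn (A1_k τ) (Ioi 0) := by
  unfold A1_k
  refine ContinuousOn.mul (A1_ec τ).continuousOn ?_
  refine Complex.continuous_ofReal.comp_continuousOn ?_
  exact ContinuousOn.rpow_const continuousOn_id fun u hu => Or.inl (ne_of_gt hu)

private theorem A1_K_cont (τ : ℝ) : ContinuousOn (A1_K τ) (Ioi 0) := fun _ hu =>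
  (A1_K_deriv τ hu).continuousAt.continuousWithinAt

private theorem A1_ck {a : ℝ → ℂ} {ρ M : ℝ} (ha : Amp a ρ M) (hρ : 0 ≤ ρ) {r : ℝ} (hr : 0 ≤ r)
    (i : ℕ) {τ : ℝ} (hτ : 0 < τ) :
    IntegrableOn (fun u => a (r + u) * ((A1_B r i u : ℝ) : ℂ) * A1_k τ u) (Ioi 0) ∧
    ‖∫ u in Ioi (0 : ℝ), a (r + u) * ((A1_B r i u : ℝ) : ℂ) * A1_k τ u‖ ≤
      M * (2 * i + 3) * (ρ + 1) ^ (2 * i + 1) * (4 / √τ) * (2 * (ρ + 1)) := by
  have hM := A1_M ha
  set A : ℝ := ρ + 1 with hA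
  have hA1 : 1 ≤ A := by linarith
  have hA0 : 0 < A := by linarith
  set R : ℝ := max (ρ - r) 0 with hRdef
  have hR0 : 0 ≤ R := le_max_right _ _
  have hRb : ∀ u, 0 < u → u ≤ R → r + u ≤ A := by
    intro u hu hu1
    rcases le_max_iff.1 hu1 with h | h
    · linarith
    · linarith
  have hRz : ∀ u, R < u → ρ < r + u := by
    intro u hu
    have := (max_lt_iff.1 hu).1
    linarith
  set c : ℝ → ℂ := fun u => a (r + u) * ((A1_B r i u : ℝ) : ℂ) with hc
  set c' : ℝ → ℂ := fun u => deriv a (r + u) * ((A1_B r i u : ℝ) : ℂ) +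
    a (r + u) * ((A1_B' r i u : ℝ) : ℂ) with hc'
  have hcd : ∀ u, 0 < u → HasDerivAt c (c' u) u := fun u hu =>
    (A1_adr ha r u).mul (A1_B_deriv hr i hu).ofReal_comp
  have hcc : ContinuousOn c (Ioi 0) := fun u hu =>
    (hcd u hu).continuousAt.continuousWithinAt
  have hBc : ContinuousOn (A1_B r i) (Ioi 0) := fun u hu =>
    (A1_B_deriv hr i hu).continuousAt.continuousWithinAt
  have hc'c : ContinuousOn c' (Ioi 0) := by
    refine ContinuousOn.add (ContinuousOn.mul ?_ ?_) (ContinuousOn.mul ?_ ?_)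
    · exact ((A1_dc ha).comp (continuous_const.add continuous_id)).continuousOn
    · exact Complex.continuous_ofReal.comp_continuousOn hBc
    · exact (ha.smooth.continuous.comp (continuous_const.add continuous_id)).continuousOn
    · exact Complex.continuous_ofReal.comp_continuousOn (A1_B'_cont hr i)
  have hcz : ∀ u, R < u → c u = 0 := fun u hu => by
    show a (r + u) * _ = 0
    rw [A1_z0 ha hρ (hRz u hu), zero_mul]
  have hc'z : ∀ u, R < u → c' u = 0 := fun u hu => by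
    show deriv a (r + u) * _ + a (r + u) * _ = 0
    rw [A1_z0 ha hρ (hRz u hu), A1_z1 ha hρ (hRz u hu), zero_mul, zero_mul, add_zero]
  have hcb : ∀ u, 0 < u → ‖c u‖ ≤ M * A ^ (2 * i + 1) := by
    intro u hu
    by_cases hu1 : u ≤ R
    · show ‖a (r + u) * _‖ ≤ _
      rw [norm_mul, Complex.norm_real, Real.norm_of_nonneg (A1_B_nonneg hr i hu)]
      exact mul_le_mul (A1_a0 ha _) (A1_B_le hr hu (hRb u hu hu1) hA1 i)
        (A1_B_nonneg hr i hu) hM
    · rw [hcz u (not_le.1 hu1), norm_zero]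
      positivity
  have hc'b : ∀ u, 0 < u → u ≤ R → ‖c' u‖ ≤ M * (2 * i + 3) * A ^ (2 * i + 1) *
      u ^ (-(1 / 2) : ℝ) := by
    intro u hu hu1
    have hd0 : 0 ≤ u ^ (-(1 / 2) : ℝ) := Real.rpow_nonneg hu.le _
    have h1 : ‖deriv a (r + u) * ((A1_B r i u : ℝ) : ℂ)‖ ≤
        M * (A ^ (2 * i + 1) * u ^ (-(1 / 2) : ℝ)) := by
      rw [norm_mul, Complex.norm_real, Real.norm_of_nonneg (A1_B_nonneg hr i hu)]
      exact mul_le_mul (A1_a1 ha _) (A1_B_le' hr hu (hRb u hu hu1) i)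
        (A1_B_nonneg hr i hu) hM
    have h2 : ‖a (r + u) * ((A1_B' r i u : ℝ) : ℂ)‖ ≤
        M * (A ^ (2 * i) * (2 * i + 2) * u ^ (-(1 / 2) : ℝ)) := by
      rw [norm_mul, Complex.norm_real, Real.norm_eq_abs]
      exact mul_le_mul (A1_a0 ha _) (A1_B'_le hr hu (hRb u hu hu1) i) (abs_nonneg _) hM
    have h3 : A ^ (2 * i) ≤ A ^ (2 * i + 1) := pow_le_pow_right₀ hA1 (Nat.le_succ _)
    have h4 : M * (A ^ (2 * i) * (2 * i + 2) * u ^ (-(1 / 2) : ℝ)) ≤
        M * (A ^ (2 * i + 1) * (2 * i + 2) * u ^ (-(1 / 2) : ℝ)) := by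
      refine mul_le_mul_of_nonneg_left ?_ hM
      refine mul_le_mul_of_nonneg_right ?_ hd0
      exact mul_le_mul_of_nonneg_right h3 (by positivity)
    refine (norm_add_le _ _).trans ((add_le_add h1 (h2.trans h4)).trans (le_of_eq ?_))
    ring
  have h4τ : 0 ≤ 4 / √τ := by positivity
  have hdom1 := A1_dom (f := fun u => c' u * A1_K τ u)
    (hc'c.mul (A1_K_cont τ)) (D := M * (2 * i + 3) * A ^ (2 * i + 1) * (4 / √τ)) (R := R)
    (by positivity) hR0
    (fun u hu hu1 => by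
      rw [norm_mul]
      have h1 := mul_le_mul (hc'b u hu hu1) (A1_K_bound hτ hu.le) (norm_nonneg _)
        (by have := Real.rpow_nonneg hu.le (-(1 / 2) : ℝ); positivity)
      refine h1.trans (le_of_eq ?_)
      ring)
    (fun u hu => by rw [hc'z u hu, zero_mul])
  have hdom2 := A1_dom (f := fun u => c u * A1_k τ u)
    (hcc.mul (A1_k_cont τ)) (D := M * A ^ (2 * i + 1)) (R := R)
    (by positivity) hR0
    (fun u hu _ => by
      rw [norm_mul, A1_k_norm τ hu.le]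
      exact mul_le_mul_of_nonneg_right (hcb u hu) (Real.rpow_nonneg hu.le _))
    (fun u hu => by rw [hcz u hu, zero_mul])
  have hK0 : A1_K τ 0 = 0 := by
    rw [A1_K, intervalIntegral.integral_same]
  have hibp := A1_ibp (W := fun u => c u * A1_K τ u)
    (W' := fun u => c' u * A1_K τ u + c u * A1_k τ u) (E := M * A ^ (2 * i + 1) * 2) (R := R)
    (fun u hu => (hcd u hu).mul (A1_K_deriv τ hu))
    (by show c 0 * A1_K τ 0 = 0; rw [hK0, mul_zero])
    (fun u hu => by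
      rw [norm_mul]
      refine (mul_le_mul (hcb u hu) (A1_K_le τ hu.le) (norm_nonneg _) (by positivity)).trans
        (le_of_eq ?_)
      ring)
    (fun u hu => by show c u * _ = 0; rw [hcz u hu, zero_mul])
    (hdom1.1.add hdom2.1)
  rw [integral_add hdom1.1 hdom2.1] at hibp
  refine ⟨hdom2.1, ?_⟩
  have e : ∫ u in Ioi (0 : ℝ), c u * A1_k τ u = -∫ u in Ioi (0 : ℝ), c' u * A1_K τ u :=
    (neg_eq_of_add_eq_zero_right hibp).symm
  show ‖∫ u in Ioi (0 : ℝ), c u * A1_k τ u‖ ≤ _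
  rw [e, norm_neg]
  refine hdom1.2.trans ?_
  refine mul_le_mul_of_nonneg_left ?_ (by positivity)
  have hRA : √R ≤ A := by
    rw [Real.sqrt_le_left hA0.le]
    have : R ≤ A := max_le (by linarith) hA0.le
    nlinarith
  linarith

private noncomputable def A1_G (r : ℝ) (i : ℕ) (u : ℝ) : ℝ :=
  (u * (2 * r + u)) ^ ((i : ℝ) + 1 / 2)

private theorem A1_G_deriv {r : ℝ} (hr : 0 ≤ r) (i : ℕ) {u : ℝ} (hu : 0 < u) :
    HasDerivAt (A1_G r i) ((2 * i + 1) * (A1_B r i u * u ^ (-(1 / 2) : ℝ))) u := by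
  have hpos : 0 < 2 * r + u := by linarith
  have hm : 0 < u * (2 * r + u) := mul_pos hu hpos
  have h := (A1_m_deriv r u).rpow_const (p := (i : ℝ) + 1 / 2) (Or.inl hm.ne')
  refine h.congr_deriv ?_
  have e : (i : ℝ) + 1 / 2 - 1 = (i : ℝ) + (-(1 / 2) : ℝ) := by ring
  rw [e, Real.rpow_add hm, Real.rpow_natCast, Real.mul_rpow hu.le hpos.le, A1_B]
  ring

private theorem A1_G_le {r u A : ℝ} (hr : 0 ≤ r) (hu : 0 < u) (hA : r + u ≤ A) (i : ℕ) :
    0 ≤ A1_G r i u ∧ A1_G r i u ≤ A ^ (2 * i) * √(2 * A) * √u := by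
  have hpos : 0 < 2 * r + u := by linarith
  have hm : 0 < u * (2 * r + u) := mul_pos hu hpos
  have hA0 : 0 < A := by linarith
  refine ⟨Real.rpow_nonneg hm.le _, ?_⟩
  rw [A1_G, Real.rpow_add hm, Real.rpow_natCast, ← Real.sqrt_eq_rpow, Real.sqrt_mul hu.le]
  have h1 := A1_m_le hr hu hA i
  have h2 : √(2 * r + u) ≤ √(2 * A) := Real.sqrt_le_sqrt (by linarith)
  have h3 : (u * (2 * r + u)) ^ i * √(2 * r + u) ≤ A ^ (2 * i) * √(2 * A) :=
    mul_le_mul h1 h2 (Real.sqrt_nonneg _) (by positivity)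
  calc (u * (2 * r + u)) ^ i * (√u * √(2 * r + u)) =
      ((u * (2 * r + u)) ^ i * √(2 * r + u)) * √u := by ring
    _ ≤ _ := mul_le_mul_of_nonneg_right h3 (Real.sqrt_nonneg _)

private theorem A1_main {a : ℝ → ℂ} {ρ M : ℝ} (ha : Amp a ρ M) (hρ : 0 ≤ ρ) {r : ℝ} (hr : 0 ≤ r)
    (i : ℕ) {τ : ℝ} (hτ : 0 < τ) :
    IntegrableOn (fun u => ((A1_G r i u : ℝ) : ℂ) *
      (-(Complex.I * τ) * Complex.exp (-(Complex.I * τ * ((r + u : ℝ) : ℂ))) * a (r + u) +
        Complex.exp (-(Complex.I * τ * ((r + u : ℝ) : ℂ))) * deriv a (r + u))) (Ioi 0) ∧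
    ‖∫ u in Ioi (0 : ℝ), ((A1_G r i u : ℝ) : ℂ) *
      (-(Complex.I * τ) * Complex.exp (-(Complex.I * τ * ((r + u : ℝ) : ℂ))) * a (r + u) +
        Complex.exp (-(Complex.I * τ * ((r + u : ℝ) : ℂ))) * deriv a (r + u))‖ ≤
      (2 * i + 1) *
        (M * (2 * i + 3) * (ρ + 1) ^ (2 * i + 1) * (4 / √τ) * (2 * (ρ + 1))) := by
  have hM := A1_M ha
  obtain ⟨hcki, hckb⟩ := A1_ck ha hρ hr i hτ
  set A : ℝ := ρ + 1 with hA
  have hA1 : 1 ≤ A := by linarith
  have hA0 : 0 < A := by linarith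
  set R : ℝ := max (ρ - r) 0 with hRdef
  have hR0 : 0 ≤ R := le_max_right _ _
  have hRb : ∀ u, 0 < u → u ≤ R → r + u ≤ A := by
    intro u hu hu1
    rcases le_max_iff.1 hu1 with h | h
    · linarith
    · linarith
  have hRz : ∀ u, R < u → ρ < r + u := by
    intro u hu
    have := (max_lt_iff.1 hu).1
    linarith
  set Q : ℝ → ℂ := fun u => Complex.exp (-(Complex.I * τ * ((r + u : ℝ) : ℂ))) * a (r + u) with hQ
  set Q' : ℝ → ℂ := fun u =>
    -(Complex.I * τ) * Complex.exp (-(Complex.I * τ * ((r + u : ℝ) : ℂ))) * a (r + u) +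
        Complex.exp (-(Complex.I * τ * ((r + u : ℝ) : ℂ))) * deriv a (r + u) with hQ'
  have hQd : ∀ u, HasDerivAt Q (Q' u) u := fun u =>
    ((A1_ed τ (r + u)).comp_const_add r u).mul (A1_adr ha r u)
  have hQb : ∀ u, ‖Q u‖ ≤ M := by
    intro u
    show ‖Complex.exp _ * _‖ ≤ M
    rw [norm_mul, A1_en, one_mul]
    exact A1_a0 ha _
  have hQz : ∀ u, R < u → Q u = 0 := fun u hu => by
    show _ * a (r + u) = 0
    rw [A1_z0 ha hρ (hRz u hu), mul_zero]
  have hQ'z : ∀ u, R < u → Q' u = 0 := fun u hu => by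
    show _ * a (r + u) + _ * deriv a (r + u) = 0
    rw [A1_z0 ha hρ (hRz u hu), A1_z1 ha hρ (hRz u hu), mul_zero, mul_zero, add_zero]
  have hQ'b : ∀ u, ‖Q' u‖ ≤ τ * M + M := by
    intro u
    refine (norm_add_le _ _).trans (add_le_add ?_ ?_)
    · rw [norm_mul, norm_mul, A1_en, mul_one, norm_neg, norm_mul, Complex.norm_I, one_mul,
        Complex.norm_real, Real.norm_of_nonneg hτ.le]
      exact mul_le_mul_of_nonneg_left (A1_a0 ha _) hτ.le
    · rw [norm_mul, A1_en, one_mul]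
      exact A1_a1 ha _
  have hec : Continuous fun u : ℝ => Complex.exp (-(Complex.I * τ * ((r + u : ℝ) : ℂ))) :=
    (A1_ec τ).comp (continuous_const.add continuous_id)
  have hac : Continuous fun u : ℝ => a (r + u) :=
    ha.smooth.continuous.comp (continuous_const.add continuous_id)
  have hadc : Continuous fun u : ℝ => deriv a (r + u) :=
    (A1_dc ha).comp (continuous_const.add continuous_id)
  have hQ'c : Continuous Q' :=
    (((continuous_const.mul hec).mul hac).add (hec.mul hadc))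
  have hGc : ContinuousOn (fun u => ((A1_G r i u : ℝ) : ℂ)) (Ioi 0) :=
    Complex.continuous_ofReal.comp_continuousOn fun u hu =>
      (A1_G_deriv hr i hu).continuousAt.continuousWithinAt
  have hdom := A1_dom (f := fun u => ((A1_G r i u : ℝ) : ℂ) * Q' u)
    (hGc.mul hQ'c.continuousOn)
    (D := A ^ (2 * i) * √(2 * A) * (τ * M + M) * A) (R := R)
    (by positivity) hR0
    (fun u hu hu1 => by
      obtain ⟨g0, g1⟩ := A1_G_le hr hu (hRb u hu hu1) i
      rw [norm_mul, Complex.norm_real, Real.norm_of_nonneg g0]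
      have h1 : √u ≤ A * u ^ (-(1 / 2) : ℝ) := by
        rw [A1_half hu, mul_one_div, le_div_iff₀ (Real.sqrt_pos.2 hu), Real.mul_self_sqrt hu.le]
        have := hRb u hu hu1
        linarith
      have h2 : A1_G r i u ≤ A ^ (2 * i) * √(2 * A) * (A * u ^ (-(1 / 2) : ℝ)) :=
        g1.trans (mul_le_mul_of_nonneg_left h1 (by positivity))
      refine (mul_le_mul h2 (hQ'b u) (norm_nonneg _) (g0.trans h2)).trans (le_of_eq ?_)
      ring)
    (fun u hu => by rw [hQ'z u hu, mul_zero])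
  have hGd : ∀ u, 0 < u → (((2 * i + 1) * (A1_B r i u * u ^ (-(1 / 2) : ℝ)) : ℝ) : ℂ) * Q u =
      ((2 * i + 1) * Complex.exp (-(Complex.I * τ * r))) *
        (a (r + u) * ((A1_B r i u : ℝ) : ℂ) * A1_k τ u) := by
    intro u _
    have e1 : Complex.exp (-(Complex.I * τ * ((r + u : ℝ) : ℂ))) =
        Complex.exp (-(Complex.I * τ * r)) * Complex.exp (-(Complex.I * τ * u)) := by
      rw [← Complex.exp_add]
      congr 1
      push_cast
      ring
    show _ * (Complex.exp (-(Complex.I * τ * ((r + u : ℝ) : ℂ))) * a (r + u)) = _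
    rw [e1, A1_k]
    push_cast
    ring
  have hI2 : IntegrableOn (fun u =>
      (((2 * i + 1) * (A1_B r i u * u ^ (-(1 / 2) : ℝ)) : ℝ) : ℂ) * Q u) (Ioi 0) := by
    refine IntegrableOn.congr_fun (hcki.const_mul
      ((2 * i + 1) * Complex.exp (-(Complex.I * τ * r)))) (fun u hu => (hGd u hu).symm)
      measurableSet_Ioi
  have hG0 : A1_G r i 0 = 0 := by
    rw [A1_G, zero_mul, Real.zero_rpow]
    positivity
  have hibp := A1_ibp (W := fun u => ((A1_G r i u : ℝ) : ℂ) * Q u)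
    (W' := fun u => (((2 * i + 1) * (A1_B r i u * u ^ (-(1 / 2) : ℝ)) : ℝ) : ℂ) * Q u +
      ((A1_G r i u : ℝ) : ℂ) * Q' u)
    (E := A ^ (2 * i) * √(2 * A) * M) (R := R)
    (fun u hu => (A1_G_deriv hr i hu).ofReal_comp.mul (hQd u))
    (by show ((A1_G r i 0 : ℝ) : ℂ) * Q 0 = 0; rw [hG0, Complex.ofReal_zero, zero_mul])
    (fun u hu => by
      by_cases hu1 : u ≤ R
      · obtain ⟨g0, g1⟩ := A1_G_le hr hu (hRb u hu hu1) i
        show ‖((A1_G r i u : ℝ) : ℂ) * Q u‖ ≤ _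
        rw [norm_mul, Complex.norm_real, Real.norm_of_nonneg g0]
        refine (mul_le_mul g1 (hQb u) (norm_nonneg _) (g0.trans g1)).trans (le_of_eq ?_)
        ring
      · show ‖((A1_G r i u : ℝ) : ℂ) * Q u‖ ≤ _
        rw [hQz u (not_le.1 hu1), mul_zero, norm_zero]
        positivity)
    (fun u hu => by show _ * Q u = 0; rw [hQz u hu, mul_zero])
    (hI2.add hdom.1)
  rw [integral_add hI2 hdom.1] at hibp
  refine ⟨hdom.1, ?_⟩
  have e : ∫ u in Ioi (0 : ℝ), ((A1_G r i u : ℝ) : ℂ) * Q' u =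
      -∫ u in Ioi (0 : ℝ), (((2 * i + 1) * (A1_B r i u * u ^ (-(1 / 2) : ℝ)) : ℝ) : ℂ) * Q u :=
    (neg_eq_of_add_eq_zero_right hibp).symm
  show ‖∫ u in Ioi (0 : ℝ), ((A1_G r i u : ℝ) : ℂ) * Q' u‖ ≤ _
  rw [e, norm_neg, setIntegral_congr_fun measurableSet_Ioi (fun u hu => hGd u hu),
    integral_const_mul, norm_mul]
  have hn : ‖((2 * i + 1) * Complex.exp (-(Complex.I * τ * r)) : ℂ)‖ = 2 * i + 1 := by
    rw [norm_mul, A1_en, mul_one]
    have : (2 * (i : ℂ) + 1) = ((2 * i + 1 : ℝ) : ℂ) := by push_cast; ring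
    rw [this, Complex.norm_real, Real.norm_of_nonneg (by positivity)]
  rw [hn]
  exact mul_le_mul_of_nonneg_left hckb (by positivity)

theorem al_small {j : ℕ} (hj : 1 ≤ j) : ∃ C : ℝ, 0 ≤ C ∧ ∀ (f : ℝ → ℂ) (ρ M τ r : ℝ), 0 ≤ ρ →
    Amp f ρ M → 1 ≤ τ → 0 < r → ‖al j f τ r‖ ≤ C * M * (ρ + 1) ^ (2 * j) / √τ := by
  obtain ⟨i, rfl⟩ : ∃ i, j = i + 1 := ⟨j - 1, by omega⟩
  set cG : ℝ := 1 / (√Real.pi * Real.Gamma (((i + 1 : ℕ) : ℝ) + 1 / 2)) with hcG
  have hcG0 : 0 ≤ cG := by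
    have : 0 < Real.Gamma (((i + 1 : ℕ) : ℝ) + 1 / 2) := Real.Gamma_pos_of_pos (by positivity)
    positivity
  refine ⟨cG * (2 * i + 1) * (2 * i + 3) * 8, by positivity, fun a ρ M τ r hρ ha hτ hr => ?_⟩
  have hτ0 : 0 < τ := by linarith
  obtain ⟨-, hb⟩ := A1_main ha hρ hr.le i hτ0
  have e1 : ∫ u in Ioi (0 : ℝ), ((A1_G r i u : ℝ) : ℂ) *
      (-(Complex.I * τ) * Complex.exp (-(Complex.I * τ * ((r + u : ℝ) : ℂ))) * a (r + u) +
        Complex.exp (-(Complex.I * τ * ((r + u : ℝ) : ℂ))) * deriv a (r + u)) =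
      Complex.exp (-(Complex.I * τ * r)) *
      ∫ u in Ioi (0 : ℝ), (-(Complex.I * τ) * a (r + u) + deriv a (r + u)) *
      (((u * (2 * r + u)) ^ (((i + 1 : ℕ) : ℝ) - 1 / 2) : ℝ) : ℂ) *
        Complex.exp (-(Complex.I * τ * u)) := by
    rw [← integral_const_mul]
    refine setIntegral_congr_fun measurableSet_Ioi fun u _ => ?_
    have e2 : Complex.exp (-(Complex.I * τ * ((r + u : ℝ) : ℂ))) =
        Complex.exp (-(Complex.I * τ * r)) * Complex.exp (-(Complex.I * τ * u)) := by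
      rw [← Complex.exp_add]
      congr 1
      push_cast
      ring
    have e3 : A1_G r i u = (u * (2 * r + u)) ^ (((i + 1 : ℕ) : ℝ) - 1 / 2) := by
      rw [A1_G]
      congr 1
      push_cast
      ring
    show ((A1_G r i u : ℝ) : ℂ) * _ = _
    rw [e2, e3]
    ring
  rw [e1, norm_mul, A1_en, one_mul] at hb
  unfold al
  rw [norm_mul, norm_neg, Complex.norm_real, Real.norm_of_nonneg hcG0]
  refine (mul_le_mul_of_nonneg_left hb hcG0).trans (le_of_eq ?_)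
  have e3 : (ρ + 1) ^ (2 * (i + 1)) = (ρ + 1) ^ (2 * i + 1) * (ρ + 1) := by
    ring
  rw [e3]
  ring

end BE
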