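import Pool.Agent.LibBE99.Defs
import Pool.Agent.LibBR73.AN3

/-! Row S1 (copy of `LibBR73/AN3a.lean`): Jacobi fields with uniform constants. MEDIUM, 40 min.
Plan. All metrics `mm m (s i) p` are `HM` (`hm_mm`) with `-b ^ 2 ≤ curv ≤ -a ^ 2` (`h.neg`), `0 < a`. `JlowU`: this is
`J_low` of `LibBR73/AN3a.lean`, whose proof (private lemmas `AN3a_*`, in particular `AN3a_J` with the explicit
constant `a ^ 2 * d0 ^ 2 / 2 * (b * exp (-(b * d0)))`) has only to be repeated with these `a`, `b` (replace `b` by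
`b' = |b| + 1 > 0`; `b ^ 2 ≤ b' ^ 2`); for `deriv JB` use `J_rev`. `JA_grow`: `f = JA`: `AN3a_up`:
`f' t + b' f t ≤ (f' 0 + b' f 0) exp (b' t)` for `t ≥ 0`, `JA ≥ 1`, `0 ≤ JA'` for `t ≥ 0` (`J_ge`-type facts used in
AN3a), so `|JA|, |JA'| ≤ (1 + b') exp (b' t)` up to constants; for `t ≤ 0`: `t ↦ JA m x u (-t)` is
`JA m x (-u) t` (both solve the same equation with the same initial values; the geodesic of `-u` is the
reversed one, `gfl_neg`-type lemma in H1e/H1f; or repeat the argument of `AN3a_up` for `f (-t)` directly with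
`κ (-t)`, which needs no geodesics: `AN3a_up` is about arbitrary `κ`). `trM_up`: `trM = JA l + JB' l`,
`JB' ≤ (1 + b') exp (b' l)` in the same way. -/

open MeasureTheory Set Filter Topology
open scoped ContDiff

namespace BE

open BGS BR

variable {Γ : Type} [Group Γ] [MulAction Γ Pl] {D : Set Pl}
variable {ι P : Type} [NormedAddCommGroup P] [NormedSpace ℝ P] [FiniteDimensional ℝ P]
  {m : Pl → Co} {a b : ℝ} {s : ι → P × Pl → ℝ}

private theorem S1_mono {f f' : ℝ → ℝ} {c t : ℝ} (hf : ∀ s, c ≤ s → HasDerivAt f (f' s) s)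
    (h0 : ∀ s, c ≤ s → 0 ≤ f' s) (ht : c ≤ t) : f c ≤ f t := by
  refine (monotoneOn_of_deriv_nonneg (convex_Ici c)
    (fun s hs => (hf s hs).continuousAt.continuousWithinAt)
    (fun s hs => (hf s (interior_subset hs)).differentiableAt.differentiableWithinAt)
    (fun s hs => ?_)) self_mem_Ici ht ht
  rw [(hf s (interior_subset hs)).deriv]
  exact h0 s (interior_subset hs)

private theorem S1_up {f f' κ : ℝ → ℝ} {b : ℝ} (hf : ∀ t, HasDerivAt f (f' t) t)
    (hf' : ∀ t, HasDerivAt f' (κ t * f t) t) (hκ : ∀ t, κ t ≤ b ^ 2)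
    (h0 : ∀ t, 0 ≤ t → 0 ≤ f t) {t : ℝ} (ht : 0 ≤ t) :
    f' t + b * f t ≤ (f' 0 + b * f 0) * Real.exp (b * t) := by
  have h1 : ∀ s, HasDerivAt (fun s => -((f' s + b * f s) * Real.exp (-(b * s))))
      ((b ^ 2 - κ s) * f s * Real.exp (-(b * s))) s := by
    intro s
    have h2 : HasDerivAt (fun s : ℝ => -(b * s)) (-(b * 1)) s :=
      ((hasDerivAt_id s).const_mul b).neg
    have h3 := (((hf' s).fun_add ((hf s).const_mul b)).fun_mul h2.exp).fun_neg
    refine h3.congr_deriv ?_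
    ring
  have h2 := S1_mono (fun s _ => h1 s) (fun s hs => mul_nonneg (mul_nonneg
    (by linarith [hκ s]) (h0 s hs)) (Real.exp_pos _).le) ht
  simp only [mul_zero, neg_zero, Real.exp_zero, mul_one] at h2
  have h3 : (f' t + b * f t) * Real.exp (-(b * t)) ≤ f' 0 + b * f 0 := by linarith
  have h4 := mul_le_mul_of_nonneg_right h3 (Real.exp_pos (b * t)).le
  rwa [mul_assoc, ← Real.exp_add, neg_add_cancel, Real.exp_zero, mul_one] at h4

private theorem S1_abs {A A' B B' κ : ℝ → ℝ} {a b d0 : ℝ} (hb : 0 < b)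
    (hd0 : 0 < d0) (hA : ∀ t, HasDerivAt A (A' t) t) (hA' : ∀ t, HasDerivAt A' (κ t * A t) t)
    (hB : ∀ t, HasDerivAt B (B' t) t) (hB' : ∀ t, HasDerivAt B' (κ t * B t) t) (A0 : A 0 = 1)
    (A'0 : A' 0 = 0) (B0 : B 0 = 0) (B'0 : B' 0 = 1) (hκ : ∀ t, a ^ 2 ≤ κ t ∧ κ t ≤ b ^ 2)
    (hge : ∀ t, 0 ≤ t → t ≤ B t ∧ 1 ≤ B' t ∧ 1 ≤ A t ∧ 0 ≤ A' t)
    (hW : ∀ t, A t * B' t - A' t * B t = 1) {t : ℝ} (ht : d0 ≤ t) :
    a ^ 2 * d0 ^ 2 / 2 * (b * Real.exp (-(b * d0))) * B t ≤ A t - 1 ∧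
      A t ≤ Real.exp (b * d0) / d0 * B t := by
  have hupA := S1_up hA hA' (fun t => (hκ t).2) (fun t ht => by linarith [(hge t ht).2.2.1])
    hd0.le
  have hupB := S1_up hB hB' (fun t => (hκ t).2) (fun t ht => by linarith [(hge t ht).1])
    hd0.le
  rw [A0, A'0, zero_add, mul_one] at hupA
  rw [B0, B'0, mul_zero, add_zero, one_mul] at hupB
  obtain ⟨g1, g2, g3, g4⟩ := hge d0 hd0.le
  have hA1 : A d0 ≤ Real.exp (b * d0) := by
    have h1 : b * A d0 ≤ b * Real.exp (b * d0) := by linarith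
    exact le_of_mul_le_mul_left h1 hb
  have hB1 : b * B d0 ≤ Real.exp (b * d0) := by linarith
  -- the lower bound at `d0`
  have hA'low : ∀ s, 0 ≤ s → a ^ 2 * s ≤ A' s := by
    intro s hs
    have h1 : ∀ s, HasDerivAt (fun s => A' s - a ^ 2 * s) (κ s * A s - a ^ 2) s := by
      intro s
      have h2 := (hA' s).sub ((hasDerivAt_id s).const_mul (a ^ 2))
      refine h2.congr_deriv ?_
      ring
    have h2 := S1_mono (fun s _ => h1 s) (fun s hs => by
      have h3 := (hκ s).1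
      have h4 := (hge s hs).2.2.1
      nlinarith [sq_nonneg a]) hs
    simp only [A'0, mul_zero, sub_zero] at h2
    linarith
  have hAlow : 1 + a ^ 2 * d0 ^ 2 / 2 ≤ A d0 := by
    have h1 : ∀ s, HasDerivAt (fun s => A s - a ^ 2 * s ^ 2 / 2) (A' s - a ^ 2 * s) s := by
      intro s
      have h2 := (hA s).sub ((((hasDerivAt_id s).pow 2).const_mul (a ^ 2)).div_const 2)
      refine h2.congr_deriv ?_
      simp only [id]
      ring
    have h2 := S1_mono (fun s _ => h1 s) (fun s hs => by linarith [hA'low s hs]) hd0.le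
    simp only [A0] at h2
    linarith
  have hBt : ∀ s, d0 ≤ s → 0 < B s := fun s hs => by
    linarith [(hge s (hd0.le.trans hs)).1]
  have hBt0 := hBt t ht
  constructor
  · have h1 : ∀ s, d0 ≤ s → HasDerivAt (fun s => (A s - 1) / B s) ((B' s - 1) / B s ^ 2) s := by
      intro s hs
      have h2 := ((hA s).sub_const 1).div (hB s) (hBt s hs).ne'
      refine h2.congr_deriv ?_
      congr 1
      linear_combination -(hW s)
    have h2 := S1_mono h1 (fun s hs => div_nonneg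
      (by linarith [(hge s (hd0.le.trans hs)).2.1]) (sq_nonneg _)) ht
    have h3 : a ^ 2 * d0 ^ 2 / 2 * (b * Real.exp (-(b * d0))) ≤ (A d0 - 1) / B d0 := by
      rw [le_div_iff₀ (hBt d0 le_rfl)]
      have h4 : b * Real.exp (-(b * d0)) * B d0 ≤ 1 := by
        calc b * Real.exp (-(b * d0)) * B d0 = Real.exp (-(b * d0)) * (b * B d0) := by ring
          _ ≤ Real.exp (-(b * d0)) * Real.exp (b * d0) :=
              mul_le_mul_of_nonneg_left hB1 (Real.exp_pos _).le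
          _ = 1 := by rw [← Real.exp_add, neg_add_cancel, Real.exp_zero]
      have h5 : 0 ≤ a ^ 2 * d0 ^ 2 / 2 := by positivity
      calc a ^ 2 * d0 ^ 2 / 2 * (b * Real.exp (-(b * d0))) * B d0
          = a ^ 2 * d0 ^ 2 / 2 * (b * Real.exp (-(b * d0)) * B d0) := by ring
        _ ≤ a ^ 2 * d0 ^ 2 / 2 * 1 := mul_le_mul_of_nonneg_left h4 h5
        _ ≤ A d0 - 1 := by linarith
    have h4 := h3.trans h2
    rwa [le_div_iff₀ hBt0] at h4
  · have h1 : ∀ s, d0 ≤ s → HasDerivAt (fun s => -(A s / B s)) (1 / B s ^ 2) s := by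
      intro s hs
      have h2 := ((hA s).div (hB s) (hBt s hs).ne').neg
      refine h2.congr_deriv ?_
      rw [← neg_div]
      congr 1
      linear_combination hW s
    have h2 := S1_mono h1 (fun s hs => by positivity) ht
    have h3 : A t / B t ≤ A d0 / B d0 := by linarith
    have h4 : A d0 / B d0 ≤ Real.exp (b * d0) / d0 :=
      div_le_div₀ (Real.exp_pos _).le hA1 hd0 g1
    have h5 := h3.trans h4
    rwa [div_le_iff₀ hBt0] at h5

private theorem S1_eu (w : Pl) : eu (-w) = eu w := by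
  unfold eu
  simp

private theorem S1_J (hX : Surface Γ D) {m : Pl → Co} (hm : HM Γ m) {a b : ℝ} (hb : 0 < b)
    (hab : ∀ z, -b ^ 2 ≤ curv m z ∧ curv m z ≤ -a ^ 2) {d0 : ℝ} (hd0 : 0 < d0) {x v : Pl}
    (hv : eu v = 1) {t : ℝ} (ht : d0 ≤ t) :
    a ^ 2 * d0 ^ 2 / 2 * (b * Real.exp (-(b * d0))) * JB m x v t ≤ JA m x v t - 1 ∧
      JA m x v t ≤ Real.exp (b * d0) / d0 * JB m x v t := by
  obtain ⟨a0, a1, b0, b1⟩ := J_zero hX hm hv
  exact S1_abs (κ := fun s => -curv m (gfl m s (x, v)).1) hb hd0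
    (fun s => (JA_ode hX hm hv s).1) (fun s => (JA_ode hX hm hv s).2)
    (fun s => (JB_ode hX hm hv s).1) (fun s => (JB_ode hX hm hv s).2) a0 a1 b0 b1
    (fun s => ⟨by linarith [(hab (gfl m s (x, v)).1).2], by linarith [(hab (gfl m s (x, v)).1).1]⟩)
    (fun s hs => JB_ge hX hm hv hs) (fun s => wronski hX hm hv s) ht

private theorem S1_low (hX : Surface Γ D) {m : Pl → Co} (hm : HM Γ m) {a b d0 : ℝ} (hb : 0 < b)
    (hab : ∀ z, -b ^ 2 ≤ curv m z ∧ curv m z ≤ -a ^ 2) (hd0 : 0 < d0) {x v : Pl}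
    (hv : eu v = 1) {t : ℝ} (ht : d0 ≤ t) :
    a ^ 2 * d0 ^ 2 / 2 * (b * Real.exp (-(b * d0))) * JB m x v t ≤ JA m x v t - 1 ∧
      a ^ 2 * d0 ^ 2 / 2 * (b * Real.exp (-(b * d0))) * JB m x v t ≤
        deriv (JB m x v) t - 1 := by
  refine ⟨(S1_J hX hm hb hab hd0 hv ht).1, ?_⟩
  have hwe : eu (-(gfl m t (x, v)).2) = 1 := by
    rw [S1_eu, gfl_eu hX hm]
    exact hv
  have h1 := (S1_J hX hm hb hab hd0 (x := (gfl m t (x, v)).1) hwe ht).1
  rw [(J_rev hX hm hv t).1, (J_rev hX hm hv t).2] at h1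
  exact h1

/-- The energy of a solution of `f'' = κ f`. -/
private theorem S1_en {f f' κ : ℝ → ℝ} {b : ℝ} (hb : 0 < b) (hf : ∀ t, HasDerivAt f (f' t) t)
    (hf' : ∀ t, HasDerivAt f' (κ t * f t) t) (hκ : ∀ t, 0 ≤ κ t ∧ κ t ≤ b ^ 2) (t : ℝ) :
    b ^ 2 * f t ^ 2 + f' t ^ 2 ≤ (b ^ 2 * f 0 ^ 2 + f' 0 ^ 2) * Real.exp (2 * b * |t|) := by
  set E : ℝ → ℝ := fun t => b ^ 2 * f t ^ 2 + f' t ^ 2 with hE
  have hE' : ∀ s, HasDerivAt E (2 * (b ^ 2 + κ s) * (f s * f' s)) s := by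
    intro s
    have h1 := (((hf s).pow 2).const_mul (b ^ 2)).fun_add ((hf' s).pow 2)
    refine h1.congr_deriv ?_
    simp only [Nat.cast_ofNat, Nat.add_one_sub_one, pow_one, Nat.reduceSub]
    ring
  have hbd : ∀ s, |2 * (b ^ 2 + κ s) * (f s * f' s)| ≤ 2 * b * E s := by
    intro s
    obtain ⟨k1, k2⟩ := hκ s
    have h1 : 2 * b * |f s * f' s| ≤ E s := by
      have h2 : 0 ≤ (b * |f s| - |f' s|) ^ 2 := sq_nonneg _
      have h3 : |f s| ^ 2 = f s ^ 2 := sq_abs _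
      have h4 : |f' s| ^ 2 = f' s ^ 2 := sq_abs _
      rw [abs_mul]
      simp only [hE]
      nlinarith
    rw [abs_mul, abs_of_nonneg (by nlinarith [sq_nonneg b] : 0 ≤ 2 * (b ^ 2 + κ s))]
    have h5 : 2 * (b ^ 2 + κ s) * |f s * f' s| ≤ 4 * b ^ 2 * |f s * f' s| :=
      mul_le_mul_of_nonneg_right (by linarith) (abs_nonneg _)
    nlinarith [mul_le_mul_of_nonneg_left h1 hb.le]
  have hexp : ∀ (c s : ℝ), HasDerivAt (fun s => Real.exp (c * s)) (Real.exp (c * s) * c) s := by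
    intro c s
    have h1 : HasDerivAt (fun s : ℝ => c * s) c s := by
      simpa using (hasDerivAt_id s).const_mul c
    exact h1.exp
  rcases le_total 0 t with ht | ht
  · have h1 : ∀ s, HasDerivAt (fun s => E s * Real.exp (-(2 * b) * s))
        (2 * (b ^ 2 + κ s) * (f s * f' s) * Real.exp (-(2 * b) * s) +
          E s * (Real.exp (-(2 * b) * s) * -(2 * b))) s := fun s =>
      (hE' s).mul (hexp _ s)
    have h2 : Antitone fun s => E s * Real.exp (-(2 * b) * s) := by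
      refine antitone_of_deriv_nonpos (fun s => (h1 s).differentiableAt) fun s => ?_
      rw [(h1 s).deriv]
      have h3 := (abs_le.1 (hbd s)).2
      have h4 := Real.exp_pos (-(2 * b) * s)
      nlinarith
    have h3 := h2 ht
    simp only [mul_zero, Real.exp_zero, mul_one] at h3
    have h4 := mul_le_mul_of_nonneg_right h3 (Real.exp_pos (2 * b * t)).le
    rw [mul_assoc, ← Real.exp_add] at h4
    have h5 : -(2 * b) * t + 2 * b * t = 0 := by ring
    rw [h5, Real.exp_zero, mul_one] at h4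
    rw [abs_of_nonneg ht]
    exact h4
  · have h1 : ∀ s, HasDerivAt (fun s => E s * Real.exp (2 * b * s))
        (2 * (b ^ 2 + κ s) * (f s * f' s) * Real.exp (2 * b * s) +
          E s * (Real.exp (2 * b * s) * (2 * b))) s := fun s =>
      (hE' s).mul (hexp _ s)
    have h2 : Monotone fun s => E s * Real.exp (2 * b * s) := by
      refine monotone_of_deriv_nonneg (fun s => (h1 s).differentiableAt) fun s => ?_
      rw [(h1 s).deriv]
      have h3 := (abs_le.1 (hbd s)).1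
      have h4 := Real.exp_pos (2 * b * s)
      nlinarith
    have h3 := h2 ht
    simp only [mul_zero, Real.exp_zero, mul_one] at h3
    have h4 := mul_le_mul_of_nonneg_right h3 (Real.exp_pos (-(2 * b * t))).le
    rw [mul_assoc, ← Real.exp_add] at h4
    have h5 : 2 * b * t + -(2 * b * t) = 0 := by ring
    rw [h5, Real.exp_zero, mul_one] at h4
    rw [abs_of_nonpos ht]
    have h6 : 2 * b * -t = -(2 * b * t) := by ring
    rw [h6]
    exact h4

private theorem S1_b2 (b : ℝ) : b ^ 2 ≤ (|b| + 1) ^ 2 := by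
  nlinarith [sq_abs b, abs_nonneg b]

theorem JlowU (h : CF Γ D m a b s) {d0 : ℝ} (hd0 : 0 < d0) : ∃ c : ℝ, 0 < c ∧ ∀ (i : ι) (p : P),
    ∀ x v : Pl, eu v = 1 → ∀ t, d0 ≤ t →
      c * JB (mm m (s i) p) x v t ≤ JA (mm m (s i) p) x v t - 1 ∧
      c * JB (mm m (s i) p) x v t ≤ deriv (JB (mm m (s i) p) x v) t - 1 := by
  have hb : 0 < |b| + 1 := by positivity
  have ha := h.a_pos
  refine ⟨a ^ 2 * d0 ^ 2 / 2 * ((|b| + 1) * Real.exp (-((|b| + 1) * d0))), by positivity,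
    fun i p x v hv t ht => ?_⟩
  exact S1_low h.hX (hm_mm h i p) hb (fun z => ⟨by linarith [(h.neg i p z).1, S1_b2 b],
    (h.neg i p z).2⟩) hd0 hv ht

theorem JA_grow (h : CF Γ D m a b s) : ∃ C c0 : ℝ, 0 ≤ C ∧ 0 ≤ c0 ∧ ∀ (i : ι) (p : P) (x v : Pl),
    eu v = 1 → ∀ t, |JA (mm m (s i) p) x v t| ≤ C * Real.exp (c0 * |t|) ∧
      |deriv (JA (mm m (s i) p) x v) t| ≤ C * Real.exp (c0 * |t|) ∧
      |deriv (JB (mm m (s i) p) x v) t| ≤ C * Real.exp (c0 * |t|) := by
  have hb : 0 < |b| + 1 := by positivity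
  refine ⟨1 + (|b| + 1), |b| + 1, by positivity, hb.le, fun i p x v hv t => ?_⟩
  have hm := hm_mm h i p
  obtain ⟨a0, a1, b0, b1⟩ := J_zero h.hX hm (x := x) hv
  have hκ : ∀ t, 0 ≤ -curv (mm m (s i) p) (gfl (mm m (s i) p) t (x, v)).1 ∧
      -curv (mm m (s i) p) (gfl (mm m (s i) p) t (x, v)).1 ≤ (|b| + 1) ^ 2 := fun t => by
    have h1 := h.neg i p (gfl (mm m (s i) p) t (x, v)).1
    exact ⟨by nlinarith [sq_nonneg a], by linarith [S1_b2 b]⟩
  have hA := S1_en hb (fun s => (JA_ode h.hX hm (x := x) hv s).1)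
    (fun s => (JA_ode h.hX hm (x := x) hv s).2) hκ t
  have hB := S1_en hb (fun s => (JB_ode h.hX hm (x := x) hv s).1)
    (fun s => (JB_ode h.hX hm (x := x) hv s).2) hκ t
  rw [a0, a1] at hA
  rw [b0, b1] at hB
  have he : Real.exp (2 * (|b| + 1) * |t|) = Real.exp ((|b| + 1) * |t|) ^ 2 := by
    rw [← Real.exp_nat_mul]
    congr 1
    push_cast
    ring
  rw [he] at hA hB
  set e := Real.exp ((|b| + 1) * |t|) with hedef
  have he0 : 0 < e := Real.exp_pos _
  have hA1 : |JA (mm m (s i) p) x v t| ≤ e := by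
    refine abs_le_of_sq_le_sq ?_ he0.le
    have h2 : 0 ≤ deriv (JA (mm m (s i) p) x v) t ^ 2 := sq_nonneg _
    have h3 : (|b| + 1) ^ 2 * JA (mm m (s i) p) x v t ^ 2 ≤ (|b| + 1) ^ 2 * e ^ 2 := by
      nlinarith
    exact le_of_mul_le_mul_left h3 (by positivity)
  have hA2 : |deriv (JA (mm m (s i) p) x v) t| ≤ (|b| + 1) * e := by
    refine abs_le_of_sq_le_sq ?_ (by positivity)
    have h2 : 0 ≤ (|b| + 1) ^ 2 * JA (mm m (s i) p) x v t ^ 2 := by positivity
    nlinarith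
  have hB2 : |deriv (JB (mm m (s i) p) x v) t| ≤ e := by
    refine abs_le_of_sq_le_sq ?_ he0.le
    have h2 : 0 ≤ (|b| + 1) ^ 2 * JB (mm m (s i) p) x v t ^ 2 := by positivity
    nlinarith
  have h4 : 0 ≤ (|b| + 1) * e := by positivity
  exact ⟨by linarith, by linarith, by linarith⟩

end BE
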