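import Pool.Agent.LibBE99.L2
import Pool.Agent.LibBE99.S1

/-! Row J1 (cites L2, S1, `LibBE88/A1`, `LibBR70/H1g`, `H1l`): all derivatives of the Jacobi fields along
geodesics, with an exponent independent of the order. MEDIUM, 60 min.
Plan. `EB0_curv`: `curv m z` (`LibBGS/Defs.lean`) is a polynomial in `E, F, G` and their partial derivatives of
order `≤ 2`, divided by `dt ^ 2`. Write `curv (mm m (s i) p) z` with the partial derivatives
`dx (fun w => ..) z = fderiv ℝ (function of (p, z)) (p, z) (0, (1, 0))` (chain rule; `dx`, `dy` are defined in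
`LibBGS/Defs.lean`; `Matrix.det_fin_three`), `EB0_mm` (`LibBE88/A1`), `EB_fderiv_apply`, `EB_mul`, `EB_sub`, `EB_inv` with
`mm_low` (`dt` is bounded below on compact sets, positive everywhere), index pulled back from `Lx ι P K` to
`Jx ι P Γ (closure D)` (`K = closure D`). `K_along`: `along` with `L = 0`, `G i g e = curv (mm m (s i) e.1) e.2`;
equivariance: `curv_deck` (`LibBR70/H1l.lean`), applied to the lines with `p0 = p1`. `JA_bd`: `f = JA (mm ..) x u`,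
`κ y = -curv (mm ..) (gfl .. y (x, u)).1`: `f'' = κ f` (`JA_ode`), `κ` smooth with all derivatives bounded by
constants (`K_along`); so `iteratedDeriv (k + 2) f = iteratedDeriv k (κ * f)`, Leibniz
(`iteratedDeriv_mul` or the norm version for `iteratedFDeriv`, `norm_iteratedFDeriv_mul_le`), strong induction
on `k` from `JA_grow` (`k = 0, 1`) with the SAME `c0`. Smoothness of `f`: `LB_JA`-type facts or from the equation by
bootstrapping (`contDiff_of_...`); `JA_smooth` may exist: grep `LibBR70/H1g.lean`, `LibBR73/AN5a.lean`; else: `f`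
differentiable with derivative `f'`, `f'` differentiable with derivative `κ f`, hence `ContDiff ℝ n` for all
`n` by induction (`contDiff_succ_iff_deriv`). -/

open MeasureTheory Set Filter Topology
open scoped ContDiff

namespace BE

open BGS BR

variable {Γ : Type} [Group Γ] [MulAction Γ Pl] {D : Set Pl}
variable {ι P : Type} [NormedAddCommGroup P] [NormedSpace ℝ P] [FiniteDimensional ℝ P]
  {m : Pl → Co} {a b : ℝ} {s : ι → P × Pl → ℝ}

section par
variable {P : Type} [NormedAddCommGroup P] [NormedSpace ℝ P]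

/-- partial derivatives of functions of `(p, z)` -/
private noncomputable def J1_d (v : Pl) (f : P × Pl → ℝ) (e : P × Pl) : ℝ := fderiv ℝ f e (0, v)

private theorem J1_d_smooth (v : Pl) {f : P × Pl → ℝ} (hf : ContDiff ℝ ∞ f) :
    ContDiff ℝ ∞ (J1_d v f) :=
  (hf.fderiv_right (m := ∞) (by simp)).clm_apply contDiff_const

private theorem J1_par {f : P × Pl → ℝ} (hf : ContDiff ℝ ∞ f) (p : P) (z v : Pl) :
    fderiv ℝ (fun w : Pl => f (p, w)) z v = J1_d v f (p, z) := by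
  have h1 : HasFDerivAt f (fderiv ℝ f (p, z)) (p, z) :=
    (hf.differentiable (by simp)).differentiableAt.hasFDerivAt
  have h2 : HasFDerivAt (fun w : Pl => ((p, w) : P × Pl))
      ((0 : Pl →L[ℝ] P).prod (ContinuousLinearMap.id ℝ Pl)) z :=
    (hasFDerivAt_const p z).prodMk (hasFDerivAt_id z)
  have h3 := HasFDerivAt.comp (f := fun w : Pl => ((p, w) : P × Pl)) z h1 h2
  have h4 : fderiv ℝ (fun w : Pl => f (p, w)) z = (fderiv ℝ f (p, z)).comp
      ((0 : Pl →L[ℝ] P).prod (ContinuousLinearMap.id ℝ Pl)) := h3.fderiv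
  rw [h4]
  rfl

private theorem J1_dx {f : P × Pl → ℝ} (hf : ContDiff ℝ ∞ f) (p : P) :
    dx (fun w => f (p, w)) = fun w => J1_d (1, 0) f (p, w) :=
  funext fun z => J1_par hf p z (1, 0)

private theorem J1_dy {f : P × Pl → ℝ} (hf : ContDiff ℝ ∞ f) (p : P) :
    dy (fun w => f (p, w)) = fun w => J1_d (0, 1) f (p, w) :=
  funext fun z => J1_par hf p z (0, 1)

end par

/-- the curvature in terms of the partial derivatives -/
private noncomputable def J1_K (E F G : P × Pl → ℝ) (e : P × Pl) : ℝ :=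
  ((((0 - J1_d (0, 1) (J1_d (0, 1) E) e / 2) + J1_d (0, 1) (J1_d (1, 0) F) e) -
      J1_d (1, 0) (J1_d (1, 0) G) e / 2) * (E e * G e - F e * F e) -
    (J1_d (1, 0) E e / 2) * ((J1_d (0, 1) F e - J1_d (1, 0) G e / 2) * G e -
      F e * (J1_d (0, 1) G e / 2)) +
    (J1_d (1, 0) F e - J1_d (0, 1) E e / 2) * ((J1_d (0, 1) F e - J1_d (1, 0) G e / 2) * F e -
      E e * (J1_d (0, 1) G e / 2)) -
    ((0 - (J1_d (0, 1) E e / 2) * ((J1_d (0, 1) E e / 2) * G e - F e * (J1_d (1, 0) G e / 2))) +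
      (J1_d (1, 0) G e / 2) * ((J1_d (0, 1) E e / 2) * F e - E e * (J1_d (1, 0) G e / 2)))) *
  ((E e * G e - F e * F e)⁻¹ * (E e * G e - F e * F e)⁻¹)

omit [FiniteDimensional ℝ P] in
private theorem J1_curv {M : P × Pl → Co} (hM : ContDiff ℝ ∞ M) (e : P × Pl) :
    curv (fun w => M (e.1, w)) e.2 =
      J1_K (fun e => (M e).1) (fun e => (M e).2.1) (fun e => (M e).2.2) e := by
  obtain ⟨p, z⟩ := e
  have hE : ContDiff ℝ ∞ (fun e : P × Pl => (M e).1) := hM.fst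
  have hF : ContDiff ℝ ∞ (fun e : P × Pl => (M e).2.1) := hM.snd.fst
  have hG : ContDiff ℝ ∞ (fun e : P × Pl => (M e).2.2) := hM.snd.snd
  simp only [curv, J1_dx hE p, J1_dy hE p, J1_dx hF p, J1_dy hF p, J1_dx hG p, J1_dy hG p,
    J1_dy (J1_d_smooth (0, 1) hE) p, J1_dy (J1_d_smooth (1, 0) hF) p,
    J1_dx (J1_d_smooth (1, 0) hG) p, Matrix.det_fin_three, J1_K, dt]
  simp only [Matrix.of_apply, Matrix.cons_val', Matrix.cons_val_zero, Matrix.cons_val_one,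
    Matrix.cons_val, Matrix.cons_val_fin_one]
  have hd : (M (p, z)).1 * (M (p, z)).2.2 - (M (p, z)).2.1 ^ 2 =
      (M (p, z)).1 * (M (p, z)).2.2 - (M (p, z)).2.1 * (M (p, z)).2.1 := by ring
  rw [hd, div_eq_mul_inv, pow_two, mul_inv]
  congr 1
  ring

section EBs
variable {κ : Type} {P : Type} [NormedAddCommGroup P] [NormedSpace ℝ P] {x : κ → P × Pl}

private theorem J1_EBd (v : Pl) {f : κ → P × Pl → ℝ} (hf : EB0 f x) :
    EB0 (fun q => J1_d v (f q)) x :=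
  EB_fderiv_apply (fun _ => le_rfl) hf (0, v)

private theorem J1_half {f : κ → P × Pl → ℝ} (hf : EB0 f x) : EB0 (fun q e => f q e / 2) x := by
  have h := EB_clm (fun _ => le_rfl) hf ((1 / 2 : ℝ) • ContinuousLinearMap.id ℝ ℝ)
  have e : (fun (q : κ) (e : P × Pl) => f q e / 2) =
      fun q e => ((1 / 2 : ℝ) • ContinuousLinearMap.id ℝ ℝ) (f q e) := by
    funext q e
    show f q e / 2 = (1 / 2 : ℝ) * f q e
    ring
  rw [e]
  exact h

private theorem J1_zero : EB0 (fun (_ : κ) (_ : P × Pl) => (0 : ℝ)) x :=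
  EB_const (fun _ => le_rfl) (c := fun _ => (0 : ℝ)) (C := 0) fun i => by simp

private theorem J1_EBK {E F G : κ → P × Pl → ℝ} (hE : EB0 E x) (hF : EB0 F x) (hG : EB0 G x)
    (h0 : ∀ q e, E q e * G q e - F q e * F q e ≠ 0) {C : ℝ}
    (hC : ∀ q, |E q (x q) * G q (x q) - F q (x q) * F q (x q)|⁻¹ ≤ C) :
    EB0 (fun q => J1_K (E q) (F q) (G q)) x := by
  have n : ∀ i : κ, (0 : ℝ) ≤ (fun _ : κ => (0 : ℝ)) i := fun _ => le_rfl
  have Ey := J1_half (J1_EBd (0, 1) hE)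
  have Ex := J1_half (J1_EBd (1, 0) hE)
  have Gx := J1_half (J1_EBd (1, 0) hG)
  have Gy := J1_half (J1_EBd (0, 1) hG)
  have Fx := J1_EBd (1, 0) hF
  have Fy := J1_EBd (0, 1) hF
  have Eyy := J1_half (J1_EBd (0, 1) (J1_EBd (0, 1) hE))
  have Fxy := J1_EBd (0, 1) (J1_EBd (1, 0) hF)
  have Gxx := J1_half (J1_EBd (1, 0) (J1_EBd (1, 0) hG))
  have hd := EB_sub n (EB_mul n hE hG) (EB_mul n hF hF)
  have hi := EB_inv n hd h0 (C := C) fun q => by
    simpa using hC q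
  have i2 := EB_mul n hi hi
  have t1 := EB_mul n (EB_sub n (EB_add n (EB_sub n J1_zero Eyy) Fxy) Gxx) hd
  have t2 := EB_mul n Ex (EB_sub n (EB_mul n (EB_sub n Fy Gx) hG) (EB_mul n hF Gy))
  have t3 := EB_mul n (EB_sub n Fx Ey) (EB_sub n (EB_mul n (EB_sub n Fy Gx) hF) (EB_mul n hE Gy))
  have t4 := EB_mul n Ey (EB_sub n (EB_mul n Ey hG) (EB_mul n hF Gx))
  have t5 := EB_mul n Gx (EB_sub n (EB_mul n Ey hF) (EB_mul n hE Gx))
  have t := EB_mul n (EB_sub n (EB_add n (EB_sub n t1 t2) t3)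
    (EB_add n (EB_sub n J1_zero t4) t5)) i2
  exact t

end EBs

theorem EB0_curv (h : CF Γ D m a b s) :
    EB0 (fun (q : Jx ι P Γ (closure D)) (e : P × Pl) => curv (mm m (s q.i) e.1) e.2) Jx.b := by
  have hK : IsCompact (closure D) := h.hX.bdd.isCompact_closure
  have h1 := EB0_mm h hK
  obtain ⟨c, hc, hlow⟩ := mm_low h hK
  obtain ⟨φ, hφ⟩ : ∃ φ : Jx ι P Γ (closure D) → Lx ι P (closure D),
      φ = fun q => ⟨q.i, q.p, q.x, q.x, q.hp, q.hx, q.hx⟩ := ⟨_, rfl⟩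
  have h2 : EB0 (fun (q : Jx ι P Γ (closure D)) (e : P × Pl) => mm m (s q.i) e.1 e.2) Jx.b := by
    refine ⟨fun q => ?_, fun k => ?_⟩
    · have := h1.smooth (φ q)
      rw [hφ] at this
      exact this
    · obtain ⟨C, hC⟩ := h1.bound k
      refine ⟨C, fun q => ?_⟩
      have := hC (φ q)
      rw [hφ] at this
      exact this
  have hE := EB_clm (fun _ => le_rfl) h2 (ContinuousLinearMap.fst ℝ ℝ (ℝ × ℝ))
  have hFG := EB_clm (fun _ => le_rfl) h2 (ContinuousLinearMap.snd ℝ ℝ (ℝ × ℝ))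
  have hF := EB_clm (fun _ => le_rfl) hFG (ContinuousLinearMap.fst ℝ ℝ ℝ)
  have hG := EB_clm (fun _ => le_rfl) hFG (ContinuousLinearMap.snd ℝ ℝ ℝ)
  have hdt : ∀ (q : Jx ι P Γ (closure D)) (e : P × Pl),
      (mm m (s q.i) e.1 e.2).1 * (mm m (s q.i) e.1 e.2).2.2 -
        (mm m (s q.i) e.1 e.2).2.1 * (mm m (s q.i) e.1 e.2).2.1 =
      dt (mm m (s q.i) e.1 e.2) := fun q e => by
    rw [dt]
    ring
  have h3 := J1_EBK (C := c⁻¹) hE hF hG
    (fun q e => by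
      show (mm m (s q.i) e.1 e.2).1 * (mm m (s q.i) e.1 e.2).2.2 -
        (mm m (s q.i) e.1 e.2).2.1 * (mm m (s q.i) e.1 e.2).2.1 ≠ 0
      rw [hdt]
      exact ((hm_mm h q.i e.1).pos e.2).2.ne')
    (fun q => by
      show |(mm m (s q.i) q.b.1 q.b.2).1 * (mm m (s q.i) q.b.1 q.b.2).2.2 -
        (mm m (s q.i) q.b.1 q.b.2).2.1 * (mm m (s q.i) q.b.1 q.b.2).2.1|⁻¹ ≤ c⁻¹
      rw [hdt]
      have h4 := (hlow (φ q)).2
      rw [hφ] at h4
      have h5 : c ≤ dt (mm m (s q.i) q.b.1 q.b.2) := h4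
      rw [abs_of_pos (hc.trans_le h5)]
      exact inv_anti₀ hc h5)
  have e : (fun (q : Jx ι P Γ (closure D)) (e : P × Pl) => curv (mm m (s q.i) e.1) e.2) =
      fun q => J1_K (fun e => (mm m (s q.i) e.1 e.2).1) (fun e => (mm m (s q.i) e.1 e.2).2.1)
        (fun e => (mm m (s q.i) e.1 e.2).2.2) := by
    funext q e
    exact J1_curv (M := fun e : P × Pl => mm m (s q.i) e.1 e.2) (h2.smooth q) e
  rw [e]
  exact h3

private theorem J1_ne (hX : Surface Γ D) : ∃ g : Γ, g ≠ 1 := by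
  by_contra hcon
  push Not at hcon
  have hD : ∀ z : Pl, z ∈ D := by
    intro z
    obtain ⟨γ, hγ, -⟩ := hX.orbit z
    rw [hcon γ, one_smul] at hγ
    exact hγ
  have h1 : Bornology.IsBounded (Set.univ : Set Pl) := by
    refine hX.bdd.subset fun z _ => hD z
  obtain ⟨C, hC⟩ := h1.exists_norm_le
  have h2 := hC ((|C| + 1, 0) : Pl) (mem_univ _)
  have h3 : |C| + 1 ≤ ‖((|C| + 1, 0) : Pl)‖ := by
    have h4 : ‖(|C| + 1 : ℝ)‖ ≤ ‖((|C| + 1, 0) : Pl)‖ := norm_fst_le ((|C| + 1, 0) : Pl)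
    rwa [Real.norm_of_nonneg (by positivity)] at h4
  have h5 := le_abs_self C
  linarith

/-- the curvature along the geodesics -/
private theorem J1_K_along (h : CF Γ D m a b s) (k : ℕ) : ∃ C : ℝ, ∀ (i : ι) (p : P), ‖p‖ ≤ 1 →
    ∀ x u : Pl, eu u = 1 →
      ContDiff ℝ ∞ (fun y : ℝ => curv (mm m (s i) p) (gfl (mm m (s i) p) y (x, u)).1) ∧
      ∀ y : ℝ, ‖iteratedFDeriv ℝ k
        (fun y : ℝ => curv (mm m (s i) p) (gfl (mm m (s i) p) y (x, u)).1) y‖ ≤ C := by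
  obtain ⟨g, hg⟩ := J1_ne h.hX
  have h1 := along (L := fun _ _ _ _ => (0 : ℝ)) (F := ℝ) h (fun _ _ _ _ => le_rfl)
    (fun _ _ _ _ _ => rfl) (G := fun i _ e => curv (mm m (s i) e.1) e.2)
    (fun i _ β p x => curv_deck h.hX (hm_mm h i p) β x) (EB0_curv h)
  obtain ⟨C, hC⟩ := h1.bound k
  refine ⟨C, fun i p hp x u hu => ⟨?_, fun y => ?_⟩⟩
  · exact h1.smooth (⟨i, p, p, g, x, u, hp, hp, hg, hu⟩, 0)
  · have h2 := hC (⟨i, p, p, g, x, u, hp, hp, hg, hu⟩, y)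
    rw [mul_zero, Real.exp_zero, mul_one] at h2
    exact h2

private theorem J1_sm (hX : Surface Γ D) {m : Pl → Co} (hm : HM Γ m) (x u : Pl) :
    ContDiff ℝ ∞ (JA m x u) :=
  (J_smooth hX hm).1.comp (f := fun y : ℝ => (((x, u), y) : (Pl × Pl) × ℝ))
    (contDiff_const.prodMk contDiff_id)

private theorem J1_step (h : CF Γ D m a b s) {c0 : ℝ} {k : ℕ}
    (hk : ∀ j ≤ k, ∃ C : ℝ, 0 ≤ C ∧ ∀ (i : ι) (p : P), ‖p‖ ≤ 1 → ∀ x u : Pl, eu u = 1 →
      ∀ y : ℝ, |iteratedDeriv j (JA (mm m (s i) p) x u) y| ≤ C * Real.exp (c0 * |y|)) :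
    ∃ C : ℝ, 0 ≤ C ∧ ∀ (i : ι) (p : P), ‖p‖ ≤ 1 → ∀ x u : Pl, eu u = 1 →
      ∀ y : ℝ, |iteratedDeriv (k + 2) (JA (mm m (s i) p) x u) y| ≤ C * Real.exp (c0 * |y|) := by
  choose! A hA0 hA using hk
  choose B hB using fun j : ℕ => J1_K_along h j
  refine ⟨∑ j ∈ Finset.range (k + 1), (k.choose j : ℝ) * |B j| * A (k - j), ?_, ?_⟩
  · refine Finset.sum_nonneg fun j _ => ?_
    have := hA0 (k - j) (Nat.sub_le _ _)
    positivity
  intro i p hp x u hu y
  have hm := hm_mm h i p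
  have hode := fun t => JA_ode h.hX hm (x := x) hu t
  have hsm : ContDiff ℝ ∞ (JA (mm m (s i) p) x u) := J1_sm h.hX hm x u
  obtain ⟨κ, hκ⟩ : ∃ κ : ℝ → ℝ, κ = fun y : ℝ =>
    curv (mm m (s i) p) (gfl (mm m (s i) p) y (x, u)).1 := ⟨_, rfl⟩
  have hκs : ContDiff ℝ ∞ κ := by
    rw [hκ]
    exact (hB 0 i p hp x u hu).1
  have hκb : ∀ j, ‖iteratedFDeriv ℝ j κ y‖ ≤ B j := by
    intro j
    rw [hκ]
    exact (hB j i p hp x u hu).2 y
  have hdd : deriv (deriv (JA (mm m (s i) p) x u)) =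
      fun t => -(κ t * JA (mm m (s i) p) x u t) := by
    funext t
    rw [(hode t).2.deriv, hκ]
    ring
  rw [iteratedDeriv_succ', iteratedDeriv_succ', hdd]
  have e1 : iteratedDeriv k (fun t => -(κ t * JA (mm m (s i) p) x u t)) y =
      -iteratedDeriv k (fun t => κ t * JA (mm m (s i) p) x u t) y := by
    have := iteratedDeriv_neg k (fun t => κ t * JA (mm m (s i) p) x u t) y
    exact this
  rw [e1, abs_neg, ← Real.norm_eq_abs, ← norm_iteratedFDeriv_eq_norm_iteratedDeriv]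
  have h2 := norm_iteratedFDeriv_mul_le (n := k) hκs hsm y (mod_cast le_top)
  refine h2.trans ?_
  rw [Finset.sum_mul]
  refine Finset.sum_le_sum fun j hj => ?_
  have h3 := hA (k - j) (Nat.sub_le _ _) i p hp x u hu y
  rw [norm_iteratedFDeriv_eq_norm_iteratedDeriv (f := JA (mm m (s i) p) x u), Real.norm_eq_abs]
  have h4 := (hκb j).trans (le_abs_self _)
  calc (k.choose j : ℝ) * ‖iteratedFDeriv ℝ j κ y‖ *
        |iteratedDeriv (k - j) (JA (mm m (s i) p) x u) y|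
      ≤ (k.choose j : ℝ) * |B j| * (A (k - j) * Real.exp (c0 * |y|)) := by
        gcongr
    _ = (k.choose j : ℝ) * |B j| * A (k - j) * Real.exp (c0 * |y|) := by ring

theorem JA_bd (h : CF Γ D m a b s) : ∃ c0 : ℝ, 0 ≤ c0 ∧ ∀ k : ℕ, ∃ C : ℝ, 0 ≤ C ∧
    ∀ (i : ι) (p : P), ‖p‖ ≤ 1 → ∀ x u : Pl, eu u = 1 →
      ContDiff ℝ ∞ (JA (mm m (s i) p) x u) ∧
      ∀ y : ℝ, |iteratedDeriv k (JA (mm m (s i) p) x u) y| ≤ C * Real.exp (c0 * |y|) := by
  obtain ⟨C0, c0, hC0, hc0, hgrow⟩ := JA_grow h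
  refine ⟨c0, hc0, ?_⟩
  have key : ∀ k : ℕ, ∃ C : ℝ, 0 ≤ C ∧ ∀ (i : ι) (p : P), ‖p‖ ≤ 1 → ∀ x u : Pl, eu u = 1 →
      ∀ y : ℝ, |iteratedDeriv k (JA (mm m (s i) p) x u) y| ≤ C * Real.exp (c0 * |y|) := by
    intro k
    induction k using Nat.strong_induction_on with
    | _ k ih =>
      match k, ih with
      | 0, _ =>
        refine ⟨C0, hC0, fun i p _ x u hu y => ?_⟩
        rw [iteratedDeriv_zero]
        exact (hgrow i p x u hu y).1
      | 1, _ =>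
        refine ⟨C0, hC0, fun i p _ x u hu y => ?_⟩
        rw [iteratedDeriv_one]
        exact (hgrow i p x u hu y).2.1
      | k + 2, ih => exact J1_step h fun j hj => ih j (by omega)
  intro k
  obtain ⟨C, hC, hb⟩ := key k
  refine ⟨C, hC, fun i p hp x u hu => ⟨?_, hb i p hp x u hu⟩⟩
  exact J1_sm h.hX (hm_mm h i p) x u

end BE
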