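import Pool.Agent.LibBE99.Defs

/-! Row U1 (cites `LibBE88/V4`, `V7`, `V8`, `V10`): the coefficients of the parametrix are invariant under
deck transformations. MEDIUM, 45 min.
Plan. `HM` of the metric: `hm_mm`; `h.hX`, `h.hO`. `gp_deck`: `gp m s r e = JE m s (e.1, e.2.1, r • JV m s e)`,
`Vx_deck` (`LibBR70/H1l.lean`), `Rg` is linear (`H1k_Rg_smul` is private, prove it from the definition:
`Rg m γ x (r • v) = r • Rg m γ x v`), `Ex_deck`. `uu_deck`: induction on `j`: `uu_zero`, `uu_succ` (V10); the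
integrand is `r ^ j * TT m (s i) (uu m (s i) j) (p, γ • x, γ • z)`, `z = gp .. r (p, x, y)` (`gp_deck`), so it is
enough that `TT m s Q (p, γ • x, γ • z) = TT m s Q (p, x, z)` for `Q = uu .. j` which is invariant: with
`φ = (γ • ·)`, `ψ = (γ⁻¹ • ·)`: `Q (p, γ • x, φ w) = Q (p, x, w)` for all `w`, hence by `LL_pull` (V4)
`LL (mm ..) (fun w => Q (p, γ • x, w)) (φ z) = LL (mm ..) (fun w => Q (p, x, w)) z` (`SM`: `mm_SM`, V6; `hq` is
`HM.inv`; smoothness of the slices `uu_slice`, `ff_smooth`), the same for `gr` by `gr_pull` and for `ff` by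
`ff_deck` (V7). `UU_deck`: `uu_UU`, `ff_deck`, `uu_deck` (`JV m s (p, x, y) = Vx (mm m s p) x y` by `rfl`).
The equivariance properties `Dk_*`: the definition `Dk` is in `Defs.lean`; `ds_deck` (`LibBR73/AN0.lean`). -/

open MeasureTheory Set Filter Topology
open scoped ContDiff

namespace BE

open BGS BR

variable {Γ : Type} [Group Γ] [MulAction Γ Pl] {D : Set Pl}
variable {ι P : Type} [NormedAddCommGroup P] [NormedSpace ℝ P] [FiniteDimensional ℝ P]
  {m : Pl → Co} {a b : ℝ} {s : ι → P × Pl → ℝ}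

theorem gp_deck (h : CF Γ D m a b s) (i : ι) (p : P) (γ : Γ) (x y : Pl) (r : ℝ) :
    gp m (s i) r (p, γ • x, γ • y) = γ • gp m (s i) r (p, x, y) := by
  change Ex (mm m (s i) p) (γ • x) (r • Vx (mm m (s i) p) (γ • x) (γ • y)) =
    γ • Ex (mm m (s i) p) x (r • Vx (mm m (s i) p) x y)
  rw [Vx_deck h.hX h.hO (hm_mm h i p), ← Rg_smul h.hX (hm_mm h i p),
    Ex_deck h.hX h.hO (hm_mm h i p)]

theorem U1_LL (h : CF Γ D m a b s) (i : ι) (p : P) (γ : Γ) {u : Pl → ℝ}
    (hu : ContDiff ℝ ∞ u) (z : Pl) :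
    LL (mm m (s i) p) u (γ • z) = LL (mm m (s i) p) (fun w => u (γ • w)) z :=
  (LL_pull (V10_SM h i p) (V10_SM h i p) (φ := fun w => γ • w) (ψ := fun w => γ⁻¹ • w)
    (h.hX.smooth γ) (h.hX.smooth γ⁻¹) (fun z => inv_smul_smul γ z) (fun z => smul_inv_smul γ z)
    (fun z v => (hm_mm h i p).inv γ z v) hu z).symm

theorem U1_gr (h : CF Γ D m a b s) (i : ι) (p : P) (γ : Γ) {u w : Pl → ℝ}
    (hu : ContDiff ℝ ∞ u) (hw : ContDiff ℝ ∞ w) (z : Pl) :
    gr (mm m (s i) p) u w (γ • z) =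
      gr (mm m (s i) p) (fun y => u (γ • y)) (fun y => w (γ • y)) z :=
  (gr_pull (V10_SM h i p) (V10_SM h i p) (φ := fun w => γ • w) (h.hX.smooth γ)
    (fun z v => (hm_mm h i p).inv γ z v) hu hw z).symm

theorem U1_TT (h : CF Γ D m a b s) (i : ι) (p : P) (γ : Γ) (x : Pl) {Q : P × Pl × Pl → ℝ}
    (hQ : ∀ x, ContDiff ℝ ∞ (fun y => Q (p, x, y)))
    (hd : ∀ x y, Q (p, γ • x, γ • y) = Q (p, x, y)) (z : Pl) :
    TT m (s i) Q (p, γ • x, γ • z) = TT m (s i) Q (p, x, z) := by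
  have hf : (fun w => ff m (s i) (p, γ • x, γ • w)) = fun w => ff m (s i) (p, x, w) :=
    funext fun w => ff_deck h i p γ x w
  have hq : (fun w => Q (p, γ • x, γ • w)) = fun w => Q (p, x, w) := funext fun w => hd x w
  unfold TT
  simp only
  rw [U1_LL h i p γ (hQ (γ • x)) z, U1_LL h i p γ (V10_fs h i p (γ • x)) z,
    U1_gr h i p γ (V10_fs h i p (γ • x)) (hQ (γ • x)) z,
    U1_gr h i p γ (V10_fs h i p (γ • x)) (V10_fs h i p (γ • x)) z, hd, hf, hq]

theorem uu_deck (h : CF Γ D m a b s) (j : ℕ) (i : ι) (p : P) (γ : Γ) (x y : Pl) :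
    uu m (s i) j (p, γ • x, γ • y) = uu m (s i) j (p, x, y) := by
  induction j generalizing x y with
  | zero => rw [uu_zero h, uu_zero h]
  | succ j ih =>
    rw [uu_succ h, uu_succ h]
    congr 1
    refine intervalIntegral.integral_congr fun r _ => ?_
    simp only
    rw [gp_deck h, U1_TT h i p γ x (fun x => uu_slice h i j p x) (fun x y => ih x y)]

theorem UU_deck (h : CF Γ D m a b s) (j : ℕ) (i : ι) (p : P) (γ : Γ) (x y : Pl) :
    UU (Gx (mm m (s i) p) (γ • x)) j (Vx (mm m (s i) p) (γ • x) (γ • y)) =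
      UU (Gx (mm m (s i) p) x) j (Vx (mm m (s i) p) x y) := by
  have h1 := uu_UU h i j (p, γ • x, γ • y)
  have h2 := uu_UU h i j (p, x, y)
  rw [ff_deck h, uu_deck h] at h1
  exact h1.trans h2.symm

theorem Dk_ds (h : CF Γ D m a b s) : Dk Γ (fun i e => ds (mm m (s i) e.1) e.2.1 e.2.2) := by
  intro i p γ x z
  exact (ds_deck h.hX h.hO (hm_mm h i p) γ x z).1

theorem Dk_ff (h : CF Γ D m a b s) : Dk Γ (fun i => ff m (s i)) := by
  intro i p γ x z
  exact ff_deck h i p γ x z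

theorem Dk_UU (h : CF Γ D m a b s) (j : ℕ) :
    Dk Γ (fun i e => UU (Gx (mm m (s i) e.1) e.2.1) j (JV m (s i) e)) := by
  intro i p γ x z
  exact UU_deck h j i p γ x z

end BE
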