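import Pool.Agent.LibBE99.S0
import Pool.Agent.LibBE99.U1

/-! Row L0 (cites U1, `LibBE88/A1`, `V1`, `V9`, `V11`, `V12`, `C4`, `LibBR70/JB1`-`JB4`): from functions of two points
to functions of one point and a deck transformation, on an arbitrary compact set. MEDIUM, 60 min.
`A1K Γ K m s G` (`Defs.lean`): all derivatives of `G i g` at `(p, x)`, `x ∈ K`, `‖p‖ ≤ 1`, `g ≠ 1` are
`≤ C exp (C log (2 + d))`, `d = ds (mm m (s i) p) x (g • x)`.
Plan. `A1K_of`: for `q : Jx ι P Γ K` choose `β = (shf h.hX q.x)⁻¹`-type element with `β • q.x ∈ closure D`; `β` lies in a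
FINITE set `S` of deck transformations (`hX.proper` for `K ∪ closure D`). Since `Q` is invariant
`Q i (p, x, g • x) = Q i (p, β • x, (β * g * β⁻¹) • (β • x))` for all `(p, x)`, i.e. the family is the composition of the
family of `Adm` at the index `q' : Ix` with `x = y = β • q.x`, `g = β * g * β⁻¹` and the maps
`(p, x) ↦ (p, β • x, β • x)`, `β ∈ S` (`EB_finite` for `J = S`, or `EB_comp` with `EB_compact` for each `β`;
`EB_prod`, `EB_clm`, `EB_id`; `K × closedBall 0 1` compact for `P` finite dimensional). The scale: `ll m s q' =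
log (2 + ds (mm ..) (β • x) (β • g • x)) = log (2 + q.d)` by `ds_deck`; pull back by `EB_pull`. `A1K_nn`:
`0 ≤ log (2 + d)`. `A1K_d2`: `Adm_d2` (`sg (JV ..) = ds ^ 2`: `sg v = eu v ^ 2`), `Dk_ds`. `A1K_d`: `ds = √(ds ^ 2)`, `EB_sqrt`
(`LibBE88/C4`; positivity for `g ≠ 1`: `ds_pos`, `AN2_free`-type fact `free_act` is in U2: reprove, and `ds_low` for the
bound of the inverse) . `A1K_ff`, `A1K_uu`, `A1K_UU`: `Adm_ff`, `Adm_uu`, `Adm_UU`, `Dk_ff`, `uu_deck`, `Dk_UU`.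
`A1K_s`: `EB0_s` (`LibBE88/A1`) and `EB_pull`. `Eqv_of`: the element `(β g β⁻¹) • (β • x) = β • (g • x)`. -/

open MeasureTheory Set Filter Topology
open scoped ContDiff

namespace BE

open BGS BR

variable {Γ : Type} [Group Γ] [MulAction Γ Pl] {D K : Set Pl}
variable {ι P : Type} [NormedAddCommGroup P] [NormedSpace ℝ P] [FiniteDimensional ℝ P]
  {m : Pl → Co} {a b : ℝ} {s : ι → P × Pl → ℝ}
variable {F : Type} [NormedAddCommGroup F] [NormedSpace ℝ F]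

theorem A1K_nn (m : Pl → Co) (s : ι → P × Pl → ℝ) (q : Jx ι P Γ K) : 0 ≤ Real.log (2 + q.d m s) := by
  apply Real.log_nonneg
  have h1 : 0 ≤ q.d m s := Real.sqrt_nonneg _
  linarith

theorem Eqv_of {Q : ι → P × Pl × Pl → F} (hd : Dk Γ Q) :
    Eqv (fun (i : ι) (g : Γ) (e : P × Pl) => Q i (e.1, e.2, g • e.2)) := by
  intro i g β p x
  have h1 : (β * g * β⁻¹) • β • x = β • g • x := by
    rw [mul_smul, inv_smul_smul, mul_smul]
  change Q i (p, β • x, (β * g * β⁻¹) • β • x) = Q i (p, x, g • x)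
  rw [h1]
  exact hd i p β x (g • x)

theorem L0_id {ι P : Type} [NormedAddCommGroup P] [NormedSpace ℝ P] {ℓ : Jx ι P Γ K → ℝ}
    (hl : ∀ q, 0 ≤ ℓ q) (hK : IsCompact K) :
    EB ℓ (fun (_ : Jx ι P Γ K) (e : P × Pl) => e) Jx.b := by
  obtain ⟨R, hR⟩ := hK.isBounded.exists_norm_le
  refine EB_id hl (C := max 1 R) fun q => ?_
  have h0 : 0 ≤ max 1 R := zero_le_one.trans (le_max_left _ _)
  have h1 : ‖Jx.b q‖ ≤ max 1 R := by
    unfold Jx.b
    rw [Prod.norm_def]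
    exact max_le_max q.hp (hR q.x q.hx)
  exact h1.trans (le_mul_of_one_le_right h0 (Real.one_le_exp (mul_nonneg h0 (hl q))))

theorem L0_ll (h : CF Γ D m a b s) (q : Jx ι P Γ K) (β : Γ) :
    ds (mm m (s q.i) q.p) (β • q.x) ((β * q.g * β⁻¹) • β • q.x) = q.d m s := by
  have h1 : (β * q.g * β⁻¹) • β • q.x = β • q.g • q.x := by
    rw [mul_smul, inv_smul_smul, mul_smul]
  rw [h1]
  exact (ds_deck h.hX h.hO (hm_mm h q.i q.p) β q.x (q.g • q.x)).1

theorem A1K_of (h : CF Γ D m a b s) (hK : IsCompact K) {Q : ι → P × Pl × Pl → F}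
    (hQ : Adm Γ D m s Q) (hd : Dk Γ Q) :
    A1K Γ K m s (fun i g e => Q i (e.1, e.2, g • e.2)) := by
  have hl : ∀ q : Jx ι P Γ K, 0 ≤ Real.log (2 + q.d m s) := fun q => A1K_nn m s q
  have hD : IsCompact (closure D) := h.hX.bdd.isCompact_closure
  have hfin := h.hX.proper (K ∪ closure D) (hK.union hD)
  choose g hg hg' using h.hX.orbit
  have hmem : ∀ q : Jx ι P Γ K, g q.x ∈ {γ : Γ | ∃ z ∈ K ∪ closure D, γ • z ∈ K ∪ closure D} :=
    fun q => ⟨q.x, Or.inl q.hx, Or.inr (subset_closure (hg q.x))⟩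
  have : Finite {γ : Γ | ∃ z ∈ K ∪ closure D, γ • z ∈ K ∪ closure D} := hfin
  have hid := L0_id (Γ := Γ) (ι := ι) (P := P) hl hK
  have h1 : EB (fun q : Jx ι P Γ K => Real.log (2 + q.d m s))
      (fun (q : Jx ι P Γ K) (z : Pl) => g q.x • z) (fun q => q.x) :=
    EB_finite (J := {γ : Γ | ∃ z ∈ K ∪ closure D, γ • z ∈ K ∪ closure D})
      (g := fun γ z => (γ : Γ) • z) hl (fun γ => h.hX.smooth γ) hK
      (fun q => q.hx) (fun q => ⟨g q.x, hmem q⟩)
  have h2 : EB (fun q : Jx ι P Γ K => Real.log (2 + q.d m s))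
      (fun (q : Jx ι P Γ K) (e : P × Pl) => g q.x • e.2) Jx.b :=
    EB_comp (g := fun (q : Jx ι P Γ K) (z : Pl) => g q.x • z)
      (f := fun (_ : Jx ι P Γ K) (e : P × Pl) => e.2) hl h1
      (EB_clm hl hid (ContinuousLinearMap.snd ℝ P Pl))
  have h3 : EB (fun q : Jx ι P Γ K => Real.log (2 + q.d m s))
      (fun (q : Jx ι P Γ K) (e : P × Pl) => (e.1, g q.x • e.2, g q.x • e.2)) Jx.b :=
    EB_prod hl (EB_clm hl hid (ContinuousLinearMap.fst ℝ P Pl)) (EB_prod hl h2 h2)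
  have h4 : EB (fun q : Jx ι P Γ K => Real.log (2 + q.d m s))
      (fun (q : Jx ι P Γ K) (e : P × Pl × Pl) =>
        Q q.i (e.1, e.2.1, (g q.x * q.g * (g q.x)⁻¹) • e.2.2))
      (fun q => (q.p, g q.x • q.x, g q.x • q.x)) := by
    have h5 := EB_pull (ll_nonneg m s) hQ
      (fun q : Jx ι P Γ K => (⟨q.i, q.p, g q.x • q.x, g q.x • q.x, g q.x * q.g * (g q.x)⁻¹, q.hp,
        subset_closure (hg q.x), subset_closure (hg q.x)⟩ : Ix ι P Γ D)) hl (A := 1) (fun q => by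
      have h6 : ll m s (⟨q.i, q.p, g q.x • q.x, g q.x • q.x, g q.x * q.g * (g q.x)⁻¹, q.hp,
        subset_closure (hg q.x), subset_closure (hg q.x)⟩ : Ix ι P Γ D) =
          Real.log (2 + q.d m s) := by
        unfold ll Ix.d
        rw [L0_ll h q (g q.x)]
      rw [h6]
      linarith)
    exact h5
  have h5 := EB_comp (g := fun (q : Jx ι P Γ K) (e : P × Pl × Pl) =>
      Q q.i (e.1, e.2.1, (g q.x * q.g * (g q.x)⁻¹) • e.2.2))
    (f := fun (q : Jx ι P Γ K) (e : P × Pl) => (e.1, g q.x • e.2, g q.x • e.2))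
    (x := Jx.b) hl h4 h3
  have h6 : (fun (q : Jx ι P Γ K) (e : P × Pl) => Q q.i (e.1, e.2, q.g • e.2)) =
      fun (q : Jx ι P Γ K) (e : P × Pl) =>
        Q q.i (e.1, g q.x • e.2, (g q.x * q.g * (g q.x)⁻¹) • g q.x • e.2) := by
    funext q e
    exact (Eqv_of hd q.i q.g (g q.x) e.1 e.2).symm
  unfold A1K
  rw [h6]
  exact h5

theorem L0_sq (m0 : Pl → Co) (x y : Pl) : ds m0 x y ^ 2 = sg (Vx m0 x y) := by
  show eu (Vx m0 x y) ^ 2 = _
  unfold eu
  rw [Real.sq_sqrt (by positivity)]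
  rfl

theorem A1K_d2 (h : CF Γ D m a b s) (hK : IsCompact K) :
    A1K Γ K m s (fun i g e => ds (mm m (s i) e.1) e.2 (g • e.2) ^ 2) := by
  have h1 : Adm Γ D m s (fun i (e : P × Pl × Pl) => ds (mm m (s i) e.1) e.2.1 e.2.2 ^ 2) := by
    have h2 : (fun (i : ι) (e : P × Pl × Pl) => ds (mm m (s i) e.1) e.2.1 e.2.2 ^ 2) =
        fun i e => sg (JV m (s i) e) := by
      funext i e
      exact L0_sq _ _ _
    rw [h2]
    exact Adm_d2 h
  refine A1K_of h hK h1 fun i p γ x z => ?_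
  exact congrArg (· ^ 2) (Dk_ds h i p γ x z)

theorem L0_free (hX : Surface Γ D) {g : Γ} (hg : g ≠ 1) (x : Pl) : x ≠ g • x := by
  intro h0
  obtain ⟨γ, hγ, hu⟩ := hX.orbit x
  have h1 : (γ * g) • x ∈ D := by
    rw [mul_smul, ← h0]
    exact hγ
  exact hg (mul_eq_left.mp (hu _ h1))

theorem A1K_d (h : CF Γ D m a b s) (hK : IsCompact K) :
    EB (fun q : Jx ι P Γ K => Real.log (2 + q.d m s))
      (fun q e => ds (mm m (s q.i) e.1) e.2 (q.g • e.2)) Jx.b := by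
  have hl : ∀ q : Jx ι P Γ K, 0 ≤ Real.log (2 + q.d m s) := fun q => A1K_nn m s q
  obtain ⟨c, hc, hcd⟩ := ds_low h
  have hpos : ∀ (q : Jx ι P Γ K) (e : P × Pl), 0 < ds (mm m (s q.i) e.1) e.2 (q.g • e.2) :=
    fun q e => ds_pos h.hX (hm_mm h q.i e.1) (L0_free h.hX q.hg e.2)
  have h1 := EB_sqrt (C := (c ^ 2)⁻¹) hl (A1K_d2 (K := K) h hK) (fun q e => pow_pos (hpos q e) 2)
    (fun q => by
      have h2 : c ^ 2 ≤ ds (mm m (s q.i) q.p) q.x (q.g • q.x) ^ 2 :=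
        pow_le_pow_left₀ hc.le (hcd q.i q.p q.hp q.x q.g q.hg) 2
      have h3 : (ds (mm m (s q.i) q.p) q.x (q.g • q.x) ^ 2)⁻¹ ≤ (c ^ 2)⁻¹ :=
        inv_anti₀ (pow_pos hc 2) h2
      have h4 : 0 ≤ (c ^ 2)⁻¹ := by positivity
      exact h3.trans (le_mul_of_one_le_right h4 (Real.one_le_exp (mul_nonneg h4 (hl q)))))
  have h2 : (fun (q : Jx ι P Γ K) (e : P × Pl) => ds (mm m (s q.i) e.1) e.2 (q.g • e.2)) =
      fun q e => √(ds (mm m (s q.i) e.1) e.2 (q.g • e.2) ^ 2) := by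
    funext q e
    rw [Real.sqrt_sq (hpos q e).le]
  rw [h2]
  exact h1

theorem A1K_ff (h : CF Γ D m a b s) (hK : IsCompact K) :
    A1K Γ K m s (fun i g e => ff m (s i) (e.1, e.2, g • e.2)) :=
  A1K_of h hK (Adm_ff h) (Dk_ff h)

theorem A1K_uu (h : CF Γ D m a b s) (hK : IsCompact K) (j : ℕ) :
    A1K Γ K m s (fun i g e => uu m (s i) j (e.1, e.2, g • e.2)) :=
  A1K_of h hK (Adm_uu h j) fun i p γ x z => uu_deck h j i p γ x z

theorem A1K_UU (h : CF Γ D m a b s) (hK : IsCompact K) (j : ℕ) :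
    A1K Γ K m s (fun i g e => UU (Gx (mm m (s i) e.1) e.2) j (Vx (mm m (s i) e.1) e.2 (g • e.2))) :=
  A1K_of h hK (Adm_UU h j) (Dk_UU h j)

theorem A1K_s (h : CF Γ D m a b s) (hK : IsCompact K) :
    EB0 (fun q : Jx ι P Γ K => s q.i) Jx.b :=
  EB_pull (fun _ => le_refl _) (EB0_s h hK)
    (fun q : Jx ι P Γ K => (⟨q.i, q.p, q.x, q.x, q.hp, q.hx, q.hx⟩ : Lx ι P K))
    (fun _ => le_refl _) (A := 0) (fun q => by simp)

end BE
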