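import Pool.Agent.LibBE99.Defs

/-! Row L1 (cites `LibBE88/A2`, `LibBR70/JB1`-`JB4`, `H1e`): derivatives along the geodesic flow. MEDIUM / STRONG, 60 min.
`Hf m0 G 0 (p, x, u) = G (p, x)`, `Hf m0 G (k + 1) e = fderiv ℝ (Hf m0 G k) e (0, gf m0 e.2)` (`Defs.lean`).
`G i g` is a family of functions of `(p, x)` with derivatives bounded by `C exp (C L)` at the points with
`x ∈ closure D`; `L i p g x ≥ 0` is any scale.
Plan. `Hf_smooth`: induction (`ContDiff.fderiv_right`, `ContDiff.clm_apply`, smoothness of `gf`: `gf_smooth` in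
`LibBR70/H1a.lean`). `Hf_EB`: induction on `k`. `k = 0`: the family `G q.i q.g` at `(p, x)` composed with the linear map
`e ↦ (e.1, e.2.1)` (`EB_comp`, `EB_clm`, `EB_id`, the points are bounded: `‖p‖ ≤ 1`, `x ∈ closure D` compact
(`h.hX`), `‖u‖ ≤ eu u = 1`), index pulled back from `Jx` to `Hx` (the scale is the same). Step: `EB_clm_apply` with
`EB_fderiv` and the vector family `e ↦ (0, gf (mm m (s q.i) q.p0) e.2)` : `jf_EB0` (`LibBE88/A2`) for the compact set
`closure D ∪ closedBall 0 1` at the point `(q.p0, q.x, q.u)` composed with `e ↦ (q.p0, e.2.1, e.2.2)` (a constant plus a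
linear map), second component, then `EB_prod` with zero; from scale `0` to scale `L` by `EB_pull` (`0 ≤ L`).
`Hf_iter`: induction on `k`: `iteratedDeriv_succ`; if `iteratedDeriv k (..) = fun y => Hf m0 G k (p, gfl m0 y z)` then the
derivative at `y` is `fderiv ℝ (Hf m0 G k) (p, gfl m0 y z) (0, gf m0 (gfl m0 y z))` by the chain rule and
`(gfl_isFlow hX hm).deriv` (`LibBR70/H1e.lean`). -/

open MeasureTheory Set Filter Topology
open scoped ContDiff

namespace BE

open BGS BR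

variable {Γ : Type} [Group Γ] [MulAction Γ Pl] {D : Set Pl}
variable {ι P : Type} [NormedAddCommGroup P] [NormedSpace ℝ P] [FiniteDimensional ℝ P]
  {m : Pl → Co} {a b : ℝ} {s : ι → P × Pl → ℝ}
variable {F : Type} [NormedAddCommGroup F] [NormedSpace ℝ F]

theorem L1_eu {u : Pl} (hu : eu u = 1) : ‖u‖ ≤ 1 := by
  have h1 : u.1 ^ 2 + u.2 ^ 2 = 1 := by
    have h2 : eu u ^ 2 = 1 := by rw [hu, one_pow]
    unfold eu at h2
    rwa [Real.sq_sqrt (by positivity)] at h2
  rw [Prod.norm_def]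
  refine max_le ?_ ?_
  · rw [Real.norm_eq_abs]
    exact abs_le_one_iff_mul_self_le_one.2 (by nlinarith [sq_nonneg u.2])
  · rw [Real.norm_eq_abs]
    exact abs_le_one_iff_mul_self_le_one.2 (by nlinarith [sq_nonneg u.1])

theorem Hf_smooth (hX : Surface Γ D) {m0 : Pl → Co} (hm : HM Γ m0) {G : P × Pl → F}
    (hG : ContDiff ℝ ∞ G) (k : ℕ) : ContDiff ℝ ∞ (Hf m0 G k) := by
  have _ := hX
  induction k with
  | zero => exact hG.comp (contDiff_fst.prodMk (contDiff_fst.comp contDiff_snd))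
  | succ k ih =>
    refine (ih.fderiv_right (m := ∞) (by simp)).clm_apply ?_
    exact contDiff_const.prodMk ((gf_smooth hm.smooth hm.pos).comp contDiff_snd)

theorem L1_id {ℓ : Hx ι P Γ D → ℝ} (hl : ∀ q, 0 ≤ ℓ q) (hD : IsCompact (closure D)) :
    EB ℓ (fun (_ : Hx ι P Γ D) (e : P × (Pl × Pl)) => e) Hx.b := by
  obtain ⟨R, hR⟩ := hD.isBounded.exists_norm_le
  refine EB_id hl (C := max 1 R) fun q => ?_
  have h0 : 0 ≤ max 1 R := zero_le_one.trans (le_max_left _ _)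
  have h1 : ‖Hx.b q‖ ≤ max 1 R := by
    unfold Hx.b
    rw [Prod.norm_def, Prod.norm_def]
    refine max_le (q.hp.trans (le_max_left _ _)) (max_le ((hR q.x q.hx).trans (le_max_right _ _)) ?_)
    exact (L1_eu q.hu).trans (le_max_left _ _)
  exact h1.trans (le_mul_of_one_le_right h0 (Real.one_le_exp (mul_nonneg h0 (hl q))))

theorem L1_vec (h : CF Γ D m a b s) {ℓ : Hx ι P Γ D → ℝ} (hl : ∀ q, 0 ≤ ℓ q) :
    EB ℓ (fun (q : Hx ι P Γ D) (e : P × (Pl × Pl)) =>
      ((0 : P), gf (mm m (s q.i) q.p0) e.2)) Hx.b := by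
  have hD : IsCompact (closure D) := h.hX.bdd.isCompact_closure
  have hK : IsCompact (closure D ∪ Metric.closedBall (0 : Pl) 1) :=
    hD.union (isCompact_closedBall _ _)
  have hid := L1_id hl hD
  have h1 := EB_pull (fun _ => le_refl _) (jf_EB0 (ι := ι) (P := P) h hK)
    (fun q : Hx ι P Γ D => (⟨q.i, q.p0, q.x, q.u, q.h0, Or.inl q.hx, Or.inr (by
      rw [mem_closedBall_zero_iff]
      exact L1_eu q.hu)⟩ : Lx ι P (closure D ∪ Metric.closedBall (0 : Pl) 1))) hl (A := 0)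
    (fun q => by simp)
  have h2 : EB ℓ (fun (q : Hx ι P Γ D) (e : P × (Pl × Pl)) => (q.p0, e.2)) Hx.b :=
    EB_prod hl (EB_const hl (c := fun q : Hx ι P Γ D => q.p0) (C := 1) fun q => by
      rw [one_mul]
      exact q.h0.trans (Real.one_le_exp (by rw [one_mul]; exact hl q)))
      (EB_clm hl hid (ContinuousLinearMap.snd ℝ P (Pl × Pl)))
  exact EB_comp (g := fun q : Hx ι P Γ D => jf m (s q.i))
    (f := fun (q : Hx ι P Γ D) (e : P × (Pl × Pl)) => (q.p0, e.2)) (x := Hx.b) hl h1 h2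

theorem Hf_EB (h : CF Γ D m a b s) {L : ι → P → Γ → Pl → ℝ} (hL0 : ∀ i p g x, 0 ≤ L i p g x)
    {G : ι → Γ → P × Pl → F}
    (hG : EB (fun q : Jx ι P Γ (closure D) => L q.i q.p q.g q.x) (fun q => G q.i q.g) Jx.b)
    (k : ℕ) : EB (fun q : Hx ι P Γ D => L q.i q.p q.g q.x)
      (fun q => Hf (mm m (s q.i) q.p0) (G q.i q.g) k) Hx.b := by
  have hD : IsCompact (closure D) := h.hX.bdd.isCompact_closure
  have hl : ∀ q : Hx ι P Γ D, 0 ≤ L q.i q.p q.g q.x := fun q => hL0 _ _ _ _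
  have hid := L1_id hl hD
  induction k with
  | zero =>
    have h1 := EB_pull (fun q => hL0 _ _ _ _) hG
      (fun q : Hx ι P Γ D => (⟨q.i, q.p, q.g, q.x, q.hp, q.hg, q.hx⟩ : Jx ι P Γ (closure D))) hl
      (A := 1) (fun q => by
        show L q.i q.p q.g q.x ≤ 1 * (1 + L q.i q.p q.g q.x)
        linarith)
    have h2 : EB (fun q : Hx ι P Γ D => L q.i q.p q.g q.x)
        (fun (_ : Hx ι P Γ D) (e : P × (Pl × Pl)) => (e.1, e.2.1)) Hx.b :=
      EB_clm hl hid ((ContinuousLinearMap.fst ℝ P (Pl × Pl)).prod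
        ((ContinuousLinearMap.fst ℝ Pl Pl).comp (ContinuousLinearMap.snd ℝ P (Pl × Pl))))
    exact EB_comp (g := fun q : Hx ι P Γ D => G q.i q.g)
      (f := fun (_ : Hx ι P Γ D) (e : P × (Pl × Pl)) => (e.1, e.2.1)) (x := Hx.b) hl h1 h2
  | succ k ih => exact EB_clm_apply hl (EB_fderiv ih) (L1_vec h hl)

theorem Hf_iter (hX : Surface Γ D) {m0 : Pl → Co} (hm : HM Γ m0) {G : P × Pl → F}
    (hG : ContDiff ℝ ∞ G) (p : P) (z : Pl × Pl) (k : ℕ) :
    iteratedDeriv k (fun y : ℝ => G (p, (gfl m0 y z).1)) = fun y => Hf m0 G k (p, gfl m0 y z) := by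
  induction k with
  | zero => rw [iteratedDeriv_zero]; rfl
  | succ k ih =>
    rw [iteratedDeriv_succ, ih]
    funext y
    have h1 : HasFDerivAt (Hf m0 G k) (fderiv ℝ (Hf m0 G k) (p, gfl m0 y z)) (p, gfl m0 y z) :=
      ((Hf_smooth hX hm hG k).differentiable (by simp) _).hasFDerivAt
    have h2 : HasDerivAt (fun y : ℝ => (p, gfl m0 y z)) (0, gf m0 (gfl m0 y z)) y :=
      (hasDerivAt_const y p).prodMk ((gfl_isFlow hX hm).deriv z y)
    exact (h1.comp_hasDerivAt y h2).deriv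

end BE
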