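import Pool.Agent.LibBE99.Defs
import Pool.Agent.LibBGM20.A5
import Pool.Agent.LibBGM20.H1B

/-! Row S0 (cites `LibBGM20/A2`, `A4`, `A5`, `H1B`, `LibBE88/A1`): the distances of two metrics of the family are
comparable. SHORT / MEDIUM, 30 min.
Plan. `BGM.ds m x y` (infimum of the lengths `BGM.len` of the `C¹` curves) equals `eu (Vx m x y) = BR.ds m x y`
by `BGM.ds_eq` and `BGM.had_of` (`H1B.lean`; `hK` from `h.neg` with `k = max |b| 1`, `0 < k`), for both metrics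
`mm m (s i) p`, `mm m (s i) p'` (`hm_mm`). `mm_cmp` (`LibBE88/A1`) twice:
`qf (mm m (s i) p z) v ≤ C ^ 2 * qf (m z) v ≤ C ^ 4 * qf (mm m (s i) p' z) v`, so `nm ≤ C ^ 2 nm` (`Real.sqrt_le_sqrt`,
`Real.sqrt_mul_self`), so `len (mm .. p) c ≤ C ^ 2 * len (mm .. p') c` (`intervalIntegral.integral_mono`, continuity
`A4_cont`), so the infima compare: `ds (mm .. p) x y ≤ len (mm .. p) c 0 1 ≤ C ^ 2 len (mm .. p') c 0 1` for every
curve (`BGM.ds_le`), and `BGM.le_ds` for `C⁻² ds (mm .. p)`. (`BGM.eu`, `BR.eu` are the same by `rfl`.)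
`ds_tri'`: the triangle inequality: `BGM.ds_tri` (`LibBGM20/A4t.lean`, import it). -/

open MeasureTheory Set Filter Topology
open scoped ContDiff

namespace BE

open BGS BR

variable {Γ : Type} [Group Γ] [MulAction Γ Pl] {D : Set Pl}
variable {ι P : Type} [NormedAddCommGroup P] [NormedSpace ℝ P] [FiniteDimensional ℝ P]
  {m : Pl → Co} {a b : ℝ} {s : ι → P × Pl → ℝ}

private theorem S0_ds (h : CF Γ D m a b s) (i : ι) (p : P) (x y : Pl) :
    BGM.ds (mm m (s i) p) x y = ds (mm m (s i) p) x y := by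
  have h1 : BGM.Had (mm m (s i) p) (max |b| 1) (Ex (mm m (s i) p)) (Vx (mm m (s i) p))
      (JB (mm m (s i) p)) := by
    refine BGM.had_of h.hX (hm_mm h i p) (lt_of_lt_of_le one_pos (le_max_right _ _)) fun z => ?_
    have h2 := (h.neg i p z).1
    have h3 : b ^ 2 ≤ (max |b| 1) ^ 2 := by
      rw [← sq_abs b]
      exact pow_le_pow_left₀ (abs_nonneg b) (le_max_left _ _) 2
    linarith
  rw [BGM.ds_eq h1 x y]
  rfl

private theorem S0_rp (h : CF Γ D m a b s) (i : ι) (p : P) : BGM.Rp (mm m (s i) p) :=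
  ⟨(hm_mm h i p).smooth, (hm_mm h i p).pos⟩

theorem ds_cmp2 (h : CF Γ D m a b s) : ∃ C : ℝ, 1 ≤ C ∧ ∀ (i : ι) (p p' : P), ‖p‖ ≤ 1 → ‖p'‖ ≤ 1 →
    ∀ x y : Pl, ds (mm m (s i) p) x y ≤ C * ds (mm m (s i) p') x y := by
  obtain ⟨C, hC1, hC⟩ := mm_cmp h
  have hC0 : 0 < C ^ 2 := by positivity
  refine ⟨C ^ 2, by nlinarith, fun i p p' hp hp' x y => ?_⟩
  rw [← S0_ds h i p, ← S0_ds h i p']
  have hr := S0_rp h i p
  have hr' := S0_rp h i p'
  have hnm : ∀ z v : Pl, BGM.nm (mm m (s i) p z) v ≤ C ^ 2 * BGM.nm (mm m (s i) p' z) v := by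
    intro z v
    have h1 := (hC i p hp z v).2
    have h2 := (hC i p' hp' z v).1
    have h3 : qf (mm m (s i) p z) v ≤ (C ^ 2) ^ 2 * qf (mm m (s i) p' z) v := by
      calc qf (mm m (s i) p z) v ≤ C ^ 2 * qf (m z) v := h1
        _ ≤ C ^ 2 * (C ^ 2 * qf (mm m (s i) p' z) v) := mul_le_mul_of_nonneg_left h2 hC0.le
        _ = _ := by ring
    unfold BGM.nm
    calc √(qf (mm m (s i) p z) v) ≤ √((C ^ 2) ^ 2 * qf (mm m (s i) p' z) v) :=
          Real.sqrt_le_sqrt h3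
      _ = C ^ 2 * √(qf (mm m (s i) p' z) v) := by
          rw [Real.sqrt_mul (by positivity), Real.sqrt_sq hC0.le]
  have h4 : BGM.ds (mm m (s i) p) x y / C ^ 2 ≤ BGM.ds (mm m (s i) p') x y := by
    refine BGM.le_ds _ fun c hc h0 h1 => ?_
    rw [div_le_iff₀ hC0]
    have h5 := BGM.ds_le hr hc (zero_le_one (α := ℝ))
    rw [h0, h1] at h5
    refine h5.trans ?_
    unfold BGM.len
    rw [mul_comm, ← intervalIntegral.integral_const_mul]
    refine intervalIntegral.integral_mono zero_le_one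
      ((BGM.A4_cont hr hc).intervalIntegrable 0 1)
      (((BGM.A4_cont hr' hc).const_mul (C ^ 2)).intervalIntegrable 0 1) fun t => ?_
    exact hnm _ _
  rw [div_le_iff₀ hC0] at h4
  linarith

end BE
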