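import Pool.Agent.LibBE99.L1
import Pool.Agent.LibBE99.S0

/-! Row L2 (cites L1, S0): families of functions along geodesics, and their dependence on the parameter.
MEDIUM, 60 min.
`L i p g x ≥ 0` is a scale with `L i p (β g β⁻¹) (β x) = L i p g x`; `G` is equivariant in the same way.
Plan. `Ln_move`: given `q : Ln ι P Γ`, `y : ℝ` put `β = (shf h.hX (q.X m s y))⁻¹`, so `β • q.X m s y ∈ closure D`
(`shf_mem'`), and `g' = β * q.g * β⁻¹ ≠ 1`. `gfl_deck` (`LibBR70/H1k.lean`) for `m0 = mm m (s q.i) q.p0`: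
`β • q.X m s y' = (gfl m0 y' (β • q.x, Rg m0 β q.x q.u)).1`; `Rg` preserves `eu` (`AN3_eu_Rg`). For all `y'`:
`G q.i q.g (p, q.X m s y') = G q.i g' (p, β • q.X m s y')`. Hence by `Hf_iter` (`z = (β • q.x, Rg .. )`):
`iteratedDeriv k (fun y' => G q.i q.g (p, q.X m s y')) y = Hf m0 (G q.i g') k (p, gfl m0 y z)` and
`gfl m0 y z = (β • q.X m s y, w)`, `eu w = 1`, `β • q.X m s y ∈ closure D`: a point `Hx.b` of an index `q' : Hx ι P Γ D`
with `L q'.i q'.p q'.g q'.x = L q.i p q.g (q.X m s y)`. `along`: this for `p = q.p1` and the bound of order `0` of `Hf_EB`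
(`norm_iteratedFDeriv_eq_norm_iteratedDeriv` to go from `iteratedDeriv` to `EB`; smoothness: composition
with the smooth curve `y ↦ gfl m0 y z`). `along_p0`: the same for `p = q.p0`, then the scale at `q.p0` is at most
`A (1 + scale at q.p1)` (`hLp`). `along_diff`: `Hf .. (q.p1, ..) - Hf .. (q.p0, ..)`: mean value inequality on the
segment from `q.p0` to `q.p1`, which stays in the unit ball (`norm_image_sub_le_of_norm_fderiv_le`-type,
`Convex.norm_image_sub_le_of_norm_fderiv_le`), derivative of order `1` of `Hf_EB` at `(p, ..)`, `‖p‖ ≤ 1`, scale at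
`p` bounded by `A (1 + scale at q.p1)`. -/

open MeasureTheory Set Filter Topology
open scoped ContDiff

namespace BE

open BGS BR

variable {Γ : Type} [Group Γ] [MulAction Γ Pl] {D : Set Pl}
variable {ι P : Type} [NormedAddCommGroup P] [NormedSpace ℝ P] [FiniteDimensional ℝ P]
  {m : Pl → Co} {a b : ℝ} {s : ι → P × Pl → ℝ}
variable {F : Type} [NormedAddCommGroup F] [NormedSpace ℝ F]

private theorem L2_exp (C A : ℝ) : ∃ C' : ℝ, ∀ l l' : ℝ, 0 ≤ l → 0 ≤ l' → l ≤ A * (1 + l') →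
    C * Real.exp (C * l) ≤ C' * Real.exp (C' * l') := by
  refine ⟨|C| * Real.exp (|C| * |A|) + |C| * |A|, fun l l' hl hl' h => ?_⟩
  have hC0 : 0 ≤ |C| := abs_nonneg C
  have hA0 : 0 ≤ |A| := abs_nonneg A
  have h1 : l ≤ |A| * (1 + l') :=
    h.trans (mul_le_mul_of_nonneg_right (le_abs_self A) (by linarith))
  have h2 : C * l ≤ |C| * |A| + |C| * |A| * l' := by
    calc C * l ≤ |C| * l := mul_le_mul_of_nonneg_right (le_abs_self C) hl
      _ ≤ |C| * (|A| * (1 + l')) := mul_le_mul_of_nonneg_left h1 hC0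
      _ = _ := by ring
  calc C * Real.exp (C * l) ≤ |C| * Real.exp (|C| * |A| + |C| * |A| * l') :=
        mul_le_mul (le_abs_self C) (Real.exp_le_exp.2 h2) (Real.exp_pos _).le hC0
    _ = |C| * Real.exp (|C| * |A|) * Real.exp (|C| * |A| * l') := by
        rw [Real.exp_add]
        ring
    _ ≤ (|C| * Real.exp (|C| * |A|) + |C| * |A|) *
        Real.exp ((|C| * Real.exp (|C| * |A|) + |C| * |A|) * l') := by
        have h3 : 0 ≤ |C| * |A| := mul_nonneg hC0 hA0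
        have h4 : 0 ≤ |C| * Real.exp (|C| * |A|) := mul_nonneg hC0 (Real.exp_pos _).le
        refine mul_le_mul (by linarith) (Real.exp_le_exp.2 ?_) (Real.exp_pos _).le (by linarith)
        exact mul_le_mul_of_nonneg_right (by linarith) hl'

omit [FiniteDimensional ℝ P] in
private theorem L2_G_smooth (h : CF Γ D m a b s) {ℓ : Jx ι P Γ (closure D) → ℝ}
    {G : ι → Γ → P × Pl → F}
    (hG : EB ℓ (fun q : Jx ι P Γ (closure D) => G q.i q.g) Jx.b) (i : ι) {g : Γ} (hg : g ≠ 1) :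
    ContDiff ℝ ∞ (G i g) := by
  obtain ⟨γ, hγ, -⟩ := h.hX.orbit 0
  exact hG.smooth ⟨i, 0, g, γ • (0 : Pl), by simp, hg, subset_closure hγ⟩

omit [FiniteDimensional ℝ P] in
private theorem L2_X_smooth (h : CF Γ D m a b s) (q : Ln ι P Γ) : ContDiff ℝ ∞ (q.X m s) := by
  have h1 := gfl_smooth h.hX (hm_mm h q.i q.p0)
  have h2 : ContDiff ℝ ∞ (fun y : ℝ => gfl (mm m (s q.i) q.p0) y (q.x, q.u)) :=
    h1.comp (contDiff_id.prodMk contDiff_const)
  exact contDiff_fst.comp h2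

/-- the point is moved to `closure D` -/
private theorem L2_move (h : CF Γ D m a b s) {L : ι → P → Γ → Pl → ℝ}
    (hL : ∀ i p g (β : Γ) x, L i p (β * g * β⁻¹) (β • x) = L i p g x)
    {G : ι → Γ → P × Pl → F} (he : Eqv G)
    (hG : EB (fun q : Jx ι P Γ (closure D) => L q.i q.p q.g q.x) (fun q => G q.i q.g) Jx.b)
    (q : Ln ι P Γ) (y : ℝ) : ∃ (g' : Γ) (x' u' : Pl), g' ≠ 1 ∧ x' ∈ closure D ∧ eu u' = 1 ∧
      (∀ p, L q.i p g' x' = L q.i p q.g (q.X m s y)) ∧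
      ∀ (p : P) (k : ℕ), iteratedDeriv k (fun y => G q.i q.g (p, q.X m s y)) y =
        Hf (mm m (s q.i) q.p0) (G q.i g') k (p, x', u') := by
  have hm0 := hm_mm h q.i q.p0
  set m0 := mm m (s q.i) q.p0 with hm0d
  set β : Γ := (shf h.hX (q.X m s y))⁻¹ with hβ
  have hg' : β * q.g * β⁻¹ ≠ 1 := by
    intro h1
    apply q.hg
    have h2 : q.g = β⁻¹ * (β * q.g * β⁻¹) * β := by group
    rw [h2, h1]
    group
  set z : Pl × Pl := (β • q.x, Rg m0 β q.x q.u) with hz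
  have hdk : ∀ y', gfl m0 y' z = (β • (gfl m0 y' (q.x, q.u)).1,
      Rg m0 β (gfl m0 y' (q.x, q.u)).1 (gfl m0 y' (q.x, q.u)).2) := fun y' =>
    gfl_deck h.hX h.hO hm0 β y' q.x q.u
  have hx : (gfl m0 y z).1 = β • q.X m s y := by
    rw [hdk]
    rfl
  refine ⟨β * q.g * β⁻¹, (gfl m0 y z).1, (gfl m0 y z).2, hg', ?_, ?_, ?_, ?_⟩
  · rw [hx]
    exact shf_mem' h.hX _
  · rw [gfl_eu h.hX hm0]
    change eu (Rg m0 β q.x q.u) = 1
    rw [AN3_eu_Rg h.hX hm0, q.hu]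
  · intro p
    rw [hx, hL]
  · intro p k
    have h3 : (fun y => G q.i q.g (p, q.X m s y)) =
        fun y' => G q.i (β * q.g * β⁻¹) (p, (gfl m0 y' z).1) := by
      funext y'
      rw [← he q.i q.g β p (q.X m s y'), hdk]
      rfl
    rw [h3, Hf_iter h.hX hm0 (L2_G_smooth h hG q.i hg') p z k]

private theorem L2_along (h : CF Γ D m a b s) {L : ι → P → Γ → Pl → ℝ}
    (hL0 : ∀ i p g x, 0 ≤ L i p g x)
    (hL : ∀ i p g (β : Γ) x, L i p (β * g * β⁻¹) (β • x) = L i p g x)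
    {G : ι → Γ → P × Pl → F} (he : Eqv G)
    (hG : EB (fun q : Jx ι P Γ (closure D) => L q.i q.p q.g q.x) (fun q => G q.i q.g) Jx.b)
    (hH : ∀ k : ℕ, EB (fun q : Hx ι P Γ D => L q.i q.p q.g q.x)
      (fun q => Hf (mm m (s q.i) q.p0) (G q.i q.g) k) Hx.b)
    (π : Ln ι P Γ → P) (hπ : ∀ q, ‖π q‖ ≤ 1) :
    EB (fun q : Ln ι P Γ × ℝ => L q.1.i (π q.1) q.1.g (q.1.X m s q.2))
      (fun q y => G q.1.i q.1.g (π q.1, q.1.X m s y)) (fun q => q.2) := by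
  have _ := hL0
  refine ⟨fun q => (L2_G_smooth h hG q.1.i q.1.hg).comp
    (contDiff_const.prodMk (L2_X_smooth h q.1)), fun k => ?_⟩
  obtain ⟨C, hC⟩ := (hH k).bound 0
  refine ⟨C, fun q => ?_⟩
  obtain ⟨g', x', u', hg', hx', hu', hL', hk⟩ := L2_move h hL he hG q.1 q.2
  rw [norm_iteratedFDeriv_eq_norm_iteratedDeriv, hk (π q.1) k, ← hL' (π q.1)]
  have h1 := hC (⟨q.1.i, q.1.p0, π q.1, g', x', u', q.1.h0, hπ q.1, hg', hx', hu'⟩ : Hx ι P Γ D)
  rw [norm_iteratedFDeriv_zero] at h1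
  exact h1

theorem along (h : CF Γ D m a b s) {L : ι → P → Γ → Pl → ℝ} (hL0 : ∀ i p g x, 0 ≤ L i p g x)
    (hL : ∀ i p g (β : Γ) x, L i p (β * g * β⁻¹) (β • x) = L i p g x)
    {G : ι → Γ → P × Pl → F} (he : Eqv G)
    (hG : EB (fun q : Jx ι P Γ (closure D) => L q.i q.p q.g q.x) (fun q => G q.i q.g) Jx.b) :
    EB (fun q : Ln ι P Γ × ℝ => L q.1.i q.1.p1 q.1.g (q.1.X m s q.2))
      (fun q y => G q.1.i q.1.g (q.1.p1, q.1.X m s y)) (fun q => q.2) :=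
  L2_along h hL0 hL he hG (fun k => Hf_EB h hL0 hG k) (fun q => q.p1) fun q => q.h1

theorem along_p0 (h : CF Γ D m a b s) {L : ι → P → Γ → Pl → ℝ} (hL0 : ∀ i p g x, 0 ≤ L i p g x)
    (hL : ∀ i p g (β : Γ) x, L i p (β * g * β⁻¹) (β • x) = L i p g x)
    (hLp : ∃ A : ℝ, ∀ i p p' g x, ‖p‖ ≤ 1 → ‖p'‖ ≤ 1 → L i p g x ≤ A * (1 + L i p' g x))
    {G : ι → Γ → P × Pl → F} (he : Eqv G)
    (hG : EB (fun q : Jx ι P Γ (closure D) => L q.i q.p q.g q.x) (fun q => G q.i q.g) Jx.b) :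
    EB (fun q : Ln ι P Γ × ℝ => L q.1.i q.1.p1 q.1.g (q.1.X m s q.2))
      (fun q y => G q.1.i q.1.g (q.1.p0, q.1.X m s y)) (fun q => q.2) := by
  obtain ⟨A, hA⟩ := hLp
  have h1 := L2_along h hL0 hL he hG (fun k => Hf_EB h hL0 hG k) (fun q => q.p0) fun q => q.h0
  exact EB_pull (fun _ => hL0 _ _ _ _) h1 id (fun _ => hL0 _ _ _ _) (A := A)
    (fun q => hA _ _ _ _ _ q.1.h0 q.1.h1)

theorem along_diff (h : CF Γ D m a b s) {L : ι → P → Γ → Pl → ℝ}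
    (hL0 : ∀ i p g x, 0 ≤ L i p g x)
    (hL : ∀ i p g (β : Γ) x, L i p (β * g * β⁻¹) (β • x) = L i p g x)
    (hLp : ∃ A : ℝ, ∀ i p p' g x, ‖p‖ ≤ 1 → ‖p'‖ ≤ 1 → L i p g x ≤ A * (1 + L i p' g x))
    {G : ι → Γ → P × Pl → F} (he : Eqv G)
    (hG : EB (fun q : Jx ι P Γ (closure D) => L q.i q.p q.g q.x) (fun q => G q.i q.g) Jx.b)
    (k : ℕ) : ∃ C : ℝ, ∀ (q : Ln ι P Γ) (y : ℝ),
      ‖iteratedDeriv k (fun y => G q.i q.g (q.p1, q.X m s y)) y -
        iteratedDeriv k (fun y => G q.i q.g (q.p0, q.X m s y)) y‖ ≤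
      C * Real.exp (C * L q.i q.p1 q.g (q.X m s y)) * ‖q.p1 - q.p0‖ := by
  obtain ⟨A, hA⟩ := hLp
  obtain ⟨C, hC⟩ := (Hf_EB h hL0 hG k).bound 1
  obtain ⟨C', hC'⟩ := L2_exp C A
  refine ⟨C', fun q y => ?_⟩
  obtain ⟨g', x', u', hg', hx', hu', hL', hk⟩ := L2_move h hL he hG q y
  rw [hk q.p1 k, hk q.p0 k]
  set H : P × (Pl × Pl) → F := Hf (mm m (s q.i) q.p0) (G q.i g') k with hH
  have hHs : ContDiff ℝ ∞ H :=
    Hf_smooth h.hX (hm_mm h q.i q.p0) (L2_G_smooth h hG q.i hg') k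
  have hd : ∀ p : P, HasFDerivAt (fun p => H (p, x', u'))
      ((fderiv ℝ H (p, x', u')).comp (ContinuousLinearMap.inl ℝ P (Pl × Pl))) p := by
    intro p
    have h1 : HasFDerivAt H (fderiv ℝ H (p, x', u')) (p, x', u') :=
      ((hHs.differentiable (by simp)) _).hasFDerivAt
    exact h1.comp p (hasFDerivAt_prodMk_left p (x', u'))
  have hb : ∀ p ∈ Metric.closedBall (0 : P) 1,
      ‖(fderiv ℝ H (p, x', u')).comp (ContinuousLinearMap.inl ℝ P (Pl × Pl))‖ ≤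
        C' * Real.exp (C' * L q.i q.p1 q.g (q.X m s y)) := by
    intro p hp
    have hp1 : ‖p‖ ≤ 1 := mem_closedBall_zero_iff.1 hp
    have h1 := hC (⟨q.i, q.p0, p, g', x', u', q.h0, hp1, hg', hx', hu'⟩ : Hx ι P Γ D)
    rw [norm_iteratedFDeriv_one] at h1
    have h2 : ‖fderiv ℝ H (p, x', u')‖ ≤ C' * Real.exp (C' * L q.i q.p1 q.g (q.X m s y)) := by
      refine (h1 : ‖fderiv ℝ H (p, x', u')‖ ≤ C * Real.exp (C * L q.i p g' x')).trans ?_
      rw [hL' p]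
      exact hC' _ _ (hL0 _ _ _ _) (hL0 _ _ _ _) (hA _ _ _ _ _ hp1 q.h1)
    refine ContinuousLinearMap.opNorm_le_bound _ ((norm_nonneg _).trans h2) fun v => ?_
    change ‖fderiv ℝ H (p, x', u') (v, 0)‖ ≤ _
    refine (ContinuousLinearMap.le_opNorm _ _).trans ?_
    have h3 : ‖((v, 0) : P × (Pl × Pl))‖ = ‖v‖ := by
      rw [Prod.norm_def, norm_zero, max_eq_left (norm_nonneg v)]
    rw [h3]
    exact mul_le_mul_of_nonneg_right h2 (norm_nonneg v)
  exact Convex.norm_image_sub_le_of_norm_hasFDerivWithin_le (𝕜 := ℝ)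
    (fun p _ => (hd p).hasFDerivWithinAt) hb (convex_closedBall (0 : P) 1)
    (mem_closedBall_zero_iff.2 q.h0) (mem_closedBall_zero_iff.2 q.h1)

end BE
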