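import Pool.Agent.LibBE99.S0
import Pool.Agent.LibBE99.S1
import Pool.Agent.LibBR73.AN6

/-! Row S3 (cites S0, S1, `LibBE88/V12`, `LibBR73/AN2`, `AN3`, `AN6`, `AN7`): the displacement along the perpendicular
geodesics, with uniform constants. MEDIUM, 50 min.
Plan. `c0 = ` the constant of `ds_low` (`LibBE88/V12`), `c1` from `JlowU` with `d0 = c0`, so `hc0`, `hc1` of `AN3_half` hold
for every metric `mm m (s i) p`, `‖p‖ ≤ 1`. `Fd_lowU`: `AN3_half` for `y ≥ 0`; for `y ≤ 0` apply it to `g⁻¹` and the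
axis `(x, -v)` (`Axis_inv`, `Fd_neg`), as in the proof of `Fd_low` (`LibBR73/AN3.lean`). `Fd_growthU`: as the proof of
`Fd_growth` there: `c0 ≤ l` (`Fd_zero`, `ds_low`), `trM - 2 = (JA - 1) + (JB' - 1) ≥ 2 c1 JB > 0`, `JB l ≥ l`,
`Fd 0 = l`, `Fd' ≥ min (c y) 1` for `y ≥ 0` gives `Fd y ≥ l` and `Fd y ≥ y - C`, and `|Fd1| ≤ 2`. `F2_low`: `val_Fd2`
(`LibBR73/AN6.lean`): `F'' 0 = 2 l (trM - 2) / JB ≥ 4 l c1 ≥ 4 c0 c1`. `trM_up`: `JA_grow`.
`Ax_line`: `Axis_along`, `Fm .. (t, y) = Xp .. y` by `rfl`, `Xp m x v y = Ex m x (y • rot v) = (gfl m y (x, rot v)).1`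
(`Ex_ray`), `g ≠ 1` by `Axis_ne`, `eu (rot v) = eu v = 1` (`AN3_eu_rot`, `Axis.unit`). `Ax_growth`: `q.x` is on the
axis of the metric `p0` and `q.X m s y = Xp (mm .. p0) q.x v y`, so `Fd (mm .. p0) .. y = ds (mm .. p0) (X y) (g • X y)`;
compare with `ds (mm .. p1)` by `ds_cmp2`. `dens_eq`: `Fm_det` (`LibBR73/AN1.lean`) for `m0 = mm .. p0`:
`√(dt (m0 (Fm ..))) * det = JA ≥ 1 > 0` (`JA_ge`), so `det > 0`; `dt (Real.exp c • w) = Real.exp (2 c) * dt w`,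
so `√(dt (mm .. p1 z)) = exp (s i (p1, z) - s i (p0, z)) * √(dt (mm .. p0 z))`. -/

open MeasureTheory Set Filter Topology
open scoped ContDiff

namespace BE

open BGS BR

variable {Γ : Type} [Group Γ] [MulAction Γ Pl] {D : Set Pl}
variable {ι P : Type} [NormedAddCommGroup P] [NormedSpace ℝ P] [FiniteDimensional ℝ P]
  {m : Pl → Co} {a b : ℝ} {s : ι → P × Pl → ℝ}

private theorem S3_growth (hX : Surface Γ D) (hO : Ori Γ) {m : Pl → Co} (hm : HM Γ m) {c0 c1 : ℝ}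
    (hc0p : 0 < c0) (hc1p : 0 < c1) (hc0 : ∀ γ : Γ, γ ≠ 1 → ∀ x : Pl, c0 ≤ eu (Vx m x (γ • x)))
    (hc1 : ∀ (x v : Pl), eu v = 1 → ∀ t, c0 ≤ t →
      c1 * JB m x v t ≤ JA m x v t - 1 ∧ c1 * JB m x v t ≤ deriv (JB m x v) t - 1) :
    ∀ (g : Γ) (x0 v0 : Pl) (l : ℝ), Axis m g x0 v0 l → 2 < trM m x0 v0 l ∧
      1 ≤ (1 / c1 + 1 / c0) * l ∧
      ∀ y : ℝ, |y| ≤ Fd m g x0 v0 y + (1 / c1 + 1 / c0) ∧ l ≤ Fd m g x0 v0 y ∧
        Fd m g x0 v0 y ≤ l + 2 * |y| := by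
  have hl : ∀ (g : Γ) (x0 v0 : Pl) (l : ℝ), Axis m g x0 v0 l → c0 ≤ l := by
    intro g x0 v0 l hA
    have h1 := (AN3_at0 hX hO hm hA rfl rfl).1
    rw [← h1]
    exact hc0 g (Axis_ne hX hO hm hA).1 _
  have hpos : ∀ (g : Γ) (x0 v0 : Pl) (l : ℝ), Axis m g x0 v0 l → ∀ y : ℝ, 0 ≤ y →
      y ≤ Fd m g x0 v0 y + 1 / c1 ∧ l ≤ Fd m g x0 v0 y ∧ Fd m g x0 v0 y ≤ l + 2 * y := by
    intro g x0 v0 l hA
    have hH := fun y (hy : 0 ≤ y) => AN3_half hX hO hm hc1p hc0 hc1 hA hy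
    have hdv := Fd_deriv hX hO hm hA
    have h0 := (Fd_zero hX hO hm hA).1
    have hlow : ∀ y, 0 ≤ y → l ≤ Fd m g x0 v0 y := by
      intro y hy
      have hM : MonotoneOn (Fd m g x0 v0) (Icc 0 y) := by
        refine monotoneOn_of_deriv_nonneg (convex_Icc 0 y)
          (fun s _ => (hdv s).continuousAt.continuousWithinAt)
          (fun s _ => (hdv s).differentiableAt.differentiableWithinAt) ?_
        intro s hs
        rw [interior_Icc] at hs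
        rw [(hdv s).deriv]
        refine le_trans ?_ (hH s hs.1.le).1
        exact le_min (mul_nonneg hc1p.le hs.1.le) zero_le_one
      have h2 := hM (left_mem_Icc.mpr hy) (right_mem_Icc.mpr hy) hy
      rw [h0] at h2
      exact h2
    intro y hy
    refine ⟨?_, hlow y hy, ?_⟩
    · by_cases h1 : y ≤ 1 / c1
      · have h2 := hlow y hy
        have h3 := hA.pos
        linarith
      · push Not at h1
        have hM : MonotoneOn (fun s => Fd m g x0 v0 s - s) (Icc (1 / c1) y) := by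
          refine monotoneOn_of_deriv_nonneg (convex_Icc _ y)
            (fun s _ => ((hdv s).continuousAt.sub continuousAt_id).continuousWithinAt)
            (fun s _ => ((hdv s).differentiableAt.sub
              differentiableAt_id).differentiableWithinAt) ?_
          intro s hs
          rw [interior_Icc] at hs
          have e4 : HasDerivAt (fun s => Fd m g x0 v0 s - s) (Fd1 m g x0 v0 s - 1) s :=
            (hdv s).sub (hasDerivAt_id s)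
          rw [e4.deriv]
          have e5 : 0 ≤ s := le_trans (by positivity) hs.1.le
          have e6 := (hH s e5).1
          have e7 : 1 ≤ c1 * s := by
            have := hs.1
            rw [div_lt_iff₀ hc1p] at this
            linarith
          rw [min_eq_right e7] at e6
          linarith
        have h2 := hM (left_mem_Icc.mpr h1.le) (right_mem_Icc.mpr h1.le) h1.le
        have h3 := hlow (1 / c1) (by positivity)
        have h4 := hA.pos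
        simp only at h2
        linarith
    · have hM : MonotoneOn (fun s => 2 * s - Fd m g x0 v0 s) (Icc 0 y) := by
        have hd2 : ∀ s, HasDerivAt (fun s => 2 * s - Fd m g x0 v0 s)
            (2 * 1 - Fd1 m g x0 v0 s) s := fun s =>
          ((hasDerivAt_id s).const_mul 2).sub (hdv s)
        refine monotoneOn_of_deriv_nonneg (convex_Icc 0 y)
          (fun s _ => (hd2 s).continuousAt.continuousWithinAt)
          (fun s _ => (hd2 s).differentiableAt.differentiableWithinAt) ?_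
        intro s hs
        rw [interior_Icc] at hs
        rw [(hd2 s).deriv]
        have := (hH s hs.1.le).2
        linarith
      have h2 := hM (left_mem_Icc.mpr hy) (right_mem_Icc.mpr hy) hy
      simp only [h0] at h2
      linarith
  refine fun g x0 v0 l hA => ⟨?_, ?_, fun y => ?_⟩
  · have h1 := hc1 x0 v0 hA.unit l (hl g x0 v0 l hA)
    have h2 := (JB_ge hX hm (x := x0) hA.unit hA.pos.le).1
    have h3 : 0 < c1 * JB m x0 v0 l := mul_pos hc1p (lt_of_lt_of_le hA.pos h2)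
    rw [trM]
    linarith
  · have h1 := hl g x0 v0 l hA
    have h2 : 1 ≤ 1 / c0 * l := by
      rw [div_mul_eq_mul_div, one_mul, le_div_iff₀ hc0p]
      linarith
    have h3 : 0 ≤ 1 / c1 * l := mul_nonneg (by positivity) hA.pos.le
    nlinarith
  · have hc0' : 0 < 1 / c0 := by positivity
    rcases le_total 0 y with hy | hy
    · obtain ⟨h1, h2, h3⟩ := hpos g x0 v0 l hA y hy
      rw [abs_of_nonneg hy]
      exact ⟨by linarith, h2, h3⟩
    · obtain ⟨h1, h2, h3⟩ := hpos g⁻¹ x0 (-v0) l (Axis_inv hX hO hm hA) (-y)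
        (neg_nonneg.mpr hy)
      rw [(Fd_neg hX hO hm hA (-y)).1, neg_neg] at h1 h2 h3
      rw [abs_of_nonpos hy]
      exact ⟨by linarith, h2, h3⟩


private theorem S3_cst (h : CF Γ D m a b s) : ∃ c0 c1 : ℝ, 0 < c0 ∧ 0 < c1 ∧ ∀ (i : ι) (p : P),
    ‖p‖ ≤ 1 → (∀ γ : Γ, γ ≠ 1 → ∀ x : Pl, c0 ≤ eu (Vx (mm m (s i) p) x (γ • x))) ∧
      ∀ (x v : Pl), eu v = 1 → ∀ t, c0 ≤ t →
        c1 * JB (mm m (s i) p) x v t ≤ JA (mm m (s i) p) x v t - 1 ∧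
        c1 * JB (mm m (s i) p) x v t ≤ deriv (JB (mm m (s i) p) x v) t - 1 := by
  obtain ⟨c0, hc0, hd⟩ := ds_low h
  obtain ⟨c1, hc1, hJ⟩ := JlowU h hc0
  exact ⟨c0, c1, hc0, hc1, fun i p hp => ⟨fun γ hγ x => hd i p hp x γ hγ, fun x v hv t ht =>
    hJ i p x v hv t ht⟩⟩

theorem Fd_lowU (h : CF Γ D m a b s) : ∃ c : ℝ, 0 < c ∧ ∀ (q : AxU Γ ι P m s) (y : ℝ),
    (0 ≤ y → min (c * y) 1 ≤ Fd1 (mm m (s q.i) q.p) q.g q.x q.v y) ∧
      (y ≤ 0 → Fd1 (mm m (s q.i) q.p) q.g q.x q.v y ≤ -min (c * (-y)) 1) := by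
  obtain ⟨c0, c1, hc0, hc1, hk⟩ := S3_cst h
  refine ⟨c1, hc1, fun q y => ?_⟩
  obtain ⟨k0, k1⟩ := hk q.i q.p q.hp
  have hm := hm_mm h q.i q.p
  refine ⟨fun hy => (AN3_half h.hX h.hO hm hc1 k0 k1 q.ax hy).1, fun hy => ?_⟩
  have h1 := (AN3_half h.hX h.hO hm hc1 k0 k1 (Axis_inv h.hX h.hO hm q.ax)
    (neg_nonneg.mpr hy)).1
  rw [(Fd_neg h.hX h.hO hm q.ax (-y)).2, neg_neg] at h1
  linarith

theorem Fd_growthU (h : CF Γ D m a b s) : ∃ C : ℝ, 0 ≤ C ∧ ∀ (q : AxU Γ ι P m s),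
    2 < trM (mm m (s q.i) q.p) q.x q.v q.l ∧ 1 ≤ C * q.l ∧ ∀ y : ℝ,
      |y| ≤ Fd (mm m (s q.i) q.p) q.g q.x q.v y + C ∧ q.l ≤ Fd (mm m (s q.i) q.p) q.g q.x q.v y ∧
      Fd (mm m (s q.i) q.p) q.g q.x q.v y ≤ q.l + 2 * |y| := by
  obtain ⟨c0, c1, hc0, hc1, hk⟩ := S3_cst h
  refine ⟨1 / c1 + 1 / c0, by positivity, fun q => ?_⟩
  obtain ⟨k0, k1⟩ := hk q.i q.p q.hp
  exact S3_growth h.hX h.hO (hm_mm h q.i q.p) hc0 hc1 k0 k1 q.g q.x q.v q.l q.ax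

theorem F2_low (h : CF Γ D m a b s) : ∃ c : ℝ, 0 < c ∧ ∀ (q : AxU Γ ι P m s),
    c ≤ deriv (deriv (fun y => Fd (mm m (s q.i) q.p) q.g q.x q.v y ^ 2)) 0 := by
  obtain ⟨c0, c1, hc0, hc1, hk⟩ := S3_cst h
  refine ⟨2 * c0 * (2 * c1), by positivity, fun q => ?_⟩
  obtain ⟨k0, k1⟩ := hk q.i q.p q.hp
  have hm := hm_mm h q.i q.p
  have hl : c0 ≤ q.l := by
    have h1 := (AN3_at0 h.hX h.hO hm q.ax rfl rfl).1
    rw [← h1]
    exact k0 q.g (Axis_ne h.hX h.hO hm q.ax).1 _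
  rw [val_Fd2 h.hX h.hO hm q.ax]
  have h1 := k1 q.x q.v q.ax.unit q.l hl
  have h2 := (JB_ge h.hX hm (x := q.x) q.ax.unit q.ax.pos.le).1
  have h3 : 0 < JB (mm m (s q.i) q.p) q.x q.v q.l := lt_of_lt_of_le q.ax.pos h2
  have h4 : 2 * c1 ≤ (trM (mm m (s q.i) q.p) q.x q.v q.l - 2) / JB (mm m (s q.i) q.p) q.x q.v q.l := by
    rw [le_div_iff₀ h3, trM]
    linarith [h1.1, h1.2]
  exact mul_le_mul (by linarith) h4 (by positivity) (by linarith)

theorem trM_up (h : CF Γ D m a b s) : ∃ C : ℝ, 0 ≤ C ∧ ∀ (q : AxU Γ ι P m s),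
    √(trM (mm m (s q.i) q.p) q.x q.v q.l - 2) ≤ C * Real.exp (C * q.l) := by
  obtain ⟨C, c0, hC, hc0, hJ⟩ := JA_grow h
  refine ⟨1 + 2 * C + c0, by positivity, fun q => ?_⟩
  obtain ⟨h1, -, h3⟩ := hJ q.i q.p q.x q.v q.ax.unit q.l
  have hl := q.ax.pos
  rw [abs_of_pos hl] at h1 h3
  have h4 : trM (mm m (s q.i) q.p) q.x q.v q.l - 2 ≤ 2 * C * Real.exp (c0 * q.l) := by
    rw [trM]
    have := le_of_abs_le h1
    have := le_of_abs_le h3
    linarith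
  have h5 : (1 : ℝ) ≤ Real.exp (c0 * q.l) := Real.one_le_exp (by positivity)
  have h6 : √(trM (mm m (s q.i) q.p) q.x q.v q.l - 2) ≤ 1 + 2 * C * Real.exp (c0 * q.l) := by
    rw [Real.sqrt_le_left (by positivity)]
    refine h4.trans ?_
    have : 0 ≤ 2 * C * Real.exp (c0 * q.l) := by positivity
    nlinarith
  have h7 : Real.exp (c0 * q.l) ≤ Real.exp ((1 + 2 * C + c0) * q.l) := by
    apply Real.exp_le_exp.2
    nlinarith [mul_nonneg hC hl.le]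
  calc √(trM (mm m (s q.i) q.p) q.x q.v q.l - 2) ≤ 1 + 2 * C * Real.exp (c0 * q.l) := h6
    _ ≤ (1 + 2 * C) * Real.exp (c0 * q.l) := by linarith
    _ ≤ (1 + 2 * C + c0) * Real.exp (c0 * q.l) :=
      mul_le_mul_of_nonneg_right (by linarith) (Real.exp_pos _).le
    _ ≤ _ := mul_le_mul_of_nonneg_left h7 (by positivity)

theorem Ax_line (h : CF Γ D m a b s) (i : ι) {p0 p1 : P} (h0 : ‖p0‖ ≤ 1) (h1 : ‖p1‖ ≤ 1) {g : Γ}
    {x0 v0 : Pl} {l : ℝ} (hA : Axis (mm m (s i) p0) g x0 v0 l) (t : ℝ) :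
    ∃ q : Ln ι P Γ, q.i = i ∧ q.p0 = p0 ∧ q.p1 = p1 ∧ q.g = g ∧
      q.x = (gfl (mm m (s i) p0) t (x0, v0)).1 ∧ q.u = rot (gfl (mm m (s i) p0) t (x0, v0)).2 ∧
      q.Ax m s (gfl (mm m (s i) p0) t (x0, v0)).2 l ∧
      ∀ y, q.X m s y = Fm (mm m (s i) p0) x0 v0 (t, y) := by
  have hm := hm_mm h i p0
  have hA' := Axis_along h.hX h.hO hm hA t
  refine ⟨⟨i, p0, p1, g, (gfl (mm m (s i) p0) t (x0, v0)).1,
    rot (gfl (mm m (s i) p0) t (x0, v0)).2, h0, h1, (Axis_ne h.hX h.hO hm hA).1, ?_⟩, rfl, rfl,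
    rfl, rfl, rfl, rfl, ⟨hA', rfl⟩, fun y => ?_⟩
  · rw [AN3_eu_rot]
    exact hA'.unit
  · exact (Ex_ray h.hX hm y _ _).symm

theorem Ax_growth (h : CF Γ D m a b s) : ∃ C : ℝ, 1 ≤ C ∧ ∀ (q : Ln ι P Γ) (v : Pl) (l : ℝ),
    q.Ax m s v l → 1 ≤ C * l ∧ ∀ y : ℝ, |y| ≤ C * (1 + q.d m s y) ∧ l ≤ C * q.d m s y ∧
      q.d m s y ≤ C * (l + |y|) := by
  obtain ⟨C, hC, hF⟩ := Fd_growthU h
  obtain ⟨E, hE, hD⟩ := ds_cmp2 h
  refine ⟨1 + C + 2 * E, by linarith, fun q v l hq => ?_⟩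
  obtain ⟨g1, g2, g3⟩ := hF ⟨q.i, q.p0, q.g, q.x, v, l, q.h0, hq.1⟩
  simp only at g1 g2 g3
  have hl := hq.1.pos
  refine ⟨by nlinarith, fun y => ?_⟩
  have hX : Xp (mm m (s q.i) q.p0) q.x v y = q.X m s y := by
    rw [Ln.X, hq.2]
    exact Ex_ray h.hX (hm_mm h q.i q.p0) y _ _
  obtain ⟨k1, k2, k3⟩ := g3 y
  rw [Fd, hX] at k1 k2 k3
  have k4 := hD q.i q.p0 q.p1 q.h0 q.h1 (q.X m s y) (q.g • q.X m s y)
  have k5 := hD q.i q.p1 q.p0 q.h1 q.h0 (q.X m s y) (q.g • q.X m s y)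
  have k6 : 0 ≤ q.d m s y := Real.sqrt_nonneg _
  change _ ≤ E * q.d m s y at k4
  change q.d m s y ≤ _ at k5
  have k7 := abs_nonneg y
  have k8 := mul_nonneg hC k6
  have k9 := mul_nonneg hC hl.le
  have k10 := mul_nonneg hC k7
  have k11 : 0 ≤ E * q.d m s y := mul_nonneg (by linarith) k6
  refine ⟨by nlinarith, by nlinarith, ?_⟩
  have k12 : E * ds (mm m (s q.i) q.p0) (q.X m s y) (q.g • q.X m s y) ≤ E * (l + 2 * |y|) :=
    mul_le_mul_of_nonneg_left k3 (by linarith)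
  have k13 : 0 ≤ E * l := mul_nonneg (by linarith) hl.le
  have k14 : 0 ≤ E * |y| := mul_nonneg (by linarith) k7
  nlinarith

theorem dens_eq (h : CF Γ D m a b s) (i : ι) (p0 p1 : P) {x0 v0 : Pl} (hv : eu v0 = 1)
    (t y : ℝ) : √(dt (mm m (s i) p1 (Fm (mm m (s i) p0) x0 v0 (t, y)))) *
      |(fderiv ℝ (Fm (mm m (s i) p0) x0 v0) (t, y)).det| =
    Real.exp (s i (p1, Fm (mm m (s i) p0) x0 v0 (t, y)) -
      s i (p0, Fm (mm m (s i) p0) x0 v0 (t, y))) *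
      JA (mm m (s i) p0) (gfl (mm m (s i) p0) t (x0, v0)).1
        (rot (gfl (mm m (s i) p0) t (x0, v0)).2) y := by
  have hm := hm_mm h i p0
  obtain ⟨z, hz⟩ : ∃ z, z = Fm (mm m (s i) p0) x0 v0 (t, y) := ⟨_, rfl⟩
  have hdt : ∀ (c : ℝ) (w : Co), dt (c • w) = c ^ 2 * dt w := by
    intro c w
    simp only [dt, Prod.smul_fst, Prod.smul_snd, smul_eq_mul]
    ring
  have h1 : ∀ p : P, √(dt (mm m (s i) p z)) = Real.exp (s i (p, z)) * √(dt (m z)) := by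
    intro p
    rw [mm, hdt, Real.sqrt_mul (by positivity), Real.sqrt_sq (Real.exp_pos _).le]
  have h2 := Fm_det h.hX hm hv (t, y) (z := gfl (mm m (s i) p0) t (x0, v0)) rfl
  have h3 : 1 ≤ JA (mm m (s i) p0) (gfl (mm m (s i) p0) t (x0, v0)).1
        (rot (gfl (mm m (s i) p0) t (x0, v0)).2) y := by
    apply JA_ge h.hX hm
    rw [AN3_eu_rot, gfl_eu h.hX hm]
    exact hv
  rw [← hz] at h2 ⊢
  have h4 : 0 < (fderiv ℝ (Fm (mm m (s i) p0) x0 v0) (t, y)).det := by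
    by_contra hcon
    push Not at hcon
    have h5 := mul_nonpos_of_nonneg_of_nonpos (Real.sqrt_nonneg (dt (mm m (s i) p0 z))) hcon
    rw [h2] at h5
    linarith
  rw [abs_of_pos h4, ← h2, h1 p1, h1 p0, Real.exp_sub]
  field_simp

end BE
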