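import Pool.Agent.LibBE99.L0
import Pool.Agent.LibBE99.L2
import Pool.Agent.LibBE99.S3

/-! Row L3 (cites L0, L2, S0, S3, `LibBE88/C4`, `V12`): the phase and the amplitude along geodesics.
MEDIUM, 60 min.
Plan. The scale `L i p g x = log (2 + ds (mm m (s i) p) x (g • x))` satisfies `hL0`, `hL` (`ds_deck`), `hLp`:
`2 + ds (p) ≤ C (2 + ds (p'))` (`ds_cmp2`, `C ≥ 1`), `log C + log (2 + d) ≤ A (1 + log (2 + d))`. `LP_d2`: `along` with
`A1K_d2` for `K = closure D` (`Eqv_of`, `Dk_ds`). `LP_d`: `d = √(d ^ 2)`: `EB_sqrt` (`LibBE88/C4`), `d ≥ c > 0` (`ds_low`).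
`LP_UU`, `LP_ff`, `LP_uu`: `along` with
`A1K_UU`, `A1K_ff`, `A1K_uu`. `LP_e`: `along` and `along_p0` with the scale `L = 0` and `G i g = s i` (`A1K_s`;
equivariance: `h.inv`), `Real.exp` of the difference: `EB_comp` with `EB_compact` for `exp` (values bounded:
`s_bdd`), scale `0`. `LP_dd`: from `along_diff` for `d ^ 2`, `k = 0, 1`, and `d1' = (d1 ^ 2)' / (2 d1)`,
`d0' = (d0 ^ 2)' / (2 d0)`, where `d1 = q.d m s`, `d0 y = ds (mm .. q.p0) (X y) (g • X y)`, both `≥ c > 0`: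
`|d1' - d0'| ≤ |(d1 ^ 2)' - (d0 ^ 2)'| / (2 d1) + |(d0 ^ 2)'| |d0 ^ 2 - d1 ^ 2| / (2 d0 d1 (d0 + d1))`, and
`|(d0 ^ 2)'| ≤ C (2 + d1) ^ C` by `along_p0`. Pass from `C exp (C log (2 + d))` to `n (2 + d) ^ n` with a natural number
`n ≥ |C|`. `Ax_phase`: `Fd_lowU` for the metric `p0`: the line `q` with `q.Ax m s v l` has `q.X m s y = Xp (mm .. p0) q.x v y`,
so `d0 = Fd (mm .. p0) q.g q.x v`, `deriv d0 y = Fd1 ..` (`Fd_deriv`), `|Fd1| ≥ min (c |y|) 1`; subtract `LP_dd`. -/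

open MeasureTheory Set Filter Topology
open scoped ContDiff

namespace BE

open BGS BR

variable {Γ : Type} [Group Γ] [MulAction Γ Pl] {D : Set Pl}
variable {ι P : Type} [NormedAddCommGroup P] [NormedSpace ℝ P] [FiniteDimensional ℝ P]
  {m : Pl → Co} {a b : ℝ} {s : ι → P × Pl → ℝ}

private theorem L3_ds0 (m : Pl → Co) (x y : Pl) : 0 ≤ ds m x y := Real.sqrt_nonneg _

/-- The scale. -/
private noncomputable def L3_L (Γ : Type) [Group Γ] [MulAction Γ Pl] (m : Pl → Co)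
    (s : ι → P × Pl → ℝ) (i : ι) (p : P) (g : Γ) (x : Pl) : ℝ :=
  Real.log (2 + ds (mm m (s i) p) x (g • x))

private theorem L3_L0 (i : ι) (p : P) (g : Γ) (x : Pl) : 0 ≤ L3_L Γ m s i p g x :=
  Real.log_nonneg (by linarith [L3_ds0 (mm m (s i) p) x (g • x)])

private theorem L3_Ld (h : CF Γ D m a b s) (i : ι) (p : P) (g β : Γ) (x : Pl) :
    L3_L Γ m s i p (β * g * β⁻¹) (β • x) = L3_L Γ m s i p g x := by
  unfold L3_L
  have h1 : (β * g * β⁻¹) • β • x = β • g • x := by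
    rw [mul_smul, mul_smul, inv_smul_smul]
  rw [h1, (ds_deck h.hX h.hO (hm_mm h i p) β x (g • x)).1]

private theorem L3_Lp (h : CF Γ D m a b s) : ∃ A : ℝ, ∀ (i : ι) (p p' : P) (g : Γ) (x : Pl),
    ‖p‖ ≤ 1 → ‖p'‖ ≤ 1 → L3_L Γ m s i p g x ≤ A * (1 + L3_L Γ m s i p' g x) := by
  obtain ⟨C, hC1, hC⟩ := ds_cmp2 h
  refine ⟨1 + Real.log C, fun i p p' g x hp hp' => ?_⟩
  have h1 := hC i p p' hp hp' x (g • x)
  have h2 := L3_ds0 (mm m (s i) p) x (g • x)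
  have h3 := L3_ds0 (mm m (s i) p') x (g • x)
  have h4 : L3_L Γ m s i p g x ≤ Real.log C + L3_L Γ m s i p' g x := by
    unfold L3_L
    rw [← Real.log_mul (by linarith) (by linarith)]
    apply Real.log_le_log (by linarith)
    nlinarith
  have h5 := Real.log_nonneg hC1
  have h6 := L3_L0 (m := m) (s := s) i p' g x
  nlinarith [mul_nonneg h5 h6]

private theorem L3_cl (h : CF Γ D m a b s) : IsCompact (closure D) := h.hX.bdd.isCompact_closure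

private theorem L3_low (h : CF Γ D m a b s) : ∃ c : ℝ, 0 < c ∧ ∀ (q : Ln ι P Γ) (y : ℝ),
    c ≤ q.d m s y ∧ c ≤ ds (mm m (s q.i) q.p0) (q.X m s y) (q.g • q.X m s y) := by
  obtain ⟨c, hc, hlow⟩ := ds_low h
  exact ⟨c, hc, fun q y => ⟨hlow q.i q.p1 q.h1 _ q.g q.hg, hlow q.i q.p0 q.h0 _ q.g q.hg⟩⟩

private theorem L3_eq (h : CF Γ D m a b s) :
    Eqv (fun (i : ι) (g : Γ) (e : P × Pl) => ds (mm m (s i) e.1) e.2 (g • e.2) ^ 2) :=
  Eqv_of (Q := fun i e => ds (mm m (s i) e.1) e.2.1 e.2.2 ^ 2) fun i p γ x z => by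
    show ds (mm m (s i) p) (γ • x) (γ • z) ^ 2 = ds (mm m (s i) p) x z ^ 2
    rw [(ds_deck h.hX h.hO (hm_mm h i p) γ x z).1]

theorem LP_d2 (h : CF Γ D m a b s) : LP m s (fun (q : Ln ι P Γ) y => q.d m s y ^ 2) := by
  exact along h (L := L3_L Γ m s) L3_L0 (L3_Ld h) (L3_eq h) (A1K_d2 h (L3_cl h))

theorem LP_d (h : CF Γ D m a b s) : LP m s (fun (q : Ln ι P Γ) y => q.d m s y) := by
  obtain ⟨c, hc, hlow⟩ := L3_low h
  have h1 : EB (fun q : Ln ι P Γ × ℝ => Real.log (2 + q.1.d m s q.2))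
      (fun q y => √(q.1.d m s y ^ 2)) (fun q => q.2) := by
    refine EB_sqrt (fun q => ?_) (LP_d2 h) (fun q y => ?_) (C := (c ^ 2)⁻¹) fun q => ?_
    · exact L3_L0 (m := m) (s := s) q.1.i q.1.p1 q.1.g (q.1.X m s q.2)
    · exact pow_pos (lt_of_lt_of_le hc (hlow q.1 y).1) 2
    · have h2 := (hlow q.1 q.2).1
      have h3 : (q.1.d m s q.2 ^ 2)⁻¹ ≤ (c ^ 2)⁻¹ :=
        inv_anti₀ (by positivity) (pow_le_pow_left₀ hc.le h2 2)
      have h4 : 0 ≤ (c ^ 2)⁻¹ := by positivity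
      have h5 : 1 ≤ Real.exp ((c ^ 2)⁻¹ * Real.log (2 + q.1.d m s q.2)) :=
        Real.one_le_exp (mul_nonneg h4
          (L3_L0 (m := m) (s := s) q.1.i q.1.p1 q.1.g (q.1.X m s q.2)))
      exact h3.trans (le_mul_of_one_le_right h4 h5)
  have h2 : (fun (q : Ln ι P Γ × ℝ) (y : ℝ) => √(q.1.d m s y ^ 2)) =
      fun q y => q.1.d m s y := by
    funext q y
    exact Real.sqrt_sq (L3_ds0 _ _ _)
  rw [h2] at h1
  exact h1

theorem LP_UU (h : CF Γ D m a b s) (j : ℕ) :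
    LP m s (fun (q : Ln ι P Γ) y => UU (Gx (mm m (s q.i) q.p1) (q.X m s y)) j
      (Vx (mm m (s q.i) q.p1) (q.X m s y) (q.g • q.X m s y))) := by
  exact along h (L := L3_L Γ m s) L3_L0 (L3_Ld h)
    (G := fun i g e => UU (Gx (mm m (s i) e.1) e.2) j (Vx (mm m (s i) e.1) e.2 (g • e.2)))
    (Eqv_of (Dk_UU h j)) (A1K_UU h (L3_cl h) j)

theorem LP_ff (h : CF Γ D m a b s) : LP m s (fun (q : Ln ι P Γ) y =>
    ff m (s q.i) (q.p1, q.X m s y, q.g • q.X m s y)) := by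
  exact along h (L := L3_L Γ m s) L3_L0 (L3_Ld h)
    (G := fun i g e => ff m (s i) (e.1, e.2, g • e.2))
    (Eqv_of (Dk_ff h)) (A1K_ff h (L3_cl h))

theorem LP_uu (h : CF Γ D m a b s) (j : ℕ) : LP m s (fun (q : Ln ι P Γ) y =>
    uu m (s q.i) j (q.p1, q.X m s y, q.g • q.X m s y)) := by
  have hd : Dk Γ (fun i => uu m (s i) j) := fun i p γ x z => uu_deck h j i p γ x z
  exact along h (L := L3_L Γ m s) L3_L0 (L3_Ld h)
    (G := fun i g e => uu m (s i) j (e.1, e.2, g • e.2))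
    (Eqv_of hd) (A1K_uu h (L3_cl h) j)

theorem LP_e (h : CF Γ D m a b s) : EB0 (fun (q : Ln ι P Γ × ℝ) y =>
    Real.exp (s q.1.i (q.1.p1, q.1.X m s y) - s q.1.i (q.1.p0, q.1.X m s y))) (fun q => q.2) := by
  obtain ⟨C, hC0, hC⟩ := s_bdd h
  have he : Eqv (fun (i : ι) (_ : Γ) => s i) := fun i _ β p x => h.inv i p β x
  have h1 : EB (fun _ : Ln ι P Γ × ℝ => (0 : ℝ))
      (fun q y => s q.1.i (q.1.p1, q.1.X m s y)) (fun q => q.2) :=
    along h (L := fun _ _ _ _ => 0) (fun _ _ _ _ => le_rfl) (fun _ _ _ _ _ => rfl)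
      (G := fun (i : ι) (_ : Γ) => s i) he (A1K_s h (L3_cl h))
  have h2 : EB (fun _ : Ln ι P Γ × ℝ => (0 : ℝ))
      (fun q y => s q.1.i (q.1.p0, q.1.X m s y)) (fun q => q.2) :=
    along_p0 h (L := fun _ _ _ _ => 0) (fun _ _ _ _ => le_rfl) (fun _ _ _ _ _ => rfl)
      ⟨0, fun _ _ _ _ _ _ _ => by simp⟩
      (G := fun (i : ι) (_ : Γ) => s i) he (A1K_s h (L3_cl h))
  have h3 := EB_sub (fun _ => le_rfl) h1 h2
  refine EB_exp (fun _ => le_rfl) h3 (C := Real.exp (2 * C)) fun q => ?_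
  rw [mul_zero, Real.exp_zero, mul_one]
  apply Real.exp_le_exp.2
  have h4 := hC q.1.i q.1.p1 q.1.h1 (q.1.X m s q.2)
  have h5 := hC q.1.i q.1.p0 q.1.h0 (q.1.X m s q.2)
  rw [abs_le] at h4 h5
  linarith [h4.2, h5.1]

theorem LP_dd (h : CF Γ D m a b s) : ∃ n : ℕ, ∀ (q : Ln ι P Γ) (y : ℝ),
    |deriv (q.d m s) y - deriv (fun y => ds (mm m (s q.i) q.p0) (q.X m s y) (q.g • q.X m s y)) y| ≤
      n * (2 + q.d m s y) ^ n * ‖q.p1 - q.p0‖ := by
  obtain ⟨c, hc, hlow⟩ := L3_low h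
  obtain ⟨C0, hC0⟩ := along_diff h (L := L3_L Γ m s) L3_L0 (L3_Ld h) (L3_Lp h) (L3_eq h)
    (A1K_d2 h (L3_cl h)) 0
  obtain ⟨C1, hC1⟩ := along_diff h (L := L3_L Γ m s) L3_L0 (L3_Ld h) (L3_Lp h) (L3_eq h)
    (A1K_d2 h (L3_cl h)) 1
  have hp0 := along_p0 h (L := L3_L Γ m s) L3_L0 (L3_Ld h) (L3_Lp h) (L3_eq h)
    (A1K_d2 h (L3_cl h))
  have hp1 := along h (L := L3_L Γ m s) L3_L0 (L3_Ld h) (L3_eq h) (A1K_d2 h (L3_cl h))
  obtain ⟨C2, hC2⟩ := hp0.bound 1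
  obtain ⟨N, hN⟩ := exists_nat_ge (|C0| + |C1| + |C2|)
  obtain ⟨n, hn⟩ := exists_nat_ge (|C1| / (2 * c) + |C2| * |C0| / (4 * c ^ 3) + 2 * N)
  refine ⟨n, fun q y => ?_⟩
  set d1 : ℝ → ℝ := fun y => q.d m s y with hd1
  set d0 : ℝ → ℝ := fun y => ds (mm m (s q.i) q.p0) (q.X m s y) (q.g • q.X m s y) with hd0
  have hl1 : ∀ y, c ≤ d1 y := fun y => (hlow q y).1
  have hl0 : ∀ y, c ≤ d0 y := fun y => (hlow q y).2
  have hs1 : ContDiff ℝ ∞ (fun y => d1 y ^ 2) := hp1.smooth (q, y)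
  have hs0 : ContDiff ℝ ∞ (fun y => d0 y ^ 2) := hp0.smooth (q, y)
  have hD1 : HasDerivAt (fun y => d1 y ^ 2) (deriv (fun y => d1 y ^ 2) y) y :=
    ((hs1.differentiable (by simp)) y).hasDerivAt
  have hD0 : HasDerivAt (fun y => d0 y ^ 2) (deriv (fun y => d0 y ^ 2) y) y :=
    ((hs0.differentiable (by simp)) y).hasDerivAt
  have hq1 : (fun y => √(d1 y ^ 2)) = d1 := by
    funext y
    exact Real.sqrt_sq (L3_ds0 _ _ _)
  have hq0 : (fun y => √(d0 y ^ 2)) = d0 := by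
    funext y
    exact Real.sqrt_sq (L3_ds0 _ _ _)
  have ha1 : 0 < d1 y := lt_of_lt_of_le hc (hl1 y)
  have ha0 : 0 < d0 y := lt_of_lt_of_le hc (hl0 y)
  have hE1 : deriv d1 y = deriv (fun y => d1 y ^ 2) y / (2 * d1 y) := by
    have h1 := hD1.sqrt (by positivity)
    rw [hq1, Real.sqrt_sq ha1.le] at h1
    exact h1.deriv
  have hE0 : deriv d0 y = deriv (fun y => d0 y ^ 2) y / (2 * d0 y) := by
    have h1 := hD0.sqrt (by positivity)
    rw [hq0, Real.sqrt_sq ha0.le] at h1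
    exact h1.deriv
  have hb0 : |d1 y ^ 2 - d0 y ^ 2| ≤ C0 * Real.exp (C0 * Real.log (2 + d1 y)) *
      ‖q.p1 - q.p0‖ := by
    have h1 := hC0 q y
    rw [iteratedDeriv_zero, iteratedDeriv_zero] at h1
    exact h1
  have hb1 : |deriv (fun y => d1 y ^ 2) y - deriv (fun y => d0 y ^ 2) y| ≤
      C1 * Real.exp (C1 * Real.log (2 + d1 y)) * ‖q.p1 - q.p0‖ := by
    have h1 := hC1 q y
    rw [iteratedDeriv_one, iteratedDeriv_one] at h1
    exact h1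
  have hb2 : |deriv (fun y => d0 y ^ 2) y| ≤ C2 * Real.exp (C2 * Real.log (2 + d1 y)) := by
    have h1 := hC2 (q, y)
    rw [norm_iteratedFDeriv_eq_norm_iteratedDeriv, iteratedDeriv_one] at h1
    exact h1
  have hL : 0 ≤ Real.log (2 + d1 y) := Real.log_nonneg (by linarith)
  have hexp : ∀ C : ℝ, |C| ≤ N → C * Real.exp (C * Real.log (2 + d1 y)) ≤
      |C| * (2 + d1 y) ^ N := by
    intro C hC
    have h1 : Real.exp (C * Real.log (2 + d1 y)) ≤ (2 + d1 y) ^ N := by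
      have h2 : Real.exp (Real.log (2 + d1 y)) = 2 + d1 y := Real.exp_log (by linarith)
      rw [← h2, ← Real.exp_nat_mul, h2]
      exact Real.exp_le_exp.2 (mul_le_mul_of_nonneg_right ((le_abs_self C).trans hC) hL)
    exact (mul_le_mul_of_nonneg_right (le_abs_self C) (Real.exp_pos _).le).trans
      (mul_le_mul_of_nonneg_left h1 (abs_nonneg C))
  have e0 := hexp C0 (by linarith [abs_nonneg C0, abs_nonneg C1, abs_nonneg C2])
  have e1 := hexp C1 (by linarith [abs_nonneg C0, abs_nonneg C1, abs_nonneg C2])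
  have e2 := hexp C2 (by linarith [abs_nonneg C0, abs_nonneg C1, abs_nonneg C2])
  set δ : ℝ := ‖q.p1 - q.p0‖ with hδ
  have hδ0 : 0 ≤ δ := norm_nonneg _
  set W : ℝ := (2 + d1 y) ^ N with hW
  have hW1 : 1 ≤ W := one_le_pow₀ (by linarith)
  have f0 : |d1 y ^ 2 - d0 y ^ 2| ≤ |C0| * W * δ := hb0.trans (mul_le_mul_of_nonneg_right e0 hδ0)
  have f1 : |deriv (fun y => d1 y ^ 2) y - deriv (fun y => d0 y ^ 2) y| ≤ |C1| * W * δ :=
    hb1.trans (mul_le_mul_of_nonneg_right e1 hδ0)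
  have f2 : |deriv (fun y => d0 y ^ 2) y| ≤ |C2| * W := hb2.trans e2
  have key : deriv d1 y - deriv d0 y =
      (deriv (fun y => d1 y ^ 2) y - deriv (fun y => d0 y ^ 2) y) / (2 * d1 y) +
        deriv (fun y => d0 y ^ 2) y * -(d1 y ^ 2 - d0 y ^ 2) /
          (2 * d0 y * d1 y * (d0 y + d1 y)) := by
    rw [hE1, hE0]
    have h3 : d0 y + d1 y ≠ 0 := by positivity
    field_simp
    ring
  have g1 : |(deriv (fun y => d1 y ^ 2) y - deriv (fun y => d0 y ^ 2) y) / (2 * d1 y)| ≤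
      |C1| * W * δ / (2 * c) := by
    rw [abs_div, abs_of_pos (by positivity : (0 : ℝ) < 2 * d1 y)]
    exact div_le_div₀ (by positivity) f1 (by positivity) (by linarith [hl1 y])
  have g2 : |deriv (fun y => d0 y ^ 2) y * -(d1 y ^ 2 - d0 y ^ 2) /
      (2 * d0 y * d1 y * (d0 y + d1 y))| ≤ (|C2| * W) * (|C0| * W * δ) / (4 * c ^ 3) := by
    rw [abs_div, abs_mul, abs_neg,
      abs_of_pos (by positivity : (0 : ℝ) < 2 * d0 y * d1 y * (d0 y + d1 y))]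
    refine div_le_div₀ (by positivity) (mul_le_mul f2 f0 (abs_nonneg _) (by positivity))
      (by positivity) ?_
    have h4 : c * c ≤ d0 y * d1 y := mul_le_mul (hl0 y) (hl1 y) hc.le ha0.le
    have h5 : 2 * c ≤ d0 y + d1 y := by linarith [hl0 y, hl1 y]
    have h6 : c * c * (2 * c) ≤ d0 y * d1 y * (d0 y + d1 y) :=
      mul_le_mul h4 h5 (by positivity) (by positivity)
    nlinarith
  have hWW : W ≤ W * W := le_mul_of_one_le_left (by linarith) hW1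
  have hWn : W * W ≤ (2 + d1 y) ^ n := by
    rw [hW, ← pow_add]
    refine pow_le_pow_right₀ (by linarith) ?_
    have h3 : (N + N : ℝ) ≤ n := by
      have h4 : 0 ≤ |C1| / (2 * c) + |C2| * |C0| / (4 * c ^ 3) := by positivity
      linarith
    exact_mod_cast h3
  have hKn : |C1| / (2 * c) + |C2| * |C0| / (4 * c ^ 3) ≤ n := by
    have h3 : (0 : ℝ) ≤ 2 * N := by positivity
    linarith
  show |deriv d1 y - deriv d0 y| ≤ n * (2 + d1 y) ^ n * δ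
  rw [key]
  refine (abs_add_le _ _).trans ((add_le_add g1 g2).trans ?_)
  have h7 : |C1| * W * δ / (2 * c) + (|C2| * W) * (|C0| * W * δ) / (4 * c ^ 3) =
      (|C1| / (2 * c) * W + |C2| * |C0| / (4 * c ^ 3) * (W * W)) * δ := by
    ring
  rw [h7]
  refine mul_le_mul_of_nonneg_right ?_ hδ0
  have h8 : 0 ≤ |C1| / (2 * c) := by positivity
  have h9 : 0 ≤ |C2| * |C0| / (4 * c ^ 3) := by positivity
  calc |C1| / (2 * c) * W + |C2| * |C0| / (4 * c ^ 3) * (W * W)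
      ≤ |C1| / (2 * c) * (W * W) + |C2| * |C0| / (4 * c ^ 3) * (W * W) := by
        linarith [mul_le_mul_of_nonneg_left hWW h8]
    _ = (|C1| / (2 * c) + |C2| * |C0| / (4 * c ^ 3)) * (W * W) := by ring
    _ ≤ n * (2 + d1 y) ^ n := mul_le_mul hKn hWn (by positivity) (Nat.cast_nonneg n)

theorem Ax_phase (h : CF Γ D m a b s) : ∃ (c : ℝ) (n : ℕ), 0 < c ∧ ∀ (q : Ln ι P Γ) (v : Pl) (l : ℝ),
    q.Ax m s v l → ∀ y : ℝ,
      min (c * |y|) 1 - n * (2 + q.d m s y) ^ n * ‖q.p1 - q.p0‖ ≤ |deriv (q.d m s) y| := by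
  obtain ⟨n, hn⟩ := LP_dd h
  obtain ⟨c, hc, hlow⟩ := Fd_lowU h
  refine ⟨c, n, hc, fun q v l hA y => ?_⟩
  have hM := hm_mm h q.i q.p0
  have hX : ∀ y, q.X m s y = Xp (mm m (s q.i) q.p0) q.x v y := by
    intro y
    show (gfl (mm m (s q.i) q.p0) y (q.x, q.u)).1 = Ex (mm m (s q.i) q.p0) q.x (y • rot v)
    rw [hA.2, Ex_ray h.hX hM]
  have hF : (fun y => ds (mm m (s q.i) q.p0) (q.X m s y) (q.g • q.X m s y)) =
      Fd (mm m (s q.i) q.p0) q.g q.x v := by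
    funext y
    rw [hX y]
    rfl
  have h1 := hn q y
  rw [hF, (Fd_deriv h.hX h.hO hM hA.1 y).deriv] at h1
  have h2 := hlow (⟨q.i, q.p0, q.g, q.x, v, l, q.h0, hA.1⟩ : AxU Γ ι P m s) y
  have h3 : min (c * |y|) 1 ≤ |Fd1 (mm m (s q.i) q.p0) q.g q.x v y| := by
    rcases le_total 0 y with hy | hy
    · rw [abs_of_nonneg hy]
      exact (h2.1 hy).trans (le_abs_self _)
    · rw [abs_of_nonpos hy]
      have h4 := h2.2 hy
      have h5 := neg_le_abs (Fd1 (mm m (s q.i) q.p0) q.g q.x v y)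
      show min (c * -y) 1 ≤ _
      linarith
  have h4 := abs_sub_abs_le_abs_sub (Fd1 (mm m (s q.i) q.p0) q.g q.x v y) (deriv (q.d m s) y)
  rw [abs_sub_comm (Fd1 (mm m (s q.i) q.p0) q.g q.x v y)] at h4
  linarith

end BE
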