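import Mathlib

/-! Row N1 (only Mathlib): non-stationary phase in one variable. STRONG, 60 min.
Plan. Induction on `n` (for all `G`, `A`). `n = 0`: `‖G‖ ≤ A`, `G = 0` for `|y| > R`, so `‖∫‖ ≤ 2 R A`
(`MeasureTheory.norm_setIntegral_le_of_norm_le_const` on `Icc (-R) R`, after `setIntegral` of a function
supported there). Step `n → n + 1`: put `S = tsupport G`. On a neighbourhood of `S` `deriv φ ≠ 0` (continuity and
`1 ≤ H |deriv φ|`), outside `S` the function `G` vanishes near the point; so `G2 y = G y / (deriv φ y : ℂ)` is smooth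
(`contDiff_iff_contDiffAt`, two cases), `tsupport G2 ⊆ S`, and `G y = (deriv φ y : ℂ) * G2 y` for all `y`.
BOUND: for `k ≤ n + 1`, `y ∈ S`: `‖iteratedDeriv k G2 y‖ ≤ C_k A H ^ (3 k + 1)` by strong induction on `k`: Leibniz
for `G = φ' G2` (`iteratedDeriv_mul`, or `iteratedDeriv_fun_mul`; the summand with all derivatives on `G2` is
`φ' * iteratedDeriv k G2`): `|φ'| ‖iteratedDeriv k G2‖ ≤ A H^(3k) + Σ_{i < k} (k choose i) H^(k - i + 1) C_i A H^(3 i + 1)`,
multiply by `H`: `H ^ (k - i + 1 + 3 i + 2) ≤ H ^ (3 k + 1)` since `i ≤ k - 1`. For `y ∉ S` all derivatives of `G2` at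
`y` are zero (`G2 =ᶠ 0`). PARTS: `e^(-iτφ) G = e^(-iτφ) φ' G2` and `(e^(-iτφ))' = -iτ φ' e^(-iτφ)`, so
`∫ e^(-iτφ) G = (1 / (iτ)) ∫ e^(-iτφ) G2'` (`integral_mul_deriv_eq_deriv_mul_of_integrable`-type, or on the interval
`[-R-1, R+1]`, compact support). Apply the induction hypothesis to `G2' = deriv G2` with the constant
`A' = C A H ^ 4`: `‖iteratedDeriv k G2'‖ = ‖iteratedDeriv (k + 1) G2‖ ≤ C A H ^ (3 (k + 1) + 1) = A' H ^ (3 k)` for
`k ≤ n`; `tsupport (deriv G2) ⊆ S`; `A' (H^4/τ)^n / τ = C A (H^4/τ)^(n+1)`. (`0 ≤ A` follows from the bound.) -/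

open MeasureTheory Set Filter Topology
open scoped ContDiff

namespace BE

private theorem nsp_lt (k : ℕ) : ((k : ℕ∞) : WithTop ℕ∞) < ∞ := by
  exact_mod_cast WithTop.coe_lt_top k

private theorem nsp_ofReal {f : ℝ → ℝ} (hf : ContDiff ℝ ∞ f) (k : ℕ) :
    iteratedDeriv k (fun y => (f y : ℂ)) = fun y => ((iteratedDeriv k f y : ℝ) : ℂ) := by
  induction k with
  | zero => simp only [iteratedDeriv_zero]
  | succ k ih =>
    funext y
    rw [iteratedDeriv_succ, iteratedDeriv_succ, ih]
    have h2 : Differentiable ℝ (iteratedDeriv k f) :=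
      hf.differentiable_iteratedDeriv k (nsp_lt k)
    exact ((h2 y).hasDerivAt.ofReal_comp).deriv

private theorem nsp_quot (k : ℕ) : ∃ C : ℝ, 0 ≤ C ∧ ∀ (p G G2 : ℝ → ℂ) (H A y : ℝ),
    ContDiff ℝ ∞ p → ContDiff ℝ ∞ G2 → (∀ y, G y = G2 y * p y) → 1 ≤ H → 1 ≤ H * ‖p y‖ →
    (∀ i ≤ k, ‖iteratedDeriv i p y‖ ≤ H ^ (i + 1)) →
    (∀ i ≤ k, ‖iteratedDeriv i G y‖ ≤ A * H ^ (3 * i)) →
    ‖iteratedDeriv k G2 y‖ ≤ C * A * H ^ (3 * k + 1) := by
  induction k using Nat.strong_induction_on with
  | _ k ih =>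
    choose! C hC0 hC using ih
    refine ⟨1 + ∑ i ∈ Finset.range k, (k.choose i : ℝ) * C i, ?_, ?_⟩
    · have : 0 ≤ ∑ i ∈ Finset.range k, (k.choose i : ℝ) * C i :=
        Finset.sum_nonneg fun i hi => mul_nonneg (Nat.cast_nonneg _)
          (hC0 i (Finset.mem_range.1 hi))
      linarith
    · intro p G G2 H A y hp hG2 hG hH hHp hpk hGk
      have hH0 : 0 < H := by linarith
      have hA : 0 ≤ A := by
        have := (norm_nonneg _).trans (hGk 0 (Nat.zero_le _))
        simpa using this
      have hGf : G = G2 * p := funext hG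
      have hle : ((k : ℕ∞) : WithTop ℕ∞) ≤ ∞ := (nsp_lt k).le
      have hL := iteratedDeriv_mul (n := k) (x := y) (hG2.contDiffAt.of_le hle)
        (hp.contDiffAt.of_le hle)
      rw [← hGf, Finset.sum_range_succ, Nat.choose_self, Nat.cast_one, one_mul, Nat.sub_self,
        iteratedDeriv_zero] at hL
      have h1 : iteratedDeriv k G2 y * p y = iteratedDeriv k G y -
          ∑ i ∈ Finset.range k, (k.choose i : ℂ) * iteratedDeriv i G2 y *
            iteratedDeriv (k - i) p y := by
        rw [hL]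
        ring
      have h2 : ‖iteratedDeriv k G2 y‖ * ‖p y‖ ≤ A * H ^ (3 * k) +
          ∑ i ∈ Finset.range k, (k.choose i : ℝ) * (C i * A * H ^ (3 * i + 1)) *
            H ^ (k - i + 1) := by
        rw [← norm_mul, h1]
        refine (norm_sub_le _ _).trans (add_le_add (hGk k le_rfl) ?_)
        refine (norm_sum_le _ _).trans (Finset.sum_le_sum fun i hi => ?_)
        have hik := Finset.mem_range.1 hi
        rw [norm_mul, norm_mul, Complex.norm_natCast]
        have h3 : ‖iteratedDeriv i G2 y‖ ≤ C i * A * H ^ (3 * i + 1) :=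
          hC i hik p G G2 H A y hp hG2 hG hH hHp (fun j hj => hpk j (hj.trans hik.le))
            (fun j hj => hGk j (hj.trans hik.le))
        have h4 : ‖iteratedDeriv (k - i) p y‖ ≤ H ^ (k - i + 1) := hpk _ (Nat.sub_le _ _)
        have h5 : 0 ≤ C i * A * H ^ (3 * i + 1) :=
          mul_nonneg (mul_nonneg (hC0 i hik) hA) (by positivity)
        exact mul_le_mul (mul_le_mul_of_nonneg_left h3 (Nat.cast_nonneg _)) h4 (norm_nonneg _)
          (mul_nonneg (Nat.cast_nonneg _) h5)
      have h3 : ‖iteratedDeriv k G2 y‖ ≤ H * (‖iteratedDeriv k G2 y‖ * ‖p y‖) := by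
        have := mul_le_mul_of_nonneg_left hHp (norm_nonneg (iteratedDeriv k G2 y))
        linarith
      have h4 := mul_le_mul_of_nonneg_left h2 hH0.le
      refine (h3.trans h4).trans ?_
      rw [mul_add, Finset.mul_sum]
      have h5 : H * (A * H ^ (3 * k)) = A * H ^ (3 * k + 1) := by ring
      have h6 : ∑ i ∈ Finset.range k, H * ((k.choose i : ℝ) * (C i * A * H ^ (3 * i + 1)) *
            H ^ (k - i + 1)) ≤
          ∑ i ∈ Finset.range k, (k.choose i : ℝ) * C i * (A * H ^ (3 * k + 1)) := by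
        refine Finset.sum_le_sum fun i hi => ?_
        have hik := Finset.mem_range.1 hi
        have h7 : H * ((k.choose i : ℝ) * (C i * A * H ^ (3 * i + 1)) * H ^ (k - i + 1)) =
            (k.choose i : ℝ) * C i * (A * H ^ (3 * i + 1 + (k - i + 1) + 1)) := by
          rw [pow_add, pow_add, pow_one]
          ring
        rw [h7]
        have h8 : H ^ (3 * i + 1 + (k - i + 1) + 1) ≤ H ^ (3 * k + 1) :=
          pow_le_pow_right₀ hH (by omega)
        exact mul_le_mul_of_nonneg_left (mul_le_mul_of_nonneg_left h8 hA)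
          (mul_nonneg (Nat.cast_nonneg _) (hC0 i hik))
      have h9 : (1 + ∑ i ∈ Finset.range k, (k.choose i : ℝ) * C i) * A * H ^ (3 * k + 1) =
          A * H ^ (3 * k + 1) +
            ∑ i ∈ Finset.range k, (k.choose i : ℝ) * C i * (A * H ^ (3 * k + 1)) := by
        rw [← Finset.sum_mul]
        ring
      rw [h9, h5]
      linarith

private theorem nsp_exp (φ : ℝ → ℝ) (τ y : ℝ) :
    ‖Complex.exp (-(Complex.I * τ * φ y))‖ = 1 := by
  have h : -(Complex.I * τ * φ y) = ((-(τ * φ y) : ℝ) : ℂ) * Complex.I := by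
    push_cast
    ring
  rw [h, Complex.norm_exp_ofReal_mul_I]

theorem nsp (n : ℕ) : ∃ C : ℝ, 0 ≤ C ∧ ∀ (φ : ℝ → ℝ) (G : ℝ → ℂ) (H A R τ : ℝ), ContDiff ℝ ∞ φ →
    ContDiff ℝ ∞ G → 1 ≤ H → 0 < τ → 0 ≤ R → (∀ y, R < |y| → G y = 0) →
    (∀ y ∈ tsupport G, 1 ≤ H * |deriv φ y|) →
    (∀ k ≤ n, ∀ y ∈ tsupport G, |iteratedDeriv (k + 1) φ y| ≤ H ^ (k + 1)) →
    (∀ k ≤ n, ∀ y, ‖iteratedDeriv k G y‖ ≤ A * H ^ (3 * k)) →
    ‖∫ y : ℝ, Complex.exp (-(Complex.I * τ * φ y)) * G y‖ ≤ C * A * R * (H ^ 4 / τ) ^ n := by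
  induction n with
  | zero =>
    refine ⟨2, by norm_num, ?_⟩
    intro φ G H A R τ hφ hG hH hτ hR hsupp hph hφk hGk
    have hA : ∀ y, ‖G y‖ ≤ A := fun y => by simpa using hGk 0 le_rfl y
    have h1 : ∫ y : ℝ, Complex.exp (-(Complex.I * τ * φ y)) * G y =
        ∫ y in Icc (-R) R, Complex.exp (-(Complex.I * τ * φ y)) * G y := by
      refine (setIntegral_eq_integral_of_forall_compl_eq_zero fun y hy => ?_).symm
      have h2 : R < |y| := by
        by_contra h3
        push Not at h3
        exact hy (abs_le.1 h3)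
      rw [hsupp y h2, mul_zero]
    rw [h1]
    have h2 := norm_setIntegral_le_of_norm_le_const (μ := volume) (s := Icc (-R) R) (C := A)
      (f := fun y => Complex.exp (-(Complex.I * τ * φ y)) * G y) (by
        rw [Real.volume_Icc]
        exact ENNReal.ofReal_lt_top) (fun y _ => by
        rw [norm_mul, nsp_exp, one_mul]
        exact hA y)
    refine h2.trans (le_of_eq ?_)
    rw [Real.volume_real_Icc_of_le (by linarith), pow_zero]
    ring
  | succ n ih =>
    obtain ⟨C1, hC1, ih⟩ := ih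
    choose Cq hCq0 hCq using nsp_quot
    obtain ⟨M, hM⟩ : ∃ M, M = ∑ k ∈ Finset.range (n + 2), Cq k := ⟨_, rfl⟩
    have hM0 : 0 ≤ M := by
      rw [hM]
      exact Finset.sum_nonneg fun k _ => hCq0 k
    have hMk : ∀ k ≤ n + 1, Cq k ≤ M := by
      intro k hk
      rw [hM]
      exact Finset.single_le_sum (fun k _ => hCq0 k) (Finset.mem_range.2 (by omega))
    refine ⟨C1 * M, by positivity, ?_⟩
    intro φ G H A R τ hφ hG hH hτ hR hsupp hph hφk hGk
    have hH0 : 0 < H := by linarith
    have hA0 : 0 ≤ A := by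
      have := (norm_nonneg _).trans (hGk 0 (Nat.zero_le _) 0)
      simpa using this
    have hφ' : ContDiff ℝ ∞ (deriv φ) := (contDiff_infty_iff_deriv.1 hφ).2
    have hp : ContDiff ℝ ∞ fun y => ((deriv φ y : ℝ) : ℂ) :=
      Complex.ofRealCLM.contDiff.comp hφ'
    have hne : ∀ y ∈ tsupport G, ((deriv φ y : ℝ) : ℂ) ≠ 0 := by
      intro y hy h0
      have h1 := hph y hy
      have h2 : deriv φ y = 0 := by exact_mod_cast h0
      rw [h2, abs_zero, mul_zero] at h1
      linarith
    obtain ⟨G2, hG2⟩ : ∃ G2 : ℝ → ℂ, G2 = fun y => G y / ((deriv φ y : ℝ) : ℂ) := ⟨_, rfl⟩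
    have hz : ∀ y, y ∉ tsupport G → G2 =ᶠ[𝓝 y] fun _ => 0 := by
      intro y hy
      have h1 : G =ᶠ[𝓝 y] 0 := notMem_tsupport_iff_eventuallyEq.1 hy
      filter_upwards [h1] with z hz
      rw [hG2]
      simp only [hz, Pi.zero_apply, zero_div]
    have hG2s : ContDiff ℝ ∞ G2 := by
      rw [contDiff_iff_contDiffAt]
      intro y
      by_cases hy : y ∈ tsupport G
      · rw [hG2]
        simp only [div_eq_mul_inv]
        exact hG.contDiffAt.mul (hp.contDiffAt.inv (hne y hy))
      · exact contDiffAt_const.congr_of_eventuallyEq (hz y hy)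
    have hGG : ∀ y, G y = G2 y * ((deriv φ y : ℝ) : ℂ) := by
      intro y
      by_cases hy : y ∈ tsupport G
      · rw [hG2]
        simp only
        rw [div_mul_cancel₀ _ (hne y hy)]
      · rw [(hz y hy).self_of_nhds, zero_mul, image_eq_zero_of_notMem_tsupport hy]
    have hsub : tsupport G2 ⊆ tsupport G := by
      refine closure_minimal (fun y hy => ?_) (isClosed_tsupport G)
      by_contra hy'
      exact hy (hz y hy').self_of_nhds
    have hpk : ∀ k ≤ n + 1, ∀ y ∈ tsupport G,
        ‖iteratedDeriv k (fun y => ((deriv φ y : ℝ) : ℂ)) y‖ ≤ H ^ (k + 1) := by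
      intro k hk y hy
      rw [nsp_ofReal hφ' k, Complex.norm_real, Real.norm_eq_abs, ← iteratedDeriv_succ']
      exact hφk k hk y hy
    have hG2k : ∀ k ≤ n + 1, ∀ y, ‖iteratedDeriv k G2 y‖ ≤ M * A * H ^ (3 * k + 1) := by
      intro k hk y
      have h0 : 0 ≤ A * H ^ (3 * k + 1) := by positivity
      by_cases hy : y ∈ tsupport G
      · have h1 := hCq k (fun y => ((deriv φ y : ℝ) : ℂ)) G G2 H A y hp hG2s hGG hH (by
          rw [Complex.norm_real, Real.norm_eq_abs]
          exact hph y hy) (fun i hi => hpk i (hi.trans hk) y hy)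
          (fun i hi => hGk i (hi.trans hk) y)
        refine h1.trans ?_
        rw [mul_assoc, mul_assoc]
        exact mul_le_mul_of_nonneg_right (hMk k hk) h0
      · have h1 : iteratedDeriv k G2 y = 0 := by
          rw [((hz y hy).iteratedDeriv k).self_of_nhds]
          simp
        rw [h1, norm_zero, mul_assoc]
        positivity
    have hG2' : ContDiff ℝ ∞ (deriv G2) := (contDiff_infty_iff_deriv.1 hG2s).2
    have hsub' : tsupport (deriv G2) ⊆ tsupport G := tsupport_deriv_subset.trans hsub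
    have hvan : ∀ y, R < |y| → y ∉ tsupport G := by
      intro y hy hy'
      have h1 : tsupport G ⊆ Icc (-R) R := by
        refine closure_minimal (fun z hz => ?_) isClosed_Icc
        by_contra h2
        apply hz
        apply hsupp
        by_contra h3
        push Not at h3
        exact h2 (abs_le.1 h3)
      exact absurd (abs_le.2 (h1 hy')) (not_le.2 hy)
    have h1 := ih φ (deriv G2) H (M * A * H ^ 4) R τ hφ hG2' hH hτ hR
      (fun y hy => image_eq_zero_of_notMem_tsupport fun h2 => hvan y hy (hsub' h2))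
      (fun y hy => hph y (hsub' hy)) (fun k hk y hy => hφk k (by omega) y (hsub' hy))
      (fun k hk y => by
        rw [← iteratedDeriv_succ']
        refine (hG2k (k + 1) (by omega) y).trans (le_of_eq ?_)
        rw [show 3 * (k + 1) + 1 = 4 + 3 * k by ring, pow_add]
        ring)
    -- integration by parts
    have hcs : HasCompactSupport G2 := by
      refine HasCompactSupport.intro' (K := Icc (-R) R) isCompact_Icc isClosed_Icc ?_
      intro y hy
      have h2 : R < |y| := by
        by_contra h3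
        push Not at h3
        exact hy (abs_le.1 h3)
      exact (hz y (hvan y h2)).self_of_nhds
    have hE : ∀ y, HasDerivAt (fun y => Complex.exp (-(Complex.I * τ * φ y)))
        (Complex.exp (-(Complex.I * τ * φ y)) * -(Complex.I * τ * ((deriv φ y : ℝ) : ℂ))) y := by
      intro y
      have h2 : HasDerivAt (fun y => ((φ y : ℝ) : ℂ)) ((deriv φ y : ℝ) : ℂ) y :=
        ((hφ.differentiable (by simp) y).hasDerivAt).ofReal_comp
      exact ((h2.const_mul (Complex.I * τ)).neg).cexp
    have hEc : Continuous fun y => Complex.exp (-(Complex.I * τ * φ y)) := by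
      have := hφ.continuous
      fun_prop
    have hd : ∀ y, HasDerivAt (fun y => Complex.exp (-(Complex.I * τ * φ y)) * G2 y)
        (Complex.exp (-(Complex.I * τ * φ y)) * -(Complex.I * τ * ((deriv φ y : ℝ) : ℂ)) * G2 y +
          Complex.exp (-(Complex.I * τ * φ y)) * deriv G2 y) y := fun y =>
      (hE y).mul ((hG2s.differentiable (by simp) y).hasDerivAt)
    have hi1 : Integrable fun y => Complex.exp (-(Complex.I * τ * φ y)) * G2 y :=
      (hEc.mul hG2s.continuous).integrable_of_hasCompactSupport hcs.mul_left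
    have hi2 : Integrable fun y => Complex.exp (-(Complex.I * τ * φ y)) * deriv G2 y :=
      (hEc.mul hG2'.continuous).integrable_of_hasCompactSupport hcs.deriv.mul_left
    have hi3 : Integrable fun y => Complex.exp (-(Complex.I * τ * φ y)) *
        -(Complex.I * τ * ((deriv φ y : ℝ) : ℂ)) * G2 y := by
      have h2 : Continuous fun y => Complex.exp (-(Complex.I * τ * φ y)) *
          -(Complex.I * τ * ((deriv φ y : ℝ) : ℂ)) * G2 y :=
        (hEc.mul ((continuous_const.mul hp.continuous).neg)).mul hG2s.continuous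
      exact h2.integrable_of_hasCompactSupport hcs.mul_left
    have h2 := integral_eq_zero_of_hasDerivAt_of_integrable hd (hi3.add hi2) hi1
    rw [integral_add hi3 hi2] at h2
    have h3 : ∫ y : ℝ, Complex.exp (-(Complex.I * τ * φ y)) *
        -(Complex.I * τ * ((deriv φ y : ℝ) : ℂ)) * G2 y =
        -(Complex.I * τ) * ∫ y : ℝ, Complex.exp (-(Complex.I * τ * φ y)) * G y := by
      rw [← integral_const_mul]
      congr 1
      funext y
      rw [hGG y]
      ring
    rw [h3] at h2
    have h4 : (Complex.I * τ) * ∫ y : ℝ, Complex.exp (-(Complex.I * τ * φ y)) * G y =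
        ∫ y : ℝ, Complex.exp (-(Complex.I * τ * φ y)) * deriv G2 y := by
      linear_combination -h2
    have h5 := congrArg norm h4
    rw [norm_mul, norm_mul, Complex.norm_I, one_mul, Complex.norm_real, Real.norm_eq_abs,
      abs_of_pos hτ] at h5
    rw [← h5] at h1
    have h6 : ‖∫ y : ℝ, Complex.exp (-(Complex.I * τ * φ y)) * G y‖ ≤
        C1 * (M * A * H ^ 4) * R * (H ^ 4 / τ) ^ n / τ := by
      rw [le_div_iff₀ hτ]
      linarith
    refine h6.trans (le_of_eq ?_)
    have h7 : (H ^ 4 / τ) ^ (n + 1) = (H ^ 4 / τ) ^ n * (H ^ 4 / τ) := pow_succ _ _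
    rw [h7]
    generalize (H ^ 4 / τ) ^ n = X
    ring

end BE
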