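import Pool.Agent.LibBE99.L3
import Pool.Agent.LibBE99.J1
import Pool.Agent.LibBE99.A2
import Pool.Agent.LibBE88.C1

/-! Row N2 (cites A2, J1, L3, `LibBE88/C1`): the amplitude away from the axis. MEDIUM / STRONG, 60 min.
`Gt m s q N f τ δ y = (1 - cut (y / δ)) * KC (mm m (s q.i) q.p1) N f τ (X y) (g • X y) * q.w m s y`.
Plan. `r0` = the constant of `ds_low` (`LibBE88/V12`): `r0 ≤ q.d m s y` always, so
`KC .. = Σ_{j ≤ N} (UU_j : ℂ) * alc r0 j f τ (q.d m s y)` for all `y` (`alc_eq`), hence `Gt` is smooth (`LP_UU`, `LP_d`, `alc_bound`,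
`LP_e`, `JA_bd`). If `ρ < q.d m s y`, then `KC = 0` near `y` (`al_zero`, continuity of `q.d m s`), so the derivatives are `0`.
Let now `q.d m s y ≤ ρ`. Work with `EBn n` (`LibBE88/Defs.lean`, calculus in `LibBE88/C1.lean`) on the index type of all
data `(q, v, l, f, ρ, M, τ, δ, y)` with the hypotheses, `M > 0`, and `q.d m s y ≤ ρ` (a structure or a subtype; if
`M = 0` then `f = 0`, `Gt = 0`), scale `ℓ = log (2 + (1 + ρ) / δ)`. (1) `y ↦ 1 - cut (y / δ)`: derivatives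
`≤ C_k δ^(-k)`: composition of `cut` with `y ↦ y / δ` (`EB_comp`/`EBn_comp`: linear map with the norm `1 / δ ≤ exp ℓ`; all
derivatives of `cut` are bounded: smooth with compact support). (2) `UU_j` along the line: `LP_UU` pulled back: `log (2 + d) ≤ log (2 + ρ) ≤ ℓ`.
(3) `alc r0 j f τ ∘ (q.d m s) / (M τ)`: `EBn_comp`: outer family by `alc_bound` (`(1 + ρ) ^ C ≤ exp (C ℓ)`), inner family `LP_d`.
(4) `LP_e`. (5) `JA (mm .. q.p0) q.x q.u y * exp (-(c0 R))` with `R = C (1 + ρ)`, `|y| ≤ R` by `Ax_growth`: `JA_bd`, bounded by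
constants, so scale `0`. Products: `EBn_clm_apply` with `ContinuousLinearMap.mul ℝ ℂ` or `EBn_comp` with a bilinear map;
sum over `j`: `EBn_sum`. Result: `‖iteratedDeriv k Gt y‖ ≤ C exp (C ℓ) * (M τ) * exp (c0 C (1 + ρ))`; take `C0 = c0 C` and a
natural number as constant, `2 + (1 + ρ) / δ ≤ 3 (1 + ρ) / δ`. -/

open MeasureTheory Set Filter Topology
open scoped ContDiff

namespace BE

open BGS BR

section N2aux

variable {I E F : Type} [NormedAddCommGroup E] [NormedSpace ℝ E] [NormedAddCommGroup F]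
  [NormedSpace ℝ F]

theorem N2_exp_mono {C ℓ ℓ' : ℝ} (h0 : 0 ≤ ℓ) (h : ℓ ≤ ℓ') :
    C * Real.exp (C * ℓ) ≤ |C| * Real.exp (|C| * ℓ') := by
  have h1 : C * ℓ ≤ |C| * ℓ' :=
    (mul_le_mul_of_nonneg_right (le_abs_self C) h0).trans
      (mul_le_mul_of_nonneg_left h (abs_nonneg C))
  exact (mul_le_mul_of_nonneg_right (le_abs_self C) (Real.exp_pos _).le).trans
    (mul_le_mul_of_nonneg_left (Real.exp_le_exp.2 h1) (abs_nonneg C))

theorem N2_mono {n : ℕ} {ℓ ℓ' : I → ℝ} {f : I → E → F} {x : I → E} (h0 : ∀ i, 0 ≤ ℓ i)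
    (h : ∀ i, ℓ i ≤ ℓ' i) (hf : EBn n ℓ f x) : EBn n ℓ' f x := by
  refine ⟨hf.smooth, fun k hk => ?_⟩
  obtain ⟨C, hC⟩ := hf.bound k hk
  exact ⟨|C|, fun i => (hC i).trans (N2_exp_mono (h0 i) (h i))⟩

theorem N2_of {n : ℕ} {ℓ : I → ℝ} {f : I → ℝ → F} {x : I → ℝ} (hs : ∀ i, ContDiff ℝ ∞ (f i))
    (hb : ∀ k ≤ n, ∃ C : ℝ, ∀ i, ‖iteratedDeriv k (f i) (x i)‖ ≤ C * Real.exp (C * ℓ i)) :
    EBn n ℓ f x := by
  refine ⟨hs, fun k hk => ?_⟩
  obtain ⟨C, hC⟩ := hb k hk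
  exact ⟨C, fun i => by rw [norm_iteratedFDeriv_eq_norm_iteratedDeriv]; exact hC i⟩

theorem N2_mul {n : ℕ} {ℓ : I → ℝ} {f g : I → E → ℂ} {x : I → E} (hℓ : ∀ i, 0 ≤ ℓ i)
    (hf : EBn n ℓ f x) (hg : EBn n ℓ g x) : EBn n ℓ (fun i y => f i y * g i y) x := by
  have h1 := EBn_clm hℓ hf (ContinuousLinearMap.mul ℝ ℂ)
  have h2 := EBn_clm_apply hℓ h1 hg
  exact h2

theorem N2_real {n : ℕ} {ℓ : I → ℝ} {f : I → E → ℝ} {x : I → E} (hℓ : ∀ i, 0 ≤ ℓ i)
    (hf : EBn n ℓ f x) : EBn n ℓ (fun i y => ((f i y : ℝ) : ℂ)) x :=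
  EBn_clm hℓ hf Complex.ofRealCLM

end N2aux

/-- All derivatives of the cut-off are bounded. -/
theorem N2_cut (k : ℕ) : ∃ C : ℝ, ∀ y, ‖iteratedDeriv k (fun y : ℝ => cut y) y‖ ≤ C := by
  have h1 : ContDiff ℝ ∞ (fun y : ℝ => cut y) := cut.contDiff
  have h2 : HasCompactSupport (iteratedFDeriv ℝ k (fun y : ℝ => cut y)) :=
    cut.hasCompactSupport.iteratedFDeriv k
  have h3 : Continuous (iteratedFDeriv ℝ k (fun y : ℝ => cut y)) :=
    h1.continuous_iteratedFDeriv (by exact_mod_cast le_top)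
  obtain ⟨C, hC⟩ := h3.bounded_above_of_compact_support h2
  exact ⟨C, fun y => by rw [← norm_iteratedFDeriv_eq_norm_iteratedDeriv]; exact hC y⟩

/-- The data. -/
structure N2_I (Γ : Type) [Group Γ] [MulAction Γ Pl] (ι P : Type) [NormedAddCommGroup P]
    [NormedSpace ℝ P] (m : Pl → Co) (s : ι → P × Pl → ℝ) (n : ℕ) where
  q : Ln ι P Γ
  v : Pl
  l : ℝ
  f : ℝ → ℂ
  ρ : ℝ
  M : ℝ
  τ : ℝ
  δ : ℝ
  y : ℝ
  ax : q.Ax m s v l
  hρ : 0 ≤ ρ
  hf : BE73.AmpN (n + 1) f ρ M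
  hτ : 1 ≤ τ
  hδ : 0 < δ
  hδ1 : δ ≤ 1
  hM : 0 < M
  hd : q.d m s y ≤ ρ

variable {Γ : Type} [Group Γ] [MulAction Γ Pl] {D : Set Pl}
variable {ι P : Type} [NormedAddCommGroup P] [NormedSpace ℝ P] [FiniteDimensional ℝ P]
  {m : Pl → Co} {a b : ℝ} {s : ι → P × Pl → ℝ}

/-- The scale. -/
noncomputable def N2_I.L {n : ℕ} (i : N2_I Γ ι P m s n) : ℝ := Real.log (2 + (1 + i.ρ) / i.δ)

omit [FiniteDimensional ℝ P] in
theorem N2_one_le {n : ℕ} (i : N2_I Γ ι P m s n) : 1 + i.ρ ≤ (1 + i.ρ) / i.δ := by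
  rw [le_div_iff₀ i.hδ]
  have h1 := i.hρ
  have h2 := i.hδ1
  nlinarith

omit [FiniteDimensional ℝ P] in
theorem N2_expL {n : ℕ} (i : N2_I Γ ι P m s n) : Real.exp i.L = 2 + (1 + i.ρ) / i.δ := by
  unfold N2_I.L
  rw [Real.exp_log]
  have h1 := N2_one_le i
  have h2 := i.hρ
  linarith

omit [FiniteDimensional ℝ P] in
theorem N2_L0 {n : ℕ} (i : N2_I Γ ι P m s n) : 0 ≤ i.L := by
  have h1 := N2_one_le i
  have h2 := i.hρ
  exact Real.log_nonneg (by linarith)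

omit [FiniteDimensional ℝ P] in
/-- `(1 + ρ) ^ n ≤ exp (n L)`. -/
theorem N2_pow {n : ℕ} (i : N2_I Γ ι P m s n) (k : ℕ) :
    (1 + i.ρ) ^ k ≤ Real.exp ((k : ℝ) * i.L) := by
  rw [Real.exp_nat_mul, N2_expL]
  have h1 := N2_one_le i
  have h2 := i.hρ
  exact pow_le_pow_left₀ (by linarith) (by linarith) k

omit [FiniteDimensional ℝ P] in
/-- `δ ^ (-k) ≤ exp (k L)`. -/
theorem N2_pow' {n : ℕ} (i : N2_I Γ ι P m s n) (k : ℕ) :
    (1 / i.δ) ^ k ≤ Real.exp ((k : ℝ) * i.L) := by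
  rw [Real.exp_nat_mul, N2_expL]
  have h2 := i.hρ
  have h3 : 1 / i.δ ≤ (1 + i.ρ) / i.δ := div_le_div_of_nonneg_right (by linarith) i.hδ.le
  exact pow_le_pow_left₀ (one_div_nonneg.2 i.hδ.le) (by linarith) k

omit [FiniteDimensional ℝ P] in
/-- The factor with the cut-off. -/
theorem N2_f1 (n : ℕ) : EBn n (fun i : N2_I Γ ι P m s n => i.L)
    (fun i y => (((1 - cut (y / i.δ) : ℝ)) : ℂ)) (fun i => i.y) := by
  refine N2_real (fun i => N2_L0 i) ?_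
  have h1 : EBn n (fun i : N2_I Γ ι P m s n => i.L) (fun _ _ => (1 : ℝ)) (fun i => i.y) := by
    refine N2_of (fun i => contDiff_const) (fun k _ => ⟨1, fun i => ?_⟩)
    have h2 : (1 : ℝ) ≤ Real.exp (1 * i.L) := Real.one_le_exp (by rw [one_mul]; exact N2_L0 i)
    rcases Nat.eq_zero_or_pos k with hk | hk
    · subst hk
      rw [iteratedDeriv_zero, norm_one, one_mul]
      exact h2
    · rw [iteratedDeriv_const, if_neg hk.ne', norm_zero, one_mul]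
      exact (Real.exp_pos _).le
  have h2 : EBn n (fun i : N2_I Γ ι P m s n => i.L) (fun i y => (cut (y / i.δ) : ℝ))
      (fun i => i.y) := by
    refine N2_of (fun i => cut.contDiff.comp (contDiff_id.div_const _)) (fun k _ => ?_)
    obtain ⟨C, hC⟩ := N2_cut k
    have hC0 : 0 ≤ C := (norm_nonneg _).trans (hC 0)
    refine ⟨max C k, fun i => ?_⟩
    have e1 : (fun y : ℝ => (cut (y / i.δ) : ℝ)) = fun y => (fun y : ℝ => cut y) (1 / i.δ * y) := by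
      funext y
      show cut (y / i.δ) = cut (1 / i.δ * y)
      congr 1
      ring
    rw [e1, iteratedDeriv_comp_const_mul (f := fun y : ℝ => (cut y : ℝ)) cut.contDiff]
    show ‖(1 / i.δ) ^ k * iteratedDeriv k (fun y : ℝ => (cut y : ℝ)) (1 / i.δ * i.y)‖ ≤ _
    rw [norm_mul, norm_pow, Real.norm_of_nonneg (one_div_nonneg.2 i.hδ.le), mul_comm]
    refine mul_le_mul ((hC _).trans (le_max_left _ _)) ((N2_pow' i k).trans ?_) (by
      exact pow_nonneg (one_div_nonneg.2 i.hδ.le) k) (hC0.trans (le_max_left _ _))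
    exact Real.exp_le_exp.2 (mul_le_mul_of_nonneg_right (le_max_right _ _) (N2_L0 i))
  exact EBn_sub (fun i => N2_L0 i) h1 h2

omit [FiniteDimensional ℝ P] in
theorem N2_dL (h0 : ∀ (q : Ln ι P Γ) (y : ℝ), 0 ≤ q.d m s y) {n : ℕ} (i : N2_I Γ ι P m s n) :
    Real.log (2 + i.q.d m s i.y) ≤ i.L := by
  unfold N2_I.L
  have h1 := h0 i.q i.y
  have h2 := i.hd
  have h3 := N2_one_le i
  exact Real.log_le_log (by linarith) (by linarith)

omit [FiniteDimensional ℝ P] in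
/-- A family with polynomial growth along the geodesics. -/
theorem N2_LP (h0 : ∀ (q : Ln ι P Γ) (y : ℝ), 0 ≤ q.d m s y) {F : Type} [NormedAddCommGroup F]
    [NormedSpace ℝ F] {G : Ln ι P Γ → ℝ → F} (hG : LP m s G) (n : ℕ) :
    EBn n (fun i : N2_I Γ ι P m s n => i.L) (fun i => G i.q) (fun i => i.y) := by
  have h1 := EBn_pull (EBn_iff.1 hG n) (fun i : N2_I Γ ι P m s n => (i.q, i.y))
  refine N2_mono (fun i => ?_) (fun i => ?_) h1
  · have h2 := h0 i.q i.y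
    exact Real.log_nonneg (by linarith)
  · exact N2_dL h0 i

/-- The factors with the symbols. -/
theorem N2_f3 (h : CF Γ D m a b s) (h0 : ∀ (q : Ln ι P Γ) (y : ℝ), 0 ≤ q.d m s y) {r0 : ℝ}
    (hr0 : 0 < r0) (j n : ℕ) : EBn n (fun i : N2_I Γ ι P m s n => i.L)
    (fun i y => (1 / (i.M * i.τ)) • alc r0 j i.f i.τ (i.q.d m s y)) (fun i => i.y) := by
  obtain ⟨C, hC⟩ := alc_bound hr0 j n
  have h1 : EBn n (fun i : N2_I Γ ι P m s n => i.L)
      (fun i r => (1 / (i.M * i.τ)) • alc r0 j i.f i.τ r) (fun i => i.q.d m s i.y) := by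
    refine N2_of (fun i => (hC i.f i.ρ i.M i.τ i.hρ i.hf i.hτ).1.const_smul (1 / (i.M * i.τ)))
      (fun k hk => ⟨C, fun i => ?_⟩)
    obtain ⟨h2, h3⟩ := hC i.f i.ρ i.M i.τ i.hρ i.hf i.hτ
    have hMτ : 0 < i.M * i.τ := mul_pos i.hM (by linarith [i.hτ])
    rw [← norm_iteratedFDeriv_eq_norm_iteratedDeriv]
    rw [iteratedFDeriv_const_smul_apply' (h2.contDiffAt.of_le (by exact_mod_cast le_top)),
      norm_smul, norm_iteratedFDeriv_eq_norm_iteratedDeriv,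
      Real.norm_of_nonneg (one_div_nonneg.2 hMτ.le), one_div, inv_mul_le_iff₀ hMτ]
    calc ‖iteratedDeriv k (alc r0 j i.f i.τ) (i.q.d m s i.y)‖
        ≤ C * (1 + i.ρ) ^ C * (i.M * i.τ) := h3 k hk _
      _ ≤ C * Real.exp ((C : ℝ) * i.L) * (i.M * i.τ) := by
          refine mul_le_mul_of_nonneg_right ?_ hMτ.le
          exact mul_le_mul_of_nonneg_left (N2_pow i C) (Nat.cast_nonneg _)
      _ = i.M * i.τ * (C * Real.exp ((C : ℝ) * i.L)) := by ring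
  exact EBn_comp (g := fun (i : N2_I Γ ι P m s n) (r : ℝ) => (1 / (i.M * i.τ)) • alc r0 j i.f i.τ r)
    (f := fun (i : N2_I Γ ι P m s n) (y : ℝ) => i.q.d m s y) (fun i => N2_L0 i) h1
    (N2_LP h0 (LP_d h) n)

/-- The kernel, normalised. -/
theorem N2_f4 (h : CF Γ D m a b s) (h0 : ∀ (q : Ln ι P Γ) (y : ℝ), 0 ≤ q.d m s y) {r0 : ℝ}
    (hr0 : 0 < r0) (N n : ℕ) : EBn n (fun i : N2_I Γ ι P m s n => i.L)
    (fun i y => ∑ j ∈ Finset.range (N + 1),
      ((UU (Gx (mm m (s i.q.i) i.q.p1) (i.q.X m s y)) j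
        (Vx (mm m (s i.q.i) i.q.p1) (i.q.X m s y) (i.q.g • i.q.X m s y)) : ℝ) : ℂ) *
      ((1 / (i.M * i.τ)) • alc r0 j i.f i.τ (i.q.d m s y))) (fun i => i.y) := by
  refine EBn_sum (fun i => N2_L0 i) _ (fun j _ => ?_)
  exact N2_mul (fun i => N2_L0 i) (N2_real (fun i => N2_L0 i) (N2_LP h0 (LP_UU h j) n))
    (N2_f3 h h0 hr0 j n)

/-- The density. -/
theorem N2_f5 (h : CF Γ D m a b s) (n : ℕ) : EBn n (fun i : N2_I Γ ι P m s n => i.L)
    (fun i y => Real.exp (s i.q.i (i.q.p1, i.q.X m s y) - s i.q.i (i.q.p0, i.q.X m s y)))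
    (fun i => i.y) := by
  have h1 := EBn_pull (EBn_iff.1 (LP_e h) n) (fun i : N2_I Γ ι P m s n => (i.q, i.y))
  exact N2_mono (fun i => le_rfl) (fun i => N2_L0 i) h1

omit [FiniteDimensional ℝ P] in
/-- The Jacobian, normalised. -/
theorem N2_f6 {c0 Cg : ℝ} (h0 : ∀ k : ℕ, ∃ C : ℝ, 0 ≤ C ∧
      ∀ (i : ι) (p : P), ‖p‖ ≤ 1 → ∀ x u : Pl, eu u = 1 →
      ContDiff ℝ ∞ (JA (mm m (s i) p) x u) ∧
      ∀ y : ℝ, |iteratedDeriv k (JA (mm m (s i) p) x u) y| ≤ C * Real.exp (c0 * |y|))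
    (hc0 : 0 ≤ c0) (hCg : 1 ≤ Cg)
    (hg : ∀ (q : Ln ι P Γ) (v : Pl) (l : ℝ), q.Ax m s v l → ∀ y, |y| ≤ Cg * (1 + q.d m s y))
    (n : ℕ) : EBn n (fun i : N2_I Γ ι P m s n => i.L)
    (fun i y => Real.exp (-(c0 * (Cg * (1 + i.ρ)))) • JA (mm m (s i.q.i) i.q.p0) i.q.x i.q.u y)
    (fun i => i.y) := by
  obtain ⟨_, -, h0'⟩ := h0 0
  refine N2_of (fun i => (h0' i.q.i i.q.p0 i.q.h0 i.q.x i.q.u i.q.hu).1.const_smul
    (Real.exp (-(c0 * (Cg * (1 + i.ρ)))))) (fun k _ => ?_)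
  obtain ⟨C, hC0, hC⟩ := h0 k
  refine ⟨C, fun i => ?_⟩
  obtain ⟨h2, h3⟩ := hC i.q.i i.q.p0 i.q.h0 i.q.x i.q.u i.q.hu
  rw [← norm_iteratedFDeriv_eq_norm_iteratedDeriv]
  rw [iteratedFDeriv_const_smul_apply' (h2.contDiffAt.of_le (by exact_mod_cast le_top)),
    norm_smul, norm_iteratedFDeriv_eq_norm_iteratedDeriv,
    Real.norm_of_nonneg (Real.exp_pos _).le, Real.norm_eq_abs]
  have h4 : |i.y| ≤ Cg * (1 + i.ρ) :=
    (hg i.q i.v i.l i.ax i.y).trans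
      (mul_le_mul_of_nonneg_left (by linarith [i.hd]) (by linarith))
  calc Real.exp (-(c0 * (Cg * (1 + i.ρ)))) *
        |iteratedDeriv k (JA (mm m (s i.q.i) i.q.p0) i.q.x i.q.u) i.y|
      ≤ Real.exp (-(c0 * (Cg * (1 + i.ρ)))) * (C * Real.exp (c0 * (Cg * (1 + i.ρ)))) := by
        refine mul_le_mul_of_nonneg_left ((h3 i.y).trans ?_) (Real.exp_pos _).le
        exact mul_le_mul_of_nonneg_left
          (Real.exp_le_exp.2 (mul_le_mul_of_nonneg_left h4 hc0)) hC0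
    _ = C := by
        rw [mul_left_comm, ← Real.exp_add, neg_add_cancel, Real.exp_zero, mul_one]
    _ ≤ C * Real.exp (C * i.L) :=
        le_mul_of_one_le_right hC0 (Real.one_le_exp (mul_nonneg hC0 (N2_L0 i)))

/-- From a bound for each order to one natural number. -/
theorem N2_fin {n : ℕ} {Q : ℕ → ℕ → Prop} (hQ : ∀ k (C C' : ℕ), C ≤ C' → Q k C → Q k C')
    (h : ∀ k ≤ n, ∃ C, Q k C) : ∃ C, ∀ k ≤ n, Q k C := by
  have h' : ∀ k, ∃ C, k ≤ n → Q k C := fun k => by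
    by_cases hk : k ≤ n
    · obtain ⟨C, hC⟩ := h k hk
      exact ⟨C, fun _ => hC⟩
    · exact ⟨0, fun h => absurd h hk⟩
  choose C hC using h'
  refine ⟨∑ k ∈ Finset.range (n + 1), C k, fun k hk => hQ k _ _ ?_ (hC k hk)⟩
  exact Finset.single_le_sum (f := C) (fun _ _ => Nat.zero_le _)
    (Finset.mem_range.2 (Nat.lt_succ_of_le hk))

/-- The final constant. -/
theorem N2_const {C' : ℝ} (E : ℝ) (hE : 0 ≤ E) : ∃ C : ℕ, ∀ X : ℝ, 1 ≤ X →
    E * (C' * Real.exp (C' * Real.log (2 + X))) ≤ C * X ^ C := by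
  obtain ⟨K, hK⟩ := exists_nat_ge |C'|
  obtain ⟨K2, hK2⟩ := exists_nat_ge (E * (K * 3 ^ K))
  refine ⟨max K K2, fun X hX => ?_⟩
  have h1 : C' * Real.exp (C' * Real.log (2 + X)) ≤ K * (3 * X) ^ K := by
    have h2 : 0 ≤ Real.log (2 + X) := Real.log_nonneg (by linarith)
    have h3 := N2_exp_mono (C := C') h2 le_rfl
    refine h3.trans ?_
    refine mul_le_mul hK ?_ (Real.exp_pos _).le (Nat.cast_nonneg _)
    calc Real.exp (|C'| * Real.log (2 + X)) ≤ Real.exp ((K : ℝ) * Real.log (2 + X)) :=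
          Real.exp_le_exp.2 (mul_le_mul_of_nonneg_right hK h2)
      _ = (2 + X) ^ K := by
          rw [Real.exp_nat_mul, Real.exp_log (by linarith)]
      _ ≤ (3 * X) ^ K := pow_le_pow_left₀ (by linarith) (by linarith) K
  calc E * (C' * Real.exp (C' * Real.log (2 + X))) ≤ E * (K * (3 * X) ^ K) :=
        mul_le_mul_of_nonneg_left h1 hE
    _ = (E * (K * 3 ^ K)) * X ^ K := by rw [mul_pow]; ring
    _ ≤ K2 * X ^ K := mul_le_mul_of_nonneg_right hK2 (pow_nonneg (by linarith) _)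
    _ ≤ ((max K K2 : ℕ) : ℝ) * X ^ (max K K2) := by
        refine mul_le_mul (by exact_mod_cast le_max_right K K2)
          (pow_le_pow_right₀ hX (le_max_left _ _)) (pow_nonneg (by linarith) _)
          (Nat.cast_nonneg _)


theorem amp_bound (h : CF Γ D m a b s) : ∃ C0 : ℝ, 0 ≤ C0 ∧ ∀ N n : ℕ, ∃ C : ℕ,
    ∀ (q : Ln ι P Γ) (v : Pl) (l : ℝ), q.Ax m s v l → ∀ (f : ℝ → ℂ) (ρ M τ δ : ℝ), 0 ≤ ρ →
      BE73.AmpN (n + 1) f ρ M → 1 ≤ τ → 0 < δ → δ ≤ 1 → ContDiff ℝ ∞ (Gt m s q N f τ δ) ∧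
      ∀ k ≤ n, ∀ y : ℝ, ‖iteratedDeriv k (Gt m s q N f τ δ) y‖ ≤
        C * ((1 + ρ) / δ) ^ C * Real.exp (C0 * ρ) * (M * τ) := by
  obtain ⟨r0, hr0, hlow⟩ := ds_low h
  obtain ⟨c0, hc0, hJ⟩ := JA_bd h
  obtain ⟨Cg, hCg, hgr⟩ := Ax_growth h
  have hlow' : ∀ (q : Ln ι P Γ) (y : ℝ), r0 ≤ q.d m s y := fun q y =>
    hlow q.i q.p1 q.h1 _ q.g q.hg
  have hd0 : ∀ (q : Ln ι P Γ) (y : ℝ), 0 ≤ q.d m s y := fun q y => hr0.le.trans (hlow' q y)
  refine ⟨c0 * Cg, mul_nonneg hc0 (by linarith), fun N n => ?_⟩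
  -- the kernel with the symbols cut off near zero
  have hKC : ∀ (q : Ln ι P Γ) (f : ℝ → ℂ) (τ y : ℝ),
      KC (mm m (s q.i) q.p1) N f τ (q.X m s y) (q.g • q.X m s y) =
        ∑ j ∈ Finset.range (N + 1), ((UU (Gx (mm m (s q.i) q.p1) (q.X m s y)) j
          (Vx (mm m (s q.i) q.p1) (q.X m s y) (q.g • q.X m s y)) : ℝ) : ℂ) *
          alc r0 j f τ (q.d m s y) := by
    intro q f τ y
    unfold KC
    refine Finset.sum_congr rfl (fun j _ => ?_)
    rw [alc_eq hr0 j f τ (r := q.d m s y) (by linarith [hlow' q y])]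
    rfl
  have hG : ∀ (q : Ln ι P Γ) (f : ℝ → ℂ) (τ δ : ℝ), Gt m s q N f τ δ = fun y =>
      ((1 - cut (y / δ) : ℝ) : ℂ) *
        (∑ j ∈ Finset.range (N + 1), ((UU (Gx (mm m (s q.i) q.p1) (q.X m s y)) j
          (Vx (mm m (s q.i) q.p1) (q.X m s y) (q.g • q.X m s y)) : ℝ) : ℂ) *
          alc r0 j f τ (q.d m s y)) *
        (((Real.exp (s q.i (q.p1, q.X m s y) - s q.i (q.p0, q.X m s y)) *
          JA (mm m (s q.i) q.p0) q.x q.u y : ℝ)) : ℂ) := by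
    intro q f τ δ
    funext y
    unfold Gt
    rw [hKC]
    rfl
  -- smoothness
  have hsm : ∀ (q : Ln ι P Γ) (f : ℝ → ℂ) (ρ M τ δ : ℝ), 0 ≤ ρ →
      BE73.AmpN (n + 1) f ρ M → 1 ≤ τ → ContDiff ℝ ∞ (Gt m s q N f τ δ) := by
    intro q f ρ M τ δ hρ hf hτ
    rw [hG]
    refine ContDiff.mul (ContDiff.mul ?_ ?_) ?_
    · exact Complex.ofRealCLM.contDiff.comp
        (contDiff_const.sub (cut.contDiff.comp (contDiff_id.div_const _)))
    · refine ContDiff.sum (fun j _ => ?_)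
      obtain ⟨_, hC⟩ := alc_bound hr0 j n
      exact (Complex.ofRealCLM.contDiff.comp ((LP_UU h j).smooth (q, 0))).mul
        ((hC f ρ M τ hρ hf hτ).1.comp ((LP_d h).smooth (q, 0)))
    · obtain ⟨_, -, hJ'⟩ := hJ 0
      exact Complex.ofRealCLM.contDiff.comp
        (((LP_e h).smooth (q, 0)).mul (hJ' q.i q.p0 q.h0 q.x q.u q.hu).1)
  -- the bound
  have hEB : EBn n (fun i : N2_I Γ ι P m s n => i.L)
      (fun i y => (((1 - cut (y / i.δ) : ℝ)) : ℂ) *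
        (∑ j ∈ Finset.range (N + 1), ((UU (Gx (mm m (s i.q.i) i.q.p1) (i.q.X m s y)) j
          (Vx (mm m (s i.q.i) i.q.p1) (i.q.X m s y) (i.q.g • i.q.X m s y)) : ℝ) : ℂ) *
          ((1 / (i.M * i.τ)) • alc r0 j i.f i.τ (i.q.d m s y))) *
        (((Real.exp (s i.q.i (i.q.p1, i.q.X m s y) - s i.q.i (i.q.p0, i.q.X m s y)) : ℝ) : ℂ) *
          ((Real.exp (-(c0 * (Cg * (1 + i.ρ)))) •
            JA (mm m (s i.q.i) i.q.p0) i.q.x i.q.u y : ℝ) : ℂ))) (fun i => i.y) := by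
    have hL : ∀ i : N2_I Γ ι P m s n, 0 ≤ i.L := fun i => N2_L0 i
    exact N2_mul hL (N2_mul hL (N2_f1 n) (N2_f4 h hd0 hr0 N n))
      (N2_mul hL (N2_real hL (N2_f5 h n))
        (N2_real hL (N2_f6 hJ hc0 hCg (fun q v l hq y => ((hgr q v l hq).2 y).1) n)))
  have hmain : ∃ C : ℕ, ∀ k ≤ n, ∀ i : N2_I Γ ι P m s n,
      ‖iteratedDeriv k (Gt m s i.q N i.f i.τ i.δ) i.y‖ ≤
        C * ((1 + i.ρ) / i.δ) ^ C * Real.exp (c0 * Cg * i.ρ) * (i.M * i.τ) := by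
    refine N2_fin (fun k C C' hCC' hQ i => ?_) (fun k hk => ?_)
    · refine (hQ i).trans ?_
      have hMτ : 0 ≤ i.M * i.τ := mul_nonneg i.hM.le (by linarith [i.hτ])
      have h1 : 1 ≤ (1 + i.ρ) / i.δ := by linarith [N2_one_le i, i.hρ]
      refine mul_le_mul_of_nonneg_right (mul_le_mul_of_nonneg_right ?_ (Real.exp_pos _).le) hMτ
      exact mul_le_mul (by exact_mod_cast hCC') (pow_le_pow_right₀ h1 hCC')
        (pow_nonneg (by linarith) _) (Nat.cast_nonneg _)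
    · obtain ⟨C', hC'⟩ := hEB.bound k hk
      obtain ⟨C, hC⟩ := N2_const (C' := C') (Real.exp (c0 * Cg)) (Real.exp_pos _).le
      refine ⟨C, fun i => ?_⟩
      have hMτ : 0 < i.M * i.τ := mul_pos i.hM (by linarith [i.hτ])
      have h1 : 1 ≤ (1 + i.ρ) / i.δ := by linarith [N2_one_le i, i.hρ]
      have h2 := hC' i
      have h3 := hC _ h1
      have hsm' := hEB.smooth i
      set FF : ℝ → ℂ := fun y => (((1 - cut (y / i.δ) : ℝ)) : ℂ) *
        (∑ j ∈ Finset.range (N + 1), ((UU (Gx (mm m (s i.q.i) i.q.p1) (i.q.X m s y)) j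
          (Vx (mm m (s i.q.i) i.q.p1) (i.q.X m s y) (i.q.g • i.q.X m s y)) : ℝ) : ℂ) *
          ((1 / (i.M * i.τ)) • alc r0 j i.f i.τ (i.q.d m s y))) *
        (((Real.exp (s i.q.i (i.q.p1, i.q.X m s y) - s i.q.i (i.q.p0, i.q.X m s y)) : ℝ) : ℂ) *
          ((Real.exp (-(c0 * (Cg * (1 + i.ρ)))) •
            JA (mm m (s i.q.i) i.q.p0) i.q.x i.q.u y : ℝ) : ℂ)) with hFF
      have e1 : Gt m s i.q N i.f i.τ i.δ =
          (i.M * i.τ * Real.exp (c0 * (Cg * (1 + i.ρ)))) • FF := by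
        rw [hG]
        funext y
        simp only [Pi.smul_apply, hFF]
        have e2 : (∑ j ∈ Finset.range (N + 1),
            ((UU (Gx (mm m (s i.q.i) i.q.p1) (i.q.X m s y)) j
              (Vx (mm m (s i.q.i) i.q.p1) (i.q.X m s y) (i.q.g • i.q.X m s y)) : ℝ) : ℂ) *
              ((1 / (i.M * i.τ)) • alc r0 j i.f i.τ (i.q.d m s y))) =
            ((1 / (i.M * i.τ) : ℝ) : ℂ) * ∑ j ∈ Finset.range (N + 1),
              ((UU (Gx (mm m (s i.q.i) i.q.p1) (i.q.X m s y)) j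
              (Vx (mm m (s i.q.i) i.q.p1) (i.q.X m s y) (i.q.g • i.q.X m s y)) : ℝ) : ℂ) *
              alc r0 j i.f i.τ (i.q.d m s y) := by
          rw [Finset.mul_sum]
          refine Finset.sum_congr rfl (fun j _ => ?_)
          rw [Complex.real_smul]
          ring
        rw [e2, Complex.real_smul, smul_eq_mul]
        have e3 : (i.M * i.τ) * (1 / (i.M * i.τ)) = 1 := mul_one_div_cancel hMτ.ne'
        have e4 : Real.exp (c0 * (Cg * (1 + i.ρ))) * Real.exp (-(c0 * (Cg * (1 + i.ρ)))) = 1 := by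
          rw [← Real.exp_add, add_neg_cancel, Real.exp_zero]
        have e3' : ((i.M * i.τ : ℝ) : ℂ) * ((1 / (i.M * i.τ) : ℝ) : ℂ) = 1 := by
          rw [← Complex.ofReal_mul, e3, Complex.ofReal_one]
        have e4' : ((Real.exp (c0 * (Cg * (1 + i.ρ))) : ℝ) : ℂ) *
            ((Real.exp (-(c0 * (Cg * (1 + i.ρ)))) : ℝ) : ℂ) = 1 := by
          rw [← Complex.ofReal_mul, e4, Complex.ofReal_one]
        rw [Complex.ofReal_mul (i.M * i.τ), Complex.ofReal_mul, Complex.ofReal_mul (Real.exp (-_))]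
        generalize (∑ j ∈ Finset.range (N + 1),
            ((UU (Gx (mm m (s i.q.i) i.q.p1) (i.q.X m s y)) j
              (Vx (mm m (s i.q.i) i.q.p1) (i.q.X m s y) (i.q.g • i.q.X m s y)) : ℝ) : ℂ) *
              alc r0 j i.f i.τ (i.q.d m s y)) = S
        generalize ((i.M * i.τ : ℝ) : ℂ) = u1 at *
        generalize ((1 / (i.M * i.τ) : ℝ) : ℂ) = u2 at *
        generalize ((Real.exp (c0 * (Cg * (1 + i.ρ))) : ℝ) : ℂ) = u3 at *
        generalize ((Real.exp (-(c0 * (Cg * (1 + i.ρ)))) : ℝ) : ℂ) = u4 at *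
        generalize ((1 - cut (y / i.δ) : ℝ) : ℂ) = z1
        generalize ((Real.exp (s i.q.i (i.q.p1, i.q.X m s y) - s i.q.i (i.q.p0, i.q.X m s y)) : ℝ) : ℂ) = z2
        generalize ((JA (mm m (s i.q.i) i.q.p0) i.q.x i.q.u y : ℝ) : ℂ) = z3
        calc z1 * S * (z2 * z3) = (u1 * u2) * (u3 * u4) * (z1 * S * (z2 * z3)) := by
              rw [e3', e4']; ring
          _ = _ := by ring
      rw [e1, ← norm_iteratedFDeriv_eq_norm_iteratedDeriv,
        iteratedFDeriv_const_smul_apply (hsm'.contDiffAt.of_le (by exact_mod_cast le_top)),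
        norm_smul, Real.norm_of_nonneg (mul_nonneg hMτ.le (Real.exp_pos _).le)]
      have e5 : Real.exp (c0 * (Cg * (1 + i.ρ))) = Real.exp (c0 * Cg) * Real.exp (c0 * Cg * i.ρ) := by
        rw [← Real.exp_add]
        congr 1
        ring
      calc i.M * i.τ * Real.exp (c0 * (Cg * (1 + i.ρ))) * ‖iteratedFDeriv ℝ k FF i.y‖
          ≤ i.M * i.τ * Real.exp (c0 * (Cg * (1 + i.ρ))) * (C' * Real.exp (C' * i.L)) :=
            mul_le_mul_of_nonneg_left h2 (mul_nonneg hMτ.le (Real.exp_pos _).le)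
        _ = Real.exp (c0 * Cg) * (C' * Real.exp (C' * Real.log (2 + (1 + i.ρ) / i.δ))) *
            Real.exp (c0 * Cg * i.ρ) * (i.M * i.τ) := by
            rw [e5]
            unfold N2_I.L
            ring
        _ ≤ _ := by
            refine mul_le_mul_of_nonneg_right (mul_le_mul_of_nonneg_right h3 (Real.exp_pos _).le)
              hMτ.le
  obtain ⟨C, hC⟩ := hmain
  refine ⟨C, fun q v l hq f ρ M τ δ hρ hf hτ hδ hδ1 => ⟨hsm q f ρ M τ δ hρ hf hτ, ?_⟩⟩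
  intro k hk y
  have hM0 : 0 ≤ M := (norm_nonneg _).trans (hf.bound 0 (Nat.zero_le _) 0)
  have hτ0 : 0 ≤ τ := by linarith
  have h1X : 0 ≤ (1 + ρ) / δ := div_nonneg (by linarith) hδ.le
  have hR0 : 0 ≤ C * ((1 + ρ) / δ) ^ C * Real.exp (c0 * Cg * ρ) * (M * τ) :=
    mul_nonneg (mul_nonneg (mul_nonneg (Nat.cast_nonneg _) (pow_nonneg h1X _))
      (Real.exp_pos _).le) (mul_nonneg hM0 hτ0)
  rcases lt_or_ge ρ (q.d m s y) with hlt | hge
  · -- far away: zero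
    have hcd : Continuous (q.d m s) := ((LP_d h).smooth (q, 0)).continuous
    have hz : Gt m s q N f τ δ =ᶠ[𝓝 y] fun _ => (0 : ℂ) := by
      have h2 : ∀ᶠ z in 𝓝 y, ρ < q.d m s z := hcd.continuousAt.eventually (lt_mem_nhds hlt)
      filter_upwards [h2] with z hz
      unfold Gt KC
      have h3 : (∑ j ∈ Finset.range (N + 1), ((UU (Gx (mm m (s q.i) q.p1) (q.X m s z)) j
          (Vx (mm m (s q.i) q.p1) (q.X m s z) (q.g • q.X m s z)) : ℝ) : ℂ) *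
          al j f τ (ds (mm m (s q.i) q.p1) (q.X m s z) (q.g • q.X m s z))) = 0 :=
        Finset.sum_eq_zero (fun j _ => by
          have h6 : al j f τ (ds (mm m (s q.i) q.p1) (q.X m s z) (q.g • q.X m s z)) = 0 :=
            al_zero hρ hf.amp j τ hz
          rw [h6, mul_zero])
      rw [h3, mul_zero, zero_mul]
    rw [hz.iteratedDeriv_eq k]
    have h4 : iteratedDeriv k (fun _ : ℝ => (0 : ℂ)) y = 0 := by
      rw [iteratedDeriv_const]
      split_ifs <;> rfl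
    rw [h4, norm_zero]
    exact hR0
  · rcases eq_or_lt_of_le hM0 with hM | hM
    · -- zero amplitude
      have hz : Gt m s q N f τ δ = fun _ => (0 : ℂ) := by
        rw [hG]
        funext z
        have h3 : (∑ j ∈ Finset.range (N + 1), ((UU (Gx (mm m (s q.i) q.p1) (q.X m s z)) j
            (Vx (mm m (s q.i) q.p1) (q.X m s z) (q.g • q.X m s z)) : ℝ) : ℂ) *
            alc r0 j f τ (q.d m s z)) = 0 := by
          refine Finset.sum_eq_zero (fun j _ => ?_)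
          obtain ⟨C2, hC2⟩ := alc_bound hr0 j n
          have h5 := (hC2 f ρ M τ hρ hf hτ).2 0 (Nat.zero_le _) (q.d m s z)
          rw [iteratedDeriv_zero, ← hM, zero_mul, mul_zero] at h5
          rw [norm_le_zero_iff.1 h5, mul_zero]
        show _ * (∑ j ∈ Finset.range (N + 1), _) * _ = _
        rw [h3, mul_zero, zero_mul]
      rw [hz]
      have h4 : iteratedDeriv k (fun _ : ℝ => (0 : ℂ)) y = 0 := by
        rw [iteratedDeriv_const]
        split_ifs <;> rfl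
      rw [h4, norm_zero]
      exact hR0
    · exact hC k hk ⟨q, v, l, f, ρ, M, τ, δ, y, hq, hρ, hf, hτ, hδ, hδ1, hM, hge⟩

end BE
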