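import Pool.Agent.LibBE99.N1
import Pool.Agent.LibBE99.N2

/-! Row N3 (cites N1, N2, L3, S3): the integral away from the axis is small. -/

open MeasureTheory Set Filter Topology
open scoped ContDiff

namespace BE

open BGS BR

variable {Γ : Type} [Group Γ] [MulAction Γ Pl] {D : Set Pl}
variable {ι P : Type} [NormedAddCommGroup P] [NormedSpace ℝ P] [FiniteDimensional ℝ P]
  {m : Pl → Co} {a b : ℝ} {s : ι → P × Pl → ℝ}

theorem N3_pow {C X : ℝ} (hX : 1 ≤ X) {n : ℕ} (hn : |C| ≤ n) :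
    C * Real.exp (C * Real.log X) ≤ n * X ^ n := by
  have h1 : C ≤ n := (le_abs_self C).trans hn
  have h2 : 0 ≤ Real.log X := Real.log_nonneg hX
  have h3 : Real.exp (C * Real.log X) ≤ X ^ n := by
    have e : X ^ n = Real.exp ((n : ℝ) * Real.log X) := by
      rw [Real.exp_nat_mul, Real.exp_log (by linarith)]
    rw [e]
    exact Real.exp_le_exp.2 (mul_le_mul_of_nonneg_right h1 h2)
  calc C * Real.exp (C * Real.log X) ≤ n * Real.exp (C * Real.log X) :=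
        mul_le_mul_of_nonneg_right h1 (Real.exp_pos _).le
    _ ≤ n * X ^ n := mul_le_mul_of_nonneg_left h3 (Nat.cast_nonneg n)

theorem N3_mono {X : ℝ} (hX : 1 ≤ X) {n k : ℕ} (h : n ≤ k) : (n : ℝ) * X ^ n ≤ k * X ^ k := by
  have h1 : (n : ℝ) ≤ k := by exact_mod_cast h
  have h2 : X ^ n ≤ X ^ k := pow_le_pow_right₀ hX h
  have h3 : (0 : ℝ) ≤ X ^ n := by positivity
  exact mul_le_mul h1 h2 h3 (Nat.cast_nonneg k)

/-- Derivatives of the phase. -/
theorem N3_d (h : CF Γ D m a b s) (K : ℕ) : ∃ B : ℕ, ∀ k ≤ K, ∀ (q : Ln ι P Γ) (y : ℝ),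
    |iteratedDeriv k (q.d m s) y| ≤ B * (2 + q.d m s y) ^ B := by
  induction K with
  | zero =>
    obtain ⟨C, hC⟩ := (LP_d (Γ := Γ) h).bound 0
    obtain ⟨n, hn⟩ := exists_nat_ge |C|
    refine ⟨n, fun k hk q y => ?_⟩
    obtain rfl : k = 0 := by omega
    have h1 := hC (q, y)
    rw [norm_iteratedFDeriv_eq_norm_iteratedDeriv, Real.norm_eq_abs] at h1
    have h2 : 0 ≤ q.d m s y := Real.sqrt_nonneg _
    exact h1.trans (N3_pow (by linarith) hn)
  | succ K ih =>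
    obtain ⟨B, hB⟩ := ih
    obtain ⟨C, hC⟩ := (LP_d (Γ := Γ) h).bound (K + 1)
    obtain ⟨n, hn⟩ := exists_nat_ge |C|
    refine ⟨B + n, fun k hk q y => ?_⟩
    have h2 : 0 ≤ q.d m s y := Real.sqrt_nonneg _
    have h3 : (1 : ℝ) ≤ 2 + q.d m s y := by linarith
    rcases Nat.lt_or_ge K k with hk' | hk'
    · obtain rfl : k = K + 1 := by omega
      have h1 := hC (q, y)
      rw [norm_iteratedFDeriv_eq_norm_iteratedDeriv, Real.norm_eq_abs] at h1
      exact (h1.trans (N3_pow h3 hn)).trans (N3_mono h3 (by omega))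
    · exact (hB k hk' q y).trans (N3_mono h3 (by omega))

theorem N3_KC {q : Ln ι P Γ} {f : ℝ → ℂ} {ρ M : ℝ} (hρ : 0 ≤ ρ) (hf : Amp f ρ M) (N : ℕ) (τ : ℝ)
    {y : ℝ} (hy : ρ < q.d m s y) :
    KC (mm m (s q.i) q.p1) N f τ (q.X m s y) (q.g • q.X m s y) = 0 := by
  unfold KC
  apply Finset.sum_eq_zero
  intro j _
  have h1 : al j f τ (ds (mm m (s q.i) q.p1) (q.X m s y) (q.g • q.X m s y)) = 0 :=
    al_zero hρ hf j τ hy
  rw [h1, mul_zero]

theorem N3_supp (h : CF Γ D m a b s) {q : Ln ι P Γ} {f : ℝ → ℂ} {ρ M δ : ℝ} (hρ : 0 ≤ ρ)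
    (hf : Amp f ρ M) (N : ℕ) (τ : ℝ) (hδ : 0 < δ) {y : ℝ} (hy : y ∈ tsupport (Gt m s q N f τ δ)) :
    δ ≤ |y| ∧ q.d m s y ≤ ρ := by
  have hc : Continuous (q.d m s) := by
    have := (LP_d (Γ := Γ) h).smooth (q, 0)
    exact this.continuous
  have hcl : IsClosed {y : ℝ | δ ≤ |y| ∧ q.d m s y ≤ ρ} :=
    (isClosed_le continuous_const continuous_abs).inter (isClosed_le hc continuous_const)
  have hsub : Function.support (Gt m s q N f τ δ) ⊆ {y : ℝ | δ ≤ |y| ∧ q.d m s y ≤ ρ} := by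
    intro z hz
    rw [Function.mem_support] at hz
    by_contra hcon
    apply hz
    unfold Gt
    rw [Set.mem_ofPred_eq, not_and_or, not_le, not_le] at hcon
    rcases hcon with hz1 | hz1
    · have h1 : (cut (z / δ) : ℝ) = 1 := by
        apply ContDiffBump.one_of_mem_closedBall
        rw [mem_closedBall_zero_iff, Real.norm_eq_abs, abs_div, abs_of_pos hδ]
        show |z| / δ ≤ 1
        rw [div_le_one hδ]
        exact hz1.le
      rw [h1]
      simp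
    · rw [N3_KC hρ hf N τ hz1]
      simp
  exact closure_minimal hsub hcl hy

theorem far_line (h : CF Γ D m a b s) : ∃ C0 : ℝ, 0 ≤ C0 ∧ ∀ N A : ℕ, ∃ n C : ℕ,
    ∀ (q : Ln ι P Γ) (v : Pl) (l : ℝ), q.Ax m s v l → ∀ (f : ℝ → ℂ) (ρ M τ δ : ℝ), 0 ≤ ρ →
      BE73.AmpN n f ρ M → 1 ≤ τ → 0 < δ → δ ≤ 1 → C * (1 + ρ) ^ C * ‖q.p1 - q.p0‖ ≤ δ →
      ‖∫ y : ℝ, ((1 - cut (y / δ) : ℝ) : ℂ) * KE (mm m (s q.i) q.p1) N f τ q.g (q.X m s y) *
        ((q.w m s y : ℝ) : ℂ)‖ ≤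
        C * ((1 + ρ) / δ) ^ C * Real.exp (C0 * ρ) * M / τ ^ A := by
  obtain ⟨C0, hC0, hamp⟩ := amp_bound (Γ := Γ) h
  obtain ⟨c, n1, hc, hph⟩ := Ax_phase (Γ := Γ) h
  obtain ⟨Cg, hCg, hgr⟩ := Ax_growth (Γ := Γ) h
  refine ⟨C0, hC0, fun N A => ?_⟩
  obtain ⟨Ca, hCa⟩ := hamp N (A + 1)
  obtain ⟨Cn, hCn, hns⟩ := nsp (A + 1)
  obtain ⟨B, hB⟩ := N3_d (Γ := Γ) h (A + 2)
  set c' : ℝ := min c 1 with hc'
  have hc'0 : 0 < c' := lt_min hc one_pos
  -- the constant in `H`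
  obtain ⟨E, hE⟩ := exists_nat_ge ((B : ℝ) * 2 ^ B + B + 2 / c' + 1)
  have hE1 : (1 : ℝ) ≤ E := by
    have : 0 ≤ (B : ℝ) * 2 ^ B + B + 2 / c' := by positivity
    linarith
  have hEB : B ≤ E := by
    have : (B : ℝ) ≤ E := by
      have : 0 ≤ (B : ℝ) * 2 ^ B + 2 / c' := by positivity
      linarith
    exact_mod_cast this
  have hEB2 : (B : ℝ) * 2 ^ B ≤ E := by
    have : 0 ≤ (B : ℝ) + 2 / c' := by positivity
    linarith
  have hEc : 2 / c' ≤ E := by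
    have : 0 ≤ (B : ℝ) * 2 ^ B + B := by positivity
    linarith
  obtain ⟨F, hF⟩ := exists_nat_ge (Cn * Ca * Cg * (E : ℝ) ^ (4 * (A + 1)) +
    2 * n1 * 2 ^ n1 / c' + n1 + (Ca + 4 * E * (A + 1) + 1 : ℕ))
  refine ⟨A + 2, F, ?_⟩
  intro q v l hq f ρ M τ δ hρ hf hτ hδ hδ1 hcond
  have hfA : Amp f ρ M := hf.amp
  have hM : 0 ≤ M := (norm_nonneg _).trans (hfA.bound 0 (by norm_num) 0)
  have hρ1 : 1 ≤ 1 + ρ := by linarith
  set X : ℝ := (1 + ρ) / δ with hX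
  have hX1 : 1 + ρ ≤ X := by
    rw [hX, le_div_iff₀ hδ]
    nlinarith
  have hX0 : 1 ≤ X := hρ1.trans hX1
  have hXd : 1 / δ ≤ X := by
    rw [hX]
    exact div_le_div_of_nonneg_right hρ1 hδ.le
  have hXpos : 0 < X := by linarith
  -- bounds on F
  have hp1 : 0 ≤ Cn * Ca * Cg * (E : ℝ) ^ (4 * (A + 1)) := by positivity
  have hp2 : 0 ≤ 2 * (n1 : ℝ) * 2 ^ n1 / c' := by positivity
  have hp3 : (0 : ℝ) ≤ (Ca + 4 * E * (A + 1) + 1 : ℕ) := by positivity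
  have hF1 : Cn * Ca * Cg * (E : ℝ) ^ (4 * (A + 1)) ≤ F := by
    have : (0 : ℝ) ≤ n1 := Nat.cast_nonneg _
    linarith
  have hF2 : 2 * (n1 : ℝ) * 2 ^ n1 / c' ≤ F := by
    have : (0 : ℝ) ≤ n1 := Nat.cast_nonneg _
    linarith
  have hF3 : n1 ≤ F := by
    have : (n1 : ℝ) ≤ F := by linarith
    exact_mod_cast this
  have hF4 : Ca + 4 * E * (A + 1) + 1 ≤ F := by
    have : ((Ca + 4 * E * (A + 1) + 1 : ℕ) : ℝ) ≤ F := by
      have : (0 : ℝ) ≤ n1 := Nat.cast_nonneg _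
      linarith
    exact_mod_cast this
  -- the smallness condition
  have hsm : (n1 : ℝ) * (2 + ρ) ^ n1 * ‖q.p1 - q.p0‖ ≤ c' * δ / 2 := by
    have e1 : (2 + ρ) ^ n1 ≤ 2 ^ n1 * (1 + ρ) ^ n1 := by
      rw [← mul_pow]
      exact pow_le_pow_left₀ (by linarith) (by linarith) _
    have e2 : (1 + ρ) ^ n1 ≤ (1 + ρ) ^ F := pow_le_pow_right₀ hρ1 hF3
    have e3 : (n1 : ℝ) * (2 + ρ) ^ n1 ≤ c' / 2 * (F * (1 + ρ) ^ F) := by
      have e4 : 2 * (n1 : ℝ) * 2 ^ n1 ≤ F * c' := by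
        rw [div_le_iff₀ hc'0] at hF2
        exact hF2
      calc (n1 : ℝ) * (2 + ρ) ^ n1 ≤ n1 * (2 ^ n1 * (1 + ρ) ^ n1) :=
            mul_le_mul_of_nonneg_left e1 (Nat.cast_nonneg _)
        _ ≤ n1 * (2 ^ n1 * (1 + ρ) ^ F) := by gcongr
        _ = (2 * n1 * 2 ^ n1) / 2 * (1 + ρ) ^ F := by ring
        _ ≤ (F * c') / 2 * (1 + ρ) ^ F := by gcongr
        _ = c' / 2 * (F * (1 + ρ) ^ F) := by ring
    calc (n1 : ℝ) * (2 + ρ) ^ n1 * ‖q.p1 - q.p0‖ ≤ c' / 2 * (F * (1 + ρ) ^ F) * ‖q.p1 - q.p0‖ :=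
          mul_le_mul_of_nonneg_right e3 (norm_nonneg _)
      _ = c' / 2 * (F * (1 + ρ) ^ F * ‖q.p1 - q.p0‖) := by ring
      _ ≤ c' / 2 * δ := mul_le_mul_of_nonneg_left hcond (by positivity)
      _ = c' * δ / 2 := by ring
  obtain ⟨hGs, hGb⟩ := hCa q v l hq f ρ M τ δ hρ hf hτ hδ hδ1
  set G : ℝ → ℂ := Gt m s q N f τ δ with hG
  have hφs : ContDiff ℝ ∞ (q.d m s) := (LP_d (Γ := Γ) h).smooth (q, 0)
  set H : ℝ := E * X ^ E with hH
  have hXE : 1 ≤ X ^ E := one_le_pow₀ hX0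
  have hH1 : 1 ≤ H := by
    rw [hH]
    nlinarith
  have hd0 : ∀ y, 0 ≤ q.d m s y := fun y => Real.sqrt_nonneg _
  set A0 : ℝ := Ca * X ^ Ca * Real.exp (C0 * ρ) * (M * τ) with hA0
  have hτ0 : 0 < τ := by linarith
  have hA00 : 0 ≤ A0 := by positivity
  have key := hns (q.d m s) G H A0 (Cg * (1 + ρ)) τ hφs hGs hH1 hτ0 (by positivity) ?_ ?_ ?_ ?_
  · -- the conclusion
    have e1 : (∫ y : ℝ, ((1 - cut (y / δ) : ℝ) : ℂ) * KE (mm m (s q.i) q.p1) N f τ q.g (q.X m s y) *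
        ((q.w m s y : ℝ) : ℂ)) = ∫ y : ℝ, Complex.exp (-(Complex.I * τ * q.d m s y)) * G y := by
      apply integral_congr_ae
      filter_upwards with y
      show _ = Complex.exp (-(Complex.I * τ * q.d m s y)) *
        (((1 - cut (y / δ) : ℝ) : ℂ) * KC (mm m (s q.i) q.p1) N f τ (q.X m s y) (q.g • q.X m s y) *
          ((q.w m s y : ℝ) : ℂ))
      have e2 : KE (mm m (s q.i) q.p1) N f τ q.g (q.X m s y) =
          Complex.exp (-(Complex.I * τ * q.d m s y)) *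
            KC (mm m (s q.i) q.p1) N f τ (q.X m s y) (q.g • q.X m s y) := rfl
      rw [e2]
      ring
    rw [e1]
    refine key.trans ?_
    have e3 : (H ^ 4 / τ) ^ (A + 1) = (E : ℝ) ^ (4 * (A + 1)) * X ^ (4 * E * (A + 1)) / τ ^ (A + 1) := by
      rw [div_pow, ← pow_mul, hH, mul_pow, ← pow_mul]
      congr 3
      ring
    rw [e3, hA0]
    have e4 : Cn * (Ca * X ^ Ca * Real.exp (C0 * ρ) * (M * τ)) * (Cg * (1 + ρ)) *
        ((E : ℝ) ^ (4 * (A + 1)) * X ^ (4 * E * (A + 1)) / τ ^ (A + 1)) =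
        (Cn * Ca * Cg * (E : ℝ) ^ (4 * (A + 1))) * (X ^ Ca * X ^ (4 * E * (A + 1)) * (1 + ρ)) *
          (Real.exp (C0 * ρ) * M / τ ^ A) := by
      rw [pow_succ τ A]
      field_simp
    rw [e4]
    have e5 : X ^ Ca * X ^ (4 * E * (A + 1)) * (1 + ρ) ≤ X ^ F := by
      calc X ^ Ca * X ^ (4 * E * (A + 1)) * (1 + ρ) ≤ X ^ Ca * X ^ (4 * E * (A + 1)) * X := by
            gcongr
        _ = X ^ (Ca + 4 * E * (A + 1) + 1) := by rw [pow_succ, pow_add]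
        _ ≤ X ^ F := pow_le_pow_right₀ hX0 hF4
    calc (Cn * Ca * Cg * (E : ℝ) ^ (4 * (A + 1))) * (X ^ Ca * X ^ (4 * E * (A + 1)) * (1 + ρ)) *
          (Real.exp (C0 * ρ) * M / τ ^ A) ≤ F * X ^ F * (Real.exp (C0 * ρ) * M / τ ^ A) := by
            apply mul_le_mul_of_nonneg_right _ (by positivity)
            exact mul_le_mul hF1 e5 (by positivity) (Nat.cast_nonneg _)
      _ = F * X ^ F * Real.exp (C0 * ρ) * M / τ ^ A := by ring
  · -- the support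
    intro y hy
    by_contra hcon
    have h1 := (N3_supp h hρ hfA N τ hδ (subset_tsupport _ (Function.mem_support.2 hcon))).2
    have h2 := ((hgr q v l hq).2 y).1
    nlinarith
  · -- the phase
    intro y hy
    obtain ⟨h1, h2⟩ := N3_supp h hρ hfA N τ hδ hy
    have h3 := hph q v l hq y
    have h4 : (n1 : ℝ) * (2 + q.d m s y) ^ n1 * ‖q.p1 - q.p0‖ ≤ c' * δ / 2 := by
      refine le_trans ?_ hsm
      have := hd0 y
      gcongr
    have h5 : c' * δ ≤ min (c * |y|) 1 := by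
      apply le_min
      · have : c' ≤ c := min_le_left _ _
        nlinarith [abs_nonneg y]
      · have : c' ≤ 1 := min_le_right _ _
        nlinarith
    have h6 : c' * δ / 2 ≤ |deriv (q.d m s) y| := by linarith
    have h7 : 2 / (c' * δ) ≤ H := by
      have e1 : 2 / (c' * δ) = 2 / c' * (1 / δ) := by
        field_simp
      rw [e1, hH]
      have e2 : X ≤ X ^ E := by
        have : 1 ≤ E := by exact_mod_cast hE1
        calc X = X ^ 1 := (pow_one X).symm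
          _ ≤ X ^ E := pow_le_pow_right₀ hX0 this
      exact mul_le_mul hEc (hXd.trans e2) (by positivity) (by positivity)
    have h8 : 0 < c' * δ := by positivity
    calc (1 : ℝ) = 2 / (c' * δ) * (c' * δ / 2) := by
          field_simp
      _ ≤ H * |deriv (q.d m s) y| := mul_le_mul h7 h6 (by positivity) (by linarith)
  · -- derivatives of the phase
    intro k hk y hy
    obtain ⟨-, h2⟩ := N3_supp h hρ hfA N τ hδ hy
    have h3 := hB (k + 1) (by omega) q y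
    have h4 : (B : ℝ) * (2 + q.d m s y) ^ B ≤ H := by
      have := hd0 y
      have e1 : (2 + q.d m s y) ^ B ≤ 2 ^ B * X ^ B := by
        rw [← mul_pow]
        exact pow_le_pow_left₀ (by linarith) (by linarith) _
      have e2 : X ^ B ≤ X ^ E := pow_le_pow_right₀ hX0 hEB
      calc (B : ℝ) * (2 + q.d m s y) ^ B ≤ B * (2 ^ B * X ^ B) :=
            mul_le_mul_of_nonneg_left e1 (Nat.cast_nonneg _)
        _ = B * 2 ^ B * X ^ B := by ring
        _ ≤ E * X ^ E := mul_le_mul hEB2 e2 (by positivity) (Nat.cast_nonneg _)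
    calc |iteratedDeriv (k + 1) (q.d m s) y| ≤ H := h3.trans h4
      _ = H ^ 1 := (pow_one H).symm
      _ ≤ H ^ (k + 1) := pow_le_pow_right₀ hH1 (by omega)
  · -- derivatives of the amplitude
    intro k hk y
    have h3 := hGb k hk y
    calc ‖iteratedDeriv k G y‖ ≤ A0 := h3
      _ = A0 * 1 := (mul_one _).symm
      _ ≤ A0 * H ^ (3 * k) := mul_le_mul_of_nonneg_left (one_le_pow₀ hH1) hA00

end BE
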