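import Pool.Agent.LibBE99.Defs
import Pool.Agent.LibBR73.AN4r
import Pool.Agent.LibBE88.C4

/-! Row Q1 (copy of `LibBR73/AN4r.lean`): functions on the line with polynomial growth of all derivatives.
MEDIUM, 45 min.
`LQ l f` is `EB` with the scale `log (2 + l i + |y|) ≥ 0` at the index `(i, y)` (`Defs.lean`); `exp (C log X) = X ^ C`.
Plan. Copy `LibBR73/AN4r.lean`, replacing the scale `l i + |y|` by `log (2 + l i + |y|)`. `LQ_iff`: `EB` on the line,
`norm_iteratedFDeriv_eq_norm_iteratedDeriv`, and passing from a real `C` to a natural number `n ≥ |C|`: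
`C exp (C log X) ≤ n X ^ n` for `X ≥ 1` (`Real.rpow_natCast`, `Real.rpow_le_rpow_of_exponent_le`). `LQ_exp`: `EB_exp`
(`LibBE88/C4`), `LQ_rad`: as `LB_rad` (`2 + l + |t y| ≤ 2 + l + |y|` for `t ∈ [0, 1]`). `LQ_LB`: `log (2 + x) ≤ 1 + x` for
`x ≥ 0`, so `X ^ n ≤ exp (n) exp (n x)`. -/

open MeasureTheory Set Filter Topology
open scoped ContDiff

namespace BE

open BGS BR

variable {κ : Type} {l : κ → ℝ}

private theorem Q1_X (hl : ∀ i, 0 ≤ l i) (i : κ) (y : ℝ) : 2 ≤ 2 + l i + |y| := by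
  have h1 := hl i
  have h2 := abs_nonneg y
  linarith

private theorem Q1_exp {X : ℝ} (hX : 0 < X) (n : ℕ) : Real.exp (n * Real.log X) = X ^ n := by
  rw [Real.exp_nat_mul, Real.exp_log hX]

private theorem Q1_nn (hl : ∀ i, 0 ≤ l i) : ∀ p : κ × ℝ, 0 ≤ Real.log (2 + l p.1 + |p.2|) :=
  fun p => Real.log_nonneg (by have := Q1_X hl p.1 p.2; linarith)

private theorem Q1_le {C X : ℝ} {n : ℕ} (hn : |C| ≤ n) (hX : 2 ≤ X) :
    C * Real.exp (C * Real.log X) ≤ n * X ^ n := by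
  have h0 : 0 ≤ Real.log X := Real.log_nonneg (by linarith)
  have h1 : C ≤ n := (le_abs_self C).trans hn
  rw [← Q1_exp (by linarith : 0 < X)]
  calc C * Real.exp (C * Real.log X) ≤ n * Real.exp (C * Real.log X) :=
        mul_le_mul_of_nonneg_right h1 (Real.exp_pos _).le
    _ ≤ n * Real.exp (n * Real.log X) :=
        mul_le_mul_of_nonneg_left (Real.exp_le_exp.2 (mul_le_mul_of_nonneg_right h1 h0))
          (Nat.cast_nonneg n)

theorem LQ_iff (hl : ∀ i, 0 ≤ l i) {f : κ → ℝ → ℝ} : LQ l f ↔ (∀ i, ContDiff ℝ ∞ (f i)) ∧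
    ∀ k : ℕ, ∃ n : ℕ, ∀ i y, |iteratedDeriv k (f i) y| ≤ n * (2 + l i + |y|) ^ n := by
  constructor
  · intro h
    refine ⟨fun i => h.smooth (i, 0), fun k => ?_⟩
    obtain ⟨C, hC⟩ := h.bound k
    refine ⟨⌈|C|⌉₊, fun i y => ?_⟩
    have := hC (i, y)
    rw [norm_iteratedFDeriv_eq_norm_iteratedDeriv, Real.norm_eq_abs] at this
    exact this.trans (Q1_le (Nat.le_ceil _) (Q1_X hl i y))
  · rintro ⟨h1, h2⟩
    refine ⟨fun p => h1 p.1, fun k => ?_⟩
    obtain ⟨n, hn⟩ := h2 k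
    refine ⟨n, fun p => ?_⟩
    rw [norm_iteratedFDeriv_eq_norm_iteratedDeriv, Real.norm_eq_abs,
      Q1_exp (by have := Q1_X hl p.1 p.2; linarith)]
    exact hn p.1 p.2

theorem LQ_const (hl : ∀ i, 0 ≤ l i) {c : κ → ℝ} {n : ℕ} (hc : ∀ i, |c i| ≤ n * (2 + l i) ^ n) :
    LQ l (fun i _ => c i) := by
  refine EB_const (c := fun p : κ × ℝ => c p.1) (C := n) (Q1_nn hl) fun p => ?_
  rw [Q1_exp (by have := Q1_X hl p.1 p.2; linarith), Real.norm_eq_abs]
  refine (hc p.1).trans (mul_le_mul_of_nonneg_left ?_ (Nat.cast_nonneg n))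
  exact pow_le_pow_left₀ (by have := hl p.1; linarith) (by have := abs_nonneg p.2; linarith) n

theorem LQ_add (hl : ∀ i, 0 ≤ l i) {f g : κ → ℝ → ℝ} (hf : LQ l f) (hg : LQ l g) :
    LQ l (fun i y => f i y + g i y) :=
  EB_add (Q1_nn hl) hf hg

theorem LQ_sub (hl : ∀ i, 0 ≤ l i) {f g : κ → ℝ → ℝ} (hf : LQ l f) (hg : LQ l g) :
    LQ l (fun i y => f i y - g i y) :=
  EB_sub (Q1_nn hl) hf hg

theorem LQ_mul (hl : ∀ i, 0 ≤ l i) {f g : κ → ℝ → ℝ} (hf : LQ l f) (hg : LQ l g) :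
    LQ l (fun i y => f i y * g i y) :=
  EB_mul (Q1_nn hl) hf hg

theorem LQ_deriv {f : κ → ℝ → ℝ} (hf : LQ l f) : LQ l (fun i => deriv (f i)) := by
  refine ⟨fun p => (contDiff_infty_iff_deriv.1 (hf.smooth p)).2, fun k => ?_⟩
  obtain ⟨C, hC⟩ := hf.bound (k + 1)
  refine ⟨C, fun p => ?_⟩
  have := hC p
  rw [norm_iteratedFDeriv_eq_norm_iteratedDeriv, iteratedDeriv_succ'] at this
  rw [norm_iteratedFDeriv_eq_norm_iteratedDeriv]
  exact this

theorem LQ_inv (hl : ∀ i, 0 ≤ l i) {f : κ → ℝ → ℝ} (hf : LQ l f) (h0 : ∀ i y, f i y ≠ 0) {n : ℕ}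
    (hC : ∀ i y, |f i y|⁻¹ ≤ n * (2 + l i + |y|) ^ n) : LQ l (fun i y => (f i y)⁻¹) :=
  EB_inv (Q1_nn hl) hf (fun p y => h0 p.1 y) (C := n) fun p => by
    rw [Q1_exp (by have := Q1_X hl p.1 p.2; linarith)]
    exact hC p.1 p.2

theorem LQ_rpow (hl : ∀ i, 0 ≤ l i) {f : κ → ℝ → ℝ} (hf : LQ l f) (h0 : ∀ i y, 0 < f i y) {n : ℕ}
    (hC : ∀ i y, |f i y|⁻¹ ≤ n * (2 + l i + |y|) ^ n) (p : ℝ) : LQ l (fun i y => f i y ^ p) :=
  EB_rpow (Q1_nn hl) hf (fun p y => h0 p.1 y) (C := n) (fun p => by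
    rw [Q1_exp (by have := Q1_X hl p.1 p.2; linarith)]
    exact hC p.1 p.2) p

theorem LQ_exp (hl : ∀ i, 0 ≤ l i) {f : κ → ℝ → ℝ} (hf : LQ l f) {C : ℝ}
    (hC : ∀ i y, Real.exp (f i y) ≤ C) : LQ l (fun i y => Real.exp (f i y)) := by
  refine EB_exp (Q1_nn hl) hf (C := max C 0) fun p => ?_
  have h0 : 0 ≤ max C 0 := le_max_right _ _
  calc Real.exp (f p.1 p.2) ≤ max C 0 := (hC p.1 p.2).trans (le_max_left _ _)
    _ = max C 0 * 1 := (mul_one _).symm
    _ ≤ max C 0 * Real.exp (max C 0 * Real.log (2 + l p.1 + |p.2|)) :=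
        mul_le_mul_of_nonneg_left (Real.one_le_exp (mul_nonneg h0 (Q1_nn hl p))) h0

private theorem Q1_step {h : ℝ → ℝ} (hh : ContDiff ℝ ∞ h) (n : ℕ) (y : ℝ) :
    HasDerivAt (fun y => ∫ t in (0 : ℝ)..1, t ^ n * h (t * y))
      (∫ t in (0 : ℝ)..1, t ^ (n + 1) * deriv h (t * y)) y := by
  have hc : Continuous h := hh.continuous
  have hd : ContDiff ℝ ∞ (deriv h) := (contDiff_infty_iff_deriv.1 hh).2
  have hdc : Continuous (deriv h) := hd.continuous
  have hF' : Continuous fun q : ℝ × ℝ => q.2 ^ (n + 1) * deriv h (q.2 * q.1) := by fun_prop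
  obtain ⟨B, hB⟩ := ((isCompact_closedBall y 1).prod (isCompact_Icc (a := (0 : ℝ)) (b := 1))).exists_bound_of_continuousOn
    hF'.continuousOn
  refine (intervalIntegral.hasDerivAt_integral_of_dominated_loc_of_deriv_le
    (F := fun y t => t ^ n * h (t * y)) (F' := fun y t => t ^ (n + 1) * deriv h (t * y))
    (s := Metric.closedBall y 1) (bound := fun _ => B) (Metric.closedBall_mem_nhds y one_pos)
    ?_ ?_ ?_ ?_ ?_ ?_).2
  · refine Filter.Eventually.of_forall fun x => ?_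
    have : Continuous fun t : ℝ => t ^ n * h (t * x) := by fun_prop
    exact this.aestronglyMeasurable
  · have : Continuous fun t : ℝ => t ^ n * h (t * y) := by fun_prop
    exact this.intervalIntegrable 0 1
  · have : Continuous fun t : ℝ => t ^ (n + 1) * deriv h (t * y) := by fun_prop
    exact this.aestronglyMeasurable
  · refine ae_of_all _ fun t ht x hx => ?_
    rw [uIoc_of_le zero_le_one] at ht
    exact hB (x, t) ⟨hx, Ioc_subset_Icc_self ht⟩
  · exact intervalIntegrable_const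
  · refine ae_of_all _ fun t _ x _ => ?_
    have h1 : HasDerivAt (fun x => t * x) t x := by simpa using (hasDerivAt_id x).const_mul t
    have h2 : HasDerivAt h (deriv h (t * x)) (t * x) :=
      ((contDiff_infty_iff_deriv.1 hh).1 (t * x)).hasDerivAt
    have h3 := (h2.comp x h1).const_mul (t ^ n)
    have h4 : t ^ (n + 1) * deriv h (t * x) = t ^ n * (deriv h (t * x) * t) := by ring
    show HasDerivAt (fun x => t ^ n * h (t * x)) (t ^ (n + 1) * deriv h (t * x)) x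
    rw [h4]
    exact h3

private theorem Q1_deriv {h : ℝ → ℝ} (hh : ContDiff ℝ ∞ h) (n : ℕ) :
    deriv (fun y => ∫ t in (0 : ℝ)..1, t ^ n * h (t * y)) =
      fun y => ∫ t in (0 : ℝ)..1, t ^ (n + 1) * deriv h (t * y) :=
  funext fun y => (Q1_step hh n y).deriv

private theorem Q1_contDiff (k : ℕ) : ∀ (h : ℝ → ℝ), ContDiff ℝ ∞ h → ∀ n : ℕ,
    ContDiff ℝ k (fun y => ∫ t in (0 : ℝ)..1, t ^ n * h (t * y)) := by
  induction k with
  | zero =>
    intro h hh n
    have : Differentiable ℝ (fun y => ∫ t in (0 : ℝ)..1, t ^ n * h (t * y)) :=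
      fun y => (Q1_step hh n y).differentiableAt
    exact contDiff_zero.2 this.continuous
  | succ k ih =>
    intro h hh n
    have h1 : ((k + 1 : ℕ) : WithTop ℕ∞) = (k : WithTop ℕ∞) + 1 := by push_cast; rfl
    rw [h1, contDiff_succ_iff_deriv]
    refine ⟨fun y => (Q1_step hh n y).differentiableAt, by simp, ?_⟩
    rw [Q1_deriv hh n]
    exact ih _ (contDiff_infty_iff_deriv.1 hh).2 (n + 1)

private theorem Q1_iter (k : ℕ) : ∀ (h : ℝ → ℝ), ContDiff ℝ ∞ h → ∀ n : ℕ,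
    iteratedDeriv k (fun y => ∫ t in (0 : ℝ)..1, t ^ n * h (t * y)) =
      fun y => ∫ t in (0 : ℝ)..1, t ^ (n + k) * iteratedDeriv k h (t * y) := by
  induction k with
  | zero =>
    intro h _ n
    simp [iteratedDeriv_zero]
  | succ k ih =>
    intro h hh n
    rw [iteratedDeriv_succ', Q1_deriv hh n, ih _ (contDiff_infty_iff_deriv.1 hh).2 (n + 1),
      iteratedDeriv_succ']
    funext y
    congr 1
    funext t
    rw [show n + 1 + k = n + (k + 1) by ring]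

theorem LQ_rad (hl : ∀ i, 0 ≤ l i) {f : κ → ℝ → ℝ} (hf : LQ l f) (n : ℕ) :
    LQ l (fun i y => ∫ t in (0 : ℝ)..1, t ^ n * f i (t * y)) := by
  obtain ⟨h1, h2⟩ := (LQ_iff hl).1 hf
  refine (LQ_iff hl).2 ⟨fun i => contDiff_infty.2 fun k => Q1_contDiff k _ (h1 i) n, fun k => ?_⟩
  obtain ⟨N, hN⟩ := h2 k
  refine ⟨N, fun i y => ?_⟩
  rw [Q1_iter k _ (h1 i) n]
  have hb : ∀ t ∈ Set.uIoc (0 : ℝ) 1, ‖t ^ (n + k) * iteratedDeriv k (f i) (t * y)‖ ≤
      N * (2 + l i + |y|) ^ N := by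
    intro t ht
    rw [uIoc_of_le zero_le_one] at ht
    have ht1 : |t ^ (n + k)| ≤ 1 := by
      rw [abs_of_nonneg (pow_nonneg ht.1.le _)]
      exact pow_le_one₀ ht.1.le ht.2
    have hty : |t * y| ≤ |y| := by
      rw [abs_mul, abs_of_pos ht.1]
      have := abs_nonneg y
      nlinarith [ht.2]
    rw [Real.norm_eq_abs, abs_mul]
    calc |t ^ (n + k)| * |iteratedDeriv k (f i) (t * y)| ≤ 1 * |iteratedDeriv k (f i) (t * y)| :=
          mul_le_mul_of_nonneg_right ht1 (abs_nonneg _)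
      _ = |iteratedDeriv k (f i) (t * y)| := one_mul _
      _ ≤ N * (2 + l i + |t * y|) ^ N := hN i (t * y)
      _ ≤ N * (2 + l i + |y|) ^ N := by
          refine mul_le_mul_of_nonneg_left ?_ (Nat.cast_nonneg N)
          exact pow_le_pow_left₀ (by have := Q1_X hl i (t * y); linarith) (by linarith) N
  have := intervalIntegral.norm_integral_le_of_norm_le_const hb
  rw [Real.norm_eq_abs, sub_zero, abs_one, mul_one] at this
  exact this

theorem LQ_LB (hl : ∀ i, 0 ≤ l i) {f : κ → ℝ → ℝ} (hf : LQ l f) : LB l f := by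
  obtain ⟨h1, h2⟩ := (LQ_iff hl).1 hf
  refine LB_iff.2 ⟨h1, fun k => ?_⟩
  obtain ⟨n, hn⟩ := h2 k
  refine ⟨n * Real.exp n, fun i y => (hn i y).trans ?_⟩
  have hx : 0 ≤ l i + |y| := add_nonneg (hl i) (abs_nonneg y)
  have hn0 : (0 : ℝ) ≤ n := Nat.cast_nonneg n
  have hX : 2 + l i + |y| ≤ Real.exp (1 + (l i + |y|)) := by
    have := Real.add_one_le_exp (1 + (l i + |y|))
    linarith
  have h3 : (2 + l i + |y|) ^ n ≤ Real.exp n * Real.exp (n * (l i + |y|)) := by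
    calc (2 + l i + |y|) ^ n ≤ Real.exp (1 + (l i + |y|)) ^ n :=
          pow_le_pow_left₀ (by have := Q1_X hl i y; linarith) hX n
      _ = Real.exp n * Real.exp (n * (l i + |y|)) := by
          rw [← Real.exp_nat_mul, ← Real.exp_add]
          congr 1
          ring
  have h4 : (n : ℝ) ≤ n * Real.exp n := by
    have := Real.one_le_exp hn0
    nlinarith
  calc (n : ℝ) * (2 + l i + |y|) ^ n ≤ n * (Real.exp n * Real.exp (n * (l i + |y|))) :=
        mul_le_mul_of_nonneg_left h3 hn0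
    _ = n * Real.exp n * Real.exp (n * (l i + |y|)) := by ring
    _ ≤ n * Real.exp n * Real.exp (n * Real.exp n * (l i + |y|)) :=
        mul_le_mul_of_nonneg_left (Real.exp_le_exp.2 (mul_le_mul_of_nonneg_right h4 hx))
          (mul_nonneg hn0 (Real.exp_pos _).le)

end BE
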