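import Pool.Agent.LibBE99.Q1
import Pool.Agent.LibBR73.AN4b

/-! Row Q2 (copy of parts of `LibBR73/AN4a.lean`, `AN4b.lean`): the Gaussian substitution with polynomial
bounds. MEDIUM, 60 min.
Plan. `DispQ_Disp`: `LQ_LB`; the other fields are the same, so all lemmas of AN4a (`Disp_low`, `Disp_P`, `Disp_W`, `Disp_W0`,
`Disp_bij`, `AN4a_H0`, ...) can be used for qualitative facts. `DispQ_LQ`: `dP (F i)` by `LQ_deriv` twice and `LQ_rad` with
`n = 0` (see `AN4a_LBP`), `dH` by `LQ_rad` with `n = 1`; inverses: `c ≤ (1 + |y|) dP`, `c ≤ (1 + |y|) dH` (`Disp_low`), so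
`|dP|⁻¹ ≤ c⁻¹ (1 + |y|)`; `√(dH) = dH ^ (1/2)` by `LQ_rpow`; `dW1 = dP / (2 √dH)`. At `0`: `(dW1 0)⁻¹ = 1 / √(dH 0)`
(`AN4a_W0`) and `dH 0 ≥ c`. `DispQ_c`: copy of `Disp_c` (`AN4b.lean`) with `LQ`. `abel_lineQ`: copy of `abel_line` and its
private lemmas `AN4b_main`, `AN4b_rest` (the first one is qualitative and can be copied verbatim); in the bound of
`∫_{-Y}^{Y} c' A1 (F)` use `|c'| ≤ n (2 + l + Y) ^ n`, `Y = ρ + |C0| + 1`, length `2 Y`. -/

open MeasureTheory Set Filter Topology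
open scoped ContDiff

namespace BE

open BGS BR

variable {κ : Type} {l : κ → ℝ} {F β : κ → ℝ → ℝ}

theorem DispQ_Disp (h : DispQ l F) : Disp l F where
  pos := h.pos
  lb := LQ_LB (fun i => (h.pos i).le) h.lb
  zero := h.zero
  low := h.low
  grow := h.grow

private theorem Q2_LQP (h : DispQ l F) : LQ l (fun i => dP (F i)) := by
  have h1 := LQ_rad (fun i => (h.pos i).le) (LQ_deriv (LQ_deriv h.lb)) 0
  have h2 : (fun i (y : ℝ) => ∫ t in (0 : ℝ)..1, t ^ 0 * deriv (deriv (F i)) (t * y)) =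
      fun i => dP (F i) := by
    funext i y
    simp [dP]
  rw [h2] at h1
  exact h1

private theorem Q2_LQH (h : DispQ l F) : LQ l (fun i => dH (F i)) := by
  have h1 := LQ_rad (fun i => (h.pos i).le) (Q2_LQP h) 1
  have h2 : (fun i (y : ℝ) => ∫ t in (0 : ℝ)..1, t ^ 1 * dP (F i) (t * y)) =
      fun i => dH (F i) := by
    funext i y
    simp [dH]
  rw [h2] at h1
  exact h1

/-- Enlarging the exponent. -/
private theorem Q2_up {a C : ℝ} {X : ℝ} {k n : ℕ} (hX : 1 ≤ X) (h : a ≤ C * X ^ k) (hC : C ≤ n)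
    (hk : k ≤ n) : a ≤ n * X ^ n := by
  have h1 : X ^ k ≤ X ^ n := pow_le_pow_right₀ hX hk
  have h2 : 0 ≤ X ^ k := by positivity
  calc a ≤ C * X ^ k := h
    _ ≤ n * X ^ k := mul_le_mul_of_nonneg_right hC h2
    _ ≤ n * X ^ n := mul_le_mul_of_nonneg_left h1 (Nat.cast_nonneg _)

private theorem Q2_inv {c A x y : ℝ} (hc : 0 < c) (hA : 0 ≤ A) (hx : 0 < x)
    (h : c ≤ (1 + |y|) * x) :
    |x|⁻¹ ≤ ((⌈c⁻¹⌉₊ + 1 : ℕ) : ℝ) * (2 + A + |y|) ^ (⌈c⁻¹⌉₊ + 1) := by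
  have hy : 0 < 1 + |y| := by positivity
  have hci : 0 < c⁻¹ := inv_pos.2 hc
  have h1 : |x|⁻¹ ≤ (1 + |y|) * c⁻¹ := by
    rw [abs_of_pos hx, inv_le_comm₀ hx (by positivity), mul_inv, inv_inv, inv_mul_le_iff₀ hy]
    exact h
  have h2 : |x|⁻¹ ≤ c⁻¹ * (2 + A + |y|) ^ 1 := by
    rw [pow_one, mul_comm]
    exact h1.trans (mul_le_mul_of_nonneg_right (by linarith) hci.le)
  refine Q2_up (by have := abs_nonneg y; linarith) h2 ?_ (by omega)
  push_cast
  have := Nat.le_ceil c⁻¹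
  linarith

theorem DispQ_LQ (h : DispQ l F) : LQ l (fun i => dP (F i)) ∧ LQ l (fun i y => (dP (F i) y)⁻¹) ∧
    LQ l (fun i => dW1 (F i)) ∧ ∃ n : ℕ, ∀ i, (dW1 (F i) 0)⁻¹ ≤ n * (2 + l i) ^ n := by
  have hD := DispQ_Disp h
  obtain ⟨c, hc, hl⟩ := Disp_low hD
  have hl0 : ∀ i, 0 ≤ l i := fun i => (h.pos i).le
  refine ⟨Q2_LQP h, ?_, ?_, ?_⟩
  · exact LQ_inv hl0 (Q2_LQP h) (fun i y => (Disp_P hD i y).2.1.ne') (n := ⌈c⁻¹⌉₊ + 1)
      (fun i y => Q2_inv hc (hl0 i) (Disp_P hD i y).2.1 (hl i y).1)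
  · have h1 : LQ l (fun i y => dH (F i) y ^ (-(1 / 2) : ℝ)) :=
      LQ_rpow hl0 (Q2_LQH h) (fun i y => (Disp_P hD i y).2.2) (n := ⌈c⁻¹⌉₊ + 1)
        (fun i y => Q2_inv hc (hl0 i) (Disp_P hD i y).2.2 (hl i y).2) _
    have h2 : LQ l (fun (_ : κ) (_ : ℝ) => (1 / 2 : ℝ)) := LQ_const hl0 (n := 1) (fun i => by
      have := hl0 i
      rw [abs_of_pos (by norm_num), Nat.cast_one, pow_one, one_mul]
      linarith)
    have h3 := LQ_mul hl0 (Q2_LQP h) (LQ_mul hl0 h2 h1)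
    have h4 : (fun i y => dP (F i) y * (1 / 2 * dH (F i) y ^ (-(1 / 2) : ℝ))) = fun i => dW1 (F i) := by
      funext i y
      have h5 := (Disp_P hD i y).2.2
      have hs : 0 < √(dH (F i) y) := Real.sqrt_pos.2 h5
      rw [dW1, Real.rpow_neg h5.le, ← Real.sqrt_eq_rpow]
      field_simp
    rw [h4] at h3
    exact h3
  · refine ⟨⌈(√c)⁻¹⌉₊, fun i => ?_⟩
    have hsc : 0 < √c := Real.sqrt_pos.2 hc
    have h1 := (hl i 0).2
    rw [abs_zero, add_zero, one_mul] at h1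
    rw [AN4a_W0 hD i]
    have h2 : (√(dH (F i) 0))⁻¹ ≤ (√c)⁻¹ := inv_anti₀ hsc (Real.sqrt_le_sqrt h1)
    refine Q2_up (C := (√c)⁻¹) (k := 0) (by have := hl0 i; linarith) ?_ (Nat.le_ceil _) (Nat.zero_le _)
    rw [pow_zero, mul_one]
    exact h2

/-- The mean value form of division by `y`. -/
private theorem Q2_rad {f : ℝ → ℝ} (hf : ContDiff ℝ ∞ f) (h0 : f 0 = 0) (y : ℝ) :
    f y = y * ∫ t in (0 : ℝ)..1, t ^ 0 * deriv f (t * y) := by
  have hd : ∀ x, HasDerivAt f (deriv f x) x := fun x =>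
    ((hf.differentiable (by simp)) x).hasDerivAt
  have hc : Continuous (deriv f) := hf.continuous_deriv (by simp)
  have h1 : ∀ t ∈ uIcc (0 : ℝ) 1, HasDerivAt (fun t => f (t * y)) (y * (t ^ 0 * deriv f (t * y))) t := by
    intro t _
    have h2 : HasDerivAt (fun t : ℝ => t * y) (1 * y) t := (hasDerivAt_id t).mul_const y
    have h3 := (hd (t * y)).comp t h2
    have h4 : y * (t ^ 0 * deriv f (t * y)) = deriv f (t * y) * (1 * y) := by ring
    rw [h4]
    exact h3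
  have h2 := intervalIntegral.integral_eq_sub_of_hasDerivAt h1
    (by
      apply Continuous.intervalIntegrable
      fun_prop)
  rw [intervalIntegral.integral_const_mul] at h2
  rw [h2]
  simp [h0]

theorem DispQ_c (h : DispQ l F) (hβ : LQ l β) : ∃ c : κ → ℝ → ℝ, LQ l c ∧
    ∀ i y, β i y = β i 0 / dW1 (F i) 0 * dW1 (F i) y + c i y * deriv (F i) y := by
  have hD := DispQ_Disp h
  have hl : ∀ i, 0 ≤ l i := fun i => (h.pos i).le
  obtain ⟨-, hPi, hW, n1, hn1⟩ := DispQ_LQ h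
  obtain ⟨n2, hn2⟩ := ((LQ_iff hl).1 hβ).2 0
  have hb : ∀ i, |β i 0 / dW1 (F i) 0| ≤
      ((n1 * n2 + n1 + n2 : ℕ) : ℝ) * (2 + l i) ^ (n1 * n2 + n1 + n2) := by
    intro i
    have h1 : 0 < dW1 (F i) 0 := (Disp_W hD i 0).2.2
    have h2 : |β i 0| ≤ n2 * (2 + l i) ^ n2 := by
      have h3 := hn2 i 0
      rwa [iteratedDeriv_zero, abs_zero, add_zero] at h3
    have h3 := hn1 i
    have hX : 0 ≤ 2 + l i := by have := hl i; linarith
    refine Q2_up (C := (n2 : ℝ) * n1) (k := n2 + n1) (by have := hl i; linarith) ?_ ?_ (by omega)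
    · rw [abs_div, abs_of_pos h1, div_eq_mul_inv]
      calc |β i 0| * (dW1 (F i) 0)⁻¹ ≤ (n2 * (2 + l i) ^ n2) * (n1 * (2 + l i) ^ n1) :=
            mul_le_mul h2 h3 (inv_nonneg.2 h1.le) (by positivity)
        _ = _ := by rw [pow_add]; ring
    · have h4 : n2 * n1 ≤ n1 * n2 + n1 + n2 := by
        have : n2 * n1 = n1 * n2 := Nat.mul_comm _ _
        omega
      exact_mod_cast h4
  have hn : LQ l (fun i y => β i y - β i 0 / dW1 (F i) 0 * dW1 (F i) y) :=
    LQ_sub hl hβ (LQ_mul hl (LQ_const hl hb) hW)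
  have hM := LQ_rad hl (LQ_deriv hn) 0
  refine ⟨_, LQ_mul hl hM hPi, ?_⟩
  intro i y
  have h1 : 0 < dW1 (F i) 0 := (Disp_W hD i 0).2.2
  obtain ⟨h2, h3, -⟩ := Disp_P hD i y
  have h4 := Q2_rad (((LQ_iff hl).1 hn).1 i) (by
    show β i 0 - β i 0 / dW1 (F i) 0 * dW1 (F i) 0 = 0
    rw [div_mul_cancel₀ _ h1.ne', sub_self]) y
  rw [h2]
  set J := ∫ t in (0 : ℝ)..1, t ^ 0 * deriv (fun y => β i y - β i 0 / dW1 (F i) 0 * dW1 (F i) y) (t * y)
    with hJ
  have h5 : J * (dP (F i) y)⁻¹ * (y * dP (F i) y) = y * J := by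
    field_simp
  show β i y = β i 0 / dW1 (F i) 0 * dW1 (F i) y + J * (dP (F i) y)⁻¹ * (y * dP (F i) y)
  rw [h5, ← h4]
  ring

/-- The part with `dW1`. -/
private theorem Q2_main (h : Disp l F) (i : κ) {A0 : ℝ → ℝ} {Q : ℝ}
    (hint : Integrable (fun r : ℝ => A0 (l i ^ 2 + r ^ 2)))
    (hval : ∫ r : ℝ, A0 (l i ^ 2 + r ^ 2) = Q) :
    Integrable (fun y => dW1 (F i) y * A0 (F i y)) ∧ ∫ y, dW1 (F i) y * A0 (F i y) = Q := by
  have hd : ∀ x ∈ (univ : Set ℝ), HasDerivWithinAt (dW (F i)) (dW1 (F i) x) univ x := fun x _ =>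
    (Disp_W h i x).2.1.hasDerivWithinAt
  have hinj : InjOn (dW (F i)) univ := (Disp_bij h i).1.injOn
  have him : dW (F i) '' univ = univ := by
    rw [image_univ]
    exact (Disp_bij h i).2.range_eq
  have hfun : (fun x => |dW1 (F i) x| • (fun r : ℝ => A0 (l i ^ 2 + r ^ 2)) (dW (F i) x)) =
      fun y => dW1 (F i) y * A0 (F i y) := by
    funext y
    obtain ⟨h1, -, h3⟩ := Disp_W h i y
    rw [abs_of_pos h3, smul_eq_mul]
    show dW1 (F i) y * A0 (l i ^ 2 + dW (F i) y ^ 2) = _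
    rw [← h1]
  have e1 := integrableOn_image_iff_integrableOn_abs_deriv_smul MeasurableSet.univ hd hinj
    (fun r : ℝ => A0 (l i ^ 2 + r ^ 2))
  have e2 := integral_image_eq_integral_abs_deriv_smul MeasurableSet.univ hd hinj
    (fun r : ℝ => A0 (l i ^ 2 + r ^ 2))
  rw [him, integrableOn_univ, integrableOn_univ, hfun] at e1
  rw [him, setIntegral_univ, setIntegral_univ, hfun] at e2
  exact ⟨e1.1 hint, e2.symm.trans hval⟩

/-- The part with `F'`. -/
private theorem Q2_rest (hQ : DispQ l F) {c : κ → ℝ → ℝ} (hc : LQ l c) :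
    ∃ n : ℕ, ∀ (i : κ) (A0 A1 : ℝ → ℝ) (ρ E Q : ℝ),
    0 ≤ ρ → AbPair A0 A1 ρ E (l i) Q →
      Integrable (fun y => c i y * deriv (F i) y * A0 (F i y)) ∧
      |∫ y, c i y * deriv (F i) y * A0 (F i y)| ≤ n * (2 + l i + ρ) ^ n * E := by
  have h := DispQ_Disp hQ
  have hl : ∀ i, 0 ≤ l i := fun i => (h.pos i).le
  obtain ⟨C0, hC0⟩ := h.grow
  obtain ⟨n1, hn1⟩ := ((LQ_iff hl).1 hc).2 1
  set G : ℝ := 2 * n1 * (|C0| + 2) ^ (n1 + 1) with hG
  have hG0 : 0 ≤ G := by positivity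
  refine ⟨⌈G⌉₊ + n1 + 1, ?_⟩
  intro i A0 A1 ρ E Q hρ hA
  have hE : 0 ≤ E := (abs_nonneg _).trans (hA.bd 1 one_pos)
  have hli := h.pos i
  have hFs : ContDiff ℝ ∞ (F i) := (LB_iff.1 h.lb).1 i
  have hcs : ContDiff ℝ ∞ (c i) := ((LQ_iff hl).1 hc).1 i
  have hFpos : ∀ y, 0 < F i y := by
    intro y
    rw [(Disp_W h i y).1]
    positivity
  have hFd : ∀ y, HasDerivAt (F i) (deriv (F i) y) y := fun y =>
    ((hFs.differentiable (by simp)) y).hasDerivAt
  have hcd : ∀ y, HasDerivAt (c i) (deriv (c i) y) y := fun y =>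
    ((hcs.differentiable (by simp)) y).hasDerivAt
  have hF' : Continuous (deriv (F i)) := hFs.continuous_deriv (by simp)
  have hc' : Continuous (deriv (c i)) := hcs.continuous_deriv (by simp)
  have hA0c : Continuous (fun y => A0 (F i y)) :=
    hA.cont.comp_continuous hFs.continuous (fun y => hFpos y)
  have hu : ∀ y, HasDerivAt (fun y => A1 (F i y)) (-(A0 (F i y)) * deriv (F i) y) y := fun y =>
    (hA.der _ (hFpos y)).comp y (hFd y)
  set Y : ℝ := ρ + |C0| + 1 with hY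
  have hY0 : 0 < Y := by positivity
  -- vanishing outside
  have hvan : ∀ y, Y ≤ |y| → A0 (F i y) = 0 ∧ A1 (F i y) = 0 := by
    intro y hy
    apply hA.supp _ (hFpos y)
    have h1 := hC0 i y
    have h2 : ρ < √(F i y) := by
      have := le_abs_self C0
      linarith
    have h3 : √(F i y) ^ 2 = F i y := Real.sq_sqrt (hFpos y).le
    rw [← h3]
    exact pow_lt_pow_left₀ h2 hρ (by norm_num)
  have hgc : Continuous (fun y => c i y * deriv (F i) y * A0 (F i y)) :=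
    (hcs.continuous.mul hF').mul hA0c
  have hsupp : Function.support (fun y => c i y * deriv (F i) y * A0 (F i y)) ⊆ Ioc (-Y) Y := by
    intro y hy
    by_contra hn
    apply hy
    have h1 : Y ≤ |y| := by
      by_contra h2
      push Not at h2
      rw [abs_lt] at h2
      exact hn ⟨h2.1, h2.2.le⟩
    show c i y * deriv (F i) y * A0 (F i y) = 0
    rw [(hvan y h1).1, mul_zero]
  have hint : Integrable (fun y => c i y * deriv (F i) y * A0 (F i y)) := by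
    apply hgc.integrable_of_hasCompactSupport
    apply HasCompactSupport.intro (isCompact_Icc (a := -Y) (b := Y))
    intro y hy
    by_contra hn
    exact hy (Ioc_subset_Icc_self (hsupp hn))
  refine ⟨hint, ?_⟩
  have e1 : ∫ y, c i y * deriv (F i) y * A0 (F i y) =
      ∫ y in (-Y)..Y, c i y * deriv (F i) y * A0 (F i y) :=
    (intervalIntegral.integral_eq_integral_of_support_subset hsupp).symm
  have e2 := intervalIntegral.integral_mul_deriv_eq_deriv_mul (a := -Y) (b := Y)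
    (u := c i) (v := fun y => A1 (F i y)) (u' := deriv (c i))
    (v' := fun y => -(A0 (F i y)) * deriv (F i) y)
    (fun y _ => hcd y) (fun y _ => hu y) (hc'.intervalIntegrable _ _)
    ((hA0c.neg.mul hF').intervalIntegrable _ _)
  have hYa : Y ≤ |Y| := le_abs_self Y
  have hYb : Y ≤ |-Y| := by rw [abs_neg]; exact le_abs_self Y
  rw [(hvan Y hYa).2, (hvan (-Y) hYb).2, mul_zero, mul_zero, sub_self, zero_sub] at e2
  have e3 : ∫ y in (-Y)..Y, c i y * deriv (F i) y * A0 (F i y) =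
      ∫ y in (-Y)..Y, deriv (c i) y * A1 (F i y) := by
    have e4 : ∫ y in (-Y)..Y, c i y * deriv (F i) y * A0 (F i y) =
        -∫ y in (-Y)..Y, c i y * (-(A0 (F i y)) * deriv (F i) y) := by
      rw [← intervalIntegral.integral_neg]
      apply intervalIntegral.integral_congr
      intro y _
      show c i y * deriv (F i) y * A0 (F i y) = -(c i y * (-(A0 (F i y)) * deriv (F i) y))
      ring
    rw [e4, e2, neg_neg]
  rw [e1, e3]
  have hX0 : 0 ≤ 2 + l i + Y := by have := hl i; linarith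
  have e5 : ∀ y ∈ uIoc (-Y) Y, ‖deriv (c i) y * A1 (F i y)‖ ≤ n1 * (2 + l i + Y) ^ n1 * E := by
    intro y hy
    rw [uIoc_of_le (by linarith)] at hy
    have hyY : |y| ≤ Y := abs_le.2 ⟨hy.1.le, hy.2⟩
    rw [norm_mul, Real.norm_eq_abs, Real.norm_eq_abs]
    have h1 := hn1 i y
    rw [iteratedDeriv_one] at h1
    have h3 : (n1 : ℝ) * (2 + l i + |y|) ^ n1 ≤ n1 * (2 + l i + Y) ^ n1 := by
      apply mul_le_mul_of_nonneg_left _ (Nat.cast_nonneg _)
      apply pow_le_pow_left₀ (by have := hl i; have := abs_nonneg y; linarith)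
      linarith
    exact mul_le_mul (h1.trans h3) (hA.bd _ (hFpos y)) (abs_nonneg _) (by positivity)
  have e6 := intervalIntegral.norm_integral_le_of_norm_le_const e5
  rw [Real.norm_eq_abs] at e6
  have e7 : |Y - -Y| = 2 * Y := by
    rw [abs_of_pos (by linarith)]
    ring
  rw [e7] at e6
  have hZ1 : 1 ≤ 2 + l i + ρ := by have := hl i; linarith
  have e8 : 2 + l i + Y ≤ (|C0| + 2) * (2 + l i + ρ) := by
    have h1 : 0 ≤ (|C0| + 1) * (2 + l i + ρ - 1) := mul_nonneg (by positivity) (by linarith)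
    rw [hY]
    nlinarith
  have e9 : G * (2 + l i + ρ) ^ (n1 + 1) ≤
      ((⌈G⌉₊ + n1 + 1 : ℕ) : ℝ) * (2 + l i + ρ) ^ (⌈G⌉₊ + n1 + 1) := by
    refine Q2_up hZ1 le_rfl ?_ (by omega)
    push_cast
    have := Nat.le_ceil G
    have : (0 : ℝ) ≤ n1 := Nat.cast_nonneg _
    linarith
  have e10 : |∫ y in (-Y)..Y, deriv (c i) y * A1 (F i y)| ≤ G * (2 + l i + ρ) ^ (n1 + 1) * E := by
    calc |∫ y in (-Y)..Y, deriv (c i) y * A1 (F i y)|
        ≤ n1 * (2 + l i + Y) ^ n1 * E * (2 * Y) := e6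
      _ ≤ n1 * (2 + l i + Y) ^ n1 * E * (2 * (2 + l i + Y)) := by
          apply mul_le_mul_of_nonneg_left _ (by positivity)
          have := hl i
          linarith
      _ = 2 * n1 * (2 + l i + Y) ^ (n1 + 1) * E := by ring
      _ ≤ 2 * n1 * ((|C0| + 2) * (2 + l i + ρ)) ^ (n1 + 1) * E := by
          apply mul_le_mul_of_nonneg_right _ hE
          apply mul_le_mul_of_nonneg_left _ (by positivity)
          exact pow_le_pow_left₀ hX0 e8 _
      _ = (G * (2 + l i + ρ) ^ (n1 + 1)) * E := by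
          rw [hG, mul_pow]
          ring
  exact e10.trans (mul_le_mul_of_nonneg_right e9 hE)

theorem abel_lineQ (h : DispQ l F) (hβ : LQ l β) : ∃ n : ℕ, ∀ (i : κ) (A0 A1 : ℝ → ℝ)
    (ρ E Q : ℝ), 0 ≤ ρ → AbPair A0 A1 ρ E (l i) Q →
      Integrable (fun y => β i y * A0 (F i y)) ∧
      |(∫ y, β i y * A0 (F i y)) - β i 0 * √(2 / deriv (deriv (F i)) 0) * Q| ≤
        n * (2 + l i + ρ) ^ n * E := by
  have hD := DispQ_Disp h
  obtain ⟨c, hc, hcβ⟩ := DispQ_c h hβ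
  obtain ⟨n, hn⟩ := Q2_rest h hc
  refine ⟨n, ?_⟩
  intro i A0 A1 ρ E Q hρ hA
  obtain ⟨h1, h2⟩ := hn i A0 A1 ρ E Q hρ hA
  obtain ⟨h3, h4⟩ := Q2_main hD i hA.int hA.val
  have hfun : (fun y => β i y * A0 (F i y)) = fun y =>
      β i 0 / dW1 (F i) 0 * (dW1 (F i) y * A0 (F i y)) + c i y * deriv (F i) y * A0 (F i y) := by
    funext y
    rw [hcβ i y]
    ring
  have h5 : Integrable (fun y => β i 0 / dW1 (F i) 0 * (dW1 (F i) y * A0 (F i y))) := h3.const_mul _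
  refine ⟨?_, ?_⟩
  · rw [hfun]
    exact h5.add h1
  · rw [hfun, integral_add h5 h1, integral_const_mul, h4]
    have h6 : β i 0 / dW1 (F i) 0 = β i 0 * √(2 / deriv (deriv (F i)) 0) := by
      rw [Disp_W0 hD i, div_eq_mul_inv, ← Real.sqrt_inv, inv_div]
    rw [h6, add_sub_cancel_left]
    exact h2

end BE
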