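import Pool.Agent.LibBE99.Q1
import Pool.Agent.LibBE99.L3
import Pool.Agent.LibBE99.J1

/-! Row Q4 (cites Q1, L3, J1, S3): the functions along the perpendicular geodesic of the own axis.
MEDIUM, 60 min.
Plan. For `q : AxU Γ ι P m s` the line `Q = ⟨q.i, q.p, q.p, q.g, q.x, rot q.v, ..⟩ : Ln ι P Γ` (`q.g ≠ 1` by `Axis_ne`,
`eu (rot v) = 1`) has `Q.X m s y = q.X y` (`Ex_ray`) and `Q.d m s y = Fd (mm ..) q.g q.x q.v y ≤ q.l + 2 |y|` (`Fd_growthU`).
`LQ_F`, `LQ_f`, `LQ_u`: the classes `LP_d2`, `LP_ff`, `LP_uu` pulled back by `(q, y) ↦ (Q, y)` (`EB_pull`: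
`log (2 + d) ≤ log (2 (2 + l + |y|)) ≤ 2 (1 + log (2 + l + |y|))`). `DQ`: `pos`, `zero` (`Fd_zero`), `low`: `deriv F = 2 Fd Fd1`,
`Fd_lowU`, `Fd ≥ l ≥ c`, as in the proof of `Disp_ax` (`LibBR73/AN6.lean`); `grow`: `Fd_growthU`. `LQ_cut`: all derivatives of
`cut` are bounded (smooth, compact support), `iteratedDeriv k (cut (· / r)) y = r^(-k) (iteratedDeriv k cut) (y / r)`,
`r⁻¹ = c⁻¹ (2 + l) ^ n`. `exBQ`: `LQ_f` of order `1`: `|deriv q.f y| ≤ n1 (2 + l + |y|)^n1 ≤ n1 2^n1 (2 + l)^n1` for `|y| ≤ 1`; take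
`n = n1`, `c ≤ 1 / 4` with `4 c n1 2^n1 ≤ 1`: then `|q.f y - q.f 0| ≤ 1` for `|y| ≤ 4 q.r c n ≤ 1` (mean value theorem).
`lq`: `χ = cut (y / (2 r)) * (q.f y - q.f 0)` is in `LQ` and `|χ| ≤ 1` everywhere (`0 ≤ cut ≤ 1`, zero for `|y| ≥ 4 r`), so
`exp (-χ / 2) ≤ 2` and `LQ_exp`; `cut (y / 2) * q.J y`: `JA_bd` for `|y| ≤ 4` (Leibniz; zero outside). `one`: `cut 0 = 1`,
`q.J 0 = 1` (`J_zero`). `eq`: if `cut (y / r) ≠ 0` then `|y| < 2 r`, so `cut (y / (2 r)) = 1`, `cut (y / 2) = 1`, and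
`B0 = wt ^ (-1/2) = exp (-(q.f y) / 2)` (`wt > 0`), `q.X 0 = q.x`. `zero`: `cut (y / r) = 0` for `|y| ≥ 2 r`.
`F2_up`: `LQ_F` of order `2` at `0`. `B0_le`: `B0 0 = √(F'' 0 / 2) / √(trM - 2)` by `val_main`. -/

open MeasureTheory Set Filter Topology
open scoped ContDiff

namespace BE

open BGS BR

variable {Γ : Type} [Group Γ] [MulAction Γ Pl] {D : Set Pl}
variable {ι P : Type} [NormedAddCommGroup P] [NormedSpace ℝ P] [FiniteDimensional ℝ P]
  {m : Pl → Co} {a b : ℝ} {s : ι → P × Pl → ℝ}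

/-- The perpendicular geodesic as a line. -/
private noncomputable def Q4_ln (h : CF Γ D m a b s) (q : AxU Γ ι P m s) : Ln ι P Γ :=
  ⟨q.i, q.p, q.p, q.g, q.x, rot q.v, q.hp, q.hp,
    (Axis_ne h.hX h.hO (hm_mm h q.i q.p) q.ax).1, by rw [AN3_eu_rot, q.ax.unit]⟩

private theorem Q4_X (h : CF Γ D m a b s) (q : AxU Γ ι P m s) (y : ℝ) :
    (Q4_ln h q).X m s y = q.X y :=
  (Ex_ray h.hX (hm_mm h q.i q.p) y q.x (rot q.v)).symm

private theorem Q4_d (h : CF Γ D m a b s) (q : AxU Γ ι P m s) (y : ℝ) :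
    (Q4_ln h q).d m s y = Fd (mm m (s q.i) q.p) q.g q.x q.v y := by
  show ds (mm m (s q.i) q.p) ((Q4_ln h q).X m s y) (q.g • (Q4_ln h q).X m s y) = _
  rw [Q4_X]
  rfl

private theorem Q4_l (q : AxU Γ ι P m s) : 0 ≤ q.l := q.ax.pos.le

private theorem Q4_nn (q : AxU Γ ι P m s × ℝ) : 0 ≤ Real.log (2 + q.1.l + |q.2|) := by
  apply Real.log_nonneg
  have := Q4_l q.1
  have := abs_nonneg q.2
  linarith

private theorem Q4_pull (h : CF Γ D m a b s) {f : Ln ι P Γ → ℝ → ℝ} (hf : LP m s f) :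
    LQ (fun q : AxU Γ ι P m s => q.l) (fun q => f (Q4_ln h q)) := by
  obtain ⟨C, -, hC⟩ := Fd_growthU h
  unfold LP at hf
  have hd0 : ∀ q : Ln ι P Γ × ℝ, 0 ≤ q.1.d m s q.2 := fun q => Real.sqrt_nonneg _
  have hn : ∀ q : Ln ι P Γ × ℝ, 0 ≤ Real.log (2 + q.1.d m s q.2) := by
    intro q
    apply Real.log_nonneg
    have := hd0 q
    linarith
  refine EB_pull hn hf (fun p : AxU Γ ι P m s × ℝ => (Q4_ln h p.1, p.2)) (Q4_nn (m := m) (s := s))
    (A := 2) ?_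
  intro p
  have h1 := ((hC p.1).2.2 p.2).2.2
  have h2 : (Q4_ln h p.1).d m s p.2 ≤ p.1.l + 2 * |p.2| := by
    rw [Q4_d]
    exact h1
  have h3 := Q4_l p.1
  have h4 := abs_nonneg p.2
  have h5 := hd0 (Q4_ln h p.1, p.2)
  have h6 : Real.log (2 + (Q4_ln h p.1).d m s p.2) ≤ Real.log (2 * (2 + p.1.l + |p.2|)) := by
    apply Real.log_le_log
    · have : 0 ≤ (Q4_ln h p.1).d m s p.2 := h5
      linarith
    · linarith
  rw [Real.log_mul (by norm_num) (by positivity)] at h6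
  have h7 : Real.log 2 ≤ 1 := by
    have := Real.log_two_lt_d9
    linarith
  have h8 := Q4_nn (m := m) (s := s) p
  show Real.log (2 + (Q4_ln h p.1).d m s p.2) ≤ 2 * (1 + Real.log (2 + p.1.l + |p.2|))
  linarith

theorem LQ_F (h : CF Γ D m a b s) : LQ (fun q : AxU Γ ι P m s => q.l)
    (fun q y => Fd (mm m (s q.i) q.p) q.g q.x q.v y ^ 2) := by
  have h1 := Q4_pull h (LP_d2 h)
  have h2 : (fun (q : AxU Γ ι P m s) (y : ℝ) => (Q4_ln h q).d m s y ^ 2) =
      fun q y => Fd (mm m (s q.i) q.p) q.g q.x q.v y ^ 2 := by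
    funext q y
    rw [Q4_d]
  rw [← h2]
  exact h1

theorem LQ_f (h : CF Γ D m a b s) : LQ (fun q : AxU Γ ι P m s => q.l) (fun q => q.f) := by
  have h1 := Q4_pull h (LP_ff h)
  have h2 : (fun (q : AxU Γ ι P m s) (y : ℝ) => ff m (s (Q4_ln h q).i)
      ((Q4_ln h q).p1, (Q4_ln h q).X m s y, (Q4_ln h q).g • (Q4_ln h q).X m s y)) =
      fun q => q.f := by
    funext q y
    rw [Q4_X]
    rfl
  rw [← h2]
  exact h1

theorem LQ_u (h : CF Γ D m a b s) (j : ℕ) : LQ (fun q : AxU Γ ι P m s => q.l)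
    (fun q y => uu m (s q.i) j (q.p, q.X y, q.g • q.X y)) := by
  have h1 := Q4_pull h (LP_uu h j)
  have h2 : (fun (q : AxU Γ ι P m s) (y : ℝ) => uu m (s (Q4_ln h q).i) j
      ((Q4_ln h q).p1, (Q4_ln h q).X m s y, (Q4_ln h q).g • (Q4_ln h q).X m s y)) =
      fun q y => uu m (s q.i) j (q.p, q.X y, q.g • q.X y) := by
    funext q y
    rw [Q4_X]
    rfl
  rw [← h2]
  exact h1

private theorem Q4_dsq (h : CF Γ D m a b s) (q : AxU Γ ι P m s) :
    deriv (fun y => Fd (mm m (s q.i) q.p) q.g q.x q.v y ^ 2) = fun y =>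
      2 * (Fd (mm m (s q.i) q.p) q.g q.x q.v y * Fd1 (mm m (s q.i) q.p) q.g q.x q.v y) := by
  funext y
  have h1 := ((Fd_deriv h.hX h.hO (hm_mm h q.i q.p) q.ax y).pow 2).deriv
  have h2 : deriv (fun y => Fd (mm m (s q.i) q.p) q.g q.x q.v y ^ 2) y = _ := h1
  rw [h2]
  push_cast
  ring

theorem DQ (h : CF Γ D m a b s) : DispQ (fun q : AxU Γ ι P m s => q.l)
    (fun q y => Fd (mm m (s q.i) q.p) q.g q.x q.v y ^ 2) := by
  obtain ⟨c1, hc1, hlow⟩ := Fd_lowU h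
  obtain ⟨C, hC0, hC⟩ := Fd_growthU h
  refine ⟨fun q => q.ax.pos, LQ_F h, fun q => ?_, ?_, ⟨C, fun q y => ?_⟩⟩
  · show Fd (mm m (s q.i) q.p) q.g q.x q.v 0 ^ 2 = q.l ^ 2
    rw [(Fd_zero h.hX h.hO (hm_mm h q.i q.p) q.ax).1]
  · refine ⟨(max C 1)⁻¹ * min c1 1, by positivity, fun q y => ?_⟩
    show (max C 1)⁻¹ * min c1 1 * y ^ 2 ≤
      (1 + |y|) * (y * deriv (fun y => Fd (mm m (s q.i) q.p) q.g q.x q.v y ^ 2) y)
    rw [Q4_dsq h q]
    obtain ⟨-, h1, h2⟩ := hC q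
    obtain ⟨-, h3, -⟩ := h2 y
    set Fv := Fd (mm m (s q.i) q.p) q.g q.x q.v y with hFv
    set F1 := Fd1 (mm m (s q.i) q.p) q.g q.x q.v y with hF1
    have hlpos : 0 < q.l := q.ax.pos
    have hM : 0 < max C 1 := lt_of_lt_of_le one_pos (le_max_right _ _)
    have h4 : (max C 1)⁻¹ ≤ Fv := by
      rw [inv_le_iff_one_le_mul₀ hM]
      have : C * q.l ≤ max C 1 * q.l := mul_le_mul_of_nonneg_right (le_max_left _ _) hlpos.le
      nlinarith
    have h5 : |y| * min (c1 * |y|) 1 ≤ y * F1 := by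
      rcases le_total 0 y with hy | hy
      · have := (hlow q y).1 hy
        rw [abs_of_nonneg hy]
        exact mul_le_mul_of_nonneg_left this hy
      · have := (hlow q y).2 hy
        rw [abs_of_nonpos hy]
        have h6 : (-y) * min (c1 * -y) 1 ≤ (-y) * (-F1) :=
          mul_le_mul_of_nonneg_left (by linarith) (by linarith)
        linarith
    have h6 : min c1 1 * |y| ≤ (1 + |y|) * min (c1 * |y|) 1 := by
      have ha := abs_nonneg y
      have hmc : min c1 1 ≤ c1 := min_le_left _ _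
      have hm1 : min c1 1 ≤ 1 := min_le_right _ _
      have hm0 : 0 < min c1 1 := lt_min hc1 one_pos
      rcases le_total (c1 * |y|) 1 with h | h
      · rw [min_eq_left h]
        nlinarith [mul_nonneg hc1.le ha, mul_nonneg (mul_nonneg hc1.le ha) ha]
      · rw [min_eq_right h]
        nlinarith
    have h7 : 0 ≤ |y| * min (c1 * |y|) 1 :=
      mul_nonneg (abs_nonneg _) (le_min (by positivity) zero_le_one)
    have h8 : min c1 1 * y ^ 2 ≤ (1 + |y|) * (y * F1) := by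
      have e1 : y ^ 2 = |y| * |y| := by rw [← sq, sq_abs]
      calc min c1 1 * y ^ 2 = |y| * (min c1 1 * |y|) := by rw [e1]; ring
        _ ≤ |y| * ((1 + |y|) * min (c1 * |y|) 1) := mul_le_mul_of_nonneg_left h6 (abs_nonneg _)
        _ = (1 + |y|) * (|y| * min (c1 * |y|) 1) := by ring
        _ ≤ (1 + |y|) * (y * F1) := mul_le_mul_of_nonneg_left h5 (by positivity)
    have h9 : 0 ≤ min c1 1 * y ^ 2 := by positivity
    have h10 : 0 ≤ (1 + |y|) * (y * F1) := le_trans h9 h8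
    calc (max C 1)⁻¹ * min c1 1 * y ^ 2 = (max C 1)⁻¹ * (min c1 1 * y ^ 2) := by ring
      _ ≤ Fv * ((1 + |y|) * (y * F1)) :=
        mul_le_mul h4 h8 h9 (le_trans (by positivity) h4)
      _ ≤ 2 * (Fv * ((1 + |y|) * (y * F1))) := by
        have : 0 ≤ Fv * ((1 + |y|) * (y * F1)) :=
          mul_nonneg (le_trans (by positivity) h4) h10
        linarith
      _ = (1 + |y|) * (y * (2 * (Fv * F1))) := by ring
  · show |y| ≤ √(Fd (mm m (s q.i) q.p) q.g q.x q.v y ^ 2) + C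
    obtain ⟨-, -, h2⟩ := hC q
    obtain ⟨h3, h4, -⟩ := h2 y
    rw [Real.sqrt_sq (le_trans q.ax.pos.le h4)]
    exact h3

/-! ### The cut-off -/

private theorem Q4_cut_one {y : ℝ} (hy : |y| ≤ 1) : cut y = 1 := by
  apply cut.one_of_mem_closedBall
  rw [Metric.mem_closedBall, Real.dist_eq, sub_zero]
  exact hy

private theorem Q4_cut_zero {y : ℝ} (hy : 2 ≤ |y|) : cut y = 0 := by
  apply cut.zero_of_le_dist
  rw [Real.dist_eq, sub_zero]
  exact hy

private theorem Q4_cut_bd (k : ℕ) : ∃ C : ℝ, ∀ y : ℝ, ‖iteratedFDeriv ℝ k (cut : ℝ → ℝ) y‖ ≤ C := by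
  have h1 : ContDiff ℝ ∞ (cut : ℝ → ℝ) := cut.contDiff
  have h2 : HasCompactSupport (iteratedFDeriv ℝ k (cut : ℝ → ℝ)) :=
    cut.hasCompactSupport.iteratedFDeriv k
  exact (h1.continuous_iteratedFDeriv (m := k) (mod_cast le_top)).bounded_above_of_compact_support h2

private theorem Q4_LQ_id : LQ (fun q : AxU Γ ι P m s => q.l) (fun _ y => y) := by
  refine EB_id (C := 1) (Q4_nn (m := m) (s := s)) fun p => ?_
  have h1 := Q4_l p.1
  have h2 := abs_nonneg p.2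
  rw [one_mul, one_mul, Real.exp_log (by positivity), Real.norm_eq_abs]
  linarith

private theorem Q4_LQ_cut {f : AxU Γ ι P m s → ℝ → ℝ} (hf : LQ (fun q : AxU Γ ι P m s => q.l) f) :
    LQ (fun q : AxU Γ ι P m s => q.l) (fun q y => cut (f q y)) := by
  unfold LQ at hf ⊢
  refine EB_comp (g := fun (_ : AxU Γ ι P m s × ℝ) => (cut : ℝ → ℝ)) (Q4_nn (m := m) (s := s))
    ⟨fun _ => cut.contDiff, fun k => ?_⟩ hf
  obtain ⟨C, hC⟩ := Q4_cut_bd k
  refine ⟨|C|, fun p => ((hC _).trans (le_abs_self C)).trans ?_⟩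
  exact le_mul_of_one_le_right (abs_nonneg _)
    (Real.one_le_exp (mul_nonneg (abs_nonneg _) (Q4_nn p)))

private theorem Q4_rinv (q : AxU Γ ι P m s) (c : ℝ) (n : ℕ) (y : ℝ) :
    y / q.r c n = (c⁻¹ * (2 + q.l) ^ n) * y := by
  unfold AxU.r
  rw [div_div_eq_mul_div, div_eq_inv_mul]
  ring

private theorem Q4_rinv2 (q : AxU Γ ι P m s) (c : ℝ) (n : ℕ) (y : ℝ) :
    y / (2 * q.r c n) = (c⁻¹ / 2 * (2 + q.l) ^ n) * y := by
  have h1 : y / (2 * q.r c n) = (y / q.r c n) / 2 := by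
    rw [div_div, mul_comm]
  rw [h1, Q4_rinv]
  ring

private theorem Q4_nat (A : ℝ) (n : ℕ) : ∃ N : ℕ, ∀ t : ℝ, 1 ≤ t → A * t ^ n ≤ N * t ^ N := by
  obtain ⟨N, hN⟩ := exists_nat_ge (max A n)
  refine ⟨N, fun t ht => ?_⟩
  have h1 : A ≤ N := (le_max_left _ _).trans hN
  have h2 : n ≤ N := by exact_mod_cast (le_max_right A (n : ℝ)).trans hN
  have h3 : t ^ n ≤ t ^ N := pow_le_pow_right₀ ht h2
  have h4 : 0 ≤ t ^ n := by positivity
  calc A * t ^ n ≤ N * t ^ n := mul_le_mul_of_nonneg_right h1 h4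
    _ ≤ N * t ^ N := mul_le_mul_of_nonneg_left h3 (Nat.cast_nonneg _)

private theorem Q4_LQ_lin (A : ℝ) (n : ℕ) :
    LQ (fun q : AxU Γ ι P m s => q.l) (fun q y => (A * (2 + q.l) ^ n) * y) := by
  obtain ⟨N, hN⟩ := Q4_nat |A| n
  refine LQ_mul (Q4_l (m := m) (s := s)) (LQ_const (Q4_l (m := m) (s := s)) (n := N) fun q => ?_)
    Q4_LQ_id
  have h1 := Q4_l q
  rw [abs_mul, abs_of_nonneg (a := (2 + q.l) ^ n) (by positivity)]
  exact hN _ (by linarith)

private theorem Q4_J (h : CF Γ D m a b s) :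
    LQ (fun q : AxU Γ ι P m s => q.l) (fun q y => cut (y / 2) * q.J y) := by
  obtain ⟨c0, hc0, hJ⟩ := JA_bd h
  have hu : ∀ q : AxU Γ ι P m s, eu (rot q.v) = 1 := fun q => by rw [AN3_eu_rot, q.ax.unit]
  have e1 : EB (fun p : AxU Γ ι P m s × ℝ => |p.2|) (fun p => p.1.J) (fun p => p.2) := by
    refine ⟨fun p => ?_, fun k => ?_⟩
    · obtain ⟨C, -, hC⟩ := hJ 0
      exact (hC p.1.i p.1.p p.1.hp p.1.x (rot p.1.v) (hu p.1)).1
    · obtain ⟨C, hC0, hC⟩ := hJ k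
      refine ⟨C + c0, fun p => ?_⟩
      rw [norm_iteratedFDeriv_eq_norm_iteratedDeriv, Real.norm_eq_abs]
      refine ((hC p.1.i p.1.p p.1.hp p.1.x (rot p.1.v) (hu p.1)).2 p.2).trans ?_
      refine mul_le_mul (by linarith) (Real.exp_le_exp.2 ?_) (Real.exp_pos _).le (by linarith)
      exact mul_le_mul_of_nonneg_right (by linarith) (abs_nonneg _)
  have e2 : EB (fun p : AxU Γ ι P m s × ℝ => |p.2|) (fun _ y => cut (y / 2)) (fun p => p.2) := by
    have h1 : ContDiff ℝ ∞ (fun y : ℝ => cut (y / 2)) := cut.contDiff.comp (contDiff_id.div_const 2)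
    refine ⟨fun _ => h1, fun k => ?_⟩
    have h2 : HasCompactSupport (fun y : ℝ => cut (y / 2)) := by
      refine HasCompactSupport.intro (K := Icc (-4) 4) isCompact_Icc fun y hy => ?_
      apply Q4_cut_zero
      rw [abs_div, abs_two, le_div_iff₀ two_pos]
      by_contra hcon
      exact hy (abs_le.1 (by linarith : |y| ≤ 4))
    obtain ⟨C, hC⟩ := (h1.continuous_iteratedFDeriv (m := k)
      (mod_cast le_top)).bounded_above_of_compact_support (h2.iteratedFDeriv k)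
    refine ⟨|C|, fun p => ((hC _).trans (le_abs_self C)).trans ?_⟩
    exact le_mul_of_one_le_right (abs_nonneg _)
      (Real.one_le_exp (mul_nonneg (abs_nonneg _) (abs_nonneg _)))
  have e3 := EB_mul (fun p : AxU Γ ι P m s × ℝ => abs_nonneg p.2) e2 e1
  refine ⟨e3.smooth, fun k => ?_⟩
  obtain ⟨C, hC⟩ := e3.bound k
  refine ⟨|C| * Real.exp (|C| * 4), fun p => ?_⟩
  have hn := Q4_nn (m := m) (s := s) p
  have hR : 1 ≤ Real.exp (|C| * Real.exp (|C| * 4) * Real.log (2 + p.1.l + |p.2|)) :=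
    Real.one_le_exp (mul_nonneg (by positivity) hn)
  rcases le_or_gt |p.2| 4 with hp | hp
  · refine (hC p).trans (le_trans ?_ (le_mul_of_one_le_right (by positivity) hR))
    refine mul_le_mul (le_abs_self C) (Real.exp_le_exp.2 ?_) (Real.exp_pos _).le (abs_nonneg _)
    exact (mul_le_mul_of_nonneg_right (le_abs_self C) (abs_nonneg _)).trans
      (mul_le_mul_of_nonneg_left hp (abs_nonneg _))
  · have hev : (fun y => cut (y / 2) * p.1.J y) =ᶠ[𝓝 p.2] fun _ => (0 : ℝ) := by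
      have hop : IsOpen {y : ℝ | 4 < |y|} := isOpen_lt continuous_const continuous_abs
      filter_upwards [hop.mem_nhds hp] with y hy
      rw [Q4_cut_zero, zero_mul]
      rw [abs_div, abs_two, le_div_iff₀ two_pos]
      have : 4 < |y| := hy
      linarith
    have h0 : ‖iteratedFDeriv ℝ k (fun y => cut (y / 2) * p.1.J y) p.2‖ = 0 := by
      rw [(Filter.EventuallyEq.iteratedFDeriv ℝ hev k).eq_of_nhds]
      simp [iteratedFDeriv_zero_fun]
    rw [h0]
    positivity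

private theorem Q4_exp (h : CF Γ D m a b s) {c : ℝ} (hc : 0 < c) {n n1 : ℕ} (hn : n1 ≤ n)
    (hc4 : c ≤ 1 / 4) (hcn : 4 * c * (n1 * 2 ^ n1) ≤ 1)
    (hd : ∀ (q : AxU Γ ι P m s) (y : ℝ), |deriv q.f y| ≤ n1 * (2 + q.l + |y|) ^ n1)
    (q : AxU Γ ι P m s) (y : ℝ) : |cut (y / (2 * q.r c n)) * (q.f y - q.f 0)| ≤ 1 := by
  have hl := Q4_l q
  have hr : 0 < q.r c n := by unfold AxU.r; positivity
  have hpow : (2 + q.l) ^ n1 ≤ (2 + q.l) ^ n := pow_le_pow_right₀ (by linarith) hn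
  rcases le_or_gt (2 * (2 * q.r c n)) |y| with hy | hy
  · rw [Q4_cut_zero, zero_mul, abs_zero]
    · exact zero_le_one
    · rw [abs_div, abs_of_pos (a := 2 * q.r c n) (by positivity), le_div_iff₀ (by positivity)]
      linarith
  · have h4r : 4 * q.r c n ≤ 1 := by
      unfold AxU.r
      have : (1 : ℝ) ≤ (2 + q.l) ^ n := one_le_pow₀ (by linarith)
      rw [mul_div_assoc', div_le_iff₀ (by positivity)]
      nlinarith
    have hy1 : |y| ≤ 1 := by linarith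
    have hsm : ContDiff ℝ ∞ q.f := ((LQ_iff (Q4_l (m := m) (s := s))).1 (LQ_f h)).1 q
    have h1 : ‖q.f y - q.f 0‖ ≤ (n1 * (2 ^ n1 * (2 + q.l) ^ n1)) * ‖y - 0‖ := by
      refine Convex.norm_image_sub_le_of_norm_deriv_le (s := Icc (-1 : ℝ) 1) (f := q.f)
        (fun z _ => (hsm.differentiable (by simp)) z) (fun z hz => ?_) (convex_Icc _ _)
        (by constructor <;> norm_num) (abs_le.1 hy1)
      rw [Real.norm_eq_abs]
      refine (hd q z).trans (mul_le_mul_of_nonneg_left ?_ (Nat.cast_nonneg _))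
      rw [← mul_pow]
      refine pow_le_pow_left₀ (by positivity) ?_ _
      have : |z| ≤ 1 := abs_le.2 hz
      linarith
    rw [sub_zero, Real.norm_eq_abs, Real.norm_eq_abs] at h1
    have h2 : (n1 * (2 ^ n1 * (2 + q.l) ^ n1)) * |y| ≤ 1 := by
      have h3 : |y| ≤ 4 * (c / (2 + q.l) ^ n) := by
        have : q.r c n = c / (2 + q.l) ^ n := rfl
        rw [← this]
        linarith
      calc ((n1 : ℝ) * (2 ^ n1 * (2 + q.l) ^ n1)) * |y|
          ≤ (n1 * (2 ^ n1 * (2 + q.l) ^ n1)) * (4 * (c / (2 + q.l) ^ n)) :=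
            mul_le_mul_of_nonneg_left h3 (by positivity)
        _ = (4 * c * (n1 * 2 ^ n1)) * ((2 + q.l) ^ n1 / (2 + q.l) ^ n) := by ring
        _ ≤ 1 * 1 := by
            refine mul_le_mul hcn ?_ (by positivity) zero_le_one
            rw [div_le_one (by positivity)]
            exact hpow
        _ = 1 := one_mul 1
    rw [abs_mul, abs_of_nonneg cut.nonneg]
    calc cut (y / (2 * q.r c n)) * |q.f y - q.f 0| ≤ 1 * 1 :=
          mul_le_mul cut.le_one (h1.trans h2) (abs_nonneg _) zero_le_one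
      _ = 1 := one_mul 1

private theorem Q4_B0 (h : CF Γ D m a b s) (q : AxU Γ ι P m s) (y : ℝ) :
    B0 (mm m (s q.i) q.p) (q.X y) (q.g • q.X y) = Real.exp (-(q.f y) / 2) := by
  have hw := V10_wt h q.i q.p (q.X y) (Vx (mm m (s q.i) q.p) (q.X y) (q.g • q.X y))
  unfold B0
  rw [Real.rpow_def_of_pos hw]
  congr 1
  show Real.log _ * (-(1 / 2) : ℝ) = -(Real.log _) / 2
  rw [neg_div, ← mul_one_div (Real.log _) 2, mul_neg]
  rfl

private theorem Q4_X0 (h : CF Γ D m a b s) (q : AxU Γ ι P m s) : q.X 0 = q.x := by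
  unfold AxU.X Xp
  rw [zero_smul, Ex_zero h.hX (hm_mm h q.i q.p)]

theorem exBQ (h : CF Γ D m a b s) : ∃ (c : ℝ) (n : ℕ), BQ Γ ι P m s c n := by
  have hl := Q4_l (Γ := Γ) (m := m) (s := s)
  obtain ⟨hsm, hbd⟩ := (LQ_iff hl).1 (LQ_f h)
  obtain ⟨n1, hn1⟩ := hbd 1
  obtain ⟨n0, hn0⟩ := hbd 0
  have hd : ∀ (q : AxU Γ ι P m s) (y : ℝ), |deriv q.f y| ≤ n1 * (2 + q.l + |y|) ^ n1 := by
    intro q y
    have := hn1 q y
    rwa [iteratedDeriv_one] at this
  have hf0 : LQ (fun q : AxU Γ ι P m s => q.l) (fun q _ => q.f 0) := by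
    refine LQ_const hl (n := n0) fun q => ?_
    have := hn0 q 0
    rwa [iteratedDeriv_zero, abs_zero, add_zero] at this
  set c : ℝ := 1 / (4 * (1 + n1 * 2 ^ n1)) with hc
  have hA : (0 : ℝ) ≤ n1 * 2 ^ n1 := by positivity
  have hc0 : 0 < c := by positivity
  have hc4 : c ≤ 1 / 4 := by
    rw [hc]
    apply one_div_le_one_div_of_le (by norm_num)
    linarith
  have hcn : 4 * c * (n1 * 2 ^ n1) ≤ 1 := by
    rw [hc]
    have : 4 * (1 / (4 * (1 + (n1 : ℝ) * 2 ^ n1))) * (n1 * 2 ^ n1) =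
        (n1 * 2 ^ n1) / (1 + (n1 : ℝ) * 2 ^ n1) := by
      field_simp
    rw [this, div_le_one (by positivity)]
    linarith
  have hr0 : ∀ q : AxU Γ ι P m s, 0 < q.r c n1 := fun q => by
    have := hl q
    unfold AxU.r
    positivity
  have hr1 : ∀ q : AxU Γ ι P m s, 4 * q.r c n1 ≤ 1 := fun q => by
    have h1 := hl q
    have : (1 : ℝ) ≤ (2 + q.l) ^ n1 := one_le_pow₀ (by linarith)
    unfold AxU.r
    rw [mul_div_assoc', div_le_iff₀ (by positivity)]
    nlinarith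
  have hJ0 : ∀ q : AxU Γ ι P m s, q.J 0 = 1 := fun q =>
    (J_zero h.hX (hm_mm h q.i q.p) (by rw [AN3_eu_rot, q.ax.unit])).1
  refine ⟨c, n1, hc0, hc4, ?_, ?_, ?_, ?_⟩
  · have k1 : LQ (fun q : AxU Γ ι P m s => q.l) (fun q y => cut (y / q.r c n1)) := by
      have := Q4_LQ_cut (Q4_LQ_lin (Γ := Γ) (m := m) (s := s) c⁻¹ n1)
      simp only [← Q4_rinv] at this
      exact this
    have k2 : LQ (fun q : AxU Γ ι P m s => q.l) (fun q y => cut (y / (2 * q.r c n1))) := by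
      have := Q4_LQ_cut (Q4_LQ_lin (Γ := Γ) (m := m) (s := s) (c⁻¹ / 2) n1)
      simp only [← Q4_rinv2] at this
      exact this
    have k3 := LQ_mul hl k2 (LQ_sub hl (LQ_f h) hf0)
    have k4 := LQ_mul hl (LQ_const hl (c := fun _ => (-(1 / 2) : ℝ)) (n := 1) (fun q => by
      have := hl q
      rw [abs_neg, abs_of_pos (by norm_num : (0 : ℝ) < 1 / 2)]
      push_cast
      rw [one_mul, pow_one]
      linarith)) k3
    have k5 := LQ_exp hl k4 (C := Real.exp (1 / 2)) (fun q y => by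
      apply Real.exp_le_exp.2
      have := abs_le.1 (Q4_exp h hc0 (le_refl n1) hc4 hcn hd q y)
      linarith [this.1])
    have k6 := LQ_mul hl (LQ_mul hl k1 k5) (Q4_J h)
    have k7 : (fun (q : AxU Γ ι P m s) (y : ℝ) => cut (y / q.r c n1) *
        Real.exp (-(1 / 2) * (cut (y / (2 * q.r c n1)) * (q.f y - q.f 0))) *
          (cut (y / 2) * q.J y)) = bq c n1 := by
      funext q y
      unfold bq
      congr 3
      ring
    rw [← k7]
    exact k6
  · intro q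
    unfold bq
    have e0 : cut (0 : ℝ) = 1 := Q4_cut_one (by rw [abs_zero]; exact zero_le_one)
    simp only [sub_self, mul_zero, neg_zero, zero_div, Real.exp_zero, e0, hJ0, mul_one]
  · intro q y
    rcases le_or_gt 2 |y / q.r c n1| with hy | hy
    · unfold bq
      rw [Q4_cut_zero hy]
      ring
    · rw [abs_div, abs_of_pos (hr0 q), div_lt_iff₀ (hr0 q)] at hy
      have hr := hr0 q
      have h1 : cut (y / (2 * q.r c n1)) = 1 := by
        apply Q4_cut_one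
        rw [abs_div, abs_of_pos (a := 2 * q.r c n1) (by positivity), div_le_one (by positivity)]
        exact hy.le
      have h2 : cut (y / 2) = 1 := by
        apply Q4_cut_one
        rw [abs_div, abs_two, div_le_one two_pos]
        have := hr1 q
        linarith
      have h3 : B0 (mm m (s q.i) q.p) q.x (q.g • q.x) = Real.exp (-(q.f 0) / 2) := by
        have := Q4_B0 h q 0
        rwa [Q4_X0 h q] at this
      unfold bq
      rw [h1, h2, Q4_B0 h q y, h3, one_mul, one_mul]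
      have h4 : Real.exp (-(q.f y) / 2) =
          Real.exp (-(q.f 0) / 2) * Real.exp (-(q.f y - q.f 0) / 2) := by
        rw [← Real.exp_add]
        congr 1
        ring
      rw [h4]
      ring
  · intro q y hy
    unfold bq
    rw [Q4_cut_zero, zero_mul, zero_mul]
    rw [abs_div, abs_of_pos (hr0 q), le_div_iff₀ (hr0 q)]
    exact hy.le

theorem B0_le (h : CF Γ D m a b s) : ∃ n : ℕ, ∀ q : AxU Γ ι P m s,
    B0 (mm m (s q.i) q.p) q.x (q.g • q.x) ≤
      n * (2 + q.l) ^ n / √(trM (mm m (s q.i) q.p) q.x q.v q.l - 2) := by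
  have hl := Q4_l (Γ := Γ) (m := m) (s := s)
  obtain ⟨hsm, hbd⟩ := (LQ_iff hl).1 (LQ_F h)
  obtain ⟨n2, hn2⟩ := hbd 2
  obtain ⟨c, hc, hF⟩ := F2_low h
  obtain ⟨C, -, hC⟩ := Fd_growthU h
  obtain ⟨N, hN⟩ := Q4_nat (1 + n2) n2
  refine ⟨N, fun q => ?_⟩
  have hlq := hl q
  have h1 := val_main h.hX h.hO (hm_mm h q.i q.p) q.ax
  set F2 := deriv (deriv (fun y => Fd (mm m (s q.i) q.p) q.g q.x q.v y ^ 2)) 0 with hF2
  have h2 : 0 < F2 := lt_of_lt_of_le hc (hF q)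
  have h3 : |F2| ≤ n2 * (2 + q.l) ^ n2 := by
    have := hn2 q 0
    rw [abs_zero, add_zero, iteratedDeriv_succ, iteratedDeriv_one] at this
    exact this
  have h4 : 0 < trM (mm m (s q.i) q.p) q.x q.v q.l - 2 := by linarith [(hC q).1]
  have h5 : 0 < √(2 / F2) := Real.sqrt_pos.2 (by positivity)
  have h6 : B0 (mm m (s q.i) q.p) q.x (q.g • q.x) =
      √(F2 / 2) / √(trM (mm m (s q.i) q.p) q.x q.v q.l - 2) := by
    have h7 : √(2 / F2) * √(F2 / 2) = 1 := by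
      rw [← Real.sqrt_mul (by positivity)]
      have : 2 / F2 * (F2 / 2) = 1 := by field_simp
      rw [this, Real.sqrt_one]
    calc B0 (mm m (s q.i) q.p) q.x (q.g • q.x) =
        (B0 (mm m (s q.i) q.p) q.x (q.g • q.x) * √(2 / F2)) * √(F2 / 2) := by
          rw [mul_assoc, h7, mul_one]
      _ = _ := by
          rw [h1]
          ring
  rw [h6]
  refine div_le_div_of_nonneg_right ?_ (Real.sqrt_nonneg _)
  have h8 : √(F2 / 2) ≤ 1 + F2 := by
    rw [Real.sqrt_le_left (by positivity)]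
    nlinarith
  have h9 : (1 : ℝ) ≤ (2 + q.l) ^ n2 := one_le_pow₀ (by linarith)
  rw [abs_of_pos h2] at h3
  calc √(F2 / 2) ≤ 1 + F2 := h8
    _ ≤ (1 + n2) * (2 + q.l) ^ n2 := by nlinarith
    _ ≤ N * (2 + q.l) ^ N := hN _ (by linarith)

end BE
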