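import Pool.Agent.LibBE99.U1
import Pool.Agent.LibBE99.A0
import Pool.Agent.LibTR29.T5
import Pool.Agent.LibBR73.AN10
import Pool.Agent.LibBR73.AN2

/-! Row U2 (cites A0, U1, `LibTR29/T5`): the integrand `KE`. MEDIUM, 45 min.
`KE m N f τ g x = e^(-iτd) KC m N f τ x (g • x)`, `d = ds m x (g • x)`,
`KC m N f τ x y = Σ_{j ≤ N} UU_j al j f τ (ds m x y)` (`LibBE35/Defs.lean`).
Plan. `KE_zero`: `al_zero`. `KE_re`: `sg (Vx m x y) = (ds m x y) ^ 2` (`sg v = eu v ^ 2`), `ds > 0` (`ds_pos`, `x ≠ g • x`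
for `g ≠ 1`: the action is free, cf. `Axis_ne` or `AN10_pos`, `LibBR73/AN10.lean`), `al_eq` with `r = ds`: the real part of
`UU_j * (e^(-iτd) al j f τ d)` is `UU_j * Ab j (osc f τ) (d ^ 2)`; sum. `KE_deck`: `ds_deck`, `UU_deck`
(`(β * g * β⁻¹) • (β • x) = β • (g • x)`). `KE_cont`: `x ↦ UU_j` continuous (`UU_joint`, `Vd_smooth`,
`LibTR29/T5.lean`), `x ↦ ds m x (g • x)` continuous and positive, `al_smooth` (continuous on `(0, ∞)`). -/

open MeasureTheory Set Filter Topology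
open scoped ContDiff

namespace BE

open BGS BR

variable {Γ : Type} [Group Γ] [MulAction Γ Pl] {D : Set Pl}
variable {ι P : Type} [NormedAddCommGroup P] [NormedSpace ℝ P] [FiniteDimensional ℝ P]
  {m : Pl → Co} {a b : ℝ} {s : ι → P × Pl → ℝ}

private theorem U2_free (hX : Surface Γ D) {g : Γ} {x : Pl} (h : g • x = x) : g = 1 := by
  obtain ⟨γ, hγ, hu⟩ := hX.orbit x
  have h1 : (γ * g) • x ∈ D := by
    rw [mul_smul, h]
    exact hγ
  have h2 : γ * g = γ := hu _ h1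
  exact mul_eq_left.mp h2

theorem free_act (hX : Surface Γ D) {g : Γ} (hg : g ≠ 1) (x : Pl) : x ≠ g • x :=
  fun hx => hg (U2_free hX hx.symm)

theorem KE_zero {m1 : Pl → Co} {N : ℕ} {f : ℝ → ℂ} {ρ M τ : ℝ} (hρ : 0 ≤ ρ) (hf : Amp f ρ M)
    {g : Γ} {x : Pl} (hx : ρ < ds m1 x (g • x)) : KE m1 N f τ g x = 0 := by
  unfold KE KC
  rw [Finset.sum_eq_zero fun j _ => ?_, mul_zero]
  rw [al_zero hρ hf j τ hx, mul_zero]

theorem KE_re (hX : Surface Γ D) {m1 : Pl → Co} (hm : HM Γ m1) (N : ℕ) {f : ℝ → ℂ} {ρ M τ : ℝ}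
    (hρ : 0 ≤ ρ) (hf : Amp f ρ M) {g : Γ} (hg : g ≠ 1) (x : Pl) :
    KK (Gx m1 x) N (osc f τ) (Vx m1 x (g • x)) = (KE m1 N f τ g x).re := by
  have hd : 0 < ds m1 x (g • x) := ds_pos hX hm (free_act hX hg x)
  have hs : sg (Vx m1 x (g • x)) = ds m1 x (g • x) ^ 2 := AN10_sg _
  unfold KE KC KK
  rw [Finset.mul_sum, Complex.re_sum]
  refine Finset.sum_congr rfl fun j _ => ?_
  have h1 := al_eq hρ hf j τ hd
  rw [mul_left_comm, h1, hs, Complex.re_ofReal_mul]
  simp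

theorem KE_deck (h : CF Γ D m a b s) (i : ι) (p : P) (N : ℕ) (f : ℝ → ℂ) (τ : ℝ) (β g : Γ)
    (x : Pl) : KE (mm m (s i) p) N f τ (β * g * β⁻¹) (β • x) = KE (mm m (s i) p) N f τ g x := by
  have h1 : (β * g * β⁻¹) • β • x = β • g • x := by
    rw [← mul_smul, ← mul_smul, inv_mul_cancel_right]
  unfold KE KC
  rw [h1, (ds_deck h.hX h.hO (hm_mm h i p) β x (g • x)).1]
  congr 1
  refine Finset.sum_congr rfl fun j _ => ?_
  rw [UU_deck h]

theorem KE_cont (h : CF Γ D m a b s) (i : ι) (p : P) (N : ℕ) {f : ℝ → ℂ} {ρ M : ℝ}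
    (hρ : 0 ≤ ρ) (hf : Amp f ρ M) (τ : ℝ) {g : Γ} (hg : g ≠ 1) :
    Continuous (KE (mm m (s i) p) N f τ g) := by
  have hm := hm_mm h i p
  have hV : Continuous fun x : Pl => Vx (mm m (s i) p) x (g • x) :=
    (TR.Vd_smooth h.hX hm g).continuous
  have hd : Continuous fun x : Pl => ds (mm m (s i) p) x (g • x) := by
    unfold ds eu
    exact Real.continuous_sqrt.comp
      (((continuous_fst.comp hV).pow 2).add ((continuous_snd.comp hV).pow 2))
  have hU : ∀ j, Continuous fun x : Pl =>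
      UU (Gx (mm m (s i) p) x) j (Vx (mm m (s i) p) x (g • x)) := fun j =>
    (TR.UU_joint h.hX h.hO hm j).continuous.comp (continuous_id.prodMk hV)
  have ha : ∀ j, Continuous fun x : Pl => al j f τ (ds (mm m (s i) p) x (g • x)) := fun j =>
    (al_smooth hρ hf j τ).continuousOn.comp_continuous hd fun x =>
      ds_pos h.hX hm (free_act h.hX hg x)
  have h1 : KE (mm m (s i) p) N f τ g = fun x =>
      Complex.exp (-(Complex.I * τ * ds (mm m (s i) p) x (g • x))) *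
        ∑ j ∈ Finset.range (N + 1),
          ((UU (Gx (mm m (s i) p) x) j (Vx (mm m (s i) p) x (g • x)) : ℝ) : ℂ) *
            al j f τ (ds (mm m (s i) p) x (g • x)) := rfl
  rw [h1]
  refine Continuous.mul ?_ (continuous_finsetSum _ fun j _ => ?_)
  · exact Complex.continuous_exp.comp
      ((continuous_const.mul (Complex.continuous_ofReal.comp hd)).neg)
  · exact (Complex.continuous_ofReal.comp (hU j)).mul (ha j)

end BE
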