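import Pool.Agent.LibBE99.Q2
import Pool.Agent.LibBE99.Q4
import Pool.Agent.LibBE99.A1
import Pool.Agent.LibBE99.U2

/-! Row Q6 (cites A0, A1, Q2, Q4, `LibBR73/AN6`): the integral near the axis. -/

open MeasureTheory Set Filter Topology
open scoped ContDiff

namespace BE

open BGS BR

variable {Γ : Type} [Group Γ] [MulAction Γ Pl] {D : Set Pl}
variable {ι P : Type} [NormedAddCommGroup P] [NormedSpace ℝ P] [FiniteDimensional ℝ P]
  {m : Pl → Co} {a b : ℝ} {s : ι → P × Pl → ℝ}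

private theorem Q6_M {f : ℝ → ℂ} {ρ M : ℝ} (hf : Amp f ρ M) : 0 ≤ M :=
  (norm_nonneg _).trans (hf.bound 0 (by norm_num) 0)

private theorem Q6_pair {q : ℝ → ℝ} {ρ E l : ℝ} (hρ : 0 ≤ ρ) (hq : Tl q ρ) (hl : 0 < l)
    (hE : ∀ σ, 0 < σ → |Ab 1 q σ| ≤ E) : AbPair (Ab 0 q) (Ab 1 q) ρ E l (q l) := by
  refine ⟨fun σ hσ => ?_, ?_, hE, fun σ hσ h => ⟨?_, ?_⟩, ?_, ?_⟩
  · exact Ab_deriv hρ hq 0 hσ
  · exact (Ab_contDiffOn hρ hq 0).continuousOn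
  · exact Ab_supp hρ hq 0 hσ h
  · exact Ab_supp hρ hq 1 hσ h
  · exact (Ab_inv hρ hq hl).1
  · exact (Ab_inv hρ hq hl).2

private theorem Q6_poly (A : ℝ) (k : ℕ) : ∃ N : ℕ, ∀ ρ : ℝ, 0 ≤ ρ →
    A * (1 + ρ) ^ k ≤ N * (1 + ρ) ^ N := by
  obtain ⟨K, hK⟩ := exists_nat_ge |A|
  refine ⟨max K k, fun ρ hρ => ?_⟩
  have h1 : A ≤ ((max K k : ℕ) : ℝ) :=
    (le_abs_self A).trans (hK.trans (by exact_mod_cast le_max_left K k))
  have h2 : (1 + ρ) ^ k ≤ (1 + ρ) ^ (max K k) :=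
    pow_le_pow_right₀ (by linarith) (le_max_right K k)
  calc A * (1 + ρ) ^ k ≤ ((max K k : ℕ) : ℝ) * (1 + ρ) ^ k :=
        mul_le_mul_of_nonneg_right h1 (by positivity)
    _ ≤ _ := mul_le_mul_of_nonneg_left h2 (Nat.cast_nonneg _)

private theorem Q6_en (τ u : ℝ) : ‖Complex.exp (-(Complex.I * τ * u))‖ = 1 := by
  have h : -(Complex.I * τ * u) = ((-(τ * u) : ℝ) : ℂ) * Complex.I := by
    push_cast
    ring
  rw [h, Complex.norm_exp_ofReal_mul_I]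

/-- the bounds of the next Abel transforms. -/
private theorem Q6_E {f : ℝ → ℂ} {ρ M τ B : ℝ} (hρ : 0 ≤ ρ) (hf : Amp f ρ M)
    (hB : ∀ r, 0 < r → ‖al 1 f τ r‖ ≤ B) :
    (∀ σ, 0 < σ → |Ab 1 (osc f τ) σ| ≤ B) ∧ ∀ σ, 0 < σ → |Ab 1 (osc2 f τ) σ| ≤ B := by
  have key : ∀ σ, 0 < σ → ‖((Ab 1 (osc f τ) σ : ℝ) : ℂ) +
      Complex.I * ((Ab 1 (osc2 f τ) σ : ℝ) : ℂ)‖ ≤ B := by
    intro σ hσ
    have h1 := al_eq hρ hf 1 τ (Real.sqrt_pos.mpr hσ)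
    rw [Real.sq_sqrt hσ.le] at h1
    rw [← h1, norm_mul, Q6_en, one_mul]
    exact hB _ (Real.sqrt_pos.mpr hσ)
  constructor
  · intro σ hσ
    refine le_trans ?_ (key σ hσ)
    refine le_trans (le_of_eq ?_) (Complex.abs_re_le_norm _)
    simp
  · intro σ hσ
    refine le_trans ?_ (key σ hσ)
    refine le_trans (le_of_eq ?_) (Complex.abs_im_le_norm _)
    simp

/-- The summand. -/
private noncomputable def Q6_T (c : ℝ) (n : ℕ) (j : ℕ) (q : AxU Γ ι P m s) (f : ℝ → ℂ)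
    (τ : ℝ) (y : ℝ) : ℂ :=
  ((B0 (mm m (s q.i) q.p) q.x (q.g • q.x) : ℝ) : ℂ) *
    (((bq c n q y * uu m (s q.i) j (q.p, q.X y, q.g • q.X y) : ℝ) : ℂ) *
    (Complex.exp (-(Complex.I * τ * Fd (mm m (s q.i) q.p) q.g q.x q.v y)) *
      al j f τ (Fd (mm m (s q.i) q.p) q.g q.x q.v y)))

private theorem Q6_UU (h : CF Γ D m a b s) (j : ℕ) (q : AxU Γ ι P m s) (y : ℝ) :
    UU (Gx (mm m (s q.i) q.p) (q.X y)) j (Vx (mm m (s q.i) q.p) (q.X y) (q.g • q.X y)) =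
      B0 (mm m (s q.i) q.p) (q.X y) (q.g • q.X y) *
        uu m (s q.i) j (q.p, q.X y, q.g • q.X y) := by
  have h1 := uu_UU h q.i j (q.p, q.X y, q.g • q.X y)
  have h2 := uu_UU h q.i 0 (q.p, q.X y, q.g • q.X y)
  rw [uu_zero h, mul_one] at h2
  have h3 : B0 (mm m (s q.i) q.p) (q.X y) (q.g • q.X y) =
      Real.exp (-(ff m (s q.i) (q.p, q.X y, q.g • q.X y) / 2)) := h2
  rw [h3]
  exact h1

private theorem Q6_eq (h : CF Γ D m a b s) {c : ℝ} {n : ℕ} (hb : BQ Γ ι P m s c n) (N : ℕ)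
    (q : AxU Γ ι P m s) (f : ℝ → ℂ) (τ y : ℝ) :
    ((cut (y / q.r c n) : ℝ) : ℂ) * KE (mm m (s q.i) q.p) N f τ q.g (q.X y) *
        ((q.J y : ℝ) : ℂ) = ∑ j ∈ Finset.range (N + 1), Q6_T c n j q f τ y := by
  have h0 := congrArg (fun r : ℝ => (r : ℂ)) (hb.eq q y)
  simp only [Complex.ofReal_mul] at h0
  unfold KE KC
  rw [Finset.mul_sum, Finset.mul_sum, Finset.sum_mul]
  refine Finset.sum_congr rfl fun j _ => ?_
  rw [Q6_UU h j q y]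
  unfold Q6_T
  have hd : ds (mm m (s q.i) q.p) (q.X y) (q.g • q.X y) =
    Fd (mm m (s q.i) q.p) q.g q.x q.v y := rfl
  rw [hd]
  push_cast
  linear_combination (((uu m (s q.i) j (q.p, q.X y, q.g • q.X y) : ℝ) : ℂ) *
    (Complex.exp (-(Complex.I * τ * Fd (mm m (s q.i) q.p) q.g q.x q.v y)) *
      al j f τ (Fd (mm m (s q.i) q.p) q.g q.x q.v y))) * h0

private theorem Q6_pos (h : CF Γ D m a b s) (q : AxU Γ ι P m s) (y : ℝ) :
    0 < Fd (mm m (s q.i) q.p) q.g q.x q.v y := by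
  obtain ⟨C, -, hC⟩ := Fd_growthU (ι := ι) (P := P) h
  exact lt_of_lt_of_le q.ax.pos ((hC q).2.2 y).2.1

private theorem Q6_Fc (h : CF Γ D m a b s) (q : AxU Γ ι P m s) :
    Continuous (fun y => Fd (mm m (s q.i) q.p) q.g q.x q.v y) := by
  have h1 : Continuous (fun y => Fd (mm m (s q.i) q.p) q.g q.x q.v y ^ 2) :=
    ((LQ_F (ι := ι) (P := P) h).smooth (q, 0)).continuous
  have h2 : (fun y => Fd (mm m (s q.i) q.p) q.g q.x q.v y) =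
      fun y => √(Fd (mm m (s q.i) q.p) q.g q.x q.v y ^ 2) := by
    funext y
    rw [Real.sqrt_sq (Q6_pos h q y).le]
  rw [h2]
  exact h1.sqrt

private theorem Q6_cont (h : CF Γ D m a b s) {c : ℝ} {n : ℕ} (hb : BQ Γ ι P m s c n) (j : ℕ)
    (q : AxU Γ ι P m s) {f : ℝ → ℂ} {ρ M : ℝ} (hρ : 0 ≤ ρ) (hf : Amp f ρ M) (τ : ℝ) :
    Continuous (Q6_T c n j q f τ) := by
  have h1 : Continuous (bq c n q) := (hb.lq.smooth (q, 0)).continuous
  have h2 : Continuous (fun y => uu m (s q.i) j (q.p, q.X y, q.g • q.X y)) :=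
    ((LQ_u (ι := ι) (P := P) h j).smooth (q, 0)).continuous
  have h3 := Q6_Fc h q
  have h4 : Continuous (fun y => al j f τ (Fd (mm m (s q.i) q.p) q.g q.x q.v y)) :=
    (al_smooth hρ hf j τ).continuousOn.comp_continuous h3 fun y => Q6_pos h q y
  have h5 : Continuous (fun y => Complex.exp (-(Complex.I * τ *
      Fd (mm m (s q.i) q.p) q.g q.x q.v y))) :=
    Complex.continuous_exp.comp (continuous_const.mul (Complex.continuous_ofReal.comp h3)).neg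
  unfold Q6_T
  exact continuous_const.mul ((Complex.continuous_ofReal.comp (h1.mul h2)).mul (h5.mul h4))

private theorem Q6_r {c : ℝ} {n : ℕ} (hb : BQ Γ ι P m s c n) (q : AxU Γ ι P m s) :
    2 * q.r c n ≤ 1 / 2 := by
  have h1 : (1 : ℝ) ≤ (2 + q.l) ^ n := one_le_pow₀ (by linarith [q.ax.pos])
  have h2 : q.r c n ≤ c := by
    unfold AxU.r
    exact div_le_self hb.c_pos.le h1
  linarith [hb.c_le]

private theorem Q6_zero {c : ℝ} {n : ℕ} (hb : BQ Γ ι P m s c n) (j : ℕ)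
    (q : AxU Γ ι P m s) (f : ℝ → ℂ) (τ : ℝ) {y : ℝ} (hy : y ∉ Icc (-(1 / 2) : ℝ) (1 / 2)) :
    Q6_T c n j q f τ y = 0 := by
  have h1 : 2 * q.r c n < |y| := by
    refine lt_of_le_of_lt (Q6_r hb q) ?_
    rw [lt_abs]
    rw [mem_Icc, not_and_or] at hy
    rcases hy with hy | hy
    · right; linarith
    · left; linarith
  unfold Q6_T
  rw [hb.zero q y h1]
  simp

private theorem Q6_int (h : CF Γ D m a b s) {c : ℝ} {n : ℕ} (hb : BQ Γ ι P m s c n) (j : ℕ)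
    (q : AxU Γ ι P m s) {f : ℝ → ℂ} {ρ M : ℝ} (hρ : 0 ≤ ρ) (hf : Amp f ρ M) (τ : ℝ) :
    Integrable (Q6_T c n j q f τ) :=
  (Q6_cont h hb j q hρ hf τ).integrable_of_hasCompactSupport
    (HasCompactSupport.intro isCompact_Icc fun _ hy => Q6_zero hb j q f τ hy)

private theorem Q6_B0 (q : AxU Γ ι P m s) : 0 ≤ B0 (mm m (s q.i) q.p) q.x (q.g • q.x) :=
  Real.rpow_nonneg (Real.sqrt_nonneg _) _

private theorem Q6_B0' {T : ℝ} {ρ l x : ℝ} {n1 : ℕ} (hl : 0 < l) (hlρ : l ≤ ρ)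
    (hx : x ≤ n1 * (2 + l) ^ n1 / T) (hT : 0 ≤ T) : x ≤ n1 * 2 ^ n1 * (1 + ρ) ^ n1 / T := by
  refine hx.trans (div_le_div_of_nonneg_right ?_ hT)
  rw [mul_assoc, ← mul_pow]
  refine mul_le_mul_of_nonneg_left ?_ (Nat.cast_nonneg _)
  exact pow_le_pow_left₀ (by linarith) (by linarith) _

private theorem Q6_high (h : CF Γ D m a b s) {c : ℝ} {n : ℕ} (hb : BQ Γ ι P m s c n) (j : ℕ)
    (hj : 1 ≤ j) : ∃ (A : ℝ) (k : ℕ), 0 ≤ A ∧
    ∀ (q : AxU Γ ι P m s) (f : ℝ → ℂ) (ρ M τ : ℝ), 0 ≤ ρ → Amp f ρ M → 1 ≤ τ → q.l ≤ ρ →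
      ‖∫ y, Q6_T c n j q f τ y‖ ≤ A * (1 + ρ) ^ k *
        (M / √τ / √(trM (mm m (s q.i) q.p) q.x q.v q.l - 2)) := by
  obtain ⟨n1, hn1⟩ := B0_le (ι := ι) (P := P) h
  obtain ⟨C1, hC10, hC1⟩ := al_small hj
  have hl : ∀ q : AxU Γ ι P m s, 0 ≤ q.l := fun q => q.ax.pos.le
  obtain ⟨n2, hn2⟩ := ((LQ_iff hl).1 (LQ_mul hl hb.lq (LQ_u h j))).2 0
  refine ⟨n1 * 2 ^ n1 * (n2 * 3 ^ n2) * C1, n1 + n2 + 2 * j, by positivity, ?_⟩
  intro q f ρ M τ hρ hf hτ hlρ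
  have hM := Q6_M hf
  have hτ0 : 0 < √τ := Real.sqrt_pos.2 (by linarith)
  set T := √(trM (mm m (s q.i) q.p) q.x q.v q.l - 2) with hT
  have hT0 : 0 ≤ T := Real.sqrt_nonneg _
  have hB := Q6_B0' q.ax.pos hlρ (hn1 q) hT0
  have hbd : ∀ y ∈ Icc (-(1 / 2) : ℝ) (1 / 2), ‖Q6_T c n j q f τ y‖ ≤
      (n1 * 2 ^ n1 * (1 + ρ) ^ n1 / T) * ((n2 * 3 ^ n2 * (1 + ρ) ^ n2) *
        (C1 * M * (ρ + 1) ^ (2 * j) / √τ)) := by
    intro y hy
    unfold Q6_T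
    rw [norm_mul, norm_mul, norm_mul, Q6_en, one_mul, Complex.norm_real, Complex.norm_real,
      Real.norm_of_nonneg (Q6_B0 q)]
    have h1 := hn2 q y
    rw [iteratedDeriv_zero] at h1
    have hy1 : |y| ≤ 1 / 2 := abs_le.2 ⟨by linarith [hy.1], hy.2⟩
    have h2 : ‖bq c n q y * uu m (s q.i) j (q.p, q.X y, q.g • q.X y)‖ ≤
        n2 * 3 ^ n2 * (1 + ρ) ^ n2 := by
      rw [Real.norm_eq_abs]
      refine h1.trans ?_
      rw [mul_assoc, ← mul_pow]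
      refine mul_le_mul_of_nonneg_left ?_ (Nat.cast_nonneg _)
      have h3 := q.ax.pos
      exact pow_le_pow_left₀ (by positivity) (by linarith) _
    have h3 := hC1 f ρ M τ _ hρ hf hτ (Q6_pos h q y)
    have h4 : 0 ≤ C1 * M * (ρ + 1) ^ (2 * j) / √τ := by positivity
    exact mul_le_mul hB (mul_le_mul h2 h3 (norm_nonneg _) (by positivity))
      (mul_nonneg (norm_nonneg _) (norm_nonneg _)) (by positivity)
  rw [← setIntegral_eq_integral_of_forall_compl_eq_zero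
    (s := Icc (-(1 / 2) : ℝ) (1 / 2)) fun y hy => Q6_zero hb j q f τ hy]
  refine (norm_setIntegral_le_of_norm_le_const (by simp [Real.volume_Icc]) hbd).trans
    (le_of_eq ?_)
  have hv : (volume : Measure ℝ).real (Icc (-(1 / 2) : ℝ) (1 / 2)) = 1 := by
    rw [Real.volume_real_Icc_of_le (by norm_num)]
    norm_num
  rw [hv, pow_add, pow_add, add_comm ρ 1]
  ring

private theorem Q6_low (h : CF Γ D m a b s) {c : ℝ} {n : ℕ} (hb : BQ Γ ι P m s c n) :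
    ∃ (A : ℝ) (k : ℕ), 0 ≤ A ∧
    ∀ (q : AxU Γ ι P m s) (f : ℝ → ℂ) (ρ M τ : ℝ), 0 ≤ ρ → Amp f ρ M → 1 ≤ τ → q.l ≤ ρ →
      ‖(∫ y, Q6_T c n 0 q f τ y) - f q.l * Complex.exp (-(Complex.I * τ * q.l)) /
          ((√(trM (mm m (s q.i) q.p) q.x q.v q.l - 2) : ℝ) : ℂ)‖ ≤ A * (1 + ρ) ^ k *
        (M / √τ / √(trM (mm m (s q.i) q.p) q.x q.v q.l - 2)) := by
  obtain ⟨n0, hn0⟩ := abel_lineQ (DQ (ι := ι) (P := P) h) hb.lq
  obtain ⟨n1, hn1⟩ := B0_le (ι := ι) (P := P) h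
  obtain ⟨C1, hC10, hC1⟩ := al_small (j := 1) le_rfl
  refine ⟨n1 * 2 ^ n1 * (2 * (n0 * 2 ^ n0)) * C1, n1 + n0 + 2, by positivity, ?_⟩
  intro q f ρ M τ hρ hf hτ hlρ
  have hM := Q6_M hf
  have hτ0 : 0 < √τ := Real.sqrt_pos.2 (by linarith)
  have hmain := val_main h.hX h.hO (hm_mm h q.i q.p) q.ax
  set T := √(trM (mm m (s q.i) q.p) q.x q.v q.l - 2) with hT
  have hT0 : 0 ≤ T := Real.sqrt_nonneg _
  have hB := Q6_B0' q.ax.pos hlρ (hn1 q) hT0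
  set E := C1 * M * (ρ + 1) ^ (2 * 1) / √τ with hE
  have hE0 : 0 ≤ E := by positivity
  obtain ⟨e1, e2⟩ := Q6_E (τ := τ) (B := E) hρ hf (fun r hr => hC1 f ρ M τ r hρ hf hτ hr)
  have hT1 : Tl (osc f τ) ρ := ⟨osc_smooth hf τ, fun t ht => by
    unfold osc
    rw [hf.supp t (lt_of_lt_of_le ht (le_abs_self t)), mul_zero]
    rfl⟩
  obtain ⟨i1, b1⟩ := hn0 q _ _ ρ E _ hρ (Q6_pair hρ hT1 q.ax.pos e1)
  obtain ⟨i2, b2⟩ := hn0 q _ _ ρ E _ hρ (Q6_pair hρ (osc2_Tl hf τ) q.ax.pos e2)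
  rw [hb.one q, one_mul] at b1 b2
  set R := √(2 / deriv (deriv (fun y => Fd (mm m (s q.i) q.p) q.g q.x q.v y ^ 2)) 0) with hR
  set X1 := ∫ y, bq c n q y * Ab 0 (osc f τ) (Fd (mm m (s q.i) q.p) q.g q.x q.v y ^ 2) with hX1
  set X2 := ∫ y, bq c n q y * Ab 0 (osc2 f τ) (Fd (mm m (s q.i) q.p) q.g q.x q.v y ^ 2) with hX2
  set b0 := B0 (mm m (s q.i) q.p) q.x (q.g • q.x) with hb0
  have hb00 : 0 ≤ b0 := Q6_B0 q
  have hint : (∫ y, Q6_T c n 0 q f τ y) = (b0 : ℂ) * ((X1 : ℂ) + Complex.I * (X2 : ℂ)) := by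
    have h1 : ∀ y, Q6_T c n 0 q f τ y = (b0 : ℂ) *
        (((bq c n q y * Ab 0 (osc f τ) (Fd (mm m (s q.i) q.p) q.g q.x q.v y ^ 2) : ℝ) : ℂ) +
        Complex.I *
        ((bq c n q y * Ab 0 (osc2 f τ) (Fd (mm m (s q.i) q.p) q.g q.x q.v y ^ 2) : ℝ) : ℂ)) := by
      intro y
      unfold Q6_T
      rw [uu_zero h, mul_one, al_eq hρ hf 0 τ (Q6_pos h q y), ← hb0]
      push_cast
      ring
    rw [integral_congr_ae (ae_of_all _ h1), integral_const_mul,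
      integral_add i1.ofReal (i2.ofReal.const_mul _), integral_const_mul,
      integral_complex_ofReal, integral_complex_ofReal]
  have hexp : f q.l * Complex.exp (-(Complex.I * τ * q.l)) =
      ((osc f τ q.l : ℝ) : ℂ) + Complex.I * ((osc2 f τ q.l : ℝ) : ℂ) := by
    unfold osc osc2
    linear_combination -(Complex.re_add_im (Complex.exp (-(Complex.I * τ * q.l)) * f q.l))
  have hT2 : b0 * R = 1 / T := hmain
  have hT3 : ((T : ℝ) : ℂ)⁻¹ = (b0 : ℂ) * (R : ℂ) := by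
    rw [← Complex.ofReal_mul, hT2, one_div, Complex.ofReal_inv]
  have hdiff : (∫ y, Q6_T c n 0 q f τ y) - f q.l * Complex.exp (-(Complex.I * τ * q.l)) /
      ((T : ℝ) : ℂ) = (b0 : ℂ) * (((X1 - R * osc f τ q.l : ℝ) : ℂ) +
        Complex.I * ((X2 - R * osc2 f τ q.l : ℝ) : ℂ)) := by
    rw [hint, hexp, div_eq_mul_inv, hT3]
    push_cast
    ring
  rw [hdiff, norm_mul, Complex.norm_real, Real.norm_of_nonneg hb00]
  have hpl : (2 + q.l + ρ) ^ n0 ≤ 2 ^ n0 * (1 + ρ) ^ n0 := by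
    rw [← mul_pow]
    have h3 := q.ax.pos
    exact pow_le_pow_left₀ (by positivity) (by linarith) _
  have hE1 : (n0 : ℝ) * (2 + q.l + ρ) ^ n0 * E ≤ n0 * 2 ^ n0 * (1 + ρ) ^ n0 * E := by
    refine mul_le_mul_of_nonneg_right ?_ hE0
    rw [mul_assoc]
    exact mul_le_mul_of_nonneg_left hpl (Nat.cast_nonneg _)
  have hn : ‖((X1 - R * osc f τ q.l : ℝ) : ℂ) +
        Complex.I * ((X2 - R * osc2 f τ q.l : ℝ) : ℂ)‖ ≤
      2 * (n0 * 2 ^ n0 * (1 + ρ) ^ n0 * E) := by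
    refine (norm_add_le _ _).trans ?_
    rw [norm_mul, Complex.norm_I, one_mul, Complex.norm_real, Complex.norm_real,
      Real.norm_eq_abs, Real.norm_eq_abs]
    have h1 : |X1 - R * osc f τ q.l| ≤ n0 * 2 ^ n0 * (1 + ρ) ^ n0 * E := b1.trans hE1
    have h2 : |X2 - R * osc2 f τ q.l| ≤ n0 * 2 ^ n0 * (1 + ρ) ^ n0 * E := b2.trans hE1
    linarith
  refine (mul_le_mul hB hn (norm_nonneg _) (by positivity)).trans (le_of_eq ?_)
  rw [hE, pow_add, pow_add, add_comm ρ 1]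
  ring

theorem near_line (h : CF Γ D m a b s) {c : ℝ} {n : ℕ} (hb : BQ Γ ι P m s c n) (N : ℕ) : ∃ C : ℕ,
    ∀ (q : AxU Γ ι P m s) (f : ℝ → ℂ) (ρ M τ : ℝ), 0 ≤ ρ → Amp f ρ M → 1 ≤ τ →
      ‖(∫ y : ℝ, ((cut (y / q.r c n) : ℝ) : ℂ) * KE (mm m (s q.i) q.p) N f τ q.g (q.X y) *
        ((q.J y : ℝ) : ℂ)) - f q.l * Complex.exp (-(Complex.I * τ * q.l)) /
          ((√(trM (mm m (s q.i) q.p) q.x q.v q.l - 2) : ℝ) : ℂ)‖ ≤
      C * (1 + ρ) ^ C * (M / √τ) / √(trM (mm m (s q.i) q.p) q.x q.v q.l - 2) := by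
  classical
  obtain ⟨A0, k0, hA0, h0⟩ := Q6_low h hb
  have hh : ∀ j : ℕ, ∃ (A : ℝ) (k : ℕ), 0 ≤ A ∧
    ∀ (q : AxU Γ ι P m s) (f : ℝ → ℂ) (ρ M τ : ℝ), 0 ≤ ρ → Amp f ρ M → 1 ≤ τ → q.l ≤ ρ →
      ‖∫ y, Q6_T c n (j + 1) q f τ y‖ ≤ A * (1 + ρ) ^ k *
        (M / √τ / √(trM (mm m (s q.i) q.p) q.x q.v q.l - 2)) :=
    fun j => Q6_high h hb (j + 1) (Nat.succ_le_succ (Nat.zero_le j))
  choose A k hA hA1 using hh
  obtain ⟨C, hC⟩ := Q6_poly (A0 + ∑ j ∈ Finset.range N, A j) (k0 + ∑ j ∈ Finset.range N, k j)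
  refine ⟨C, ?_⟩
  intro q f ρ M τ hρ hf hτ
  have hM := Q6_M hf
  have hτ0 : 0 < √τ := Real.sqrt_pos.2 (by linarith)
  rcases lt_or_ge ρ q.l with hlρ | hlρ
  · obtain ⟨Cg, hCg0, hCg⟩ := Fd_growthU (ι := ι) (P := P) h
    have h1 : ∀ y : ℝ, ((cut (y / q.r c n) : ℝ) : ℂ) *
        KE (mm m (s q.i) q.p) N f τ q.g (q.X y) * ((q.J y : ℝ) : ℂ) = 0 := by
      intro y
      have h2 : ρ < ds (mm m (s q.i) q.p) (q.X y) (q.g • q.X y) :=
        lt_of_lt_of_le hlρ ((hCg q).2.2 y).2.1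
      rw [KE_zero hρ hf h2, mul_zero, zero_mul]
    have h3 : f q.l = 0 := hf.supp _ (by rwa [abs_of_pos q.ax.pos])
    rw [integral_congr_ae (ae_of_all _ h1), h3]
    simp only [integral_zero, zero_mul, zero_div, sub_zero, norm_zero]
    positivity
  · set S := M / √τ / √(trM (mm m (s q.i) q.p) q.x q.v q.l - 2) with hS
    have hS0 : 0 ≤ S := by positivity
    have h1 : (∫ y : ℝ, ((cut (y / q.r c n) : ℝ) : ℂ) * KE (mm m (s q.i) q.p) N f τ q.g (q.X y) *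
        ((q.J y : ℝ) : ℂ)) = ∑ j ∈ Finset.range (N + 1), ∫ y, Q6_T c n j q f τ y := by
      rw [integral_congr_ae (ae_of_all _ fun y => Q6_eq h hb N q f τ y)]
      exact integral_finsetSum _ fun j _ => Q6_int h hb j q hρ hf τ
    rw [h1, Finset.sum_range_succ', add_sub_assoc]
    have h2 : ‖∑ j ∈ Finset.range N, ∫ y, Q6_T c n (j + 1) q f τ y‖ ≤
        ∑ j ∈ Finset.range N, A j * (1 + ρ) ^ k j * S :=
      (norm_sum_le _ _).trans (Finset.sum_le_sum fun j _ => hA1 j q f ρ M τ hρ hf hτ hlρ)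
    have hone : (1 : ℝ) ≤ 1 + ρ := by linarith
    have h3 : ∑ j ∈ Finset.range N, A j * (1 + ρ) ^ k j * S ≤
        (∑ j ∈ Finset.range N, A j) * (1 + ρ) ^ (k0 + ∑ j ∈ Finset.range N, k j) * S := by
      rw [Finset.sum_mul, Finset.sum_mul]
      refine Finset.sum_le_sum fun j hj => ?_
      refine mul_le_mul_of_nonneg_right (mul_le_mul_of_nonneg_left ?_ (hA j)) hS0
      refine pow_le_pow_right₀ hone ?_
      exact le_add_left (Finset.single_le_sum (f := k) (fun _ _ => Nat.zero_le _) hj)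
    have h4 : A0 * (1 + ρ) ^ k0 * S ≤ A0 * (1 + ρ) ^ (k0 + ∑ j ∈ Finset.range N, k j) * S :=
      mul_le_mul_of_nonneg_right (mul_le_mul_of_nonneg_left
        (pow_le_pow_right₀ hone (Nat.le_add_right _ _)) hA0) hS0
    have h5 := h0 q f ρ M τ hρ hf hτ hlρ
    have h6 : C * (1 + ρ) ^ C * (M / √τ) / √(trM (mm m (s q.i) q.p) q.x q.v q.l - 2) =
        C * (1 + ρ) ^ C * S := by
      rw [hS, mul_div_assoc]
    rw [h6]
    refine (norm_add_le _ _).trans ?_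
    have h7 := mul_le_mul_of_nonneg_right (hC ρ hρ) hS0
    have h8 : (A0 + ∑ j ∈ Finset.range N, A j) * (1 + ρ) ^ (k0 + ∑ j ∈ Finset.range N, k j) * S =
        A0 * (1 + ρ) ^ (k0 + ∑ j ∈ Finset.range N, k j) * S +
        (∑ j ∈ Finset.range N, A j) * (1 + ρ) ^ (k0 + ∑ j ∈ Finset.range N, k j) * S := by ring
    linarith

end BE
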