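import Pool.Agent.LibBE99.U2
import Pool.Agent.LibBE99.S3
import Pool.Agent.LibBR73.AN8c

/-! Row U3 (cites U2, S3, `LibBR73/AN8b`, `AN8c`): unfolding of a class for the metric `p1` in the Fermi coordinates
of the metric `p0`. MEDIUM, 50 min.
Plan. `unfoldF`: `AN8c_class` with the metric `m0 = mm m (s i) p0` and
`f γ x = F γ x * (√(dt (m1 x)) / √(dt (m0 x)))`, `m1 = mm m (s i) p1`. The quotient is `exp (s i (p1, x) - s i (p0, x))`
(as in `dens_eq`), continuous and `Γ`-invariant (`h.inv`); `f γ x * √(dt (m0 x)) = F γ x * √(dt (m1 x))`. `hR`: if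
`F g (Fm .. (t, r)) ≠ 0` then `ds m1 x (g • x) ≤ ρ` at this point (`hz`), so `|r| ≤ C (1 + ρ)` (`Ax_line`,
`Ax_growth`). The right side of `AN8c_class` is an integral over the strip
`Fm m0 x0 v0 '' (Ico 0 l0 ×ˢ univ) = Us m0 x0 v0 l0`; `strip_int` (`AN8b.lean`) with `G = f g`, and
`f g (Fm ..) * JA .. = F g (Fm ..) * (√(dt (m1 ..)) * |det|)` by `dens_eq`. `0 ≤ l0`: `Cls_len` (`AN7.lean`).
`ZF_own`: `dens_eq` with `p1 = p0` says `√(dt ..) * |det| = JA`; or directly `Fm_det`, `JA_ge` for any `HM` metric. -/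

open MeasureTheory Set Filter Topology
open scoped ContDiff

namespace BE

open BGS BR

variable {Γ : Type} [Group Γ] [MulAction Γ Pl] {D : Set Pl}
variable {ι P : Type} [NormedAddCommGroup P] [NormedSpace ℝ P] [FiniteDimensional ℝ P]
  {m : Pl → Co} {a b : ℝ} {s : ι → P × Pl → ℝ}

omit [NormedAddCommGroup P] [NormedSpace ℝ P] [FiniteDimensional ℝ P] in
theorem U3_dt (s0 : P × Pl → ℝ) (p : P) (z : Pl) :
    √(dt (mm m s0 p z)) = Real.exp (s0 (p, z)) * √(dt (m z)) := by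
  have h1 : dt (mm m s0 p z) = Real.exp (s0 (p, z)) ^ 2 * dt (m z) := by
    unfold mm dt
    simp only [Prod.smul_fst, Prod.smul_snd, smul_eq_mul]
    ring
  rw [h1, Real.sqrt_mul (sq_nonneg _), Real.sqrt_sq (Real.exp_pos _).le]

omit [NormedAddCommGroup P] [NormedSpace ℝ P] [FiniteDimensional ℝ P] in
theorem U3_dt2 (s0 : P × Pl → ℝ) (p0 p1 : P) (z : Pl) :
    √(dt (mm m s0 p1 z)) = Real.exp (s0 (p1, z) - s0 (p0, z)) * √(dt (mm m s0 p0 z)) := by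
  rw [U3_dt, U3_dt, ← mul_assoc, ← Real.exp_add, sub_add_cancel]

theorem U3_R (h : CF Γ D m a b s) (i : ι) {p0 p1 : P} (h0 : ‖p0‖ ≤ 1) (h1 : ‖p1‖ ≤ 1) {g : Γ}
    {x0 v0 : Pl} {l : ℝ} (hA : Axis (mm m (s i) p0) g x0 v0 l) (ρ : ℝ) :
    ∃ R : ℝ, ∀ t y : ℝ, R < |y| → ρ < ds (mm m (s i) p1) (Fm (mm m (s i) p0) x0 v0 (t, y))
      (g • Fm (mm m (s i) p0) x0 v0 (t, y)) := by
  obtain ⟨C, hC, H⟩ := Ax_growth h
  refine ⟨C * (1 + ρ), fun t y hy => ?_⟩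
  obtain ⟨q, e1, e2, e3, e4, e5, e6, e7, e8⟩ := Ax_line h i h0 h1 hA t
  have h2 := ((H q _ _ e7).2 y).1
  have h3 : q.d m s y = ds (mm m (s i) p1) (Fm (mm m (s i) p0) x0 v0 (t, y))
      (g • Fm (mm m (s i) p0) x0 v0 (t, y)) := by
    unfold Ln.d
    rw [e1, e3, e4, e8 y]
  rw [← h3]
  by_contra h4
  rw [not_lt] at h4
  have h5 : C * (1 + q.d m s y) ≤ C * (1 + ρ) := by gcongr
  linarith

theorem unfoldF (h : CF Γ D m a b s) (i : ι) {p0 p1 : P} (h0 : ‖p0‖ ≤ 1) (h1 : ‖p1‖ ≤ 1)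
    {g g0 : Γ} {x0 v0 : Pl} {l l0 : ℝ} (hc : Cls (mm m (s i) p0) g g0 x0 v0 l l0)
    {F : Γ → Pl → ℝ} (hF : ∀ γ, IsConj g γ → Continuous (F γ))
    (heq : ∀ (β γ : Γ) (x : Pl), F (β * γ * β⁻¹) (β • x) = F γ x) {ρ : ℝ}
    (hz : ∀ x, ρ < ds (mm m (s i) p1) x (g • x) → F g x = 0) :
    ∑ᶠ γ ∈ {γ : Γ | IsConj g γ}, ∫ x in D, F γ x * √(dt (mm m (s i) p1 x)) =
      ∫ t in (0 : ℝ)..l0, ∫ y : ℝ, F g (Fm (mm m (s i) p0) x0 v0 (t, y)) *
        (√(dt (mm m (s i) p1 (Fm (mm m (s i) p0) x0 v0 (t, y)))) *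
          |(fderiv ℝ (Fm (mm m (s i) p0) x0 v0) (t, y)).det|) := by
  have hm0 := hm_mm h i p0
  have hE : Continuous fun z : Pl => Real.exp (s i (p1, z) - s i (p0, z)) := by
    have h2 := (h.smooth i).continuous
    fun_prop
  obtain ⟨R, hR⟩ := U3_R h i h0 h1 hc.axis ρ
  have hf : ∀ δ, IsConj g δ →
      Continuous fun z : Pl => F δ z * Real.exp (s i (p1, z) - s i (p0, z)) := fun δ hδ =>
    (hF δ hδ).mul hE
  have hR' : ∀ t y : ℝ, R < |y| → (fun z : Pl => F g z * Real.exp (s i (p1, z) - s i (p0, z)))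
      (Fm (mm m (s i) p0) x0 v0 (t, y)) = 0 := by
    intro t y hy
    show F g _ * _ = 0
    rw [hz _ (hR t y hy), zero_mul]
  have h2 := AN8c_class h.hX h.hO hm0 hc
    (f := fun δ z => F δ z * Real.exp (s i (p1, z) - s i (p0, z))) hf (fun α δ z => by
      show F (α * δ * α⁻¹) (α • z) * _ = F δ z * _
      rw [heq, h.inv, h.inv]) ⟨R, hR'⟩
  have h3 := strip_int h.hX hm0 hc.axis.unit hc.axis0.pos.le (hf g (IsConj.refl g)) hR'
  have h4 : ∑ᶠ γ ∈ {γ : Γ | IsConj g γ}, ∫ x in D, F γ x * √(dt (mm m (s i) p1 x)) =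
      ∑ᶠ γ ∈ {γ : Γ | IsConj g γ}, ∫ z in D, F γ z * Real.exp (s i (p1, z) - s i (p0, z)) *
        √(dt (mm m (s i) p0 z)) := by
    refine finsum_mem_congr rfl fun γ _ => ?_
    congr 1
    funext x
    rw [U3_dt2 (s i) p0 p1 x]
    ring
  rw [h4]
  refine h2.trans ?_
  refine Eq.trans h3 ?_
  congr 1
  funext t
  congr 1
  funext y
  rw [dens_eq h i p0 p1 hc.axis.unit t y]
  ring

theorem ZF_own (hX : Surface Γ D) {m0 : Pl → Co} (hm : HM Γ m0) (N : ℕ) (f : ℝ → ℂ) (τ : ℝ) (g : Γ)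
    {x0 v0 : Pl} (hv : eu v0 = 1) (l0 : ℝ) :
    ZF m0 m0 N f τ g x0 v0 l0 = ZZ m0 N f τ g x0 v0 l0 := by
  unfold ZF ZZ
  congr 1
  funext t
  congr 1
  funext y
  have h1 := Fm_det (x0 := x0) hX hm hv ((t, y) : Pl) rfl
  have h2 : 1 ≤ JA m0 (gfl m0 t (x0, v0)).1 (rot (gfl m0 t (x0, v0)).2) y :=
    JA_ge hX hm (by rw [AN8b_eu_rot, gfl_eu hX hm, hv]) y
  have h3 : 0 ≤ √(dt (m0 (Fm m0 x0 v0 (t, y)))) := Real.sqrt_nonneg _
  have h4 : 0 < (fderiv ℝ (Fm m0 x0 v0) (t, y)).det := by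
    by_contra h
    rw [not_lt] at h
    have h5 : √(dt (m0 (Fm m0 x0 v0 (t, y)))) * (fderiv ℝ (Fm m0 x0 v0) (t, y)).det ≤ 0 :=
      mul_nonpos_of_nonneg_of_nonpos h3 h
    rw [h1] at h5
    linarith
  rw [abs_of_pos h4, h1]

end BE
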