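import Pool.Agent.LibBE99.Defs
import Pool.Agent.LibBR73.AN6
import Pool.Agent.LibBR73.AN9

/-! Row W1 (cites `LibBR73/AN0`-`AN3`, `AN6`, `AN9`): the second derivative of the squared displacement at the
axis is the trace of its Hessian. MEDIUM, 50 min.
`HG m0 g x = B (fr1, fr1) + B (fr2, fr2)`, `B (v, w) = D² f (x) (v, w)`, `f z = ds m0 z (g • z) ^ 2`, `frk = frk (m0 x)`.
Plan. `f` is smooth (`g ≠ 1` acts without fixed points: `Axis_ne`; `AN0_ds_smooth`), `l ^ 2 ≤ f z` for all `z`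
(`displ_ge`, `AN9.lean`, with `γ = g`) and `f = l ^ 2` at all points `c t = (gfl m0 t (x, v)).1` of the axis (`Axis_along`,
`Fd_zero`), so `fderiv ℝ f (c t) = 0` (`IsLocalMin.fderiv_eq_zero`). Differentiating `t ↦ fderiv ℝ f (c t) w = 0` at `t = 0`:
`B (fr v, w) = 0` for all `w` (`c' 0 = fr (m0 x) v`, `AN3_flow`). Along `X y = Xp m0 x v y` (`X' 0 = fr (m0 x) (rot v)`,
`Fm`/`Ex_ray`/`AN3_flow`): `(f ∘ X)' y = fderiv ℝ f (X y) (X' y)`, `(f ∘ X)'' 0 = B (X' 0, X' 0) + fderiv ℝ f x (X'' 0)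
= B (fr (rot v), fr (rot v))`. With `fr c v = v.1 • fr1 c + v.2 • fr2 c`, `v.1 ^ 2 + v.2 ^ 2 = 1` and bilinearity and symmetry
of `B` (`second_derivative_symmetric`-type, or avoid symmetry: the mixed terms of
`B (fr v, fr v) + B (fr (rot v), fr (rot v))` cancel): the sum is `B (fr1, fr1) + B (fr2, fr2)`. Note
`fderiv ℝ (fun z => fderiv ℝ f z w) x v = (fderiv ℝ (fderiv ℝ f) x v) w`. `tr_form`: `val_main` (`AN6.lean`) :
`B0 √(2 / F'' 0) = 1 / √(trM - 2)`, `B0 = wt ^ (-1/2)`, squares: `trM - 2 = F'' 0 * wt / 2`, with `trM > 2`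
(`Fd_growth`) and `F'' 0 > 0`. -/

open MeasureTheory Set Filter Topology
open scoped ContDiff

namespace BE

open BGS BR

variable {Γ : Type} [Group Γ] [MulAction Γ Pl] {D : Set Pl}

/-- The squared displacement. -/
private noncomputable def W1_f (m0 : Pl → Co) (g : Γ) (z : Pl) : ℝ := ds m0 z (g • z) ^ 2

private theorem W1_smooth (hX : Surface Γ D) (hO : Ori Γ) {m0 : Pl → Co} (hm : HM Γ m0) {g : Γ}
    {x v : Pl} {l : ℝ} (hA : Axis m0 g x v l) : ContDiff ℝ ∞ (W1_f m0 g) := by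
  refine contDiff_iff_contDiffAt.2 fun z => ?_
  have hne : z ≠ g • z := fun h => (Axis_ne hX hO hm hA).2 z h.symm
  have h1 := AN0_ds_smooth hX hm (p := (z, g • z)) hne
  have h2 : ContDiffAt ℝ ∞ (fun w : Pl => (w, g • w)) z :=
    (contDiff_id.prodMk (hX.smooth g)).contDiffAt
  have h3 : ContDiffAt ℝ ∞ (fun w : Pl => ds m0 w (g • w)) z :=
    ContDiffAt.comp (g := fun q : Pl × Pl => ds m0 q.1 q.2) (f := fun w : Pl => (w, g • w)) z h1 h2
  exact h3.pow 2

private theorem W1_d1 {f : Pl → ℝ} (hf : ContDiff ℝ ∞ f) : ContDiff ℝ ∞ (fderiv ℝ f) :=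
  hf.fderiv_right (by simp)

/-- The second derivative along a curve. -/
private theorem W1_second {f : Pl → ℝ} (hf : ContDiff ℝ ∞ f) {c : ℝ → Pl}
    (hc : ContDiff ℝ ∞ c) (t : ℝ) :
    deriv (deriv (fun t => f (c t))) t =
      fderiv ℝ (fderiv ℝ f) (c t) (deriv c t) (deriv c t) +
        fderiv ℝ f (c t) (deriv (deriv c) t) := by
  have hdf : Differentiable ℝ f := hf.differentiable (by simp)
  have hdc : Differentiable ℝ c := hc.differentiable (by simp)
  have hddf : Differentiable ℝ (fderiv ℝ f) := (W1_d1 hf).differentiable (by simp)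
  have hc1 : ContDiff ℝ ∞ (deriv c) := (contDiff_infty_iff_deriv.1 hc).2
  have hddc : Differentiable ℝ (deriv c) := hc1.differentiable (by simp)
  have h1 : deriv (fun t => f (c t)) = fun t => fderiv ℝ f (c t) (deriv c t) := by
    funext r
    exact ((hdf (c r)).hasFDerivAt.comp_hasDerivAt r (hdc r).hasDerivAt).deriv
  rw [h1]
  have h2 : HasDerivAt (fun t => fderiv ℝ f (c t)) (fderiv ℝ (fderiv ℝ f) (c t) (deriv c t)) t :=
    (hddf (c t)).hasFDerivAt.comp_hasDerivAt t (hdc t).hasDerivAt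
  exact (h2.clm_apply (hddc t).hasDerivAt).deriv

private theorem W1_curve (hX : Surface Γ D) {m0 : Pl → Co} (hm : HM Γ m0) (a : Pl × Pl) :
    ContDiff ℝ ∞ (fun t => (gfl m0 t a).1) := by
  have h1 : ContDiff ℝ ∞ (fun t : ℝ => gfl m0 t a) :=
    (gfl_smooth hX hm).comp (contDiff_id.prodMk contDiff_const)
  exact h1.fst

theorem F2_hess (hX : Surface Γ D) (hO : Ori Γ) {m0 : Pl → Co} (hm : HM Γ m0) {g : Γ}
    {x v : Pl} {l : ℝ} (hA : Axis m0 g x v l) :
    deriv (deriv (fun y => Fd m0 g x v y ^ 2)) 0 = HG m0 g x := by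
  have hf := W1_smooth hX hO hm hA
  have hdf : Differentiable ℝ (W1_f m0 g) := hf.differentiable (by simp)
  have hddf : Differentiable ℝ (fderiv ℝ (W1_f m0 g)) := (W1_d1 hf).differentiable (by simp)
  -- the derivative vanishes along the axis
  have hz : ∀ t, fderiv ℝ (W1_f m0 g) (gfl m0 t (x, v)).1 = 0 := by
    intro t
    refine IsLocalMin.fderiv_eq_zero (Filter.Eventually.of_forall fun z => ?_)
    have h1 : W1_f m0 g (gfl m0 t (x, v)).1 = l ^ 2 := by
      have h2 := Fd_zero hX hO hm (Axis_along hX hO hm hA t)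
      have h3 : Fd m0 g (gfl m0 t (x, v)).1 (gfl m0 t (x, v)).2 0 =
          ds m0 (gfl m0 t (x, v)).1 (g • (gfl m0 t (x, v)).1) := by
        unfold Fd Xp
        rw [zero_smul, Ex_zero hX hm]
      unfold W1_f
      rw [← h3, h2.1]
    show W1_f m0 g (gfl m0 t (x, v)).1 ≤ W1_f m0 g z
    rw [h1]
    exact pow_le_pow_left₀ hA.pos.le (displ_ge hX hO hm hA (IsConj.refl g) z) 2
  have hid : ∀ p, gfl m0 0 p = p := (gfl_isFlow hX hm).zero
  -- the Hessian vanishes in the direction of the axis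
  have hB : fderiv ℝ (fderiv ℝ (W1_f m0 g)) x (fr (m0 x) v) = 0 := by
    have h1 := (AN3_flow hX hm (x, v) 0).1
    rw [hid] at h1
    have h2 : HasDerivAt (fun t => fderiv ℝ (W1_f m0 g) (gfl m0 t (x, v)).1)
        (fderiv ℝ (fderiv ℝ (W1_f m0 g)) x (fr (m0 x) v)) 0 := by
      have h3 : HasFDerivAt (fderiv ℝ (W1_f m0 g))
          (fderiv ℝ (fderiv ℝ (W1_f m0 g)) x) ((fun t => (gfl m0 t (x, v)).1) 0) := by
        simp only [hid]
        exact (hddf x).hasFDerivAt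
      exact h3.comp_hasDerivAt (0 : ℝ) h1
    have h4 : (fun t => fderiv ℝ (W1_f m0 g) (gfl m0 t (x, v)).1) = fun _ => 0 := funext hz
    rw [h4] at h2
    exact h2.unique (hasDerivAt_const _ _)
  have hx0 : fderiv ℝ (W1_f m0 g) x = 0 := by
    have h1 := hz 0
    rwa [hid] at h1
  -- the curve perpendicular to the axis
  have hF : (fun y => Fd m0 g x v y ^ 2) = fun y => W1_f m0 g (gfl m0 y (x, rot v)).1 := by
    funext y
    unfold Fd W1_f Xp
    rw [Ex_ray hX hm]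
  have hc := W1_curve hX hm (x, rot v)
  have hc0 : deriv (fun t => (gfl m0 t (x, rot v)).1) 0 = fr (m0 x) (rot v) := by
    have h1 := (AN3_flow hX hm (x, rot v) 0).1
    rw [hid] at h1
    exact h1.deriv
  rw [hF, W1_second hf hc 0, hc0, hid]
  simp only [hx0]
  rw [show (0 : Pl →L[ℝ] ℝ) (deriv (deriv fun t => (gfl m0 t (x, rot v)).1) 0) = 0 from rfl,
    add_zero]
  -- the trace
  set B := fderiv ℝ (fderiv ℝ (W1_f m0 g)) x with hBdef
  have hH : HG m0 g x = B (fr1 (m0 x)) (fr1 (m0 x)) + B (fr2 (m0 x)) (fr2 (m0 x)) := by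
    have h1 : ∀ w : Pl, fderiv ℝ (fun z => fderiv ℝ (fun w : Pl => ds m0 w (g • w) ^ 2) z w) x w =
        B w w := by
      intro w
      have h2 : HasFDerivAt (fun z => fderiv ℝ (W1_f m0 g) z w)
          ((fderiv ℝ (fderiv ℝ (W1_f m0 g)) x).flip w) x := by
        have h3 := (hddf x).hasFDerivAt.clm_apply (hasFDerivAt_const w x)
        refine h3.congr_fderiv ?_
        ext <;> simp
      have h4 : fderiv ℝ (fun z => fderiv ℝ (W1_f m0 g) z w) x w =
        ((fderiv ℝ (fderiv ℝ (W1_f m0 g)) x).flip w) w := by rw [h2.fderiv]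
      exact h4
    unfold HG
    rw [h1, h1]
  rw [hH]
  have hv := AN0_sq hA.unit
  have e1 : B (fr (m0 x) v) = v.1 • B (fr1 (m0 x)) + v.2 • B (fr2 (m0 x)) := by
    unfold fr
    rw [map_add, map_smul, map_smul]
  rw [e1] at hB
  have ha := congrArg (fun L : Pl →L[ℝ] ℝ => L (fr1 (m0 x))) hB
  have hb := congrArg (fun L : Pl →L[ℝ] ℝ => L (fr2 (m0 x))) hB
  simp only [_root_.add_apply, _root_.smul_apply, smul_eq_mul,
    _root_.zero_apply] at ha hb
  have e2 : B (fr (m0 x) (rot v)) (fr (m0 x) (rot v)) =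
      v.2 ^ 2 * B (fr1 (m0 x)) (fr1 (m0 x)) - v.1 * v.2 * (B (fr1 (m0 x)) (fr2 (m0 x)) +
        B (fr2 (m0 x)) (fr1 (m0 x))) + v.1 ^ 2 * B (fr2 (m0 x)) (fr2 (m0 x)) := by
    unfold fr rot
    simp only [map_add, map_smul, _root_.add_apply, _root_.smul_apply,
      smul_eq_mul]
    ring
  rw [e2]
  linear_combination (-v.1) * ha - v.2 * hb + (B (fr1 (m0 x)) (fr1 (m0 x)) + B (fr2 (m0 x)) (fr2 (m0 x))) * hv

theorem tr_form (hX : Surface Γ D) (hO : Ori Γ) {m0 : Pl → Co} (hm : HM Γ m0) {g : Γ}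
    {x v : Pl} {l : ℝ} (hA : Axis m0 g x v l) :
    trM m0 x v l - 2 = HG m0 g x * wt (Gx m0 x) (Vx m0 x (g • x)) / 2 := by
  rw [← F2_hess hX hO hm hA, val_Fd2 hX hO hm hA]
  have hl := hA.pos
  have hJ : 0 < JB m0 x v l := lt_of_lt_of_le hl (JB_ge hX hm (x := x) hA.unit hl.le).1
  have h1 : g • x = Ex m0 x (l • v) := by
    rw [Ex_ray hX hm, hA.per]
  have h2 : Vx m0 x (g • x) = l • v := by
    rw [h1, Vx_Ex hX hm]
  have h3 : wt (Gx m0 x) (Vx m0 x (g • x)) = JB m0 x v l / l := by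
    unfold wt Gx
    rw [h2, mE_dt hX hm hA.unit hA.pos, Real.sqrt_sq (by positivity)]
  rw [h3]
  field_simp

end BE
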