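import Pool.Agent.LibBE99.L0

/-! Row W2 (cites L0, `LibBE88/A1`): the Hessian trace as a function of the parameter and the point.
MEDIUM, 40 min.
Plan. Put `G i g e = ds (mm m (s i) e.1) e.2 (g • e.2) ^ 2` (`A1K_d2`). For fixed `p` and a vector `w`:
`fderiv ℝ (fun z => G i g (p, z)) z w = fderiv ℝ (G i g) (p, z) (0, w)` (chain rule), so
`fderiv ℝ (fun z => fderiv ℝ (fun z' => G i g (p, z')) z w) x w = fderiv ℝ (fun e => fderiv ℝ (G i g) e (0, w)) (p, x) (0, w)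
= (fderiv ℝ (fderiv ℝ (G i g)) (p, x) (0, w)) (0, w)`, evaluated at `w = fr1 (mm m (s i) p x)`: class `EB`: `EB_fderiv` twice,
`EB_clm_apply` with the family `e ↦ (0, fr1 (mm m (s i) e.1 e.2))`: `fr1 c = (1 / √c.1, 0)`,
`fr2 c = (-(c.2.1 / (√c.1 * √(dt c))), √c.1 / √(dt c))`: `EB0_mm` (`LibBE88/A1`, index pulled back from `Lx ι P K`), `EB_rpow`,
`EB_inv`, `EB_mul`, bounds from below `mm_low`; scale `0` to the scale `log (2 + d)` by `EB_pull`. -/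

open MeasureTheory Set Filter Topology
open scoped ContDiff

namespace BE

open BGS BR

variable {Γ : Type} [Group Γ] [MulAction Γ Pl] {D K : Set Pl}
variable {ι P : Type} [NormedAddCommGroup P] [NormedSpace ℝ P] [FiniteDimensional ℝ P]
  {m : Pl → Co} {a b : ℝ} {s : ι → P × Pl → ℝ}

private theorem W2_one {E F : Type} [NormedAddCommGroup E] [NormedSpace ℝ E]
    [NormedAddCommGroup F] [NormedSpace ℝ F] {G : E × F → ℝ} (hG : ContDiff ℝ ∞ G) (p : E)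
    (x v : F) :
    fderiv ℝ (fun z => fderiv ℝ (fun w => G (p, w)) z v) x v =
      (fderiv ℝ (fderiv ℝ G) (p, x) (0, v)) (0, v) := by
  have hi : ∀ x : F, HasFDerivAt (fun w : F => ((p, w) : E × F)) (ContinuousLinearMap.inr ℝ E F) x :=
    fun x => (hasFDerivAt_prodMk_right p x)
  have hd : Differentiable ℝ G := hG.differentiable (by simp)
  have h1 : ∀ z, fderiv ℝ (fun w => G (p, w)) z v = fderiv ℝ G (p, z) (0, v) := by
    intro z
    have h := ((hd (p, z)).hasFDerivAt.comp z (hi z)).fderiv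
    have h' : fderiv ℝ (fun w => G (p, w)) z = (fderiv ℝ G (p, z)).comp
        (ContinuousLinearMap.inr ℝ E F) := h
    rw [h']
    rfl
  simp only [h1]
  have hd2 : Differentiable ℝ (fderiv ℝ G) :=
    (hG.fderiv_right (m := ∞) (by simp)).differentiable (by simp)
  have h2 : HasFDerivAt (fun z => fderiv ℝ G (p, z)) ((fderiv ℝ (fderiv ℝ G) (p, x)).comp
      (ContinuousLinearMap.inr ℝ E F)) x :=
    HasFDerivAt.comp x (hd2 (p, x)).hasFDerivAt (hi x)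
  have h3 := (h2.clm_apply (hasFDerivAt_const ((0, v) : E × F) x)).fderiv
  rw [h3]
  simp

private theorem W2_co (h : CF Γ D m a b s) (hK : IsCompact K) :
    EB (fun q : Jx ι P Γ K => Real.log (2 + q.d m s)) (fun q e => mm m (s q.i) e.1 e.2) Jx.b := by
  have h1 := EB_pull (fun _ => le_refl _) (EB0_mm h hK)
    (fun q : Jx ι P Γ K => (⟨q.i, q.p, q.x, q.x, q.hp, q.hx, q.hx⟩ : Lx ι P K))
    (A1K_nn m s) (A := 0) (fun q => by simp)
  exact h1

private theorem W2_fr (h : CF Γ D m a b s) (hK : IsCompact K) :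
    EB (fun q : Jx ι P Γ K => Real.log (2 + q.d m s))
      (fun q e => fr1 (mm m (s q.i) e.1 e.2)) Jx.b ∧
    EB (fun q : Jx ι P Γ K => Real.log (2 + q.d m s))
      (fun q e => fr2 (mm m (s q.i) e.1 e.2)) Jx.b := by
  have hn := A1K_nn (Γ := Γ) (K := K) m s
  have hc := W2_co h hK
  have c1 : EB (fun q : Jx ι P Γ K => Real.log (2 + q.d m s))
      (fun q e => (mm m (s q.i) e.1 e.2).1) Jx.b :=
    EB_clm hn hc (ContinuousLinearMap.fst ℝ ℝ (ℝ × ℝ))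
  have c2 : EB (fun q : Jx ι P Γ K => Real.log (2 + q.d m s))
      (fun q e => (mm m (s q.i) e.1 e.2).2.1) Jx.b :=
    EB_clm hn hc ((ContinuousLinearMap.fst ℝ ℝ ℝ).comp (ContinuousLinearMap.snd ℝ ℝ (ℝ × ℝ)))
  have c3 : EB (fun q : Jx ι P Γ K => Real.log (2 + q.d m s))
      (fun q e => (mm m (s q.i) e.1 e.2).2.2) Jx.b :=
    EB_clm hn hc ((ContinuousLinearMap.snd ℝ ℝ ℝ).comp (ContinuousLinearMap.snd ℝ ℝ (ℝ × ℝ)))
  have cd : EB (fun q : Jx ι P Γ K => Real.log (2 + q.d m s))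
      (fun q e => dt (mm m (s q.i) e.1 e.2)) Jx.b := by
    have h1 := EB_sub hn (EB_mul hn c1 c3) (EB_mul hn c2 c2)
    have h2 : (fun (q : Jx ι P Γ K) (e : P × Pl) => dt (mm m (s q.i) e.1 e.2)) =
        fun q e => (mm m (s q.i) e.1 e.2).1 * (mm m (s q.i) e.1 e.2).2.2 -
          (mm m (s q.i) e.1 e.2).2.1 * (mm m (s q.i) e.1 e.2).2.1 := by
      funext q e
      rw [dt, pow_two]
    rw [h2]
    exact h1
  obtain ⟨c, hc0, hlow⟩ := mm_low h hK
  have p1 : ∀ (q : Jx ι P Γ K) (e : P × Pl), 0 < (mm m (s q.i) e.1 e.2).1 :=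
    fun q e => ((hm_mm h q.i e.1).pos e.2).1
  have pd : ∀ (q : Jx ι P Γ K) (e : P × Pl), 0 < dt (mm m (s q.i) e.1 e.2) :=
    fun q e => ((hm_mm h q.i e.1).pos e.2).2
  have hb : ∀ (t : ℝ), c ≤ t → ∀ q : Jx ι P Γ K, |t|⁻¹ ≤ c⁻¹ * Real.exp (c⁻¹ * Real.log (2 + q.d m s)) := by
    intro t ht q
    have ht0 : 0 < t := lt_of_lt_of_le hc0 ht
    rw [abs_of_pos ht0]
    refine (inv_anti₀ hc0 ht).trans (le_mul_of_one_le_right (by positivity) ?_)
    exact Real.one_le_exp (mul_nonneg (by positivity) (hn q))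
  have b1 : ∀ q : Jx ι P Γ K, |(mm m (s q.i) (Jx.b q).1 (Jx.b q).2).1|⁻¹ ≤
      c⁻¹ * Real.exp (c⁻¹ * Real.log (2 + q.d m s)) := fun q =>
    hb _ (hlow (⟨q.i, q.p, q.x, q.x, q.hp, q.hx, q.hx⟩ : Lx ι P K)).1 q
  have bd : ∀ q : Jx ι P Γ K, |dt (mm m (s q.i) (Jx.b q).1 (Jx.b q).2)|⁻¹ ≤
      c⁻¹ * Real.exp (c⁻¹ * Real.log (2 + q.d m s)) := fun q =>
    hb _ (hlow (⟨q.i, q.p, q.x, q.x, q.hp, q.hx, q.hx⟩ : Lx ι P K)).2 q
  have r1 := EB_rpow hn c1 p1 b1 (-(1 / 2))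
  have r1' := EB_rpow hn c1 p1 b1 (1 / 2)
  have rd := EB_rpow hn cd pd bd (-(1 / 2))
  have e1 : ∀ t : ℝ, 0 < t → t ^ (-(1 / 2) : ℝ) = (√t)⁻¹ := by
    intro t ht
    rw [Real.rpow_neg ht.le, Real.sqrt_eq_rpow]
  constructor
  · have h1 := EB_prod hn r1 (EB_const hn (x := Jx.b) (c := fun _ : Jx ι P Γ K => (0 : ℝ)) (C := 0)
      (fun q => by simp))
    have h2 : (fun (q : Jx ι P Γ K) (e : P × Pl) => fr1 (mm m (s q.i) e.1 e.2)) =
        fun q e => ((mm m (s q.i) e.1 e.2).1 ^ (-(1 / 2) : ℝ), (0 : ℝ)) := by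
      funext q e
      rw [fr1, e1 _ (p1 q e), one_div]
    rw [h2]
    exact h1
  · have h1 := EB_prod hn (EB_clm hn (EB_mul hn c2 (EB_mul hn r1 rd))
      (-(ContinuousLinearMap.id ℝ ℝ))) (EB_mul hn r1' rd)
    have h2 : (fun (q : Jx ι P Γ K) (e : P × Pl) => fr2 (mm m (s q.i) e.1 e.2)) =
        fun q e => ((-(ContinuousLinearMap.id ℝ ℝ)) ((mm m (s q.i) e.1 e.2).2.1 *
          ((mm m (s q.i) e.1 e.2).1 ^ (-(1 / 2) : ℝ) *
            dt (mm m (s q.i) e.1 e.2) ^ (-(1 / 2) : ℝ))),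
          (mm m (s q.i) e.1 e.2).1 ^ (1 / 2 : ℝ) * dt (mm m (s q.i) e.1 e.2) ^ (-(1 / 2) : ℝ)) := by
      funext q e
      rw [fr2, e1 _ (p1 q e), e1 _ (pd q e), ← Real.sqrt_eq_rpow]
      simp only [ContinuousLinearMap.neg_apply, ContinuousLinearMap.id_apply]
      rw [← mul_inv, ← div_eq_mul_inv, ← div_eq_mul_inv]
    rw [h2]
    exact h1

theorem A1K_HG (h : CF Γ D m a b s) (hK : IsCompact K) :
    A1K Γ K m s (fun i g e => HG (mm m (s i) e.1) g e.2) := by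
  have hn := A1K_nn (Γ := Γ) (K := K) m s
  have hd := A1K_d2 h hK
  unfold A1K at hd ⊢
  obtain ⟨hf1, hf2⟩ := W2_fr h hK
  have h2 := EB_fderiv (EB_fderiv hd)
  have hz : ∀ {f : Jx ι P Γ K → P × Pl → Pl},
      EB (fun q : Jx ι P Γ K => Real.log (2 + q.d m s)) f Jx.b →
      EB (fun q : Jx ι P Γ K => Real.log (2 + q.d m s))
        (fun q e => (((0 : P), f q e) : P × Pl)) Jx.b := fun {f} hf =>
    EB_prod hn (EB_const hn (x := Jx.b) (c := fun _ : Jx ι P Γ K => (0 : P)) (C := 0)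
      (fun q => by simp)) hf
  have g1 := EB_clm_apply hn (EB_clm_apply hn h2 (hz hf1)) (hz hf1)
  have g2 := EB_clm_apply hn (EB_clm_apply hn h2 (hz hf2)) (hz hf2)
  have h3 := EB_add hn g1 g2
  have h4 : (fun (q : Jx ι P Γ K) (e : P × Pl) => HG (mm m (s q.i) e.1) q.g e.2) =
      fun q e => (fderiv ℝ (fderiv ℝ fun e : P × Pl =>
          ds (mm m (s q.i) e.1) e.2 (q.g • e.2) ^ 2) e (0, fr1 (mm m (s q.i) e.1 e.2)))
          (0, fr1 (mm m (s q.i) e.1 e.2)) +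
        (fderiv ℝ (fderiv ℝ fun e : P × Pl =>
          ds (mm m (s q.i) e.1) e.2 (q.g • e.2) ^ 2) e (0, fr2 (mm m (s q.i) e.1 e.2)))
          (0, fr2 (mm m (s q.i) e.1 e.2)) := by
    funext q e
    have hG := hd.smooth q
    rw [HG]
    have k1 := W2_one hG e.1 e.2 (fr1 (mm m (s q.i) e.1 e.2))
    have k2 := W2_one hG e.1 e.2 (fr2 (mm m (s q.i) e.1 e.2))
    exact congrArg₂ (· + ·) k1 k2
  show EB _ (fun (q : Jx ι P Γ K) (e : P × Pl) => HG (mm m (s q.i) e.1) q.g e.2) _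
  rw [h4]
  exact h3

end BE
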