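import Pool.Agent.LibBE99.L3
import Pool.Agent.LibBR73.AN9

/-! Row W3 (cites L3, S0, S3, `LibBR73/AN1`, `AN3`, `AN9`): lengths and axes of two metrics of the family. MEDIUM, 50 min.
Plan. `l = ds m0 x0 (g • x0)`, `l1 = ds m1 x1 (g • x1)` (`Fd_zero`), `l ≤ ds m0 z (g • z)`, `l1 ≤ ds m1 z (g • z)` for all `z`
(`displ_ge`, `γ = g`); `m0 = mm m (s i) p0`, `m1 = mm m (s i) p1`. `disp_diff`: `along_diff` with `k = 0` for
`G i g e = ds .. ^ 2` (`A1K_d2`, scale `log (2 + ds)` as in L3) on any line through `z` at `y = 0`, `|d1 - d0| = |d1 ^ 2 - d0 ^ 2| / (d1 + d0)`,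
`d1 ≥ c` (`ds_low`); or from `par_ds` (`LibBE88/V12`) and the mean value theorem. So with `ε = ‖p1 - p0‖`:
`l1 ≤ ds m1 x0 (g • x0) ≤ l + n (2 + ds m1 x0 (g • x0))^n ε ≤ l + n' (1 + l)^n' ε` (`ds m1 x0 (g • x0) ≤ C l`, `ds_cmp2`), and
symmetrically `l ≤ l1 + n' (1 + l1)^n' ε` with `l1 ≤ C l`. AXES: `x1 = Fm m0 x0 v0 (t, y)` for some `(t, y)` (`Fm_bij`, `LibBR73/AN1.lean`); the line
`q` of `Ax_line` at `t` has `q.X m s y = x1`, and `q.d m s y' ≥ l1 = q.d m s y` for all `y'`: minimum, so `deriv (q.d m s) y = 0`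
(`IsLocalMin.deriv_eq_zero`). `Ax_phase`: `min (c |y|) 1 ≤ n (2 + l1)^n ε ≤ n' (1 + l)^n' ε`; for `n' (1 + l)^n' ε < 1` (enlarge `n'` in the
hypothesis) this gives `c |y| ≤ n' (1 + l)^n' ε`. -/

open MeasureTheory Set Filter Topology
open scoped ContDiff

namespace BE

open BGS BR

variable {Γ : Type} [Group Γ] [MulAction Γ Pl] {D : Set Pl}
variable {ι P : Type} [NormedAddCommGroup P] [NormedSpace ℝ P] [FiniteDimensional ℝ P]
  {m : Pl → Co} {a b : ℝ} {s : ι → P × Pl → ℝ}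

private theorem W3_conv {C K X : ℝ} {n : ℕ} (hK : 1 ≤ K) (hn : K * |C| ≤ n) (hX : 2 ≤ X) :
    K * (C * Real.exp (C * Real.log X)) ≤ n * X ^ n := by
  have h0 : 0 ≤ Real.log X := Real.log_nonneg (by linarith)
  have ha : 0 ≤ |C| := abs_nonneg C
  have h1 : C ≤ n := (le_abs_self C).trans (by nlinarith)
  have h2 : K * C ≤ n := le_trans (mul_le_mul_of_nonneg_left (le_abs_self C) (by linarith)) hn
  have h3 : Real.exp (n * Real.log X) = X ^ n := by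
    rw [Real.exp_nat_mul, Real.exp_log (by linarith)]
  rw [← h3, ← mul_assoc]
  calc K * C * Real.exp (C * Real.log X) ≤ n * Real.exp (C * Real.log X) :=
        mul_le_mul_of_nonneg_right h2 (Real.exp_pos _).le
    _ ≤ n * Real.exp (n * Real.log X) :=
        mul_le_mul_of_nonneg_left (Real.exp_le_exp.2 (mul_le_mul_of_nonneg_right h1 h0))
          (Nat.cast_nonneg n)

private theorem W3_ds0 (m : Pl → Co) (x y : Pl) : 0 ≤ ds m x y := Real.sqrt_nonneg _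

private theorem W3_hLp (h : CF Γ D m a b s) : ∃ A : ℝ, ∀ (i : ι) (p p' : P) (g : Γ) (x : Pl),
    ‖p‖ ≤ 1 → ‖p'‖ ≤ 1 → Real.log (2 + ds (mm m (s i) p) x (g • x)) ≤
      A * (1 + Real.log (2 + ds (mm m (s i) p') x (g • x))) := by
  obtain ⟨C, hC1, hC⟩ := ds_cmp2 h
  refine ⟨Real.log C + 1, fun i p p' g x hp hp' => ?_⟩
  have h0 := W3_ds0 (mm m (s i) p) x (g • x)
  have h1 := W3_ds0 (mm m (s i) p') x (g • x)
  have h2 := hC i p p' hp hp' x (g • x)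
  have hlC : 0 ≤ Real.log C := Real.log_nonneg hC1
  have hl' : 0 ≤ Real.log (2 + ds (mm m (s i) p') x (g • x)) := Real.log_nonneg (by linarith)
  have h3 : Real.log (2 + ds (mm m (s i) p) x (g • x)) ≤
      Real.log C + Real.log (2 + ds (mm m (s i) p') x (g • x)) := by
    rw [← Real.log_mul (by linarith) (by linarith)]
    exact Real.log_le_log (by linarith) (by nlinarith)
  nlinarith

theorem disp_diff (h : CF Γ D m a b s) : ∃ n : ℕ, ∀ (i : ι) (p0 p1 : P), ‖p0‖ ≤ 1 → ‖p1‖ ≤ 1 →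
    ∀ (g : Γ) (z : Pl), g ≠ 1 →
      |ds (mm m (s i) p1) z (g • z) - ds (mm m (s i) p0) z (g • z)| ≤
        n * (2 + ds (mm m (s i) p0) z (g • z)) ^ n * ‖p1 - p0‖ := by
  obtain ⟨c, hc, hlow⟩ := ds_low h
  have hdk : Dk Γ (fun (i : ι) (e : P × Pl × Pl) => ds (mm m (s i) e.1) e.2.1 e.2.2 ^ 2) := by
    intro i p γ x z
    have := Dk_ds h i p γ x z
    simp only at this ⊢
    rw [this]
  obtain ⟨C, hC⟩ := along_diff (F := ℝ) h
    (L := fun i p (g : Γ) x => Real.log (2 + ds (mm m (s i) p) x (g • x)))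
    (fun i p g x => Real.log_nonneg (by have := W3_ds0 (mm m (s i) p) x (g • x); linarith))
    (fun i p g β x => by
      have h1 : (β * g * β⁻¹) • (β • x) = β • (g • x) := by
        rw [← mul_smul, ← mul_smul]
        congr 1
        group
      rw [h1, (ds_deck h.hX h.hO (hm_mm h i p) β x (g • x)).1])
    (W3_hLp h) (Eqv_of hdk) (A1K_d2 h h.hX.bdd.isCompact_closure) 0
  set K : ℝ := max 1 c⁻¹ with hK
  have hK1 : 1 ≤ K := le_max_left _ _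
  refine ⟨⌈K * |C|⌉₊, fun i p0 p1 hp0 hp1 g z hg => ?_⟩
  have hu : eu ((1, 0) : Pl) = 1 := by simp [eu]
  have h1 := hC ⟨i, p1, p0, g, z, (1, 0), hp1, hp0, hg, hu⟩ 0
  have hX0 : Ln.X m s (⟨i, p1, p0, g, z, (1, 0), hp1, hp0, hg, hu⟩ : Ln ι P Γ) 0 = z := by
    unfold Ln.X
    rw [(gfl_isFlow h.hX (hm_mm h _ _)).zero]
  rw [iteratedDeriv_zero, iteratedDeriv_zero, hX0] at h1
  simp only at h1
  set d0 : ℝ := ds (mm m (s i) p0) z (g • z) with hd0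
  set d1 : ℝ := ds (mm m (s i) p1) z (g • z) with hd1
  have hd0c : c ≤ d0 := hlow i p0 hp0 z g hg
  have hd1c : c ≤ d1 := hlow i p1 hp1 z g hg
  have h2 : c * |d1 - d0| ≤ ‖d0 ^ 2 - d1 ^ 2‖ := by
    rw [Real.norm_eq_abs, show d0 ^ 2 - d1 ^ 2 = -((d1 + d0) * (d1 - d0)) by ring, abs_neg, abs_mul,
      abs_of_pos (by linarith : 0 < d1 + d0)]
    exact mul_le_mul_of_nonneg_right (by linarith) (abs_nonneg _)
  have h3 : ‖p0 - p1‖ = ‖p1 - p0‖ := norm_sub_rev _ _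
  rw [h3] at h1
  have hε : 0 ≤ ‖p1 - p0‖ := norm_nonneg _
  have h4 : |d1 - d0| ≤ c⁻¹ * (C * Real.exp (C * Real.log (2 + d0)) * ‖p1 - p0‖) := by
    rw [inv_mul_eq_div, le_div_iff₀ hc, mul_comm]
    exact h2.trans h1
  have h5 : 0 ≤ C * Real.exp (C * Real.log (2 + d0)) * ‖p1 - p0‖ := (norm_nonneg _).trans h1
  have h6 : c⁻¹ * (C * Real.exp (C * Real.log (2 + d0)) * ‖p1 - p0‖) ≤
      K * (C * Real.exp (C * Real.log (2 + d0)) * ‖p1 - p0‖) :=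
    mul_le_mul_of_nonneg_right (le_max_right _ _) h5
  refine (h4.trans h6).trans ?_
  rw [← mul_assoc]
  exact mul_le_mul_of_nonneg_right (W3_conv hK1 (Nat.le_ceil _) (by linarith)) hε

private theorem W3_len (h : CF Γ D m a b s) {i : ι} {p : P} {g : Γ} {x v : Pl} {l : ℝ}
    (hA : Axis (mm m (s i) p) g x v l) : ds (mm m (s i) p) x (g • x) = l ∧
      ∀ z, l ≤ ds (mm m (s i) p) z (g • z) :=
  ⟨(AN3_at0 h.hX h.hO (hm_mm h i p) hA rfl rfl).1,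
    fun z => displ_ge h.hX h.hO (hm_mm h i p) hA (IsConj.refl g) z⟩

private theorem W3_pow {n N : ℕ} {C l X K : ℝ} (hC : 1 ≤ C) (hl : 0 ≤ l) (hX0 : 0 ≤ X)
    (hX : X ≤ C * (1 + l)) (hK : 0 ≤ K) (hN : K * (n * C ^ n) ≤ N) (hnN : n ≤ N) :
    K * (n * X ^ n) ≤ N * (1 + l) ^ N := by
  have h1 : X ^ n ≤ C ^ n * (1 + l) ^ n := by
    rw [← mul_pow]
    exact pow_le_pow_left₀ hX0 hX n
  have h2 : (1 + l) ^ n ≤ (1 + l) ^ N := pow_le_pow_right₀ (by linarith) hnN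
  have hn0 : (0 : ℝ) ≤ n := Nat.cast_nonneg n
  have hCn : 0 ≤ C ^ n := pow_nonneg (by linarith) n
  calc K * (n * X ^ n) ≤ K * (n * (C ^ n * (1 + l) ^ n)) :=
        mul_le_mul_of_nonneg_left (mul_le_mul_of_nonneg_left h1 hn0) hK
    _ = K * (n * C ^ n) * (1 + l) ^ n := by ring
    _ ≤ N * (1 + l) ^ N := mul_le_mul hN h2 (pow_nonneg (by linarith) n) (Nat.cast_nonneg N)

theorem axes_close (h : CF Γ D m a b s) : ∃ n : ℕ, ∀ (i : ι) (p0 p1 : P), ‖p0‖ ≤ 1 → ‖p1‖ ≤ 1 →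
    ∀ (g : Γ) (x0 v0 x1 v1 : Pl) (l l1 : ℝ), Axis (mm m (s i) p0) g x0 v0 l →
      Axis (mm m (s i) p1) g x1 v1 l1 → |l1 - l| ≤ n * (1 + l) ^ n * ‖p1 - p0‖ ∧
      (n * (1 + l) ^ n * ‖p1 - p0‖ ≤ 1 → ∃ t y : ℝ, Fm (mm m (s i) p0) x0 v0 (t, y) = x1 ∧
        |y| ≤ n * (1 + l) ^ n * ‖p1 - p0‖) := by
  obtain ⟨n0, hdiff⟩ := disp_diff h
  obtain ⟨C, hC1, hC⟩ := ds_cmp2 h
  obtain ⟨c, n2, hc, hph⟩ := Ax_phase h
  set B : ℝ := C + 2 with hB
  have hB1 : 1 ≤ B := by linarith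
  set K : ℝ := max 2 c⁻¹ with hK
  have hK2 : 2 ≤ K := le_max_left _ _
  have hKc : c⁻¹ ≤ K := le_max_right _ _
  set N : ℕ := ⌈K * (n0 * B ^ n0)⌉₊ + ⌈K * (n2 * B ^ n2)⌉₊ + n0 + n2 with hN
  have hN0 : K * (n0 * B ^ n0) ≤ N := by
    refine (Nat.le_ceil _).trans ?_
    exact_mod_cast (by omega : ⌈K * (n0 * B ^ n0)⌉₊ ≤ N)
  have hN2 : K * (n2 * B ^ n2) ≤ N := by
    refine (Nat.le_ceil _).trans ?_
    exact_mod_cast (by omega : ⌈K * (n2 * B ^ n2)⌉₊ ≤ N)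
  refine ⟨N, fun i p0 p1 hp0 hp1 g x0 v0 x1 v1 l l1 hA hA1 => ?_⟩
  obtain ⟨e0, m0⟩ := W3_len h hA
  obtain ⟨e1, m1⟩ := W3_len h hA1
  have hg : g ≠ 1 := (Axis_ne h.hX h.hO (hm_mm h i p0) hA).1
  have hl := hA.pos
  have hl1 := hA1.pos
  have hε : 0 ≤ ‖p1 - p0‖ := norm_nonneg _
  have hl1C : l1 ≤ C * l := by
    rw [← e0]
    exact (m1 x0).trans (hC i p1 p0 hp1 hp0 x0 (g • x0))
  have hX1 : 2 + l1 ≤ B * (1 + l) := by nlinarith
  have hX0 : 2 + l ≤ B * (1 + l) := by nlinarith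
  have hpow0 : ∀ X : ℝ, 0 ≤ X → X ≤ B * (1 + l) → n0 * X ^ n0 ≤ N * (1 + l) ^ N := by
    intro X h0 hX
    have h2 := W3_pow hB1 hl.le h0 hX (by linarith : 0 ≤ K) hN0 (by omega)
    have h3 : 0 ≤ (n0 : ℝ) * X ^ n0 := mul_nonneg (Nat.cast_nonneg _) (pow_nonneg h0 _)
    nlinarith
  have hup : l1 - l ≤ N * (1 + l) ^ N * ‖p1 - p0‖ := by
    have h1 := hdiff i p0 p1 hp0 hp1 g x0 hg
    rw [e0] at h1
    have h2 := (abs_le.1 h1).2
    have h3 := m1 x0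
    have h4 := mul_le_mul_of_nonneg_right (hpow0 (2 + l) (by linarith) hX0) hε
    linarith
  have hdn : l - l1 ≤ N * (1 + l) ^ N * ‖p1 - p0‖ := by
    have h1 := hdiff i p1 p0 hp1 hp0 g x1 hg
    rw [e1, norm_sub_rev] at h1
    have h2 := (abs_le.1 h1).2
    have h3 := m0 x1
    have h4 := mul_le_mul_of_nonneg_right (hpow0 (2 + l1) (by linarith) hX1) hε
    linarith
  refine ⟨abs_le.2 ⟨by linarith, hup⟩, fun hsmall => ?_⟩
  obtain ⟨⟨t, y⟩, hty⟩ := (Fm_bij h.hX (hm_mm h i p0) hA.unit (x0 := x0)).2 x1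
  refine ⟨t, y, hty, ?_⟩
  obtain ⟨q, rfl, rfl, rfl, rfl, -, -, hqA, hqX⟩ := Ax_line h i hp0 hp1 hA t
  have hqy : q.d m s y = l1 := by
    unfold Ln.d
    rw [hqX y, hty, e1]
  have hmin : ∀ y', q.d m s y ≤ q.d m s y' := by
    intro y'
    rw [hqy]
    exact m1 _
  have hder : deriv (q.d m s) y = 0 := by
    refine IsLocalMin.deriv_eq_zero ?_
    exact Filter.Eventually.of_forall hmin
  have h5 := hph q _ l hqA y
  rw [hder, abs_zero, hqy] at h5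
  have h6 := W3_pow hB1 hl.le (by linarith : 0 ≤ 2 + l1) hX1 (by linarith : 0 ≤ K) hN2 (by omega)
  set R : ℝ := n2 * (2 + l1) ^ n2 * ‖q.p1 - q.p0‖ with hR
  have hR0 : 0 ≤ R := mul_nonneg (mul_nonneg (Nat.cast_nonneg _) (pow_nonneg (by linarith) _)) hε
  have h7 : K * R ≤ N * (1 + l) ^ N * ‖q.p1 - q.p0‖ := by
    have := mul_le_mul_of_nonneg_right h6 hε
    rw [hR]
    linarith
  have h8 : min (c * |y|) 1 ≤ R := by linarith
  have h9 : R < 1 := by nlinarith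
  have h10 : c * |y| ≤ R := by
    rcases min_le_iff.1 h8 with h | h
    · exact h
    · linarith
  have h11 : |y| ≤ c⁻¹ * R := by
    rw [inv_mul_eq_div, le_div_iff₀ hc, mul_comm]
    exact h10
  exact h11.trans ((mul_le_mul_of_nonneg_right hKc hR0).trans h7)

end BE
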