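import Pool.Agent.LibBE99.W1
import Pool.Agent.LibBE99.W2
import Pool.Agent.LibBE99.W3
import Pool.Agent.LibBR73.AN7
import Pool.Agent.LibBGM20.A4t

/-! Row W4 (cites W1, W2, W3, L0, S0, S3, `LibBR73/AN2`, `AN6`, `AN7`): the monodromy of two metrics of the family. -/

open MeasureTheory Set Filter Topology
open scoped ContDiff

namespace BE

open BGS BR

variable {Γ : Type} [Group Γ] [MulAction Γ Pl] {D : Set Pl}
variable {ι P : Type} [NormedAddCommGroup P] [NormedSpace ℝ P] [FiniteDimensional ℝ P]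
  {m : Pl → Co} {a b : ℝ} {s : ι → P × Pl → ℝ}

omit [FiniteDimensional ℝ P] in
private theorem W4_tri (h : CF Γ D m a b s) (i : ι) (p : P) (x y z : Pl) :
    ds (mm m (s i) p) x z ≤ ds (mm m (s i) p) x y + ds (mm m (s i) p) y z := by
  have hm := hm_mm h i p
  have hk : 0 < |b| + 1 := by positivity
  have hK : ∀ z, -(|b| + 1) ^ 2 ≤ curv (mm m (s i) p) z := fun z => by
    have := (h.neg i p z).1
    nlinarith [sq_abs b, abs_nonneg b]
  have hd := BGM.had_of h.hX hm hk hK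
  have e : ∀ x y, ds (mm m (s i) p) x y = BGM.ds (mm m (s i) p) x y :=
    fun x y => (BGM.ds_eq hd x y).symm
  rw [e, e, e]
  exact BGM.ds_tri hd.rp x y z

private theorem W4_pow (C A : ℝ) (hA : 1 ≤ A) : ∃ n : ℕ, ∀ (t X : ℝ), 0 ≤ t → 1 ≤ X →
    X ≤ A * (1 + t) → C * Real.exp (C * Real.log X) ≤ n * (1 + t) ^ n := by
  obtain ⟨k, hk⟩ := exists_nat_ge |C|
  obtain ⟨K, hK⟩ := exists_nat_ge (|C| * A ^ k)
  refine ⟨max K k, fun t X ht hX hXA => ?_⟩
  have hX0 : 0 < X := lt_of_lt_of_le one_pos hX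
  have h0 : 0 ≤ Real.log X := Real.log_nonneg hX
  have h1 : C * Real.log X ≤ (k : ℝ) * Real.log X :=
    mul_le_mul_of_nonneg_right ((le_abs_self C).trans hk) h0
  have h2 : Real.exp (C * Real.log X) ≤ (A * (1 + t)) ^ k := by
    refine (Real.exp_le_exp.2 h1).trans ?_
    rw [mul_comm, Real.exp_mul, Real.exp_log hX0, Real.rpow_natCast]
    exact pow_le_pow_left₀ hX0.le hXA k
  have h3 : C * Real.exp (C * Real.log X) ≤ |C| * (A * (1 + t)) ^ k :=
    (mul_le_mul_of_nonneg_right (le_abs_self C) (Real.exp_pos _).le).trans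
      (mul_le_mul_of_nonneg_left h2 (abs_nonneg C))
  refine h3.trans ?_
  rw [mul_pow, ← mul_assoc]
  have h4 : |C| * A ^ k ≤ ((max K k : ℕ) : ℝ) := hK.trans (by exact_mod_cast le_max_left K k)
  have h5 : (1 + t) ^ k ≤ (1 + t) ^ (max K k) :=
    pow_le_pow_right₀ (by linarith) (le_max_right K k)
  exact mul_le_mul h4 h5 (by positivity) (Nat.cast_nonneg _)

/-- the mean value inequality along the segment. -/
private theorem W4_mvt (h : CF Γ D m a b s) {K : Set Pl} (hK : IsCompact K) (hc : Convex ℝ K)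
    {G : ι → Γ → P × Pl → ℝ} (hG : A1K Γ K m s G) :
    ∃ n : ℕ, ∀ (i : ι) (g : Γ), g ≠ 1 → ∀ (p0 p1 : P), ‖p0‖ ≤ 1 → ‖p1‖ ≤ 1 → ∀ z ∈ K, ∀ x ∈ K,
      |G i g (p1, x) - G i g (p0, z)| ≤
        n * (1 + ds (mm m (s i) p0) z (g • z)) ^ n * ‖((p1, x) : P × Pl) - (p0, z)‖ := by
  obtain ⟨C2, hC2, hcmp⟩ := ds_cmp2 (ι := ι) (P := P) h
  obtain ⟨C3, hC3⟩ := JV_bdd (ι := ι) (P := P) h hK
  obtain ⟨C, hC⟩ := hG.bound 1
  have h2 : ∀ v : Pl, eu v ≤ 2 * ‖v‖ := by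
    intro v
    unfold eu
    rw [Real.sqrt_le_left (by positivity)]
    have h3 : |v.1| ≤ ‖v‖ := norm_fst_le v
    have h4 : |v.2| ≤ ‖v‖ := norm_snd_le v
    have h5 : v.1 ^ 2 ≤ ‖v‖ ^ 2 := by
      rw [← sq_abs v.1]
      exact pow_le_pow_left₀ (abs_nonneg _) h3 2
    have h6 : v.2 ^ 2 ≤ ‖v‖ ^ 2 := by
      rw [← sq_abs v.2]
      exact pow_le_pow_left₀ (abs_nonneg _) h4 2
    nlinarith [sq_nonneg ‖v‖]
  have hA : 1 ≤ 2 + C2 * (1 + 4 * |C3|) := by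
    have : 0 ≤ C2 * (1 + 4 * |C3|) := by positivity
    linarith
  obtain ⟨n, hn⟩ := W4_pow C (2 + C2 * (1 + 4 * |C3|)) hA
  refine ⟨n, ?_⟩
  intro i g hg p0 p1 h0 h1 z hz x hx
  set d0 := ds (mm m (s i) p0) z (g • z) with hd0
  have hd00 : 0 ≤ d0 := Real.sqrt_nonneg _
  have hS : Convex ℝ (Metric.closedBall (0 : P) 1 ×ˢ K) := (convex_closedBall 0 1).prod hc
  have hbd : ∀ e ∈ Metric.closedBall (0 : P) 1 ×ˢ K, ‖fderiv ℝ (G i g) e‖ ≤ n * (1 + d0) ^ n := by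
    rintro ⟨p, w⟩ ⟨hp, hw⟩
    have hp' : ‖p‖ ≤ 1 := by simpa using hp
    have h3 := hC ⟨i, p, g, w, hp', hg, hw⟩
    have h4 : ‖fderiv ℝ (G i g) (p, w)‖ ≤
        C * Real.exp (C * Real.log (2 + ds (mm m (s i) p) w (g • w))) := by
      rw [← norm_iteratedFDeriv_one]
      exact h3
    refine h4.trans (hn d0 _ hd00 ?_ ?_)
    · have : 0 ≤ ds (mm m (s i) p) w (g • w) := Real.sqrt_nonneg _
      linarith
    · have h5 := hcmp i p p0 hp' h0 w (g • w)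
      have h6 := W4_tri h i p0 w z (g • w)
      have h7 := W4_tri h i p0 z (g • z) (g • w)
      have h8 : ds (mm m (s i) p0) (g • z) (g • w) = ds (mm m (s i) p0) z w :=
        (ds_deck h.hX h.hO (hm_mm h i p0) g z w).1
      have h9 : ds (mm m (s i) p0) z w ≤ 2 * |C3| :=
        (h2 _).trans (mul_le_mul_of_nonneg_left
          ((hC3 ⟨i, p0, z, w, h0, hz, hw⟩).trans (le_abs_self _)) (by norm_num))
      have h10 : ds (mm m (s i) p0) w z ≤ 2 * |C3| :=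
        (h2 _).trans (mul_le_mul_of_nonneg_left
          ((hC3 ⟨i, p0, w, z, h0, hw, hz⟩).trans (le_abs_self _)) (by norm_num))
      have h11 : ds (mm m (s i) p0) w (g • w) ≤ d0 + 4 * |C3| := by
        rw [h8] at h7
        linarith
      have h12 : ds (mm m (s i) p) w (g • w) ≤ C2 * (d0 + 4 * |C3|) :=
        h5.trans (mul_le_mul_of_nonneg_left h11 (by linarith))
      have h13 : 0 ≤ C2 * (4 * |C3|) * d0 := by positivity
      nlinarith
  have hdf : ∀ e ∈ Metric.closedBall (0 : P) 1 ×ˢ K, DifferentiableAt ℝ (G i g) e := fun e _ =>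
    ((hG.smooth ⟨i, p0, g, z, h0, hg, hz⟩).differentiable (by simp)) e
  have hmv := hS.norm_image_sub_le_of_norm_fderiv_le hdf hbd
    (x := (p0, z)) (y := (p1, x)) ⟨by simpa using h0, hz⟩ ⟨by simpa using h1, hx⟩
  rwa [Real.norm_eq_abs] at hmv

/-- points at a small distance. -/
private theorem W4_near (h : CF Γ D m a b s) {K : Set Pl} (hK : IsCompact K) :
    ∃ C : ℝ, 0 ≤ C ∧ ∀ (i : ι) (p : P), ‖p‖ ≤ 1 → ∀ z ∈ K, ∀ x : Pl,
      ds (mm m (s i) p) z x ≤ 1 → ‖x - z‖ ≤ C * ds (mm m (s i) p) z x := by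
  have hK1 : IsCompact (K ∪ Metric.closedBall (0 : Pl) 1) := hK.union (isCompact_closedBall 0 1)
  obtain ⟨C, hC⟩ := (EB0_JE (ι := ι) (P := P) h hK1).bound 1
  refine ⟨|C|, abs_nonneg C, ?_⟩
  intro i p hp z hz x hx
  set V := Vx (mm m (s i) p) z x with hV
  have hm := hm_mm h i p
  have h1 : ‖V‖ ≤ ds (mm m (s i) p) z x := H1e_norm V
  have hS : Convex ℝ (({p} : Set P) ×ˢ (({z} : Set Pl) ×ˢ Metric.closedBall (0 : Pl) 1)) :=
    (convex_singleton p).prod ((convex_singleton z).prod (convex_closedBall 0 1))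
  have hbd : ∀ e ∈ ({p} : Set P) ×ˢ (({z} : Set Pl) ×ˢ Metric.closedBall (0 : Pl) 1),
      ‖fderiv ℝ (JE m (s i)) e‖ ≤ |C| := by
    rintro ⟨p', z', w⟩ ⟨h2, h3, h4⟩
    have e1 : p' = p := h2
    have e2 : z' = z := h3
    subst e1 e2
    have h5 := hC ⟨i, p', z', w, hp, Or.inl hz, Or.inr h4⟩
    rw [norm_iteratedFDeriv_one, mul_zero, Real.exp_zero, mul_one] at h5
    exact h5.trans (le_abs_self C)
  have hdf : ∀ e ∈ ({p} : Set P) ×ˢ (({z} : Set Pl) ×ˢ Metric.closedBall (0 : Pl) 1),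
      DifferentiableAt ℝ (JE m (s i)) e := fun e _ =>
    ((JE_smooth h i).differentiable (by simp)) e
  have hV1 : V ∈ Metric.closedBall (0 : Pl) 1 := by
    rw [mem_closedBall_zero_iff]
    exact h1.trans hx
  have hmv := hS.norm_image_sub_le_of_norm_fderiv_le hdf hbd
    (x := (p, z, 0)) (y := (p, z, V)) ⟨rfl, rfl, by simp⟩ ⟨rfl, rfl, hV1⟩
  have e1 : JE m (s i) (p, z, V) = x := Ex_Vx h.hX hm z x
  have e2 : JE m (s i) (p, z, 0) = z := Ex_zero h.hX hm z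
  have e3 : ‖((p, z, V) : P × Pl × Pl) - (p, z, 0)‖ = ‖V‖ := by
    rw [Prod.mk_sub_mk, Prod.mk_sub_mk, sub_self, sub_self, sub_zero, Prod.norm_mk, Prod.norm_mk,
      norm_zero, norm_zero, max_eq_right (norm_nonneg V), max_eq_right (norm_nonneg V)]
  rw [e1, e2, e3] at hmv
  exact hmv.trans (mul_le_mul_of_nonneg_left h1 (abs_nonneg C))

/-- the final estimate. -/
private theorem W4_fin {T0 T1 H0 H1 f0 f1 c α β : ℝ} (hc : 0 < c) (h0 : c ≤ H0)
    (e0 : T0 = H0 * Real.exp f0 / 2) (e1 : T1 = H1 * Real.exp f1 / 2)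
    (hα : |H1 - H0| ≤ c * α) (hβ : |f1 - f0| ≤ β) (ha1 : α ≤ 1) (hb1 : β ≤ 1) :
    |T1 / T0 - 1| ≤ 4 * β + α := by
  have hH0 : 0 < H0 := lt_of_lt_of_le hc h0
  have hα0 : 0 ≤ α := by
    have := (abs_nonneg _).trans hα
    exact nonneg_of_mul_nonneg_right this hc
  have hβ0 : 0 ≤ β := (abs_nonneg _).trans hβ
  have h1 : T1 / T0 = (H1 / H0) * Real.exp (f1 - f0) := by
    rw [e0, e1, Real.exp_sub]
    have := (Real.exp_pos f0).ne'
    field_simp
  obtain ⟨u, hu⟩ : ∃ u, u = H1 / H0 - 1 := ⟨_, rfl⟩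
  have h2 : |u| ≤ α := by
    have e : u = (H1 - H0) / H0 := by
      rw [hu]
      field_simp
    rw [e, abs_div, abs_of_pos hH0, div_le_iff₀ hH0]
    refine hα.trans ?_
    rw [mul_comm]
    exact mul_le_mul_of_nonneg_left h0 hα0
  obtain ⟨w, hw⟩ : ∃ w, w = Real.exp (f1 - f0) - 1 := ⟨_, rfl⟩
  have h3 : |w| ≤ 2 * β := by
    rw [hw]
    exact (Real.abs_exp_sub_one_le (hβ.trans hb1)).trans (by linarith)
  have h4 : T1 / T0 - 1 = w * (1 + u) + u := by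
    rw [h1, hu, hw]
    ring
  rw [h4]
  refine (abs_add_le _ _).trans ?_
  rw [abs_mul]
  have h5 : |1 + u| ≤ 2 := (abs_add_le _ _).trans (by rw [abs_one]; linarith)
  have h6 : |w| * |1 + u| ≤ (2 * β) * 2 :=
    mul_le_mul h3 h5 (abs_nonneg _) (by linarith)
  linarith

theorem tr_close (h : CF Γ D m a b s) : ∃ n : ℕ, ∀ (i : ι) (p0 p1 : P), ‖p0‖ ≤ 1 → ‖p1‖ ≤ 1 →
    ∀ (g : Γ) (x0 v0 x1 v1 : Pl) (l l1 : ℝ), Axis (mm m (s i) p0) g x0 v0 l →
      Axis (mm m (s i) p1) g x1 v1 l1 → n * (1 + l) ^ n * ‖p1 - p0‖ ≤ 1 →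
      |(trM (mm m (s i) p1) x1 v1 l1 - 2) / (trM (mm m (s i) p0) x0 v0 l - 2) - 1| ≤
        n * (1 + l) ^ n * ‖p1 - p0‖ := by
  have hX := h.hX
  have hO := h.hO
  obtain ⟨na, hna⟩ := axes_close (ι := ι) (P := P) h
  have hD : IsCompact (closure D) := hX.bdd.isCompact_closure
  obtain ⟨C1, hC10, hC1⟩ := W4_near (ι := ι) (P := P) h hD
  obtain ⟨B, hB⟩ := hX.bdd.closure.exists_norm_le
  have hK : IsCompact (Metric.closedBall (0 : Pl) (B + C1)) := isCompact_closedBall 0 _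
  have hKc : Convex ℝ (Metric.closedBall (0 : Pl) (B + C1)) := convex_closedBall 0 _
  obtain ⟨n1, hn1⟩ := W4_mvt h hK hKc (A1K_HG h hK)
  obtain ⟨n2, hn2⟩ := W4_mvt h hK hKc (A1K_ff h hK)
  obtain ⟨c, hc, hF⟩ := F2_low (ι := ι) (P := P) h
  obtain ⟨Cg, hCg0, hCg⟩ := Fd_growthU (ι := ι) (P := P) h
  set A : ℝ := 1 + C1 * na with hA
  have hA0 : 0 ≤ A := by positivity
  set K1 : ℝ := 4 * (n2 * A) + n1 * A / c with hK1
  have hK10 : 0 ≤ K1 := by positivity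
  obtain ⟨N0, hN0⟩ := exists_nat_ge K1
  refine ⟨N0 + (n1 + n2 + na), ?_⟩
  set N : ℕ := N0 + (n1 + n2 + na) with hN
  intro i p0 p1 h0 h1 g x0 v0 x1 v1 l l1 A0 A1 hsm
  set ε := ‖p1 - p0‖ with hε
  have hε0 : 0 ≤ ε := norm_nonneg _
  have hl := A0.pos
  have hone : (1 : ℝ) ≤ 1 + l := by linarith
  obtain ⟨X, hX1⟩ : ∃ X, X = (1 + l) ^ N * ε := ⟨_, rfl⟩
  have hX0 : 0 ≤ X := by rw [hX1]; positivity
  have hNX : (N : ℝ) * X ≤ 1 := by rw [hX1, ← mul_assoc]; exact hsm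
  have hpow : ∀ k ≤ N, (1 + l) ^ k * ε ≤ X := by
    intro k hk
    rw [hX1]
    exact mul_le_mul_of_nonneg_right (pow_le_pow_right₀ hone hk) hε0
  have hK1N : K1 ≤ (N : ℝ) := hN0.trans (by rw [hN]; push_cast; linarith [Nat.cast_nonneg (α := ℝ) n1, Nat.cast_nonneg (α := ℝ) n2, Nat.cast_nonneg (α := ℝ) na])
  have hnaN : (na : ℝ) ≤ (N : ℝ) := by
    rw [hN]; push_cast
    linarith [Nat.cast_nonneg (α := ℝ) n1, Nat.cast_nonneg (α := ℝ) n2,
      Nat.cast_nonneg (α := ℝ) N0]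
  have hna1 : (na : ℝ) * (1 + l) ^ na * ε ≤ 1 := by
    rw [mul_assoc]
    refine (mul_le_mul hnaN (hpow na (by omega)) (by positivity) (Nat.cast_nonneg _)).trans hNX
  obtain ⟨t, y, hty, hy⟩ := (hna i p0 p1 h0 h1 g x0 v0 x1 v1 l l1 A0 A1).2 hna1
  have hm0 := hm_mm h i p0
  have hm1 := hm_mm h i p1
  -- the point of the axis
  obtain ⟨z0, hz0⟩ : ∃ z0, z0 = (gfl (mm m (s i) p0) t (x0, v0)).1 := ⟨_, rfl⟩
  obtain ⟨w0, hw0⟩ : ∃ w0, w0 = (gfl (mm m (s i) p0) t (x0, v0)).2 := ⟨_, rfl⟩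
  have A0' : Axis (mm m (s i) p0) g z0 w0 l := by
    rw [hz0, hw0]
    exact Axis_along hX hO hm0 A0 t
  have tr0 : trM (mm m (s i) p0) z0 w0 l = trM (mm m (s i) p0) x0 v0 l := by
    rw [hz0, hw0]
    exact trM_along hX hO hm0 A0 t
  have hx1 : x1 = Ex (mm m (s i) p0) z0 (y • rot w0) := by
    rw [← hty, hz0, hw0]
    rfl
  have hds : ds (mm m (s i) p0) z0 x1 = |y| := by
    unfold ds
    rw [hx1, Vx_Ex hX hm0, AN0_eu_smul, AN3_eu_rot, A0'.unit, mul_one]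
  -- conjugation
  obtain ⟨β, hβ⟩ : ∃ β : Γ, β = (shf hX z0)⁻¹ := ⟨_, rfl⟩
  have hmem : β • z0 ∈ closure D := by
    rw [hβ]
    exact shf_mem' hX z0
  have B0' := Axis_conj hX hO hm0 A0' β
  have B1' := Axis_conj hX hO hm1 A1 β
  have tr0' := trM_conj hX hO hm0 β (x0 := z0) A0'.unit l
  have tr1' := trM_conj hX hO hm1 β (x0 := x1) A1.unit l1
  have hds' : ds (mm m (s i) p0) (β • z0) (β • x1) = |y| := by
    rw [(ds_deck hX hO hm0 β z0 x1).1, hds]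
  have hg' : β * g * β⁻¹ ≠ 1 := (Axis_ne hX hO hm0 B0').1
  obtain ⟨g', hgg⟩ : ∃ g' : Γ, g' = β * g * β⁻¹ := ⟨_, rfl⟩
  obtain ⟨z, hz⟩ : ∃ z, z = β • z0 := ⟨_, rfl⟩
  obtain ⟨x, hx⟩ : ∃ x, x = β • x1 := ⟨_, rfl⟩
  rw [← hz] at hmem
  rw [← hz, ← hgg] at B0'
  rw [← hx, ← hgg] at B1'
  rw [← hz, ← hx] at hds'
  rw [← hgg] at hg'
  rw [← hz] at tr0'
  rw [← hx] at tr1'
  have hy1 : |y| ≤ 1 := hy.trans hna1
  have hxz : ‖x - z‖ ≤ C1 * |y| := by
    rw [← hds']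
    exact hC1 i p0 h0 z hmem x (by rw [hds']; exact hy1)
  have hzK : z ∈ Metric.closedBall (0 : Pl) (B + C1) := by
    rw [mem_closedBall_zero_iff]
    linarith [hB z hmem]
  have hxK : x ∈ Metric.closedBall (0 : Pl) (B + C1) := by
    rw [mem_closedBall_zero_iff]
    have e : x = z + (x - z) := by abel
    rw [e]
    refine (norm_add_le _ _).trans (add_le_add (hB z hmem) (hxz.trans ?_))
    nlinarith
  have hnorm : ‖((p1, x) : P × Pl) - (p0, z)‖ ≤ A * ((1 + l) ^ na * ε) := by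
    rw [Prod.mk_sub_mk, Prod.norm_mk]
    refine max_le ?_ ?_
    · have h3 : (1 : ℝ) ≤ (1 + l) ^ na := one_le_pow₀ hone
      have h4 : ε ≤ (1 + l) ^ na * ε := le_mul_of_one_le_left hε0 h3
      have h5 : (1 + l) ^ na * ε ≤ A * ((1 + l) ^ na * ε) := by
        refine le_mul_of_one_le_left (by positivity) ?_
        rw [hA]
        have : 0 ≤ C1 * na := by positivity
        linarith
      exact h4.trans h5
    · refine hxz.trans ?_
      have h3 : C1 * |y| ≤ C1 * (na * (1 + l) ^ na * ε) := mul_le_mul_of_nonneg_left hy hC10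
      refine h3.trans ?_
      have h4 : 0 ≤ (1 + l) ^ na * ε := by positivity
      rw [hA]
      nlinarith
  have hdz : ds (mm m (s i) p0) z (g' • z) = l := by
    have h3 := (Fd_zero hX hO hm0 B0').1
    unfold Fd Xp at h3
    rwa [zero_smul, Ex_zero hX hm0] at h3
  have d1 := hn1 i g' hg' p0 p1 h0 h1 z hzK x hxK
  have d2 := hn2 i g' hg' p0 p1 h0 h1 z hzK x hxK
  rw [hdz] at d1 d2
  have hcomb : ∀ k : ℕ, k + na ≤ N → (k : ℝ) * (1 + l) ^ k *
      ‖((p1, x) : P × Pl) - (p0, z)‖ ≤ k * A * X := by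
    intro k hk
    refine (mul_le_mul_of_nonneg_left hnorm (by positivity)).trans ?_
    have h3 := hpow (k + na) hk
    rw [pow_add] at h3
    calc (k : ℝ) * (1 + l) ^ k * (A * ((1 + l) ^ na * ε))
        = k * A * ((1 + l) ^ k * (1 + l) ^ na * ε) := by ring
      _ ≤ k * A * X := mul_le_mul_of_nonneg_left h3 (by positivity)
  have d1' := d1.trans (hcomb n1 (by omega))
  have d2' := d2.trans (hcomb n2 (by omega))
  -- the traces
  have T0 := tr_form hX hO hm0 B0'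
  have T1 := tr_form hX hO hm1 B1'
  rw [tr0', tr0] at T0
  rw [tr1'] at T1
  have hH0 : c ≤ HG (mm m (s i) p0) g' z := by
    have h3 := hF ⟨i, p0, g', z, _, l, h0, B0'⟩
    rwa [F2_hess hX hO hm0 B0'] at h3
  have hw0p : 0 < wt (Gx (mm m (s i) p0) z) (Vx (mm m (s i) p0) z (g' • z)) := by
    have h3 := (hCg ⟨i, p0, g', z, _, l, h0, B0'⟩).1
    have h4 : 2 < trM (mm m (s i) p0) x0 v0 l := by
      rw [← tr0, ← tr0']
      exact h3
    have h5 : 0 < HG (mm m (s i) p0) g' z := lt_of_lt_of_le hc hH0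
    have h6 : 0 < HG (mm m (s i) p0) g' z *
        wt (Gx (mm m (s i) p0) z) (Vx (mm m (s i) p0) z (g' • z)) := by linarith
    exact pos_of_mul_pos_right h6 h5.le
  have hH1 : c ≤ HG (mm m (s i) p1) g' x := by
    have h3 := hF ⟨i, p1, g', x, _, l1, h1, B1'⟩
    rwa [F2_hess hX hO hm1 B1'] at h3
  have hw1p : 0 < wt (Gx (mm m (s i) p1) x) (Vx (mm m (s i) p1) x (g' • x)) := by
    have h3 := (hCg ⟨i, p1, g', x, _, l1, h1, B1'⟩).1
    have h4 : 2 < trM (mm m (s i) p1) x1 v1 l1 := by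
      rw [← tr1']
      exact h3
    have h5 : 0 < HG (mm m (s i) p1) g' x := lt_of_lt_of_le hc hH1
    have h6 : 0 < HG (mm m (s i) p1) g' x *
        wt (Gx (mm m (s i) p1) x) (Vx (mm m (s i) p1) x (g' • x)) := by linarith
    exact pos_of_mul_pos_right h6 h5.le
  have f0 : wt (Gx (mm m (s i) p0) z) (Vx (mm m (s i) p0) z (g' • z)) =
      Real.exp (ff m (s i) (p0, z, g' • z)) := (Real.exp_log hw0p).symm
  have f1 : wt (Gx (mm m (s i) p1) x) (Vx (mm m (s i) p1) x (g' • x)) =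
      Real.exp (ff m (s i) (p1, x, g' • x)) := (Real.exp_log hw1p).symm
  rw [f0] at T0
  rw [f1] at T1
  have q1 : n1 * A * X = c * (n1 * A / c * X) := by
    field_simp
  have hK1X : K1 * X ≤ N * X := mul_le_mul_of_nonneg_right hK1N hX0
  have hp1 : 0 ≤ n1 * A / c * X := by positivity
  have hp2 : 0 ≤ n2 * A * X := by positivity
  have hK1e : K1 * X = 4 * (n2 * A * X) + n1 * A / c * X := by
    rw [hK1]
    ring
  have hfin := W4_fin hc hH0 T0 T1 (d1'.trans (le_of_eq q1)) d2'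
    (by linarith) (by linarith)
  refine hfin.trans ?_
  have e : (N : ℝ) * (1 + l) ^ N * ε = N * X := by rw [hX1]; ring
  rw [e, ← hK1e]
  exact hK1X

end BE
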